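import Pool.Agent.Lib.MP_f58a57_nt.K.Defs

/-! # MP_f58a57_nt, all nonspecial points: A1_Defs -/

/-! ### MP_f58a57_nt, all nonspecial points: definitions

`z` is a point of the upper half plane, `E = ℂ/(ℤ + ℤz)`. The auxiliary functions live on `ℂ² = Lie(E × E)`; they are combinations of the
functions `Rp ν`, sections of weight `2L`, of degree `< E` in one additive function `Q`, periodic under the lattice
`{(m₀ + n₀ z, n₀ + n₁ z)}` of rank three. -/

section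

open Complex MvPolynomial

noncomputable section

namespace Pool.Agent.MSW

open MSD MSP

/-- a point `z` of the upper half plane, a square root `om` of `π` and two base points -/
structure Dw where
  z : ℂ
  im : 0 < z.im
  om : ℂ
  hom : om ^ 2 = Real.pi
  h : Fin 2 → ℂ
  hh : ∀ l, th z (h l) ≠ 0

theorem Dw.ne (D : Dw) : D.om ≠ 0 := by
  intro h
  have := D.hom
  rw [h] at this
  have hp : (Real.pi : ℂ) ≠ 0 := by exact_mod_cast Real.pi_ne_zero
  apply hp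
  rw [← this]
  norm_num

/-- `1/(2i)` -/
abbrev rh : ℂ := MSK.rh

/-- the coefficients `1, z` -/
def cz (z : ℂ) (l : Fin 2) : ℂ := if l = 0 then 1 else z

namespace Dw

/-- the Weierstrass function of the lattice `om (ℤ + ℤz)` at the point `om (h l + t)` -/
def X (D : Dw) (l : Fin 2) (t : ℂ) : ℂ := wp D.z (sE D.z) (D.h l + t) / D.om ^ 2

/-- its derivative -/
def Y (D : Dw) (l : Fin 2) (t : ℂ) : ℂ := deriv (wp D.z (sE D.z)) (D.h l + t) / D.om ^ 3

/-- the logarithmic derivative of the theta function, normalised to vanish at `t = 0` -/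
def ps (D : Dw) (l : Fin 2) (t : ℂ) : ℂ := ph D.z (D.h l + t) - ph D.z (D.h l)

/-- `g₂ / 2` -/
def g (D : Dw) : ℂ := 2 / 3 * Real.pi ^ 4 * e4 D.z / D.om ^ 4

/-- `g₃` -/
def g3 (D : Dw) : ℂ := 8 / 27 * Real.pi ^ 6 * e6 D.z / D.om ^ 6

/-- the constant `sE / π` -/
def k (D : Dw) : ℂ := sE D.z / D.om ^ 2

/-- the constant in the additive function -/
def lam (D : Dw) : ℂ := rh / D.om * ∑ l, cz D.z l * ph D.z (D.h l)

/-- the constant of the heat type correction -/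
def qq (D : Dw) : ℂ := rh ^ 2 * D.k * ∑ l, cz D.z l ^ 2

/-- the additive function, for independent `W` (linear part) and `t` -/
def Q (D : Dw) (W : ℂ) (t : Fin 2 → ℂ) : ℂ := W + rh / D.om * ∑ l, cz D.z l * D.ps l (t l)

end Dw

/-! ### The differential ring -/

/-- variables of the differential ring -/
inductive Vw : Type
  | X (l : Fin 2) : Vw
  | Y (l : Fin 2) : Vw
  | Q : Vw
  | g : Vw
  | k : Vw
  | z : Vw
  | r : Vw
  deriving DecidableEq, Fintype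

/-- `1, z` as polynomials -/
def cp (l : Fin 2) : MvPolynomial Vw ℤ := if l = 0 then 1 else MvPolynomial.X Vw.z

/-- the derivatives of the variables in the direction `a`, divided by `om` -/
def dv (a : Fin 2 → ℤ) : Vw → MvPolynomial Vw ℤ
  | .X l => MvPolynomial.C (a l) * MvPolynomial.X (Vw.Y l)
  | .Y l => MvPolynomial.C (a l) * (6 * MvPolynomial.X (Vw.X l) ^ 2 - MvPolynomial.X Vw.g)
  | .Q => MvPolynomial.C (a 1) - MvPolynomial.X Vw.r * ∑ l, cp l * (MvPolynomial.C (a l) * (MvPolynomial.X (Vw.X l) + MvPolynomial.X Vw.k))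
  | .g => 0
  | .k => 0
  | .z => 0
  | .r => 0

/-- the derivation in the direction `a` -/
def der (a : Fin 2 → ℤ) : Derivation ℤ (MvPolynomial Vw ℤ) (MvPolynomial Vw ℤ) := MvPolynomial.mkDerivation ℤ (dv a)

/-- the values of the derivation `dlt` at the variables -/
def dlv : Vw → MvPolynomial Vw ℤ
  | .X l => MvPolynomial.X Vw.r * cp l * MvPolynomial.X (Vw.Y l)
  | .Y l => MvPolynomial.X Vw.r * cp l * (6 * MvPolynomial.X (Vw.X l) ^ 2 - MvPolynomial.X Vw.g)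
  | .Q => -(MvPolynomial.X Vw.r ^ 2 * ∑ l, cp l ^ 2 * MvPolynomial.X (Vw.X l))
  | .g => 0
  | .k => 0
  | .z => 0
  | .r => 0

/-- the derivation in the direction `(1, z)` -/
def dlt : Derivation ℤ (MvPolynomial Vw ℤ) (MvPolynomial Vw ℤ) := MvPolynomial.mkDerivation ℤ dlv

/-- the covariant derivative on sections of weight `M` -/
def nab (M : ℕ) (R : MvPolynomial Vw ℤ) : MvPolynomial Vw ℤ := dlt R + (M : MvPolynomial Vw ℤ) * (MvPolynomial.X Vw.Q * R)

/-- index set of the functions -/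
abbrev Iw (L E : ℕ) : Type := (Fin 2 → Fin L) × Fin E

/-- the functions, as polynomials in the variables of the differential ring -/
def Rp {L E : ℕ} (ν : Iw L E) : MvPolynomial Vw ℤ := (nab (2 * L))^[ν.2.val] (∏ l, MvPolynomial.X (Vw.X l) ^ (ν.1 l).val)

/-! ### The analytic side -/

/-- the values of the variables for independent `W` (linear part of the additive function) and `t` -/
def evW (D : Dw) (W : ℂ) (t : Fin 2 → ℂ) : Vw → ℂ
  | .X l => D.X l (t l)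
  | .Y l => D.Y l (t l)
  | .Q => D.Q W t
  | .g => D.g
  | .k => D.k
  | .z => D.z
  | .r => rh

/-- the values of the variables at the base point -/
def vals (D : Dw) : Vw → ℂ
  | .X l => D.X l 0
  | .Y l => D.Y l 0
  | .Q => 0
  | .g => D.g
  | .k => D.k
  | .z => D.z
  | .r => rh

/-- the auxiliary function -/
def FR (D : Dw) {L E : ℕ} (c : Iw L E → ℂ) (t : Fin 2 → ℂ) : ℂ :=
  ∑ ν, c ν * MvPolynomial.aeval (evW D (D.om * t 1) t) (Rp ν)

/-- the value at `u` of `q(∂₀, ∂₁)` applied to the function `f₀(u₀) f₁(u₁)` -/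
def TF (f : Fin 2 → ℂ → ℂ) (u : Fin 2 → ℂ) (q : MvPolynomial (Fin 2) ℂ) : ℂ :=
  ∑ m ∈ q.support, q.coeff m * ∏ l, iteratedDeriv (m l) (f l) (u l)

/-- the section `(th² wp / om²)^a th^(M - 2a)` of weight `M` -/
def fa (z om : ℂ) (M a : ℕ) (t : ℂ) : ℂ := (N2 z (sE z) t / om ^ 2) ^ a * N0 z t ^ (M - 2 * a)

/-- the linear polynomial `M (W - lam) + (rh/om) ∑ c_l X_l` -/
def lin (D : Dw) (M : ℕ) (W : ℂ) : MvPolynomial (Fin 2) ℂ :=
  MvPolynomial.C (M * (W - D.lam)) + MvPolynomial.C (rh / D.om) * ∑ l, MvPolynomial.C (cz D.z l) * MvPolynomial.X l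

/-- the polynomials `B_0 = 1`, `B_{k+1} = X B_k + c B_k'` -/
def Bp (c : ℂ) : ℕ → Polynomial ℂ
  | 0 => 1
  | k + 1 => Polynomial.X * Bp c k + Polynomial.C c * Polynomial.derivative (Bp c k)

/-- the function `Rp ν` times `(th th)^(2L)`, in the independent variables `W`, `t` -/
def Gn (D : Dw) {L E : ℕ} (ν : Iw L E) (W : ℂ) (t : Fin 2 → ℂ) : ℂ :=
  TF (fun l => fa D.z D.om (2 * L) (ν.1 l).val) (fun l => D.h l + t l)
    (Polynomial.aeval (lin D (2 * L) W) (Bp ((2 * L : ℕ) * D.qq) ν.2.val))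

/-- the entire function `FR * (th th)^(2L)` -/
def GR (D : Dw) {L E : ℕ} (c : Iw L E → ℂ) (t : Fin 2 → ℂ) : ℂ := ∑ ν, c ν * Gn D ν (D.om * t 1) t

/-- the entire function in absolute coordinates -/
def GA (D : Dw) {L E : ℕ} (c : Iw L E → ℂ) (u : Fin 2 → ℂ) : ℂ := GR D c (fun l => u l - D.h l)

/-! ### Geometry of the lattice -/

/-- the points `(n₀ + n₁ z, n₁ + n₂ z)` -/
def gam (z : ℂ) (n : Fin 3 → ℝ) : Fin 2 → ℂ := ![n 0 + n 1 * z, n 1 + n 2 * z]

/-- the real coordinates `u_l = a_l + b_l z` -/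
def cb (z : ℂ) (u : Fin 2 → ℂ) (l : Fin 2) : ℝ := (u l).im / z.im

def ca (z : ℂ) (u : Fin 2 → ℂ) (l : Fin 2) : ℝ := (u l).re - cb z u l * z.re

/-- the real coordinate transversal to the real span of the lattice -/
def yy (z : ℂ) (u : Fin 2 → ℂ) : ℝ := ca z u 1 - cb z u 0

/-- the quadratic form `π (∑ (Im u_l)² / Im z + y²)` -/
def Qf (z : ℂ) (u : Fin 2 → ℂ) : ℝ := Real.pi * (∑ l, (u l).im ^ 2 / z.im + yy z u ^ 2)

/-- the normalised absolute value of `G` -/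
def Nn (z : ℂ) (M : ℕ) (G : (Fin 2 → ℂ) → ℂ) (u : Fin 2 → ℂ) : ℝ := ‖G u‖ * Real.exp (-(M * Qf z u))

end Pool.Agent.MSW

end
end

/-! ### the kernel of the sections -/

section

open Complex MvPolynomial

noncomputable section

namespace Pool.Agent.MSW

open MSD MSP

/-- the direction `(rh/om) (1, z)` -/
def Zv (z om : ℂ) : Fin 2 → ℂ := fun l => rh / om * cz z l

/-- the bilinear form -/
def eK (om : ℂ) (M : ℕ) : Fin 2 → ℂ := ![0, M * om]

/-- linear forms -/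
def lf (v : Fin 2 → ℂ) : MvPolynomial (Fin 2) ℂ := ∑ l, C (v l) * X l

/-- the index set of the translations: pairs of integer vectors `(m, n)`, the translation by `m + n z` -/
abbrev Lz : Type := (Fin 2 → ℤ) × (Fin 2 → ℤ)

/-- the translation vector -/
def wz (z : ℂ) (w : Lz) : Fin 2 → ℂ := fun l => (w.1 l : ℂ) + w.2 l * z

/-- the quasi period -/
def qz (M : ℕ) (w : Lz) (l : Fin 2) : ℂ := -(2 * Real.pi * I * M * w.2 l)

end Pool.Agent.MSW

end
end

/-! ### the lattice and the quadratic form -/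

section

open Complex Filter Topology

noncomputable section

namespace Pool.Agent.MSW

open MSD MSP

/-- C2a. the coordinates are real linear; PROOF. definitions. -/
theorem cb_add (z : ℂ) (u v : Fin 2 → ℂ) (l : Fin 2) : cb z (u + v) l = cb z u l + cb z v l := by
  simp only [cb, Pi.add_apply, Complex.add_im]
  ring

theorem ca_add (z : ℂ) (u v : Fin 2 → ℂ) (l : Fin 2) : ca z (u + v) l = ca z u l + ca z v l := by
  simp only [ca, cb_add, Pi.add_apply, Complex.add_re]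
  ring

theorem yy_add (z : ℂ) (u v : Fin 2 → ℂ) : yy z (u + v) = yy z u + yy z v := by
  simp only [yy, ca_add, cb_add]
  ring

theorem c2_gam_zero (z : ℂ) (n : Fin 3 → ℝ) : gam z n 0 = n 0 + n 1 * z := rfl

theorem c2_gam_one (z : ℂ) (n : Fin 3 → ℝ) : gam z n 1 = n 1 + n 2 * z := rfl

/-- C2b. -/
theorem cb_gam (z : ℂ) (hz : 0 < z.im) (n : Fin 3 → ℝ) : cb z (gam z n) 0 = n 1 ∧ cb z (gam z n) 1 = n 2 := by
  have hz' : z.im ≠ 0 := hz.ne'
  constructor
  · simp only [cb, c2_gam_zero]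
    simp [Complex.add_im, Complex.mul_im, hz']
  · simp only [cb, c2_gam_one]
    simp [Complex.add_im, Complex.mul_im, hz']

theorem ca_gam (z : ℂ) (hz : 0 < z.im) (n : Fin 3 → ℝ) : ca z (gam z n) 0 = n 0 ∧ ca z (gam z n) 1 = n 1 := by
  obtain ⟨h0, h1⟩ := cb_gam z hz n
  constructor
  · simp only [ca, h0, c2_gam_zero]
    simp [Complex.add_re, Complex.mul_re]
  · simp only [ca, h1, c2_gam_one]
    simp [Complex.add_re, Complex.mul_re]

theorem yy_gam (z : ℂ) (hz : 0 < z.im) (n : Fin 3 → ℝ) : yy z (gam z n) = 0 := by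
  simp only [yy, (ca_gam z hz n).2, (cb_gam z hz n).1, sub_self]

/-- C2c. `u_l = a_l + b_l z`. -/
theorem coord (z : ℂ) (hz : 0 < z.im) (u : Fin 2 → ℂ) (l : Fin 2) : u l = ca z u l + cb z u l * z := by
  have hz' : z.im ≠ 0 := hz.ne'
  apply Complex.ext
  · simp [ca, Complex.add_re, Complex.mul_re]
  · simp only [ca, cb, Complex.add_im, Complex.mul_im, Complex.ofReal_im, Complex.ofReal_re]
    field_simp
    ring

/-- C2d. reduction modulo the lattice. PROOF. `n_0 = ⌊a_0⌋`, `n_1 = ⌊b_0⌋`, `n_2 = ⌊b_1⌋`. -/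
theorem reduce (z : ℂ) (hz : 0 < z.im) (u : Fin 2 → ℂ) : ∃ n : Fin 3 → ℤ, ∃ v : Fin 2 → ℂ, u = v + gam z (fun i => (n i : ℝ)) ∧
    (0 ≤ ca z v 0 ∧ ca z v 0 ≤ 1) ∧ (0 ≤ cb z v 0 ∧ cb z v 0 ≤ 1) ∧ (0 ≤ cb z v 1 ∧ cb z v 1 ≤ 1) ∧ yy z v = yy z u := by
  let n : Fin 3 → ℤ := ![⌊ca z u 0⌋, ⌊cb z u 0⌋, ⌊cb z u 1⌋]
  let v : Fin 2 → ℂ := u - gam z (fun i => (n i : ℝ))
  have huv : u = v + gam z (fun i => (n i : ℝ)) := by
    simp only [v, sub_add_cancel]
  have e0 : ca z u 0 = ca z v 0 + (⌊ca z u 0⌋ : ℝ) := by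
    conv_lhs => rw [huv]
    rw [ca_add, (ca_gam z hz _).1]
    rfl
  have e1 : cb z u 0 = cb z v 0 + (⌊cb z u 0⌋ : ℝ) := by
    conv_lhs => rw [huv]
    rw [cb_add, (cb_gam z hz _).1]
    rfl
  have e2 : cb z u 1 = cb z v 1 + (⌊cb z u 1⌋ : ℝ) := by
    conv_lhs => rw [huv]
    rw [cb_add, (cb_gam z hz _).2]
    rfl
  have ey : yy z u = yy z v := by
    conv_lhs => rw [huv]
    rw [yy_add, yy_gam z hz, add_zero]
  refine ⟨n, v, huv, ⟨?_, ?_⟩, ⟨?_, ?_⟩, ⟨?_, ?_⟩, ey.symm⟩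
  · linarith [Int.floor_le (ca z u 0)]
  · linarith [Int.lt_floor_add_one (ca z u 0)]
  · linarith [Int.floor_le (cb z u 0)]
  · linarith [Int.lt_floor_add_one (cb z u 0)]
  · linarith [Int.floor_le (cb z u 1)]
  · linarith [Int.lt_floor_add_one (cb z u 1)]

/-- C2f. the covering. PROOF. `S` = all the points `v(a_0, b_0, b_1, y) = (a_0 + b_0 z, (y + b_0) + b_1 z)` with `a_0 = b_0 = b_1 = 0` and `y` an integer, `|y| ≤ R + 1`: `card ≤ 2R + 3 ≤ 5R`. Given `u` with `|yy u| ≤ R` take `n` from `reduce` and `y = ⌊yy u⌋`; the difference has all four coordinates in `[0, 1]`. -/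
theorem cover (z : ℂ) (hz : 0 < z.im) : ∃ C : ℝ, 1 ≤ C ∧ ∀ R : ℝ, 1 ≤ R → ∃ S : Finset (Fin 2 → ℂ),
    (S.card : ℝ) ≤ C * R ∧ ∀ u : Fin 2 → ℂ, |yy z u| ≤ R → ∃ n : Fin 3 → ℤ, ∃ s ∈ S, ∀ j, ‖u j - gam z (fun i => (n i : ℝ)) j - s j‖ ≤ C := by
  refine ⟨5 + ‖z‖, by linarith [norm_nonneg z], fun R hR => ?_⟩
  classical
  refine ⟨(Finset.Icc ⌊-R⌋ ⌊R⌋).image (fun y : ℤ => (![0, (y : ℂ)] : Fin 2 → ℂ)), ?_, ?_⟩
  · have h1 : (((Finset.Icc ⌊-R⌋ ⌊R⌋).image (fun y : ℤ => (![0, (y : ℂ)] : Fin 2 → ℂ))).card : ℝ) ≤ ((Finset.Icc ⌊-R⌋ ⌊R⌋).card : ℝ) := by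
      exact_mod_cast Finset.card_image_le
    have h2 : ((Finset.Icc ⌊-R⌋ ⌊R⌋).card : ℝ) ≤ 5 * R := by
      rw [Int.card_Icc]
      have h3 : (0 : ℤ) ≤ ⌊R⌋ + 1 - ⌊-R⌋ := by
        have : ⌊-R⌋ ≤ ⌊R⌋ := Int.floor_le_floor (by linarith)
        omega
      have h4 : (((⌊R⌋ + 1 - ⌊-R⌋).toNat : ℕ) : ℝ) = (⌊R⌋ : ℝ) + 1 - (⌊-R⌋ : ℝ) := by
        have : (((⌊R⌋ + 1 - ⌊-R⌋).toNat : ℕ) : ℤ) = ⌊R⌋ + 1 - ⌊-R⌋ := Int.toNat_of_nonneg h3
        exact_mod_cast this
      rw [h4]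
      linarith [Int.floor_le R, Int.lt_floor_add_one (-R)]
    have h5 : 0 ≤ ‖z‖ * R := mul_nonneg (norm_nonneg z) (by linarith)
    linarith
  · intro u hu
    obtain ⟨n, v, huv, ⟨ha0, ha1⟩, ⟨hb0, hb1⟩, ⟨hc0, hc1⟩, hy⟩ := reduce z hz u
    have hyu := abs_le.mp hu
    refine ⟨n, ![0, ((⌊yy z u⌋ : ℤ) : ℂ)], ?_, ?_⟩
    · rw [Finset.mem_image]
      refine ⟨⌊yy z u⌋, ?_, rfl⟩
      rw [Finset.mem_Icc]
      exact ⟨Int.floor_le_floor hyu.1, Int.floor_le_floor hyu.2⟩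
    · have hv : ∀ j, u j - gam z (fun i => (n i : ℝ)) j = v j := by
        intro j
        have := congrFun huv j
        simp only [Pi.add_apply] at this
        rw [this]
        ring
      have hz0 := norm_nonneg z
      intro j
      rw [hv j]
      fin_cases j
      · have e := coord z hz v 0
        simp only [Fin.zero_eta, Fin.isValue, Matrix.cons_val_zero, sub_zero]
        rw [e]
        have n1 : ‖((ca z v 0 : ℝ) : ℂ)‖ ≤ 1 := by
          rw [Complex.norm_real, Real.norm_eq_abs, abs_of_nonneg ha0]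
          exact ha1
        have n2 : ‖((cb z v 0 : ℝ) : ℂ) * z‖ ≤ ‖z‖ := by
          rw [norm_mul, Complex.norm_real, Real.norm_eq_abs, abs_of_nonneg hb0]
          exact mul_le_of_le_one_left hz0 hb1
        calc ‖((ca z v 0 : ℝ) : ℂ) + ((cb z v 0 : ℝ) : ℂ) * z‖ ≤ ‖((ca z v 0 : ℝ) : ℂ)‖ + ‖((cb z v 0 : ℝ) : ℂ) * z‖ := norm_add_le _ _
          _ ≤ 1 + ‖z‖ := add_le_add n1 n2
          _ ≤ 5 + ‖z‖ := by linarith
      · have e := coord z hz v 1
        simp only [Fin.mk_one, Fin.isValue, Matrix.cons_val_one]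
        have hy' : ca z v 1 - cb z v 0 = yy z u := hy
        have f1 := Int.floor_le (yy z u)
        have f2 := Int.lt_floor_add_one (yy z u)
        have e' : v 1 - ((⌊yy z u⌋ : ℤ) : ℂ) = ((ca z v 1 - (⌊yy z u⌋ : ℝ) : ℝ) : ℂ) + ((cb z v 1 : ℝ) : ℂ) * z := by
          rw [e]
          push_cast
          ring
        have e'' : ‖v 1 - ((⌊yy z u⌋ : ℤ) : ℂ)‖ ≤ 2 + ‖z‖ := by
          rw [e']
          have n1 : ‖((ca z v 1 - (⌊yy z u⌋ : ℝ) : ℝ) : ℂ)‖ ≤ 2 := by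
            rw [Complex.norm_real, Real.norm_eq_abs, abs_le]
            constructor <;> linarith
          have n2 : ‖((cb z v 1 : ℝ) : ℂ) * z‖ ≤ ‖z‖ := by
            rw [norm_mul, Complex.norm_real, Real.norm_eq_abs, abs_of_nonneg hc0]
            exact mul_le_of_le_one_left hz0 hc1
          exact (norm_add_le _ _).trans (add_le_add n1 n2)
        exact e''.trans (by linarith)

end Pool.Agent.MSW

end
end

/-! ### the quadratic form -/

section

open Complex Filter Topology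

noncomputable section

namespace Pool.Agent.MSW

open MSD MSP

/-- the imaginary parts as linear maps -/
def c2c_im (l : Fin 2) : (Fin 2 → ℂ) →ₗ[ℝ] ℝ where
  toFun v := (v l).im
  map_add' v w := by rw [Pi.add_apply, Complex.add_im]
  map_smul' c v := by
    rw [Pi.smul_apply, Complex.real_smul, Complex.im_ofReal_mul, RingHom.id_apply, smul_eq_mul]

/-- the transversal coordinate as a linear map -/
def c2c_yy (z : ℂ) : (Fin 2 → ℂ) →ₗ[ℝ] ℝ where
  toFun v := yy z v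
  map_add' v w := yy_add z v w
  map_smul' c v := by
    simp only [yy, ca, cb, Pi.smul_apply, Complex.real_smul, Complex.im_ofReal_mul,
      Complex.re_ofReal_mul, RingHom.id_apply, smul_eq_mul]
    ring

/-- the linear functional `y ↦ 2 B(s, y)` -/
def c2c_B (z : ℂ) (s : Fin 2 → ℂ) : (Fin 2 → ℂ) →ₗ[ℝ] ℝ :=
  (2 * Real.pi) • (∑ l, ((s l).im / z.im) • c2c_im l + (yy z s) • c2c_yy z)

theorem c2c_B_apply (z : ℂ) (s y : Fin 2 → ℂ) : c2c_B z s y =
    2 * Real.pi * (∑ l, (s l).im / z.im * (y l).im + yy z s * yy z y) := by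
  unfold c2c_B
  rw [LinearMap.smul_apply, LinearMap.add_apply, LinearMap.sum_apply]
  rfl

/-- C2e. PROOF. `Qf` is a real quadratic form: `Qf (s + y) = Qf s + 2 B(s, y) + Qf y` with `B` real bilinear; the real linear functional `y ↦ 2 B(s, y)` is the real part of a complex linear functional (`Module.Dual.extendRCLike`, see `Qf_polar` in K/C2c_Qf). -/
theorem Qf_polar (z : ℂ) (s : Fin 2 → ℂ) : ∃ ℓ : (Fin 2 → ℂ) →ₗ[ℂ] ℂ, ∀ y : Fin 2 → ℂ, Qf z (s + y) = Qf z s + (ℓ y).re + Qf z y := by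
  refine ⟨Module.Dual.extendRCLike (𝕜 := ℂ) (c2c_B z s), fun y => ?_⟩
  have h1 : ((Module.Dual.extendRCLike (𝕜 := ℂ) (c2c_B z s)) y).re = c2c_B z s y :=
    Module.Dual.re_extendRCLike_apply (𝕜 := ℂ) (c2c_B z s) y
  rw [h1, c2c_B_apply]
  unfold Qf
  rw [yy_add]
  simp only [Fin.sum_univ_two, Pi.add_apply, Complex.add_im]
  ring

theorem Qf_nonneg (z : ℂ) (hz : 0 < z.im) (u : Fin 2 → ℂ) : 0 ≤ Qf z u := by
  unfold Qf
  refine mul_nonneg Real.pi_pos.le (add_nonneg (Finset.sum_nonneg fun l _ => ?_) (sq_nonneg _))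
  exact div_nonneg (sq_nonneg _) hz.le

theorem c2c_lin_bound (f : (Fin 2 → ℂ) →ₗ[ℝ] ℝ) : ∃ C : ℝ, 0 ≤ C ∧ ∀ v, f v ^ 2 ≤ C * ‖v‖ ^ 2 := by
  refine ⟨‖LinearMap.toContinuousLinearMap f‖ ^ 2, sq_nonneg _, fun v => ?_⟩
  have h1 := (LinearMap.toContinuousLinearMap f).le_opNorm v
  rw [LinearMap.coe_toContinuousLinearMap', Real.norm_eq_abs] at h1
  rw [← mul_pow, ← sq_abs]
  exact pow_le_pow_left₀ (abs_nonneg _) h1 2

theorem Qf_le (z : ℂ) (hz : 0 < z.im) : ∃ C : ℝ, 1 ≤ C ∧ ∀ u : Fin 2 → ℂ, Qf z u ≤ C * ‖u‖ ^ 2 := by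
  choose a ha0 ha using fun l => c2c_lin_bound (c2c_im l)
  obtain ⟨r, hr0, hr⟩ := c2c_lin_bound (c2c_yy z)
  have hS1 : 0 ≤ ∑ l, a l / z.im := Finset.sum_nonneg fun l _ => div_nonneg (ha0 l) hz.le
  have hpi := Real.pi_pos
  refine ⟨1 + Real.pi * (∑ l, a l / z.im + r), by nlinarith [mul_nonneg hpi.le (add_nonneg hS1 hr0)], fun v => ?_⟩
  have h1 : ∑ l, (v l).im ^ 2 / z.im ≤ (∑ l, a l / z.im) * ‖v‖ ^ 2 := by
    rw [Finset.sum_mul]
    refine Finset.sum_le_sum fun l _ => ?_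
    rw [div_mul_eq_mul_div]
    exact div_le_div_of_nonneg_right (ha l v) hz.le
  have h2 : yy z v ^ 2 ≤ r * ‖v‖ ^ 2 := hr v
  unfold Qf
  have h3 : 0 ≤ ‖v‖ ^ 2 := sq_nonneg _
  calc Real.pi * (∑ l, (v l).im ^ 2 / z.im + yy z v ^ 2)
      ≤ Real.pi * ((∑ l, a l / z.im) * ‖v‖ ^ 2 + r * ‖v‖ ^ 2) := by gcongr
    _ = Real.pi * (∑ l, a l / z.im + r) * ‖v‖ ^ 2 := by ring
    _ ≤ (1 + Real.pi * (∑ l, a l / z.im + r)) * ‖v‖ ^ 2 := by nlinarith

end Pool.Agent.MSW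

end
end
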