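import Pool.Agent.Lib.MP_f58a57_nt.P.E1_Dup
import Pool.Agent.Lib.MP_f58a57_nt.T.A1_Defs

/-! # MP_f58a57_nt, all nonspecial points: B1_Line -/

/-! ### differential operators on products -/

section

open Complex Filter Topology

noncomputable section

namespace Pool.Agent.MSW

open MSD MSP

/-- B2a. (Compare R/B2_TH.) -/
theorem TF_eq (f : Fin 2 → ℂ → ℂ) (u : Fin 2 → ℂ) (q : MvPolynomial (Fin 2) ℂ) (s : Finset (Fin 2 →₀ ℕ)) (h : q.support ⊆ s) :
    TF f u q = ∑ m ∈ s, q.coeff m * ∏ l, iteratedDeriv (m l) (f l) (u l) := by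
  unfold TF
  refine Finset.sum_subset h fun m _ hm => ?_
  rw [MvPolynomial.notMem_support_iff.1 hm, zero_mul]

theorem TF_add (f : Fin 2 → ℂ → ℂ) (u : Fin 2 → ℂ) (p q : MvPolynomial (Fin 2) ℂ) : TF f u (p + q) = TF f u p + TF f u q := by
  classical
  rw [TF_eq f u (p + q) (p.support ∪ q.support) MvPolynomial.support_add, TF_eq f u p (p.support ∪ q.support) Finset.subset_union_left,
    TF_eq f u q (p.support ∪ q.support) Finset.subset_union_right, ← Finset.sum_add_distrib]
  refine Finset.sum_congr rfl fun m _ => ?_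
  rw [MvPolynomial.coeff_add]
  ring

theorem TF_zero (f : Fin 2 → ℂ → ℂ) (u : Fin 2 → ℂ) : TF f u 0 = 0 := by
  simp [TF]

theorem TF_C_mul (f : Fin 2 → ℂ → ℂ) (u : Fin 2 → ℂ) (a : ℂ) (p : MvPolynomial (Fin 2) ℂ) : TF f u (MvPolynomial.C a * p) = a * TF f u p := by
  have h : (MvPolynomial.C a * p).support ⊆ p.support := by
    intro m hm
    rw [MvPolynomial.mem_support_iff, MvPolynomial.coeff_C_mul] at hm
    exact MvPolynomial.mem_support_iff.2 (right_ne_zero_of_mul hm)
  rw [TF_eq f u _ p.support h]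
  unfold TF
  rw [Finset.mul_sum]
  refine Finset.sum_congr rfl fun m _ => ?_
  rw [MvPolynomial.coeff_C_mul]
  ring

theorem TF_neg (f : Fin 2 → ℂ → ℂ) (u : Fin 2 → ℂ) (p : MvPolynomial (Fin 2) ℂ) : TF f u (-p) = -TF f u p := by
  have h : -p = MvPolynomial.C (-1) * p := by
    rw [map_neg, map_one]
    ring
  rw [h, TF_C_mul]
  ring

theorem TF_sum {ι : Type} (f : Fin 2 → ℂ → ℂ) (u : Fin 2 → ℂ) (s : Finset ι) (p : ι → MvPolynomial (Fin 2) ℂ) :
    TF f u (∑ i ∈ s, p i) = ∑ i ∈ s, TF f u (p i) := by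
  classical
  induction s using Finset.induction_on with
  | empty => simp [TF_zero]
  | insert a s ha ih => rw [Finset.sum_insert ha, Finset.sum_insert ha, TF_add, ih]

theorem TF_monomial (f : Fin 2 → ℂ → ℂ) (u : Fin 2 → ℂ) (m : Fin 2 →₀ ℕ) (a : ℂ) :
    TF f u (MvPolynomial.monomial m a) = a * ∏ l, iteratedDeriv (m l) (f l) (u l) := by
  classical
  rw [TF_eq f u _ {m} MvPolynomial.support_monomial_subset, Finset.sum_singleton, MvPolynomial.coeff_monomial, if_pos rfl]

theorem TF_one (f : Fin 2 → ℂ → ℂ) (u : Fin 2 → ℂ) : TF f u 1 = ∏ l, f l (u l) := by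
  have h : (1 : MvPolynomial (Fin 2) ℂ) = MvPolynomial.monomial 0 1 := rfl
  rw [h, TF_monomial, one_mul]
  simp

theorem b2_iterf (f : ℂ → ℂ) (hf : Differentiable ℂ f) (m : ℕ) (x : ℂ) :
    HasDerivAt (iteratedDeriv m f) (iteratedDeriv (m + 1) f x) x := by
  have h1 : Differentiable ℂ (iteratedDeriv m f) := by
    have h2 : ContDiff ℂ (m + 1 : ℕ) f := hf.contDiff
    exact h2.differentiable_iteratedDeriv m (by exact_mod_cast Nat.lt_succ_self m)
  rw [iteratedDeriv_succ]
  exact (h1 x).hasDerivAt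

/-- B2b. PROOF. As `TH_line` in R/B2_TH. By linearity for `q = monomial m a`: the derivative of `∏_l f_l^(m_l)(u_l + s η_l)` is `∑_l η_l f_l^(m_l + 1)(..) ∏_{l' ≠ l} ..` (`HasDerivAt.finset_prod`; iterated derivatives of an entire function are entire and
the derivative of `iteratedDeriv k` is `iteratedDeriv (k+1)`), and `X l * monomial m a = monomial (m + single l 1) a`. -/
theorem TF_line (f : Fin 2 → ℂ → ℂ) (hf : ∀ l, Differentiable ℂ (f l)) (u η : Fin 2 → ℂ) (q : MvPolynomial (Fin 2) ℂ) (s₀ : ℂ) :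
    HasDerivAt (fun s : ℂ => TF f (fun l => u l + s * η l) q)
      (TF f (fun l => u l + s₀ * η l) ((∑ l, MvPolynomial.C (η l) * MvPolynomial.X l) * q)) s₀ := by
  classical
  induction q using MvPolynomial.induction_on' with
  | monomial m a =>
    have e1 : (fun s : ℂ => TF f (fun l => u l + s * η l) (MvPolynomial.monomial m a)) =
        fun s : ℂ => a * ∏ l, iteratedDeriv (m l) (f l) (u l + s * η l) := by
      funext s
      rw [TF_monomial]
    have e2 : TF f (fun l => u l + s₀ * η l) ((∑ l, MvPolynomial.C (η l) * MvPolynomial.X l) * MvPolynomial.monomial m a) =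
        a * ∑ l, (∏ l' ∈ Finset.univ.erase l, iteratedDeriv (m l') (f l') (u l' + s₀ * η l')) •
          (iteratedDeriv (m l + 1) (f l) (u l + s₀ * η l) * η l) := by
      rw [Finset.sum_mul, TF_sum, Finset.mul_sum]
      refine Finset.sum_congr rfl fun l _ => ?_
      have e3 : MvPolynomial.C (η l) * MvPolynomial.X l * MvPolynomial.monomial m a =
          MvPolynomial.C (η l) * MvPolynomial.monomial (Finsupp.single l 1 + m) a := by
        rw [mul_assoc]
        congr 1
        rw [MvPolynomial.X, MvPolynomial.monomial_mul, one_mul]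
      rw [e3, TF_C_mul, TF_monomial, ← Finset.mul_prod_erase Finset.univ _ (Finset.mem_univ l)]
      have e4 : ∏ l' ∈ Finset.univ.erase l, iteratedDeriv ((Finsupp.single l 1 + m : Fin 2 →₀ ℕ) l') (f l') (u l' + s₀ * η l') =
          ∏ l' ∈ Finset.univ.erase l, iteratedDeriv (m l') (f l') (u l' + s₀ * η l') := by
        refine Finset.prod_congr rfl fun l' hl' => ?_
        rw [Finsupp.add_apply, Finsupp.single_apply, if_neg (Finset.ne_of_mem_erase hl').symm, zero_add]
      rw [e4, Finsupp.add_apply, Finsupp.single_apply, if_pos rfl, smul_eq_mul, add_comm 1 (m l)]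
      ring
    rw [e1, e2]
    refine HasDerivAt.const_mul a ?_
    refine HasDerivAt.fun_finsetProd fun l _ => ?_
    have h1 : HasDerivAt (fun s : ℂ => u l + s * η l) (η l) s₀ := by
      simpa using ((hasDerivAt_id s₀).mul_const (η l)).const_add (u l)
    exact (b2_iterf (f l) (hf l) (m l) _).comp s₀ h1
  | add p q hp hq =>
    have e1 : (fun s : ℂ => TF f (fun l => u l + s * η l) (p + q)) =
        fun s : ℂ => TF f (fun l => u l + s * η l) p + TF f (fun l => u l + s * η l) q := by
      funext s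
      rw [TF_add]
    rw [e1, mul_add, TF_add]
    exact hp.add hq

/-- B2c. PROOF. `N2, N0` are polynomials in `th`, `deriv th`, `deriv (deriv th)` (`th_differentiable`, `Differentiable.deriv`). -/
theorem fa_diff (z om : ℂ) (hz : 0 < z.im) (M a : ℕ) : Differentiable ℂ (fa z om M a) := by
  unfold fa
  exact (((e1_N2_diff z (sE z) hz).div_const _).pow a).mul ((e1_N0_diff z hz).pow (M - 2 * a))

end Pool.Agent.MSW

end
end

/-! ### the operator `B ↦ X B + M qq B'` as a derivative along a line -/

section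

open Complex Filter Topology

noncomputable section

namespace Pool.Agent.MSW

open MSD MSP

/-- the linear form of the direction -/
def b3_N (D : Dw) : MvPolynomial (Fin 2) ℂ :=
  ∑ l, MvPolynomial.C (rh / D.om * cz D.z l) * MvPolynomial.X l

theorem b3_lin (D : Dw) (M : ℕ) (W : ℂ) :
    lin D M W = MvPolynomial.C (M * (W - D.lam)) + b3_N D := by
  unfold lin b3_N
  rw [Finset.mul_sum]
  congr 1
  refine Finset.sum_congr rfl fun l _ => ?_
  rw [MvPolynomial.C_mul (a := rh / D.om) (a' := cz D.z l), mul_assoc]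

/-- the property of the induction -/
def b3_prop (D : Dw) (M : ℕ) (f : Fin 2 → ℂ → ℂ) (W : ℂ) (u : Fin 2 → ℂ) (B : Polynomial ℂ) : Prop :=
  ∀ q₀ : MvPolynomial (Fin 2) ℂ, HasDerivAt (fun s : ℂ => TF f (fun l => u l + s * (rh / D.om * cz D.z l))
      (q₀ * Polynomial.aeval (lin D M (W + s * D.qq)) B))
    (TF f u (b3_N D * (q₀ * Polynomial.aeval (lin D M W) B)) +
      TF f u (q₀ * Polynomial.aeval (lin D M W) (Polynomial.C ((M : ℂ) * D.qq) * Polynomial.derivative B))) 0

theorem b3_C (D : Dw) (M : ℕ) (f : Fin 2 → ℂ → ℂ) (hf : ∀ l, Differentiable ℂ (f l)) (W : ℂ) (u : Fin 2 → ℂ) (a : ℂ) :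
    b3_prop D M f W u (Polynomial.C a) := by
  intro q₀
  have h1 := TF_line f hf u (fun l => rh / D.om * cz D.z l) (q₀ * Polynomial.aeval (lin D M W) (Polynomial.C a)) 0
  have e1 : ∀ s : ℂ, Polynomial.aeval (lin D M (W + s * D.qq)) (Polynomial.C a : Polynomial ℂ) =
      Polynomial.aeval (lin D M W) (Polynomial.C a) := by
    intro s
    rw [Polynomial.aeval_C, Polynomial.aeval_C]
  have hu0 : (fun l => u l + (0 : ℂ) * (rh / D.om * cz D.z l)) = u := by
    funext l
    rw [zero_mul, add_zero]
  rw [Polynomial.derivative_C, mul_zero, map_zero, mul_zero, TF_zero, add_zero]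
  simp only [e1]
  rw [hu0] at h1
  exact h1

theorem b3_add (D : Dw) (M : ℕ) (f : Fin 2 → ℂ → ℂ) (W : ℂ) (u : Fin 2 → ℂ) (p q : Polynomial ℂ)
    (hp : b3_prop D M f W u p) (hq : b3_prop D M f W u q) : b3_prop D M f W u (p + q) := by
  intro q₀
  have h1 := (hp q₀).fun_add (hq q₀)
  have e1 : (fun s : ℂ => TF f (fun l => u l + s * (rh / D.om * cz D.z l))
      (q₀ * Polynomial.aeval (lin D M (W + s * D.qq)) (p + q))) =
      fun s : ℂ => TF f (fun l => u l + s * (rh / D.om * cz D.z l))
        (q₀ * Polynomial.aeval (lin D M (W + s * D.qq)) p) +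
        TF f (fun l => u l + s * (rh / D.om * cz D.z l)) (q₀ * Polynomial.aeval (lin D M (W + s * D.qq)) q) := by
    funext s
    rw [map_add, mul_add, TF_add]
  rw [e1, map_add, Polynomial.derivative_add, mul_add (Polynomial.C ((M : ℂ) * D.qq)), map_add, mul_add, mul_add, mul_add, TF_add, TF_add]
  have e3 : ∀ x y z w : ℂ, x + y + (z + w) = x + z + (y + w) := fun x y z w => by ring
  rw [e3]
  exact h1

theorem b3_X (D : Dw) (M : ℕ) (f : Fin 2 → ℂ → ℂ) (W : ℂ) (u : Fin 2 → ℂ) (p : Polynomial ℂ)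
    (hp : b3_prop D M f W u p) : b3_prop D M f W u (p * Polynomial.X) := by
  intro q₀
  have hW0 : W + (0 : ℂ) * D.qq = W := by rw [zero_mul, add_zero]
  have hu0 : (fun l => u l + (0 : ℂ) * (rh / D.om * cz D.z l)) = u := by
    funext l
    rw [zero_mul, add_zero]
  have h1 := hp q₀
  have h2 := hp (q₀ * b3_N D)
  have h3 : HasDerivAt (fun s : ℂ => (M : ℂ) * (W + s * D.qq - D.lam)) ((M : ℂ) * D.qq) 0 := by
    have := ((((hasDerivAt_id (0 : ℂ)).mul_const D.qq).const_add W).sub_const D.lam).const_mul (M : ℂ)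
    simpa using this
  have h4 := (h3.fun_mul h1).fun_add h2
  have e1 : (fun s : ℂ => TF f (fun l => u l + s * (rh / D.om * cz D.z l))
      (q₀ * Polynomial.aeval (lin D M (W + s * D.qq)) (p * Polynomial.X))) =
      fun s : ℂ => ((M : ℂ) * (W + s * D.qq - D.lam)) * TF f (fun l => u l + s * (rh / D.om * cz D.z l))
        (q₀ * Polynomial.aeval (lin D M (W + s * D.qq)) p) +
        TF f (fun l => u l + s * (rh / D.om * cz D.z l)) (q₀ * b3_N D * Polynomial.aeval (lin D M (W + s * D.qq)) p) := by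
    funext s
    rw [map_mul, Polynomial.aeval_X]
    nth_rewrite 2 [b3_lin]
    rw [← TF_C_mul, ← TF_add]
    congr 1
    ring
  have e2 : Polynomial.C ((M : ℂ) * D.qq) * Polynomial.derivative (p * Polynomial.X) =
      (Polynomial.C ((M : ℂ) * D.qq) * Polynomial.derivative p) * Polynomial.X + Polynomial.C ((M : ℂ) * D.qq) * p := by
    rw [Polynomial.derivative_mul, Polynomial.derivative_X]
    ring
  rw [e1]
  have e5 : TF f u (b3_N D * (q₀ * Polynomial.aeval (lin D M W) (p * Polynomial.X))) +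
      TF f u (q₀ * Polynomial.aeval (lin D M W) (Polynomial.C ((M : ℂ) * D.qq) * Polynomial.derivative (p * Polynomial.X))) =
      (M : ℂ) * D.qq * TF f (fun l => u l + (0 : ℂ) * (rh / D.om * cz D.z l))
          (q₀ * Polynomial.aeval (lin D M (W + (0 : ℂ) * D.qq)) p) +
        ((M : ℂ) * (W + 0 * D.qq - D.lam)) * (TF f u (b3_N D * (q₀ * Polynomial.aeval (lin D M W) p)) +
          TF f u (q₀ * Polynomial.aeval (lin D M W) (Polynomial.C ((M : ℂ) * D.qq) * Polynomial.derivative p))) +
        (TF f u (b3_N D * (q₀ * b3_N D * Polynomial.aeval (lin D M W) p)) +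
          TF f u (q₀ * b3_N D * Polynomial.aeval (lin D M W) (Polynomial.C ((M : ℂ) * D.qq) * Polynomial.derivative p))) := by
    rw [hW0, hu0, e2, mul_add, ← TF_C_mul, ← TF_C_mul, ← TF_C_mul, ← TF_add, ← TF_add, ← TF_add, ← TF_add, ← TF_add]
    congr 1
    rw [map_mul (Polynomial.aeval (lin D M W)) p, map_add (Polynomial.aeval (lin D M W)),
      map_mul (Polynomial.aeval (lin D M W)) (Polynomial.C ((M : ℂ) * D.qq) * Polynomial.derivative p),
      map_mul (Polynomial.aeval (lin D M W)) (Polynomial.C ((M : ℂ) * D.qq)) p, Polynomial.aeval_X, Polynomial.aeval_C]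
    generalize Polynomial.aeval (lin D M W) p = A1
    generalize Polynomial.aeval (lin D M W) (Polynomial.C ((M : ℂ) * D.qq) * Polynomial.derivative p) = A2
    rw [b3_lin]
    have e6 : (algebraMap ℂ (MvPolynomial (Fin 2) ℂ)) ((M : ℂ) * D.qq) = MvPolynomial.C ((M : ℂ) * D.qq) := rfl
    rw [e6]
    ring
  rw [e5]
  exact h4

theorem b3_gen (D : Dw) (M : ℕ) (f : Fin 2 → ℂ → ℂ) (hf : ∀ l, Differentiable ℂ (f l)) (W : ℂ) (u : Fin 2 → ℂ) (B : Polynomial ℂ) :
    b3_prop D M f W u B := by
  induction B using Polynomial.induction_on with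
  | C a => exact b3_C D M f hf W u a
  | add p q hp hq => exact b3_add D M f W u p q hp hq
  | monomial n a h =>
    have e : Polynomial.C a * (Polynomial.X : Polynomial ℂ) ^ (n + 1) = Polynomial.C a * Polynomial.X ^ n * Polynomial.X := by
      rw [pow_succ, mul_assoc]
    rw [e]
    exact b3_X D M f W u _ h

/-- B3. PROOF. Compare `th_line` in R/B3_THLine (complete proof there). Put `η_l = (rh/om) c_l`, `N = ∑ C(η_l) X_l`, so `lin D M (W + s qq) = C(M (W + s qq - lam)) + N` and the point is `u_l + s η_l`, `u = D.h + t`. More generally for every `q₀ : MvPolynomial (Fin 2) ℂ` the function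
`s ↦ TF f (u + s η) (q₀ * aeval (lin (W + s qq)) B)` has at `0` the derivative `TF f u (N * q₀ * aeval (lin W) B) + TF f u (q₀ * aeval (lin W) (C(M qq) * B'))`: induction on `B` (`Polynomial.induction_on`: constants: `TF_line`; sums; `B X`: `lin (W + s qq) = C(M(W + s qq - lam)) + N`,
product rule for the first summand with `TF_C_mul`, the induction hypothesis for `q₀ N` for the second one). Finally `N aeval B = (lin W - C(M (W - lam))) aeval B = aeval (lin W) (X B) - C(..) aeval B`. -/
theorem th_line (D : Dw) (M : ℕ) (f : Fin 2 → ℂ → ℂ) (hf : ∀ l, Differentiable ℂ (f l)) (W : ℂ) (t : Fin 2 → ℂ) (B : Polynomial ℂ) :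
    HasDerivAt (fun s : ℂ => TF f (fun l => D.h l + (t l + s / D.om * (rh * cz D.z l))) (Polynomial.aeval (lin D M (W + s * D.qq)) B))
      (TF f (fun l => D.h l + t l) (Polynomial.aeval (lin D M W) (Polynomial.X * B + Polynomial.C ((M : ℂ) * D.qq) * Polynomial.derivative B)) -
        M * (W - D.lam) * TF f (fun l => D.h l + t l) (Polynomial.aeval (lin D M W) B)) 0 := by
  have h1 := b3_gen D M f hf W (fun l => D.h l + t l) B 1
  have e1 : (fun s : ℂ => TF f (fun l => D.h l + (t l + s / D.om * (rh * cz D.z l))) (Polynomial.aeval (lin D M (W + s * D.qq)) B)) =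
      fun s : ℂ => TF f (fun l => D.h l + t l + s * (rh / D.om * cz D.z l))
        (1 * Polynomial.aeval (lin D M (W + s * D.qq)) B) := by
    funext s
    rw [one_mul]
    congr 1
    funext l
    ring
  have e2 : TF f (fun l => D.h l + t l) (Polynomial.aeval (lin D M W) (Polynomial.X * B + Polynomial.C ((M : ℂ) * D.qq) * Polynomial.derivative B)) -
        M * (W - D.lam) * TF f (fun l => D.h l + t l) (Polynomial.aeval (lin D M W) B) =
      TF f (fun l => D.h l + t l) (b3_N D * (1 * Polynomial.aeval (lin D M W) B)) +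
        TF f (fun l => D.h l + t l) (1 * Polynomial.aeval (lin D M W) (Polynomial.C ((M : ℂ) * D.qq) * Polynomial.derivative B)) := by
    rw [sub_eq_iff_eq_add, ← TF_C_mul, ← TF_add, ← TF_add]
    congr 1
    rw [map_add, map_mul (Polynomial.aeval (lin D M W)) Polynomial.X B, Polynomial.aeval_X]
    generalize Polynomial.aeval (lin D M W) B = A1
    generalize Polynomial.aeval (lin D M W) (Polynomial.C ((M : ℂ) * D.qq) * Polynomial.derivative B) = A2
    rw [b3_lin]
    ring
  rw [e1, e2]
  exact h1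

end Pool.Agent.MSW

end
end

/-! ### the auxiliary functions are entire -/

section

open Complex Filter Topology

noncomputable section

namespace Pool.Agent.MSW

open MSD MSP

theorem b6_prod {ι : Type} (s : Finset ι) (f : ι → (Fin 2 → ℂ) → ℂ) (h : ∀ i, Differentiable ℂ (f i)) :
    Differentiable ℂ (fun v => ∏ i ∈ s, f i v) := by
  classical
  induction s using Finset.induction_on with
  | empty => simp only [Finset.prod_empty]; exact differentiable_const _
  | insert a s ha ih =>
    simp only [Finset.prod_insert ha]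
    exact (h a).mul ih

theorem b6_fix (f : Fin 2 → ℂ → ℂ) (hf : ∀ l, Differentiable ℂ (f l)) (q : MvPolynomial (Fin 2) ℂ) :
    Differentiable ℂ (fun u : Fin 2 → ℂ => TF f u q) := by
  have h1 : ∀ (l : Fin 2) (m : ℕ), Differentiable ℂ (iteratedDeriv m (f l)) := fun l m x =>
    (b2_iterf (f l) (hf l) m x).differentiableAt
  unfold TF
  refine Differentiable.fun_sum fun m _ => ?_
  refine Differentiable.const_mul ?_ _
  exact b6_prod Finset.univ (fun l (u : Fin 2 → ℂ) => iteratedDeriv (m l) (f l) (u l))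
    fun l => (h1 l (m l)).comp (differentiable_apply l)

theorem b6_mul (f : Fin 2 → ℂ → ℂ) (hf : ∀ l, Differentiable ℂ (f l)) (a : (Fin 2 → ℂ) → ℂ) (ha : Differentiable ℂ a)
    (N : MvPolynomial (Fin 2) ℂ) (B : Polynomial ℂ) :
    ∀ q₀ : MvPolynomial (Fin 2) ℂ, Differentiable ℂ (fun u : Fin 2 → ℂ =>
      TF f u (q₀ * Polynomial.aeval (MvPolynomial.C (a u) + N) B)) := by
  induction B using Polynomial.induction_on with
  | C b =>
    intro q₀
    simp only [Polynomial.aeval_C, MvPolynomial.algebraMap_eq]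
    exact b6_fix f hf _
  | add p q hp hq =>
    intro q₀
    simp only [map_add, mul_add, TF_add]
    exact (hp q₀).add (hq q₀)
  | monomial n b hp =>
    intro q₀
    have h : ∀ u : Fin 2 → ℂ, TF f u (q₀ * Polynomial.aeval (MvPolynomial.C (a u) + N) (Polynomial.C b * Polynomial.X ^ (n + 1))) =
        a u * TF f u (q₀ * Polynomial.aeval (MvPolynomial.C (a u) + N) (Polynomial.C b * Polynomial.X ^ n)) +
          TF f u ((q₀ * N) * Polynomial.aeval (MvPolynomial.C (a u) + N) (Polynomial.C b * Polynomial.X ^ n)) := by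
      intro u
      rw [← TF_C_mul, ← TF_add]
      congr 1
      rw [pow_succ, ← mul_assoc, map_mul, Polynomial.aeval_X]
      ring
    simp only [h]
    exact (ha.mul (hp q₀)).add (hp (q₀ * N))

/-- B6a. PROOF. As `TH_diff` in R/B6_Diff: for every polynomial `q₀` the function `u ↦ TF f u (q₀ * aeval (C (a u) + N) B)` is entire. Induction on `B` (all `q₀`, `Polynomial.induction_on`): `B = C b`: a linear combination of products of functions `iteratedDeriv m (f l) (u l)`
(entire); `B X`: `q₀ aeval(B X) = C(a u) (q₀ aeval B) + (q₀ N) aeval B` (`TF_C_mul`, `TF_add`). -/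
theorem TF_diff (f : Fin 2 → ℂ → ℂ) (hf : ∀ l, Differentiable ℂ (f l)) (a : (Fin 2 → ℂ) → ℂ) (ha : Differentiable ℂ a)
    (N : MvPolynomial (Fin 2) ℂ) (B : Polynomial ℂ) :
    Differentiable ℂ (fun u : Fin 2 → ℂ => TF f u (Polynomial.aeval (MvPolynomial.C (a u) + N) B)) := by
  have h := b6_mul f hf a ha N B 1
  simpa only [one_mul] using h

/-- B6b. PROOF. `TF_diff` composed with `t ↦ h + t`, `fa_diff`. -/
theorem GR_diff (D : Dw) {L E : ℕ} (c : Iw L E → ℂ) : Differentiable ℂ (GR D c) := by
  unfold GR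
  refine Differentiable.fun_sum fun ν _ => ?_
  refine Differentiable.const_mul ?_ _
  have ha : Differentiable ℂ (fun u : Fin 2 → ℂ => ((2 * L : ℕ) : ℂ) * (D.om * (u 1 - D.h 1) - D.lam)) := by
    fun_prop
  have h1 := TF_diff (fun l => fa D.z D.om (2 * L) (ν.1 l).val) (fun l => fa_diff D.z D.om D.im _ _)
    (fun u : Fin 2 → ℂ => ((2 * L : ℕ) : ℂ) * (D.om * (u 1 - D.h 1) - D.lam)) ha
    (MvPolynomial.C (rh / D.om) * ∑ l, MvPolynomial.C (cz D.z l) * MvPolynomial.X l) (Bp ((2 * L : ℕ) * D.qq) ν.2.val)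
  have h2 : Differentiable ℂ (fun t : Fin 2 → ℂ => fun l => D.h l + t l) :=
    differentiable_pi.2 fun l => (differentiable_apply l).const_add _
  have h3 := h1.comp h2
  have he : (fun t : Fin 2 → ℂ => Gn D ν (D.om * t 1) t) =
      ((fun u : Fin 2 → ℂ => TF (fun l => fa D.z D.om (2 * L) (ν.1 l).val) u
        (Polynomial.aeval (MvPolynomial.C (((2 * L : ℕ) : ℂ) * (D.om * (u 1 - D.h 1) - D.lam)) +
          MvPolynomial.C (rh / D.om) * ∑ l, MvPolynomial.C (cz D.z l) * MvPolynomial.X l)
            (Bp ((2 * L : ℕ) * D.qq) ν.2.val))) ∘ fun t l => D.h l + t l) := by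
    funext t
    simp only [Function.comp_apply, Gn, lin, add_sub_cancel_left]
  rw [he]
  exact h3

theorem GA_diff (D : Dw) {L E : ℕ} (c : Iw L E → ℂ) : Differentiable ℂ (GA D c) := by
  have h2 : Differentiable ℂ (fun u : Fin 2 → ℂ => fun l => u l - D.h l) :=
    differentiable_pi.2 fun l => (differentiable_apply l).sub_const _
  exact (GR_diff D c).comp h2

end Pool.Agent.MSW

end
end

/-! ### translations by lattice vectors -/

section

open Complex Filter Topology

noncomputable section

namespace Pool.Agent.MSW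

open MSD MSP

/-- B8a. PROOF. `N0_shift`, `N2_shift`: `(au² N2/om²)^a (au N0)^(M - 2a) = au^M ..` as `2a + (M - 2a) = M`. -/
theorem fa_shift (z om : ℂ) (hz : 0 < z.im) (M a : ℕ) (h : 2 * a ≤ M) (m n : ℤ) (t : ℂ) :
    fa z om M a (t + (m + n * z)) = au z m n t ^ M * fa z om M a t := by
  obtain ⟨k, rfl⟩ := Nat.exists_eq_add_of_le h
  have e : t + ((m : ℂ) + n * z) = t + m + n * z := by ring
  unfold fa
  rw [e, N0_shift z hz, N2_shift z _ hz, Nat.add_sub_cancel_left, mul_div_assoc, mul_pow, mul_pow, ← pow_mul, pow_add]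
  ring

/-- the derivative of a power of the automorphy factor along a line -/
theorem b8_au (z : ℂ) (M : ℕ) (u η : Fin 2 → ℂ) (m n : Fin 2 → ℤ) :
    HasDerivAt (fun s : ℂ => (∏ l, au z (m l) (n l) (u l + s * η l)) ^ M)
      (-(∑ l, 2 * Real.pi * I * M * n l * η l) * (∏ l, au z (m l) (n l) (u l)) ^ M) 0 := by
  have h1 : ∀ l : Fin 2, HasDerivAt (fun s : ℂ => au z (m l) (n l) (u l + s * η l))
      (-(2 * Real.pi * I * n l) * au z (m l) (n l) (u l) * η l) 0 := by
    intro l
    have h2 : HasDerivAt (fun s : ℂ => u l + s * η l) (η l) 0 := by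
      have := ((hasDerivAt_id' (0 : ℂ)).mul_const (η l)).const_add (u l)
      simpa using this
    have h3 := T4_au_deriv z (m l) (n l) (u l + 0 * η l)
    have h4 := HasDerivAt.comp (0 : ℂ) h3 h2
    simpa [Function.comp_def] using h4
  have h5 := HasDerivAt.fun_finsetProd (u := Finset.univ) (fun l _ => h1 l)
  have h6 : HasDerivAt (fun s : ℂ => ∏ l, au z (m l) (n l) (u l + s * η l))
      (-(∑ l, 2 * Real.pi * I * n l * η l) * ∏ l, au z (m l) (n l) (u l)) 0 := by
    refine h5.congr_deriv ?_
    rw [← Finset.sum_neg_distrib, Finset.sum_mul]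
    refine Finset.sum_congr rfl fun l _ => ?_
    simp only [smul_eq_mul, zero_mul, add_zero]
    rw [← Finset.mul_prod_erase Finset.univ (fun l => au z (m l) (n l) (u l)) (Finset.mem_univ l)]
    ring
  have h7 := h6.fun_pow M
  refine h7.congr_deriv ?_
  simp only [zero_mul, add_zero]
  have hsum : ∑ l, 2 * Real.pi * I * M * n l * η l = M * ∑ l, 2 * Real.pi * I * n l * η l := by
    rw [Finset.mul_sum]
    exact Finset.sum_congr rfl fun l _ => by ring
  rw [hsum]
  cases M with
  | zero => simp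
  | succ M =>
    rw [Nat.add_sub_cancel, pow_succ]
    ring

/-- B8b. PROOF. As `TH_shift` in R/B8_Shift: induction on `q` (`MvPolynomial.induction_on`; the statement for all `u`): `q = C b`: `TF` is `b ∏ f_l(u_l)`. For `q X_l`: differentiate the identity for `q` in the direction `u_l` (`TF_line` with `η = single l 1`): `∂_l au^M = -2πi M n_l au^M` (`T4_au_deriv`). -/
theorem TF_shift (z : ℂ) (hz : 0 < z.im) (M : ℕ) (f : Fin 2 → ℂ → ℂ) (hf : ∀ l, Differentiable ℂ (f l)) (m n : Fin 2 → ℤ)
    (hs : ∀ l t, f l (t + (m l + n l * z)) = au z (m l) (n l) t ^ M * f l t) (u : Fin 2 → ℂ) (q : MvPolynomial (Fin 2) ℂ) :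
    TF f (fun l => u l + (m l + n l * z)) q = (∏ l, au z (m l) (n l) (u l)) ^ M *
      TF f u (MvPolynomial.aeval (fun l => MvPolynomial.X l - MvPolynomial.C (2 * Real.pi * I * M * n l)) q) := by
  induction q using MvPolynomial.induction_on generalizing u with
  | C a =>
    have e1 : ∀ u' : Fin 2 → ℂ, TF f u' (MvPolynomial.C a) = a * ∏ l, f l (u' l) := by
      intro u'
      have := TF_C_mul f u' a 1
      rw [mul_one, TF_one] at this
      exact this
    rw [MvPolynomial.algHom_C, MvPolynomial.algebraMap_eq, e1, e1]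
    have e2 : ∏ l, f l (u l + (m l + n l * z)) = (∏ l, au z (m l) (n l) (u l)) ^ M * ∏ l, f l (u l) := by
      rw [← Finset.prod_pow, ← Finset.prod_mul_distrib]
      exact Finset.prod_congr rfl fun l _ => hs l (u l)
    rw [e2]
    ring
  | add p q hp hq =>
    rw [TF_add, hp, hq, map_add, TF_add]
    ring
  | mul_X p i hp =>
    set η : Fin 2 → ℂ := Pi.single i 1 with hη
    have hX : (∑ l, MvPolynomial.C (η l) * MvPolynomial.X l : MvPolynomial (Fin 2) ℂ) = MvPolynomial.X i := by
      rw [Finset.sum_eq_single i]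
      · simp [hη]
      · intro l _ hl
        simp [hη, Pi.single_eq_of_ne hl]
      · intro h
        exact absurd (Finset.mem_univ i) h
    set F : MvPolynomial (Fin 2) ℂ →ₐ[ℂ] MvPolynomial (Fin 2) ℂ :=
      MvPolynomial.aeval (fun l => MvPolynomial.X l - MvPolynomial.C (2 * Real.pi * I * M * n l)) with hF
    have hL := TF_line f hf (fun l => u l + (m l + n l * z)) η p 0
    rw [hX] at hL
    have hR := (b8_au z M u η m n).mul (TF_line f hf u η (F p) 0)
    rw [hX] at hR
    have hfun : (fun s : ℂ => TF f (fun l => u l + (m l + n l * z) + s * η l) p) =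
        fun s : ℂ => (∏ l, au z (m l) (n l) (u l + s * η l)) ^ M * TF f (fun l => u l + s * η l) (F p) := by
      funext s
      have h1 := hp (fun l => u l + s * η l)
      rw [← h1]
      congr 1
      funext l
      ring
    rw [hfun] at hL
    have hu := hL.unique hR
    simp only [zero_mul, add_zero] at hu
    have hsum : ∑ l, 2 * Real.pi * I * M * n l * η l = 2 * Real.pi * I * M * n i := by
      rw [Finset.sum_eq_single i]
      · simp [hη]
      · intro l _ hl
        simp [hη, Pi.single_eq_of_ne hl]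
      · intro h
        exact absurd (Finset.mem_univ i) h
    rw [hsum] at hu
    have hFX : F (p * MvPolynomial.X i) = MvPolynomial.X i * F p - MvPolynomial.C (2 * Real.pi * I * M * n i) * F p := by
      rw [map_mul, hF, MvPolynomial.aeval_X]
      ring
    have hsub : TF f u (MvPolynomial.X i * F p - MvPolynomial.C (2 * Real.pi * I * M * n i) * F p) =
        TF f u (MvPolynomial.X i * F p) - 2 * Real.pi * I * M * n i * TF f u (F p) := by
      have e3 : MvPolynomial.X i * F p - MvPolynomial.C (2 * Real.pi * I * M * n i) * F p =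
          MvPolynomial.X i * F p + MvPolynomial.C (-(2 * Real.pi * I * M * n i)) * F p := by
        rw [MvPolynomial.C_neg]
        ring
      rw [e3, TF_add, TF_C_mul]
      ring
    rw [hFX, hsub, mul_comm p]
    rw [hu]
    ring

end Pool.Agent.MSW

end
end
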