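import Pool.Agent.Lib.MP_f58a57_nt.K.A1_Deriv
import Pool.Agent.Lib.MP_f58a57_nt.T.B1_Line

/-! # MP_f58a57_nt, all nonspecial points: B2_Rep -/

/-! ### the covariant derivative as a derivative along a line -/

section

open Complex Filter Topology

noncomputable section

namespace Pool.Agent.MSW

open MSD MSP

theorem b1_shift (a r om : ℂ) : HasDerivAt (fun s : ℂ => a + s / om * r) (r / om) 0 := by
  have h := (((hasDerivAt_id (0 : ℂ)).div_const om).mul_const r).const_add a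
  have e : 1 / om * r = r / om := by ring
  rw [e] at h
  exact h

theorem b1_add_shift (h a r om : ℂ) : HasDerivAt (fun s : ℂ => h + (a + s / om * r)) (r / om) 0 :=
  (b1_shift a r om).const_add h

theorem b1_at (h a r om : ℂ) : h + (a + 0 / om * r) = h + a := by
  rw [zero_div, zero_mul, add_zero]

theorem b1_X (D : Dw) (l : Fin 2) (a r : ℂ) (h : th D.z (D.h l + a) ≠ 0) :
    HasDerivAt (fun s : ℂ => D.X l (a + s / D.om * r)) (r * D.Y l a) 0 := by
  have h0 := D.ne
  have h1 := b1_add_shift (D.h l) a r D.om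
  have h2 := (wp_analyticAt D.z (sE D.z) D.im _ h).differentiableAt.hasDerivAt
  rw [← b1_at (D.h l) a r D.om] at h2
  have h3 := (h2.comp (0 : ℂ) h1).div_const (D.om ^ 2)
  have e : r * D.Y l a = deriv (wp D.z (sE D.z)) (D.h l + (a + 0 / D.om * r)) * (r / D.om) / D.om ^ 2 := by
    rw [b1_at]
    unfold Dw.Y
    field_simp
  rw [e]
  exact h3

theorem b1_Y (D : Dw) (l : Fin 2) (a r : ℂ) (h : th D.z (D.h l + a) ≠ 0) :
    HasDerivAt (fun s : ℂ => D.Y l (a + s / D.om * r)) (r * (6 * D.X l a ^ 2 - D.g)) 0 := by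
  have h0 := D.ne
  have h1 := b1_add_shift (D.h l) a r D.om
  have h2 := wp_ode2 D.z D.im _ h
  have h2' : HasDerivAt (deriv (wp D.z (sE D.z)))
      (6 * wp D.z (sE D.z) (D.h l + a) ^ 2 - 2 / 3 * Real.pi ^ 4 * MSD.e4 D.z) (D.h l + (a + 0 / D.om * r)) := by
    rw [b1_at]
    exact h2
  have h3 := (h2'.comp (0 : ℂ) h1).div_const (D.om ^ 3)
  have e : r * (6 * D.X l a ^ 2 - D.g) =
      (6 * wp D.z (sE D.z) (D.h l + a) ^ 2 - 2 / 3 * Real.pi ^ 4 * MSD.e4 D.z) * (r / D.om) / D.om ^ 3 := by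
    unfold Dw.X Dw.g
    field_simp
  rw [e]
  exact h3

theorem b1_ps (D : Dw) (l : Fin 2) (a r : ℂ) (h : th D.z (D.h l + a) ≠ 0) :
    HasDerivAt (fun s : ℂ => D.ps l (a + s / D.om * r)) (-((D.om ^ 2 * D.X l a + sE D.z) * (r / D.om))) 0 := by
  have h0 := D.ne
  have h1 := b1_add_shift (D.h l) a r D.om
  have h2 := hasDerivAt_ph D.z (sE D.z) D.im _ h
  have h2' : HasDerivAt (ph D.z) (-(wp D.z (sE D.z) (D.h l + a) + sE D.z)) (D.h l + (a + 0 / D.om * r)) := by
    rw [b1_at]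
    exact h2
  have h3 := (h2'.comp (0 : ℂ) h1).sub_const (ph D.z (D.h l))
  have e1 : D.om ^ 2 * D.X l a = wp D.z (sE D.z) (D.h l + a) := by
    unfold Dw.X
    field_simp
  have e : -((D.om ^ 2 * D.X l a + sE D.z) * (r / D.om)) =
      -(wp D.z (sE D.z) (D.h l + a) + sE D.z) * (r / D.om) := by
    rw [e1]
    ring
  rw [e]
  exact h3

theorem b1_pp (D : Dw) (M : ℕ) (r t : Fin 2 → ℂ) (h : ∀ l, th D.z (D.h l + t l) ≠ 0) :
    HasDerivAt (fun s : ℂ => (∏ l, th D.z (D.h l + (t l + s / D.om * r l))) ^ M)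
      (M * (1 / D.om * ∑ l, r l * ph D.z (D.h l + t l)) * (∏ l, th D.z (D.h l + t l)) ^ M) 0 := by
  have h0 := D.ne
  have h1 : ∀ l, HasDerivAt (fun s : ℂ => th D.z (D.h l + (t l + s / D.om * r l)))
      (r l / D.om * ph D.z (D.h l + t l) * th D.z (D.h l + t l)) 0 := by
    intro l
    have h2 := b1_add_shift (D.h l) (t l) (r l) D.om
    have h3 : HasDerivAt (th D.z) (deriv (th D.z) (D.h l + t l)) (D.h l + (t l + 0 / D.om * r l)) := by
      rw [b1_at]
      exact (th_differentiable D.z D.im _).hasDerivAt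
    have h4 := h3.comp (0 : ℂ) h2
    have h5 : ph D.z (D.h l + t l) * th D.z (D.h l + t l) = deriv (th D.z) (D.h l + t l) := by
      unfold ph N1 N0
      exact div_mul_cancel₀ _ (h l)
    have e : r l / D.om * ph D.z (D.h l + t l) * th D.z (D.h l + t l) = deriv (th D.z) (D.h l + t l) * (r l / D.om) := by
      rw [mul_assoc, h5]
      ring
    rw [e]
    exact h4
  have h2 : HasDerivAt (fun s : ℂ => ∏ l, th D.z (D.h l + (t l + s / D.om * r l)))
      (1 / D.om * (∑ l, r l * ph D.z (D.h l + t l)) * ∏ l, th D.z (D.h l + t l)) 0 := by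
    have h3 := (h1 0).fun_mul (h1 1)
    rw [b1_at, b1_at] at h3
    simp only [Fin.prod_univ_two, Fin.sum_univ_two]
    refine h3.congr_deriv ?_
    field_simp
  have h3 := h2.fun_pow M
  refine h3.congr_deriv ?_
  have e0 : (∏ l, th D.z (D.h l + (t l + 0 / D.om * r l))) = ∏ l, th D.z (D.h l + t l) :=
    Finset.prod_congr rfl fun l _ => by rw [b1_at]
  rw [e0]
  rcases M with _ | M
  · simp
  · rw [Nat.add_sub_cancel, pow_succ]
    push_cast
    ring

theorem b1_cp (D : Dw) (W : ℂ) (t : Fin 2 → ℂ) (l : Fin 2) :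
    MvPolynomial.aeval (evW D W t) (cp l) = cz D.z l := by
  unfold cp cz
  split_ifs
  · exact map_one _
  · exact MvPolynomial.aeval_X _ _

/-- the derivative of the values of the polynomials along the line -/
theorem b1_ev (D : Dw) (W : ℂ) (t : Fin 2 → ℂ) (h : ∀ l, th D.z (D.h l + t l) ≠ 0) (R : MvPolynomial Vw ℤ) :
    HasDerivAt (fun s : ℂ => MvPolynomial.aeval (evW D (W + s * D.qq) (fun l => t l + s / D.om * (rh * cz D.z l))) R)
      (MvPolynomial.aeval (evW D W t) (dlt R)) 0 := by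
  have h0 := D.ne
  have e0 : evW D (W + 0 * D.qq) (fun l => t l + 0 / D.om * (rh * cz D.z l)) = evW D W t := by
    congr 1
    · rw [zero_mul, add_zero]
    · funext l
      rw [zero_div, zero_mul, add_zero]
  have key := MSK.a1_main (fun s : ℂ => evW D (W + s * D.qq) (fun l => t l + s / D.om * (rh * cz D.z l)))
    dlv 1 0 (fun v => ?_) R
  · rw [e0, one_mul] at key
    exact key
  · rw [e0, one_mul]
    cases v with
    | X l =>
      have e : MvPolynomial.aeval (evW D W t) (dlv (Vw.X l)) = rh * cz D.z l * D.Y l (t l) := by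
        simp only [dlv, map_mul, b1_cp, MvPolynomial.aeval_X]
        rfl
      rw [e]
      exact b1_X D l (t l) (rh * cz D.z l) (h l)
    | Y l =>
      have e : MvPolynomial.aeval (evW D W t) (dlv (Vw.Y l)) =
          rh * cz D.z l * (6 * D.X l (t l) ^ 2 - D.g) := by
        simp only [dlv, map_mul, map_sub, map_pow, b1_cp, MvPolynomial.aeval_X, map_ofNat]
        rfl
      rw [e]
      exact b1_Y D l (t l) (rh * cz D.z l) (h l)
    | Q =>
      have e : MvPolynomial.aeval (evW D W t) (dlv Vw.Q) =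
          -(rh ^ 2 * ∑ l, cz D.z l ^ 2 * D.X l (t l)) := by
        simp only [dlv, map_neg, map_sum, map_mul, map_pow, b1_cp, MvPolynomial.aeval_X]
        rfl
      rw [e]
      have h1 : HasDerivAt (fun s : ℂ => W + s * D.qq) D.qq 0 := by
        simpa using ((hasDerivAt_id (0 : ℂ)).mul_const D.qq).const_add W
      have h2 : HasDerivAt (fun s : ℂ => ∑ l, cz D.z l * D.ps l (t l + s / D.om * (rh * cz D.z l)))
          (∑ l, cz D.z l * (-((D.om ^ 2 * D.X l (t l) + sE D.z) * (rh * cz D.z l / D.om)))) 0 :=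
        HasDerivAt.fun_sum fun l _ => (b1_ps D l (t l) (rh * cz D.z l) (h l)).const_mul (cz D.z l)
      have h3 := h1.fun_add (h2.const_mul (rh / D.om))
      refine h3.congr_deriv ?_
      unfold Dw.qq Dw.k
      simp only [Fin.sum_univ_two]
      field_simp
      ring
    | g =>
      simp only [dlv, map_zero]
      exact hasDerivAt_const _ _
    | k =>
      simp only [dlv, map_zero]
      exact hasDerivAt_const _ _
    | z =>
      simp only [dlv, map_zero]
      exact hasDerivAt_const _ _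
    | r =>
      simp only [dlv, map_zero]
      exact hasDerivAt_const _ _

/-- B1. PROOF. Compare `psi_line` in R/B1_Psi (complete proof there). Put `η_l = rh c_l`, `u_l = D.h l + t l`. By `a1_main` (K/A1_Deriv; the general principle for a derivation and the derivatives of the variables, here with `c = 1`) it suffices to differentiate the variables at `s = 0`:
`X l`: `wp'(u_l) η_l/om / om² = η_l Y_l`; `Y l`: `η_l (6 X_l² - g)` (`wp_ode2`); `Q`: `qq + (rh/om) ∑ c_l (-(wp u_l + sE)) η_l/om = qq - rh² ∑ c_l² (X_l + k) = - rh² ∑ c_l² X_l` (`hasDerivAt_ph` with `s = sE`, `D.qq`, `D.k`); `g, k, z, r`: constants. These are the values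
of `dlv` (`cp l` has the value `c_l`). The logarithmic derivative of `(∏ th)^M` is `M (rh/om) ∑ c_l ph(u_l) = M (Q - W + lam)` (`D.Q`, `D.lam`, `D.ps`), so the derivative of the product is
`(aeval (dlt R) + M Q aeval R) (∏ th)^M - M (W - lam) aeval R (∏ th)^M`. -/
theorem psi_line (D : Dw) (M : ℕ) (W : ℂ) (t : Fin 2 → ℂ) (h : ∀ l, th D.z (D.h l + t l) ≠ 0) (R : MvPolynomial Vw ℤ) :
    HasDerivAt (fun s : ℂ => MvPolynomial.aeval (evW D (W + s * D.qq) (fun l => t l + s / D.om * (rh * cz D.z l))) R *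
        (∏ l, th D.z (D.h l + (t l + s / D.om * (rh * cz D.z l)))) ^ M)
      (MvPolynomial.aeval (evW D W t) (nab M R) * (∏ l, th D.z (D.h l + t l)) ^ M -
        M * (W - D.lam) * (MvPolynomial.aeval (evW D W t) R * (∏ l, th D.z (D.h l + t l)) ^ M)) 0 := by
  have h1 := b1_ev D W t h R
  have h2 := b1_pp D M (fun l => rh * cz D.z l) t h
  have h3 := h1.fun_mul h2
  refine h3.congr_deriv ?_
  have e0 : evW D (W + 0 * D.qq) (fun l => t l + 0 / D.om * (rh * cz D.z l)) = evW D W t := by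
    congr 1
    · rw [zero_mul, add_zero]
    · funext l
      rw [zero_div, zero_mul, add_zero]
  have e1 : (∏ l, th D.z (D.h l + (t l + 0 / D.om * (rh * cz D.z l)))) = ∏ l, th D.z (D.h l + t l) :=
    Finset.prod_congr rfl fun l _ => by rw [b1_at]
  rw [e0, e1]
  have e2 : MvPolynomial.aeval (evW D W t) (nab M R) = MvPolynomial.aeval (evW D W t) (dlt R) +
      M * ((W + (1 / D.om * ∑ l, rh * cz D.z l * ph D.z (D.h l + t l)) - D.lam) *
        MvPolynomial.aeval (evW D W t) R) := by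
    unfold nab
    rw [map_add, map_mul, map_mul, MvPolynomial.aeval_X, map_natCast]
    congr 3
    change W + rh / D.om * ∑ l, cz D.z l * D.ps l (t l) = _
    unfold Dw.lam Dw.ps
    simp only [Fin.sum_univ_two]
    ring
  rw [e2]
  ring

end Pool.Agent.MSW

end
end

/-! ### derivatives of the auxiliary function at the base point -/

section

open Complex Filter Topology

noncomputable section

namespace Pool.Agent.MSW

open MSD MSP

/-- the values along the line `ζ a` -/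
def evl (D : Dw) (a : Fin 2 → ℤ) (ζ : ℂ) : Vw → ℂ := evW D (D.om * (ζ * a 1)) (fun l => ζ * a l)

theorem evl_zero (D : Dw) (a : Fin 2 → ℤ) : evl D a 0 = vals D := by
  funext v
  cases v <;> simp [evl, evW, vals, Dw.Q, Dw.ps]

theorem c1_X (D : Dw) (l : Fin 2) (u ζ : ℂ) (h : th D.z (D.h l + ζ * u) ≠ 0) :
    HasDerivAt (fun ζ' => D.X l (ζ' * u)) (D.om * (u * D.Y l (ζ * u))) ζ := by
  have h0 := D.ne
  have h1 : HasDerivAt (fun ζ' : ℂ => D.h l + ζ' * u) u ζ := by
    simpa using ((hasDerivAt_id ζ).mul_const u).const_add (D.h l)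
  have h2 := (wp_analyticAt D.z (sE D.z) D.im _ h).differentiableAt.hasDerivAt
  have h3 := (h2.comp ζ h1).div_const (D.om ^ 2)
  have e : D.om * (u * D.Y l (ζ * u)) = deriv (wp D.z (sE D.z)) (D.h l + ζ * u) * u / D.om ^ 2 := by
    unfold Dw.Y
    field_simp
  rw [e]
  exact h3

theorem c1_Y (D : Dw) (l : Fin 2) (u ζ : ℂ) (h : th D.z (D.h l + ζ * u) ≠ 0) :
    HasDerivAt (fun ζ' => D.Y l (ζ' * u))
      (D.om * (u * (6 * D.X l (ζ * u) ^ 2 - 2 / 3 * Real.pi ^ 4 * e4 D.z / D.om ^ 4))) ζ := by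
  have h0 := D.ne
  have h1 : HasDerivAt (fun ζ' : ℂ => D.h l + ζ' * u) u ζ := by
    simpa using ((hasDerivAt_id ζ).mul_const u).const_add (D.h l)
  have h2 := wp_ode2 D.z D.im _ h
  have h3 := (h2.comp ζ h1).div_const (D.om ^ 3)
  have e : D.om * (u * (6 * D.X l (ζ * u) ^ 2 - 2 / 3 * Real.pi ^ 4 * e4 D.z / D.om ^ 4)) =
      (6 * wp D.z (sE D.z) (D.h l + ζ * u) ^ 2 - 2 / 3 * Real.pi ^ 4 * MSD.e4 D.z) * u / D.om ^ 3 := by
    unfold Dw.X
    field_simp
  rw [e]
  exact h3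

theorem c1_ps (D : Dw) (l : Fin 2) (u ζ : ℂ) (h : th D.z (D.h l + ζ * u) ≠ 0) :
    HasDerivAt (fun ζ' => D.ps l (ζ' * u)) (-(D.om ^ 2 * D.X l (ζ * u) + sE D.z) * u) ζ := by
  have h0 := D.ne
  have h1 : HasDerivAt (fun ζ' : ℂ => D.h l + ζ' * u) u ζ := by
    simpa using ((hasDerivAt_id ζ).mul_const u).const_add (D.h l)
  have h2 := hasDerivAt_ph D.z (sE D.z) D.im _ h
  have h3 := (h2.comp ζ h1).sub_const (ph D.z (D.h l))
  have e : D.om ^ 2 * D.X l (ζ * u) = wp D.z (sE D.z) (D.h l + ζ * u) := by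
    unfold Dw.X
    field_simp
  rw [e]
  exact h3

theorem c1_cp (D : Dw) (a : Fin 2 → ℤ) (ζ : ℂ) (l : Fin 2) :
    MvPolynomial.aeval (evl D a ζ) (cp l) = cz D.z l := by
  unfold cp cz
  split_ifs
  · rw [map_one]
  · rw [MvPolynomial.aeval_X]
    rfl

theorem c1_near (D : Dw) (a : Fin 2 → ℤ) :
    ∀ᶠ ζ : ℂ in nhds 0, ∀ l, th D.z (D.h l + ζ * a l) ≠ 0 := by
  rw [Filter.eventually_all]
  intro l
  have hc : Continuous (fun ζ : ℂ => th D.z (D.h l + ζ * a l)) :=
    (th_differentiable D.z D.im).continuous.comp (by fun_prop)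
  have h0 : (fun ζ : ℂ => th D.z (D.h l + ζ * a l)) 0 ≠ 0 := by
    simpa using D.hh l
  exact hc.continuousAt.eventually_ne h0

/-- C1a. PROOF. Compare `hasDerivAt_ev` in K/A1_Deriv (complete proof there). By `MSK.a1_main` it suffices to treat the variables: `d/dζ X_l = a_l wp'/om² = om a_l Y_l`; `d/dζ Y_l = a_l (6 wp² - (2/3)π⁴ e4)/om³ = om a_l (6 X_l² - g)` (`wp_ode2`);
`d/dζ Q = om a_1 + (rh/om) ∑ c_l a_l (-(wp + sE)) = om (a_1 - rh ∑ c_l a_l (X_l + k))` (`hasDerivAt_ph`, `om² k = sE`, `cp l` has the value `c_l`). -/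
theorem hasDerivAt_evl (D : Dw) (a : Fin 2 → ℤ) (ζ : ℂ) (h : ∀ l, th D.z (D.h l + ζ * a l) ≠ 0) (p : MvPolynomial Vw ℤ) :
    HasDerivAt (fun ζ' => MvPolynomial.aeval (evl D a ζ') p) (D.om * MvPolynomial.aeval (evl D a ζ) (der a p)) ζ := by
  refine MSK.a1_main (evl D a) (dv a) D.om ζ (fun v => ?_) p
  have h0 := D.ne
  cases v with
  | X l =>
    have e : MvPolynomial.aeval (evl D a ζ) (dv a (Vw.X l)) = (a l : ℂ) * D.Y l (ζ * a l) := by
      simp only [dv, map_mul, MvPolynomial.aeval_X, MvPolynomial.aeval_C]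
      rfl
    rw [e]
    exact c1_X D l _ ζ (h l)
  | Y l =>
    have e : MvPolynomial.aeval (evl D a ζ) (dv a (Vw.Y l)) =
        (a l : ℂ) * (6 * D.X l (ζ * a l) ^ 2 - 2 / 3 * Real.pi ^ 4 * e4 D.z / D.om ^ 4) := by
      simp only [dv, map_mul, map_sub, map_pow, MvPolynomial.aeval_X, MvPolynomial.aeval_C, map_ofNat]
      rfl
    rw [e]
    exact c1_Y D l _ ζ (h l)
  | Q =>
    have hl : ∀ l, HasDerivAt (fun ζ' => D.ps l (ζ' * a l)) (-(D.om ^ 2 * D.X l (ζ * a l) + sE D.z) * a l) ζ :=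
      fun l => c1_ps D l _ ζ (h l)
    have h1 : HasDerivAt (fun ζ' : ℂ => D.om * (ζ' * a 1)) (D.om * a 1) ζ := by
      simpa using ((hasDerivAt_id ζ).mul_const ((a 1 : ℤ) : ℂ)).const_mul D.om
    have h2 : HasDerivAt (fun ζ' : ℂ => ∑ l, cz D.z l * D.ps l (ζ' * a l))
        (∑ l, cz D.z l * (-(D.om ^ 2 * D.X l (ζ * a l) + sE D.z) * a l)) ζ :=
      HasDerivAt.fun_sum (fun l _ => (hl l).const_mul (cz D.z l))
    have h3 := h1.fun_add (h2.const_mul (rh / D.om))
    have e : D.om * MvPolynomial.aeval (evl D a ζ) (dv a Vw.Q) =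
        D.om * a 1 + rh / D.om * ∑ l, cz D.z l * (-(D.om ^ 2 * D.X l (ζ * a l) + sE D.z) * a l) := by
      have e1 : MvPolynomial.aeval (evl D a ζ) (dv a Vw.Q) =
          (a 1 : ℂ) - rh * ∑ l, cz D.z l * (a l * (D.X l (ζ * a l) + D.k)) := by
        simp only [dv, map_mul, map_sub, map_add, map_sum, c1_cp, MvPolynomial.aeval_X, MvPolynomial.aeval_C]
        rfl
      rw [e1, Fin.sum_univ_two, Fin.sum_univ_two]
      unfold Dw.k
      field_simp
      ring
    rw [e]
    exact h3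
  | g =>
    simp only [dv, map_zero, mul_zero]
    exact hasDerivAt_const ζ _
  | k =>
    simp only [dv, map_zero, mul_zero]
    exact hasDerivAt_const ζ _
  | z =>
    simp only [dv, map_zero, mul_zero]
    exact hasDerivAt_const ζ _
  | r =>
    simp only [dv, map_zero, mul_zero]
    exact hasDerivAt_const ζ _

/-- C1b. PROOF. Compare `iter_gen` in R/C1_Iter: `hasDerivAt_evl` holds for `ζ` near `0` (`D.hh`, continuity), so by induction on `k` the `k`-th derivative is `om^k aeval (evl ζ) (der^[k] p)` for `ζ` near `0`; `evl_zero`. -/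
theorem iter_gen (D : Dw) (a : Fin 2 → ℤ) (p : MvPolynomial Vw ℤ) (k : ℕ) :
    iteratedDeriv k (fun ζ : ℂ => MvPolynomial.aeval (evl D a ζ) p) 0 = D.om ^ k * MvPolynomial.aeval (vals D) ((der a)^[k] p) ∧
      AnalyticAt ℂ (fun ζ : ℂ => MvPolynomial.aeval (evl D a ζ) p) 0 := by
  have hnear := c1_near D a
  have hiter : ∀ k : ℕ, iteratedDeriv k (fun ζ : ℂ => MvPolynomial.aeval (evl D a ζ) p) =ᶠ[nhds 0]
      fun ζ => D.om ^ k * MvPolynomial.aeval (evl D a ζ) ((der a)^[k] p) := by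
    intro k
    induction k with
    | zero =>
      refine Filter.Eventually.of_forall (fun ζ => ?_)
      simp only [iteratedDeriv_zero, pow_zero, one_mul, Function.iterate_zero, id]
    | succ k ih =>
      rw [iteratedDeriv_succ]
      refine ih.deriv.trans ?_
      filter_upwards [hnear] with ζ hζ
      have h1 := (hasDerivAt_evl D a ζ hζ ((der a)^[k] p)).const_mul (D.om ^ k)
      rw [h1.deriv]
      simp only [Function.iterate_succ_apply']
      ring
  constructor
  · have h := (hiter k).self_of_nhds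
    rw [h]
    show D.om ^ k * MvPolynomial.aeval (evl D a 0) ((der a)^[k] p) = _
    rw [evl_zero]
  · rw [Complex.analyticAt_iff_eventually_differentiableAt]
    filter_upwards [hnear] with ζ hζ
    exact (hasDerivAt_evl D a ζ hζ p).differentiableAt

theorem c1_FR (D : Dw) {L E : ℕ} (c : Iw L E → ℂ) (a : Fin 2 → ℕ) :
    (fun ζ : ℂ => FR D c (fun j => ζ * a j)) =
      fun ζ : ℂ => ∑ ν, c ν * MvPolynomial.aeval (evl D (fun j => (a j : ℤ)) ζ) (Rp ν) := by
  funext ζ
  simp only [FR, evl, Int.cast_natCast]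

/-- C1c. PROOF. C1b and linearity. -/
theorem iteratedDeriv_FR (D : Dw) {L E : ℕ} (c : Iw L E → ℂ) (a : Fin 2 → ℕ) (k : ℕ) :
    iteratedDeriv k (fun ζ : ℂ => FR D c (fun j => ζ * a j)) 0 =
      D.om ^ k * ∑ ν, c ν * MvPolynomial.aeval (vals D) ((der (fun j => (a j : ℤ)))^[k] (Rp ν)) := by
  have hs : ∀ ν ∈ (Finset.univ : Finset (Iw L E)), ContDiffAt ℂ (k : ℕ∞)
      (fun ζ : ℂ => c ν * MvPolynomial.aeval (evl D (fun j => (a j : ℤ)) ζ) (Rp ν)) 0 := fun ν _ =>
    (analyticAt_const.mul (iter_gen D (fun j => (a j : ℤ)) _ k).2).contDiffAt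
  rw [c1_FR, iteratedDeriv_fun_sum hs, Finset.mul_sum]
  refine Finset.sum_congr rfl fun ν _ => ?_
  rw [iteratedDeriv_const_mul_field, (iter_gen D (fun j => (a j : ℤ)) _ k).1]
  ring

theorem FR_line_analytic (D : Dw) {L E : ℕ} (c : Iw L E → ℂ) (a : Fin 2 → ℕ) :
    AnalyticAt ℂ (fun ζ : ℂ => FR D c (fun j => ζ * a j)) 0 := by
  rw [c1_FR]
  exact Finset.analyticAt_fun_sum _ fun ν _ => analyticAt_const.mul (iter_gen D (fun j => (a j : ℤ)) _ 0).2

end Pool.Agent.MSW

end
end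

/-! ### the functions `Rp` and the sections -/

section

open Complex Filter Topology

noncomputable section

namespace Pool.Agent.MSW

open MSD MSP

/-- B4a. PROOF. Compare `b4_step` and `rep` in R/B4_Rep. Let `f l` be entire and suppose the identity for `R` and `B`, for all `W, t` with `th ≠ 0`. The two functions of `s` in `psi_line` (for `R`) and `th_line` (for `B`) agree for `s` near `0` (the condition `th ≠ 0` is open), so their derivatives at `0` agree
(`HasDerivAt.unique`, `HasDerivAt.congr_of_eventuallyEq`), and the terms `M (W - lam) ..` agree by the hypothesis at `s = 0`. -/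
theorem rep_step (D : Dw) (M : ℕ) (f : Fin 2 → ℂ → ℂ) (hf : ∀ l, Differentiable ℂ (f l)) (R : MvPolynomial Vw ℤ) (B : Polynomial ℂ)
    (hR : ∀ (W : ℂ) (t : Fin 2 → ℂ), (∀ l, th D.z (D.h l + t l) ≠ 0) →
      MvPolynomial.aeval (evW D W t) R * (∏ l, th D.z (D.h l + t l)) ^ M = TF f (fun l => D.h l + t l) (Polynomial.aeval (lin D M W) B))
    (W : ℂ) (t : Fin 2 → ℂ) (h : ∀ l, th D.z (D.h l + t l) ≠ 0) :
    MvPolynomial.aeval (evW D W t) (nab M R) * (∏ l, th D.z (D.h l + t l)) ^ M =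
      TF f (fun l => D.h l + t l) (Polynomial.aeval (lin D M W) (Polynomial.X * B + Polynomial.C ((M : ℂ) * D.qq) * Polynomial.derivative B)) := by
  have h1 := psi_line D M W t h R
  have h2 := th_line D M f hf W t B
  have hev : ∀ᶠ s : ℂ in 𝓝 0, ∀ l, th D.z (D.h l + (t l + s / D.om * (rh * cz D.z l))) ≠ 0 := by
    rw [eventually_all]
    intro l
    have hc : Continuous (fun s : ℂ => th D.z (D.h l + (t l + s / D.om * (rh * cz D.z l)))) :=
      (th_differentiable D.z D.im).continuous.comp (by fun_prop)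
    refine hc.continuousAt.eventually_ne ?_
    rw [zero_div, zero_mul, add_zero]
    exact h l
  have h3 : (fun s : ℂ => MvPolynomial.aeval (evW D (W + s * D.qq) (fun l => t l + s / D.om * (rh * cz D.z l))) R *
        (∏ l, th D.z (D.h l + (t l + s / D.om * (rh * cz D.z l)))) ^ M) =ᶠ[𝓝 0]
      (fun s : ℂ => TF f (fun l => D.h l + (t l + s / D.om * (rh * cz D.z l)))
        (Polynomial.aeval (lin D M (W + s * D.qq)) B)) := by
    filter_upwards [hev] with s hs
    exact hR _ _ hs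
  have h4 := h1.unique (h2.congr_of_eventuallyEq h3)
  rw [hR W t h] at h4
  exact sub_left_injective h4

/-- the start of the induction, one factor -/
theorem b4_fac (z om : ℂ) (L a : ℕ) (ha : a ≤ L) (u : ℂ) (hu : th z u ≠ 0) :
    (wp z (sE z) u / om ^ 2) ^ a * th z u ^ (2 * L) = fa z om (2 * L) a u := by
  unfold fa wp
  have e0 : N0 z u = th z u := rfl
  rw [e0]
  have e1 : th z u ^ (2 * L) = (th z u ^ 2) ^ a * th z u ^ (2 * L - 2 * a) := by
    rw [← pow_mul, ← pow_add]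
    congr 1
    omega
  rw [e1, ← mul_assoc, ← mul_pow]
  congr 2
  have e2 : th z u ^ 2 ≠ 0 := pow_ne_zero 2 hu
  rw [div_right_comm, div_mul_cancel₀ _ e2]

/-- the start of the induction -/
theorem b4_zero (D : Dw) (L : ℕ) (a : Fin 2 → Fin L) (W : ℂ) (t : Fin 2 → ℂ) (h : ∀ l, th D.z (D.h l + t l) ≠ 0) :
    MvPolynomial.aeval (evW D W t) (∏ l, MvPolynomial.X (Vw.X l) ^ (a l).val : MvPolynomial Vw ℤ) *
      (∏ l, th D.z (D.h l + t l)) ^ (2 * L) = ∏ l, fa D.z D.om (2 * L) (a l).val (D.h l + t l) := by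
  rw [map_prod, ← Finset.prod_pow, ← Finset.prod_mul_distrib]
  refine Finset.prod_congr rfl fun l _ => ?_
  rw [map_pow, MvPolynomial.aeval_X]
  exact b4_fac D.z D.om L _ (a l).isLt.le _ (h l)

/-- B4b. PROOF. Induction on `k = ν.2.val` with `rep_step` for `f l = fa D.z D.om (2L) (ν.1 l)`, `M = 2L`. `k = 0`: `aeval (∏ X_l^(a_l)) (∏ th)^(2L) = ∏_l (wp/om²)^(a_l) th^(2L) = ∏_l fa` (`wp = N2/N0²`, `N0 = th ≠ 0`, `2 a_l ≤ 2L`), and `TF_one`. -/
theorem rep (D : Dw) {L E : ℕ} (ν : Iw L E) (W : ℂ) (t : Fin 2 → ℂ) (h : ∀ l, th D.z (D.h l + t l) ≠ 0) :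
    MvPolynomial.aeval (evW D W t) (Rp ν) * (∏ l, th D.z (D.h l + t l)) ^ (2 * L) = Gn D ν W t := by
  unfold Rp Gn
  generalize ν.2.val = k
  induction k generalizing W t with
  | zero =>
    have e1 : Polynomial.aeval (lin D (2 * L) W) (Bp ((2 * L : ℕ) * D.qq) 0) = 1 := map_one _
    rw [e1, TF_one]
    exact b4_zero D L ν.1 W t h
  | succ k ih =>
    rw [Function.iterate_succ_apply']
    exact rep_step D (2 * L) (fun l => fa D.z D.om (2 * L) (ν.1 l).val) (fun l => fa_diff D.z D.om D.im _ _)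
      ((nab (2 * L))^[k] (∏ l, MvPolynomial.X (Vw.X l) ^ (ν.1 l).val)) (Bp ((2 * L : ℕ) * D.qq) k)
      (fun W t h => ih W t h) W t h

end Pool.Agent.MSW

end
end

/-! ### the auxiliary function and the entire function -/

section

open Complex Filter Topology

noncomputable section

namespace Pool.Agent.MSW

open MSD MSP

theorem b5_vanish (f h : ℂ → ℂ) (hf : AnalyticAt ℂ f 0) (hh : AnalyticAt ℂ h 0) (T : ℕ)
    (h0 : ∀ k < T, iteratedDeriv k f 0 = 0) : ∀ k < T, iteratedDeriv k (fun ζ => f ζ * h ζ) 0 = 0 := by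
  have h1 : (T : ℕ∞) ≤ analyticOrderAt f 0 := (natCast_le_analyticOrderAt_iff_iteratedDeriv_eq_zero hf).mpr h0
  have h2 : (T : ℕ∞) ≤ analyticOrderAt (fun ζ => f ζ * h ζ) 0 := by
    have e : analyticOrderAt (f * h) 0 = analyticOrderAt f 0 + analyticOrderAt h 0 := analyticOrderAt_mul hf hh
    change (T : ℕ∞) ≤ analyticOrderAt (f * h) 0
    rw [e]
    exact h1.trans le_self_add
  exact (natCast_le_analyticOrderAt_iff_iteratedDeriv_eq_zero (hf.fun_mul hh)).mp h2

/-- B5a. PROOF. `rep` with `W = om t_1` and linearity. -/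
theorem FR_GR (D : Dw) {L E : ℕ} (c : Iw L E → ℂ) (t : Fin 2 → ℂ) (h : ∀ l, th D.z (D.h l + t l) ≠ 0) :
    FR D c t * (∏ l, th D.z (D.h l + t l)) ^ (2 * L) = GR D c t := by
  unfold FR GR
  rw [Finset.sum_mul]
  refine Finset.sum_congr rfl (fun ν _ => ?_)
  rw [mul_assoc, rep D ν (D.om * t 1) t h]

theorem b5_pp_diff (D : Dw) (M : ℕ) (a : Fin 2 → ℕ) :
    Differentiable ℂ (fun ζ : ℂ => (∏ l, th D.z (D.h l + ζ * (a l : ℂ))) ^ M) := by
  have h1 : ∀ l : Fin 2, Differentiable ℂ (fun ζ : ℂ => th D.z (D.h l + ζ * (a l : ℂ))) := fun l =>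
    (th_differentiable D.z D.im).comp (by fun_prop)
  simp only [Fin.prod_univ_two]
  exact ((h1 0).mul (h1 1)).pow M

/-- B5b. PROOF. As `GR_vanish` in R/B5_FG: along the line, near `ζ = 0`, `GR = FR (∏ th)^(2L)` (`FR_GR`, continuity, `D.hh`) with `FR` analytic at `0` (`FR_line_analytic`) and the product analytic. `MSR.b5_vanish`. -/
theorem GR_vanish (D : Dw) {L E : ℕ} (c : Iw L E → ℂ) (a : Fin 2 → ℕ) (T : ℕ)
    (h : ∀ k < T, iteratedDeriv k (fun ζ : ℂ => FR D c (fun j => ζ * a j)) 0 = 0) :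
    ∀ k < T, iteratedDeriv k (fun ζ : ℂ => GR D c (fun j => ζ * a j)) 0 = 0 := by
  have hpd := b5_pp_diff D (2 * L) a
  have hv := b5_vanish _ _ (FR_line_analytic D c a) (hpd.analyticAt 0) T h
  have hne : ∀ᶠ ζ in 𝓝 (0 : ℂ), ∀ l, th D.z (D.h l + ζ * (a l : ℂ)) ≠ 0 := by
    have := c1_near D (fun j => (a j : ℤ))
    simpa only [Int.cast_natCast] using this
  have heq : (fun ζ : ℂ => GR D c (fun j => ζ * (a j : ℂ))) =ᶠ[𝓝 0]
      (fun ζ : ℂ => FR D c (fun j => ζ * (a j : ℂ)) * (∏ l, th D.z (D.h l + ζ * (a l : ℂ))) ^ (2 * L)) := by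
    filter_upwards [hne] with ζ hζ
    exact (FR_GR D c _ hζ).symm
  intro k hk
  rw [heq.iteratedDeriv_eq k]
  exact hv k hk

end Pool.Agent.MSW

end
end
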