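import Pool.Agent.Lib.MP_f58a57_nt.P.T5_Growth
import Pool.Agent.Lib.MP_f58a57_nt.R.A5_Nm
import Pool.Agent.Lib.MP_f58a57_nt.T.B1_Line

/-! # MP_f58a57_nt, all nonspecial points: B3_Bound -/

/-! ### bounds for the values -/

section

open Complex Filter Topology

noncomputable section

namespace Pool.Agent.MSW

open MSD MSP

/-- B7a. PROOF. As `TH_bound` in R/B7_Bound: Cauchy's estimate (radius `1`): `‖iteratedDeriv k (f l) (u l)‖ ≤ k! A`. For `m ∈ q.support` `∑ m_l ≤ n`, so `∏ m_l! ≤ ∏ n^(m_l) = n^(∑ m_l)`. -/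
theorem TF_bound (f : Fin 2 → ℂ → ℂ) (hf : ∀ l, Differentiable ℂ (f l)) (u : Fin 2 → ℂ) (q : MvPolynomial (Fin 2) ℂ) (n : ℕ) (hn : 1 ≤ n)
    (hq : q.totalDegree ≤ n) (A : ℝ) (hA : 1 ≤ A) (h : ∀ l, ∀ v : ℂ, ‖v - u l‖ ≤ 1 → ‖f l v‖ ≤ A) : ‖TF f u q‖ ≤ A ^ 2 * MSR.nm n q := by
  have hcau : ∀ l : Fin 2, ∀ k : ℕ, ‖iteratedDeriv k (f l) (u l)‖ ≤ k.factorial * A := by
    intro l k
    have h1 := Complex.norm_iteratedDeriv_le_of_forall_mem_sphere_norm_le (c := u l) (R := 1)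
      (C := A) (f := f l) k one_pos ((hf l).diffContOnCl)
      (fun z hz => h l z (by rw [mem_sphere_iff_norm] at hz; exact hz.le))
    simpa using h1
  unfold TF MSR.nm
  rw [Finset.mul_sum]
  refine (norm_sum_le _ _).trans (Finset.sum_le_sum fun m hm => ?_)
  rw [norm_mul, norm_prod]
  have hsum : (m.sum fun _ e => e) = ∑ l, m l := Finsupp.sum_fintype _ _ (fun _ => rfl)
  have hdeg : ∑ l, m l ≤ n := by
    have h1 := MvPolynomial.le_totalDegree hm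
    rw [hsum] at h1
    exact h1.trans hq
  have hprod : ∏ l, ‖iteratedDeriv (m l) (f l) (u l)‖ ≤ A ^ 2 * (n : ℝ) ^ (m.sum fun _ e => e) := by
    have h1 : ∏ l, ‖iteratedDeriv (m l) (f l) (u l)‖ ≤ ∏ l : Fin 2, (A * (n : ℝ) ^ (m l)) := by
      apply Finset.prod_le_prod (fun _ _ => norm_nonneg _)
      intro l _
      refine (hcau l (m l)).trans ?_
      rw [mul_comm]
      apply mul_le_mul_of_nonneg_left _ (by linarith)
      have h2 : m l ≤ n := (Finset.single_le_sum (f := fun l => m l) (fun _ _ => Nat.zero_le _) (Finset.mem_univ l)).trans hdeg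
      have h3 : (m l).factorial ≤ n ^ (m l) := (Nat.factorial_le_pow (m l)).trans (Nat.pow_le_pow_left h2 _)
      exact_mod_cast h3
    rw [Finset.prod_mul_distrib, Finset.prod_const, Finset.card_univ, Fintype.card_fin, Finset.prod_pow_eq_pow_sum] at h1
    rw [hsum]
    exact h1
  calc ‖q.coeff m‖ * ∏ l, ‖iteratedDeriv (m l) (f l) (u l)‖
      ≤ ‖q.coeff m‖ * (A ^ 2 * (n : ℝ) ^ (m.sum fun _ e => e)) := mul_le_mul_of_nonneg_left hprod (norm_nonneg _)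
    _ = A ^ 2 * (‖q.coeff m‖ * (n : ℝ) ^ (m.sum fun _ e => e)) := by ring

/-- B7b. PROOF. `growth z (sE z) hz`: `‖N0‖, ‖N2‖ ≤ exp(C(1 + (Im t)²))`; `‖om²‖ = π ≥ 1`; `a + (M - 2a) ≤ M`. -/
theorem fa_bound (z : ℂ) (hz : 0 < z.im) : ∃ C : ℝ, 1 ≤ C ∧ ∀ om : ℂ, om ^ 2 = Real.pi → ∀ (M a : ℕ) (t : ℂ), 2 * a ≤ M →
    ‖fa z om M a t‖ ≤ Real.exp (C * M * (1 + t.im ^ 2)) := by
  obtain ⟨C, hC, hg⟩ := growth z (sE z) hz
  refine ⟨C + 1, by linarith, fun om hom M a t ha => ?_⟩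
  obtain ⟨h0, -, h2⟩ := hg t
  have ht : 0 ≤ 1 + t.im ^ 2 := by positivity
  unfold fa
  rw [norm_mul, norm_pow, norm_pow, norm_div, hom, Complex.norm_real, Real.norm_of_nonneg Real.pi_pos.le]
  have h3 : ‖N2 z (sE z) t‖ / Real.pi ≤ Real.exp (C * (1 + t.im ^ 2)) := by
    rw [div_le_iff₀ Real.pi_pos]
    have h4 : (1 : ℝ) ≤ Real.pi := by linarith [Real.pi_gt_three]
    nlinarith [Real.exp_pos (C * (1 + t.im ^ 2))]
  calc (‖N2 z (sE z) t‖ / Real.pi) ^ a * ‖N0 z t‖ ^ (M - 2 * a)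
      ≤ Real.exp (C * (1 + t.im ^ 2)) ^ a * Real.exp (C * (1 + t.im ^ 2)) ^ (M - 2 * a) :=
        mul_le_mul (pow_le_pow_left₀ (div_nonneg (norm_nonneg _) Real.pi_pos.le) h3 _)
          (pow_le_pow_left₀ (norm_nonneg _) h0 _) (by positivity) (by positivity)
    _ = Real.exp (C * (1 + t.im ^ 2)) ^ (a + (M - 2 * a)) := by rw [pow_add]
    _ ≤ Real.exp (C * (1 + t.im ^ 2)) ^ M := by
        refine pow_le_pow_right₀ ?_ (by omega)
        exact Real.one_le_exp (by positivity)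
    _ = Real.exp (M * (C * (1 + t.im ^ 2))) := by rw [← Real.exp_nat_mul]
    _ ≤ Real.exp ((C + 1) * M * (1 + t.im ^ 2)) := by
        apply Real.exp_le_exp.mpr
        have h5 : (0 : ℝ) ≤ M * (1 + t.im ^ 2) := by positivity
        nlinarith

/-- B7c. PROOF. `nm_add, nm_mul, nm_C, nm_X`. -/
theorem lin_nm (D : Dw) (M : ℕ) (W : ℂ) (ρ : ℝ) (hρ : 0 ≤ ρ) :
    MSR.nm ρ (lin D M W) ≤ M * ‖W - D.lam‖ + ‖rh / D.om‖ * (1 + ‖D.z‖) * ρ := by
  unfold lin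
  refine (MSR.nm_add ρ hρ _ _).trans ?_
  refine add_le_add (le_of_eq ?_) ?_
  · rw [MSR.nm_C, norm_mul, Complex.norm_natCast]
  · refine (MSR.nm_mul ρ hρ _ _).trans ?_
    rw [MSR.nm_C, mul_assoc]
    refine mul_le_mul_of_nonneg_left ?_ (norm_nonneg _)
    refine (MSR.nm_sum ρ hρ _ _).trans ?_
    rw [Fin.sum_univ_two]
    have h1 : ∀ l : Fin 2, MSR.nm ρ (MvPolynomial.C (cz D.z l) * MvPolynomial.X l : MvPolynomial (Fin 2) ℂ) ≤ ‖cz D.z l‖ * ρ := by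
      intro l
      refine (MSR.nm_mul ρ hρ _ _).trans ?_
      rw [MSR.nm_C, MSR.nm_X]
    have h2 := h1 0
    have h3 := h1 1
    have h4 : cz D.z 0 = 1 := by simp [cz]
    have h5 : cz D.z 1 = D.z := by simp [cz]
    rw [h4, norm_one] at h2
    rw [h5] at h3
    rw [h4, h5]
    linarith

theorem lin_deg (D : Dw) (M : ℕ) (W : ℂ) : (lin D M W).totalDegree ≤ 1 := by
  unfold lin
  refine (MvPolynomial.totalDegree_add _ _).trans (max_le ?_ ?_)
  · rw [MvPolynomial.totalDegree_C]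
    omega
  · refine (MvPolynomial.totalDegree_mul _ _).trans ?_
    rw [MvPolynomial.totalDegree_C, zero_add]
    refine MvPolynomial.totalDegree_finsetSum_le fun l _ => ?_
    refine (MvPolynomial.totalDegree_mul _ _).trans ?_
    rw [MvPolynomial.totalDegree_C, zero_add, MvPolynomial.totalDegree_X]

end Pool.Agent.MSW

end
end

/-! ### the polynomials `Bp` -/

section

open Complex Filter Topology

noncomputable section

namespace Pool.Agent.MSW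

open MSD MSP

/-- weighted length of a polynomial in one variable -/
def nm1 (ρ : ℝ) (B : Polynomial ℂ) : ℝ := ∑ i ∈ B.support, ‖B.coeff i‖ * ρ ^ i

/-- B7d. PROOF. Induction: `X B_k` is monic of degree `k + 1` and `c B_k'` has smaller degree. -/
theorem Bp_monic (c : ℂ) (k : ℕ) : (Bp c k).Monic ∧ (Bp c k).natDegree = k := by
  induction k with
  | zero =>
    simp only [Bp]
    exact ⟨Polynomial.monic_one, Polynomial.natDegree_one⟩
  | succ k ih =>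
    obtain ⟨h1, h2⟩ := ih
    have hX : (Polynomial.X * Bp c k).Monic := Polynomial.monic_X.mul h1
    have hXd : (Polynomial.X * Bp c k).natDegree = k + 1 := by
      rw [Polynomial.natDegree_X_mul h1.ne_zero, h2]
    have hlt : (Polynomial.C c * Polynomial.derivative (Bp c k)).degree < (Polynomial.X * Bp c k).degree := by
      rw [Polynomial.degree_eq_natDegree hX.ne_zero, hXd]
      refine (Polynomial.degree_le_natDegree).trans_lt ?_
      have h3 : (Polynomial.C c * Polynomial.derivative (Bp c k)).natDegree ≤ k := by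
        refine (Polynomial.natDegree_C_mul_le _ _).trans ?_
        refine (Polynomial.natDegree_derivative_le _).trans ?_
        omega
      exact_mod_cast (Nat.lt_succ_of_le h3)
    simp only [Bp]
    refine ⟨hX.add_of_left hlt, ?_⟩
    rw [Polynomial.natDegree_add_eq_left_of_degree_lt hlt, hXd]

theorem b7_nm1_eq (ρ : ℝ) (B : Polynomial ℂ) (s : Finset ℕ) (h : B.support ⊆ s) :
    nm1 ρ B = ∑ i ∈ s, ‖B.coeff i‖ * ρ ^ i := by
  unfold nm1
  refine Finset.sum_subset h fun m _ hm => ?_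
  rw [Polynomial.notMem_support_iff] at hm
  rw [hm, norm_zero, zero_mul]

theorem b7_nm1_range (ρ : ℝ) (B : Polynomial ℂ) (n : ℕ) (h : B.natDegree ≤ n) :
    nm1 ρ B = ∑ i ∈ Finset.range (n + 1), ‖B.coeff i‖ * ρ ^ i := by
  refine b7_nm1_eq ρ B _ fun i hi => ?_
  rw [Finset.mem_range]
  exact Nat.lt_succ_of_le ((Polynomial.le_natDegree_of_mem_supp i hi).trans h)

theorem b7_nm1_nonneg (ρ : ℝ) (hρ : 0 ≤ ρ) (B : Polynomial ℂ) : 0 ≤ nm1 ρ B :=
  Finset.sum_nonneg fun _ _ => mul_nonneg (norm_nonneg _) (pow_nonneg hρ _)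

/-- B7e. PROOF. Sum over a larger set (`nm1_eq` as `nm_eq` in R/A5_Nm); `nm1 (X B) = ρ nm1 B`; `nm1 (C c * B') ≤ ‖c‖ (k/ρ) nm1 B ≤ ‖c‖ n nm1 B` for `natDegree B ≤ k ≤ n`. -/
theorem nm1_Bp (c : ℂ) (n k : ℕ) (hk : k ≤ n) (ρ : ℝ) (hρ : 1 ≤ ρ) : nm1 ρ (Bp c k) ≤ (ρ + ‖c‖ * n) ^ k := by
  have hρ0 : 0 ≤ ρ := by linarith
  induction k with
  | zero =>
    simp only [Bp, pow_zero]
    rw [b7_nm1_range ρ 1 0 (by simp)]
    simp
  | succ k ih =>
    have ih := ih (by omega)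
    obtain ⟨h1, h2⟩ := Bp_monic c k
    have h3 := (Bp_monic c (k + 1)).2
    rw [b7_nm1_range ρ _ (k + 1) h3.le]
    have hB := b7_nm1_range ρ (Bp c k) k h2.le
    have hstep : ∑ i ∈ Finset.range (k + 1 + 1), ‖(Bp c (k + 1)).coeff i‖ * ρ ^ i ≤
        ρ * nm1 ρ (Bp c k) + ‖c‖ * n * nm1 ρ (Bp c k) := by
      have hc : ∀ i, ‖(Bp c (k + 1)).coeff i‖ * ρ ^ i ≤ ‖(Polynomial.X * Bp c k).coeff i‖ * ρ ^ i +
          ‖c‖ * (‖(Bp c k).coeff (i + 1)‖ * (i + 1)) * ρ ^ i := by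
        intro i
        have e : (Bp c (k + 1)).coeff i = (Polynomial.X * Bp c k).coeff i + c * ((Bp c k).coeff (i + 1) * (i + 1)) := by
          simp only [Bp]
          rw [Polynomial.coeff_add, Polynomial.coeff_C_mul, Polynomial.coeff_derivative]
        rw [e, ← add_mul]
        refine mul_le_mul_of_nonneg_right ?_ (pow_nonneg hρ0 _)
        refine (norm_add_le _ _).trans (add_le_add le_rfl ?_)
        rw [norm_mul, norm_mul]
        have e2 : ‖((i : ℂ) + 1)‖ = (i : ℝ) + 1 := by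
          have : ((i : ℂ) + 1) = ((i + 1 : ℕ) : ℂ) := by push_cast; ring
          rw [this, Complex.norm_natCast]
          push_cast
          ring
        rw [e2]
      refine (Finset.sum_le_sum fun i _ => hc i).trans ?_
      rw [Finset.sum_add_distrib]
      refine add_le_add (le_of_eq ?_) ?_
      · rw [Finset.sum_range_succ', hB, Finset.mul_sum]
        rw [Polynomial.coeff_X_mul_zero, norm_zero, zero_mul, add_zero]
        refine Finset.sum_congr rfl fun i _ => ?_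
        rw [Polynomial.coeff_X_mul]
        ring
      · have e0 : ∀ i ∈ Finset.range (k + 1 + 1), ‖c‖ * (‖(Bp c k).coeff (i + 1)‖ * (i + 1)) * ρ ^ i ≤
            ‖c‖ * n * (‖(Bp c k).coeff (i + 1)‖ * ρ ^ (i + 1)) := by
          intro i hi
          by_cases hik : i + 1 ≤ k
          · have hin : ((i : ℝ) + 1) ≤ n := by
              have : i + 1 ≤ n := by omega
              exact_mod_cast this
            have hpow : ρ ^ i ≤ ρ ^ (i + 1) := pow_le_pow_right₀ hρ (by omega)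
            have h5 : ((i : ℝ) + 1) * ρ ^ i ≤ n * ρ ^ (i + 1) := mul_le_mul hin hpow (pow_nonneg hρ0 _) (by positivity)
            have h6 : 0 ≤ ‖c‖ * ‖(Bp c k).coeff (i + 1)‖ := by positivity
            calc ‖c‖ * (‖(Bp c k).coeff (i + 1)‖ * (i + 1)) * ρ ^ i = (‖c‖ * ‖(Bp c k).coeff (i + 1)‖) * (((i : ℝ) + 1) * ρ ^ i) := by ring
              _ ≤ (‖c‖ * ‖(Bp c k).coeff (i + 1)‖) * (n * ρ ^ (i + 1)) := mul_le_mul_of_nonneg_left h5 h6
              _ = _ := by ring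
          · have h7 : (Bp c k).coeff (i + 1) = 0 := Polynomial.coeff_eq_zero_of_natDegree_lt (by omega)
            rw [h7, norm_zero]
            simp
        refine (Finset.sum_le_sum e0).trans ?_
        rw [← Finset.mul_sum]
        refine mul_le_mul_of_nonneg_left ?_ (by positivity)
        have h8 := b7_nm1_range ρ (Bp c k) (k + 1 + 1) (by omega)
        rw [h8, Finset.sum_range_succ' _ (k + 1 + 1)]
        have h9 : 0 ≤ ‖(Bp c k).coeff 0‖ * ρ ^ 0 := by positivity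
        linarith
    refine hstep.trans ?_
    rw [← add_mul, pow_succ, mul_comm]
    exact mul_le_mul_of_nonneg_right ih (by positivity)

/-- B7f. PROOF. `aeval P B = ∑ C(b_i) P^i` (`Polynomial.aeval_eq_sum_range` or `Polynomial.sum`), `MSR.nm_sum`, `nm_mul`, `nm_C`, `MSR.a5_pow`. -/
theorem nm_aeval1 (ρ ρ' : ℝ) (hρ : 0 ≤ ρ) (P : MvPolynomial (Fin 2) ℂ) (h : MSR.nm ρ P ≤ ρ') (B : Polynomial ℂ) :
    MSR.nm ρ (Polynomial.aeval P B) ≤ nm1 ρ' B := by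
  rw [Polynomial.aeval_def, Polynomial.eval₂_eq_sum, Polynomial.sum_def]
  refine (MSR.nm_sum ρ hρ _ _).trans ?_
  unfold nm1
  refine Finset.sum_le_sum fun i _ => ?_
  refine (MSR.nm_mul ρ hρ _ _).trans ?_
  have e : MSR.nm ρ ((algebraMap ℂ (MvPolynomial (Fin 2) ℂ)) (B.coeff i)) = ‖B.coeff i‖ := MSR.nm_C ρ (B.coeff i)
  rw [e]
  exact mul_le_mul_of_nonneg_left (MSR.a5_pow ρ ρ' hρ P h i) (norm_nonneg _)

theorem deg_aeval1 (P : MvPolynomial (Fin 2) ℂ) (hP : P.totalDegree ≤ 1) (B : Polynomial ℂ) :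
    (Polynomial.aeval P B).totalDegree ≤ B.natDegree := by
  rw [Polynomial.aeval_def, Polynomial.eval₂_eq_sum, Polynomial.sum_def]
  refine MvPolynomial.totalDegree_finsetSum_le fun i hi => ?_
  refine (MvPolynomial.totalDegree_mul _ _).trans ?_
  have h1 : ((algebraMap ℂ (MvPolynomial (Fin 2) ℂ)) (B.coeff i)).totalDegree = 0 := MvPolynomial.totalDegree_C _
  rw [h1, zero_add]
  refine (MvPolynomial.totalDegree_pow _ _).trans ?_
  have h2 := Polynomial.le_natDegree_of_mem_supp i hi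
  calc i * P.totalDegree ≤ i * 1 := Nat.mul_le_mul_left _ hP
    _ ≤ B.natDegree := by omega

end Pool.Agent.MSW

end
end

/-! ### periodicity -/

section

open Complex Filter Topology

noncomputable section

namespace Pool.Agent.MSW

open MSD MSP

/-- B9a. PROOF. `lin D M W' = lin D M W + C (M om (N_0 + N_1 z))` if `W' = W + om (N_0 + N_1 z)`; substituting `X_l - 2πi M N_l` adds `-(rh/om) 2πi M (N_0 + z N_1) = -(π/om) M (..) = -M om (..)` (`2πi rh = π`, `om² = π`). -/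
theorem lin_shift (D : Dw) (M : ℕ) (W : ℂ) (N : Fin 2 → ℤ) :
    MvPolynomial.aeval (fun l => MvPolynomial.X l - MvPolynomial.C (2 * Real.pi * I * M * N l) : Fin 2 → MvPolynomial (Fin 2) ℂ)
      (lin D M (W + D.om * (N 0 + N 1 * D.z))) = lin D M W := by
  have hne := D.ne
  have hpi : (Real.pi : ℂ) / D.om = D.om := by
    rw [← D.hom]
    field_simp
  have e1 : rh / D.om * (2 * Real.pi * I) = D.om := by
    have : -I / 2 / D.om * (2 * (Real.pi : ℂ) * I) = -(I * I) * (Real.pi / D.om) := by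
      field_simp
    show -I / 2 / D.om * (2 * (Real.pi : ℂ) * I) = D.om
    rw [this, Complex.I_mul_I, hpi]
    ring
  have hsum : rh / D.om * ∑ l, cz D.z l * (2 * Real.pi * I * M * N l) = M * (D.om * (N 0 + N 1 * D.z)) := by
    rw [Fin.sum_univ_two]
    have c0 : cz D.z 0 = 1 := by simp [cz]
    have c1 : cz D.z 1 = D.z := by simp [cz]
    rw [c0, c1]
    have e2 : rh / D.om * (1 * (2 * Real.pi * I * M * N 0) + D.z * (2 * Real.pi * I * M * N 1)) =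
        rh / D.om * (2 * Real.pi * I) * (M * (N 0 + N 1 * D.z)) := by ring
    rw [e2, e1]
    ring
  unfold MSW.lin
  obtain ⟨K, hK⟩ : ∃ K : Fin 2 → ℂ, ∀ l, 2 * Real.pi * I * M * N l = K l := ⟨_, fun _ => rfl⟩
  simp only [hK] at hsum ⊢
  simp only [map_add, map_mul, map_sum, MvPolynomial.algHom_C, MvPolynomial.algebraMap_eq, MvPolynomial.aeval_X]
  have e3 : ∑ l, MvPolynomial.C (cz D.z l) * (MvPolynomial.X l - MvPolynomial.C (K l)) =
      (∑ l, MvPolynomial.C (cz D.z l) * MvPolynomial.X l : MvPolynomial (Fin 2) ℂ) -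
      MvPolynomial.C (∑ l, cz D.z l * K l) := by
    rw [map_sum, ← Finset.sum_sub_distrib]
    refine Finset.sum_congr rfl fun l _ => ?_
    rw [mul_sub, ← MvPolynomial.C_mul]
  rw [e3]
  obtain ⟨A, hA⟩ : ∃ A : ℂ, A = D.om * (N 0 + N 1 * D.z) := ⟨_, rfl⟩
  rw [← hA] at hsum
  have e4 : (MvPolynomial.C (M * (W + A - D.lam)) : MvPolynomial (Fin 2) ℂ) = MvPolynomial.C (M * (W - D.lam)) +
      MvPolynomial.C (rh / D.om) * MvPolynomial.C (∑ l, cz D.z l * K l) := by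
    rw [← MvPolynomial.C_mul, ← MvPolynomial.C_add, hsum]
    congr 1
    ring
  have e5 : (MvPolynomial.C (M : ℂ) * MvPolynomial.C (W + A - D.lam) : MvPolynomial (Fin 2) ℂ) = MvPolynomial.C (M : ℂ) * MvPolynomial.C (W - D.lam) +
      MvPolynomial.C (rh / D.om) * MvPolynomial.C (∑ l, cz D.z l * K l) := by
    rw [← MvPolynomial.C_mul, ← MvPolynomial.C_mul, ← e4]
  rw [← hA, e5]
  ring

/-- B9b. PROOF. Let `N = (n 1, n 2)`, `m = (n 0, n 1)`; `gam z n l = m l + N l z`. For every `ν`: `TF_shift` (`M = 2L`, `f l = fa`, `fa_shift`, `fa_diff`) at the point `u = h + t`, and `aeval (X - 2πiMN) (aeval (lin D M (om (t_1 + m_1 + N_1 z))) B) = aeval (lin D M (om t_1)) B` by `lin_shift` (`m 1 = n 1 = N 0`).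
So `GA D c (u + gam n) = (∏ l, au z (m l) (N l) (u l))^(2L) GA D c u`. Norm: `norm_au`: `‖au‖ = exp(π N² Im z + 2π N Im u_l)`, and `Qf (u + γ) = Qf u + π ∑ (2 N_l Im u_l + N_l² Im z)` (`Im (u_l + γ_l) = Im u_l + N_l Im z`, `yy_gam`, `yy_add`). -/
theorem Nn_shift (D : Dw) {L E : ℕ} (c : Iw L E → ℂ) (n : Fin 3 → ℤ) (u : Fin 2 → ℂ) :
    Nn D.z (2 * L) (GA D c) (u + gam D.z (fun i => (n i : ℝ))) = Nn D.z (2 * L) (GA D c) u := by
  have hz : 0 < D.z.im := D.im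
  obtain ⟨N, hN⟩ : ∃ N : Fin 2 → ℤ, N = ![n 1, n 2] := ⟨_, rfl⟩
  obtain ⟨m, hm⟩ : ∃ m : Fin 2 → ℤ, m = ![n 0, n 1] := ⟨_, rfl⟩
  have hm1 : m 1 = N 0 := by rw [hm, hN]; rfl
  obtain ⟨γ, hγ⟩ : ∃ γ : Fin 2 → ℂ, γ = gam D.z (fun i => (n i : ℝ)) := ⟨_, rfl⟩
  have hγl : ∀ l, γ l = m l + N l * D.z := by
    intro l
    rw [hγ, hm, hN]
    fin_cases l <;> simp [gam]
  have hyy : yy D.z (u + γ) = yy D.z u := by
    rw [yy_add, hγ, yy_gam D.z hz, add_zero]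
  rw [← hγ]
  have harg : ∀ (v : Fin 2 → ℂ), (fun l => D.h l + (v l - D.h l)) = v := by
    intro v
    funext l
    ring
  have hG : GA D c (u + γ) = (∏ l, au D.z (m l) (N l) (u l)) ^ (2 * L) * GA D c u := by
    unfold GA GR
    rw [Finset.mul_sum]
    refine Finset.sum_congr rfl fun ν _ => ?_
    have key : Gn D ν (D.om * ((u + γ) 1 - D.h 1)) (fun l => (u + γ) l - D.h l) =
        (∏ l, au D.z (m l) (N l) (u l)) ^ (2 * L) * Gn D ν (D.om * (u 1 - D.h 1)) (fun l => u l - D.h l) := by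
      unfold Gn
      rw [harg, harg]
      have e1 : (u + γ) = fun l => u l + (m l + N l * D.z) := by
        funext l
        rw [Pi.add_apply, hγl]
      have e2 : D.om * ((u + γ) 1 - D.h 1) = D.om * (u 1 - D.h 1) + D.om * (N 0 + N 1 * D.z) := by
        rw [Pi.add_apply, hγl, hm1]
        ring
      rw [e2, e1, TF_shift D.z hz (2 * L) _ (fun l => fa_diff D.z D.om hz (2 * L) _) m N
        (fun l t => fa_shift D.z D.om hz (2 * L) _ (by have := (ν.1 l).isLt; omega) (m l) (N l) t) u,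
        ← Polynomial.aeval_algHom_apply, lin_shift]
    show c ν * Gn D ν (D.om * ((u + γ) 1 - D.h 1)) (fun l => (u + γ) l - D.h l) =
      (∏ l, au D.z (m l) (N l) (u l)) ^ (2 * L) * (c ν * Gn D ν (D.om * (u 1 - D.h 1)) (fun l => u l - D.h l))
    rw [key]
    ring
  -- the exponents
  obtain ⟨S, hS⟩ : ∃ S : ℝ, S = ∑ l, (Real.pi * (N l : ℝ) ^ 2 * D.z.im + 2 * Real.pi * N l * (u l).im) := ⟨_, rfl⟩
  have hnorm : ‖(∏ l, au D.z (m l) (N l) (u l)) ^ (2 * L)‖ = Real.exp ((2 * L : ℕ) * S) := by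
    rw [norm_pow, norm_prod, Real.exp_nat_mul, hS, Real.exp_sum]
    congr 1
    exact Finset.prod_congr rfl fun l _ => norm_au D.z (m l) (N l) (u l)
  have hQ : Qf D.z (u + γ) = Qf D.z u + S := by
    unfold Qf
    rw [hyy]
    have h1 : ∑ l, ((u + γ) l).im ^ 2 / D.z.im = ∑ l, (u l).im ^ 2 / D.z.im +
        ∑ l, ((N l : ℝ) ^ 2 * D.z.im + 2 * N l * (u l).im) := by
      rw [← Finset.sum_add_distrib]
      refine Finset.sum_congr rfl fun l _ => ?_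
      have h2 : ((u + γ) l).im = (u l).im + N l * D.z.im := by
        rw [Pi.add_apply, hγl l]
        simp [Complex.add_im, Complex.mul_im]
      rw [h2]
      field_simp
      ring
    have h3 : S = Real.pi * ∑ l, ((N l : ℝ) ^ 2 * D.z.im + 2 * N l * (u l).im) := by
      rw [hS, Finset.mul_sum]
      refine Finset.sum_congr rfl fun l _ => ?_
      ring
    rw [h1, h3]
    ring
  unfold Nn
  rw [hG, norm_mul, hnorm, hQ]
  have e : ∀ A B C : ℝ, Real.exp ((2 * L : ℕ) * A) * C * Real.exp (-((2 * L : ℕ) * (B + A))) = C * Real.exp (-((2 * L : ℕ) * B)) := by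
    intro A B C
    have : Real.exp (-((2 * L : ℕ) * B)) = Real.exp ((2 * L : ℕ) * A) * Real.exp (-((2 * L : ℕ) * (B + A))) := by
      rw [← Real.exp_add]
      congr 1
      ring
    rw [this]
    ring
  exact e _ _ _

end Pool.Agent.MSW

end
end

/-! ### the size of the auxiliary functions -/

section

open Complex Filter Topology

noncomputable section

namespace Pool.Agent.MSW

open MSD MSP

/-- B10a. the numerical inequality. PROOF. `(a (1 + r) + b n)^n ≤ ((a + b) n)^n (1 + (1 + r)/n)^n ≤ ((a + b) n)^n e^(1 + r)`, and `1 + r - π M r² ≤ 2 - M r²` (`M ≥ 1`: `1 + r - (π - 1) M r² ≤ 1 + r - 2 r² ≤ 2`). -/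
theorem b10_num (a b r : ℝ) (ha : 0 ≤ a) (hb : 0 ≤ b) (hr : 0 ≤ r) (n M : ℕ) (hn : 1 ≤ n) (hM : 1 ≤ M) :
    (a * (1 + r) + b * n) ^ n * Real.exp (-(Real.pi * M * r ^ 2)) ≤ ((a + b) * n) ^ n * Real.exp 2 * Real.exp (-(M * r ^ 2)) := by
  have hn0 : (0 : ℝ) < n := by exact_mod_cast hn
  have hM1 : (1 : ℝ) ≤ M := by exact_mod_cast hM
  have hab : 0 ≤ (a + b) * n := mul_nonneg (add_nonneg ha hb) hn0.le
  have e1 : a * (1 + r) + b * n ≤ ((a + b) * n) * Real.exp ((1 + r) / n) := by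
    have h2 : (1 + r) / n + 1 ≤ Real.exp ((1 + r) / n) := Real.add_one_le_exp _
    have h4 : a * (1 + r) + b * n ≤ (a + b) * (1 + r) + (a + b) * n :=
      add_le_add (mul_le_mul_of_nonneg_right (le_add_of_nonneg_right hb) (by linarith))
        (mul_le_mul_of_nonneg_right (le_add_of_nonneg_left ha) hn0.le)
    have h5 : (a + b) * (1 + r) + (a + b) * n = ((a + b) * n) * ((1 + r) / n + 1) := by
      field_simp
    rw [h5] at h4
    exact h4.trans (mul_le_mul_of_nonneg_left h2 hab)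
  have e0 : 0 ≤ a * (1 + r) + b * n := add_nonneg (mul_nonneg ha (by linarith)) (mul_nonneg hb hn0.le)
  have e2 : (a * (1 + r) + b * n) ^ n ≤ ((a + b) * n) ^ n * Real.exp (1 + r) := by
    calc (a * (1 + r) + b * n) ^ n ≤ (((a + b) * n) * Real.exp ((1 + r) / n)) ^ n := pow_le_pow_left₀ e0 e1 n
      _ = ((a + b) * n) ^ n * Real.exp (1 + r) := by
        rw [mul_pow, ← Real.exp_nat_mul]
        congr 2
        field_simp
  have hCn : 0 ≤ ((a + b) * n) ^ n := pow_nonneg hab n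
  have e3 : Real.exp (1 + r) * Real.exp (-(Real.pi * M * r ^ 2)) ≤ Real.exp 2 * Real.exp (-(M * r ^ 2)) := by
    rw [← Real.exp_add, ← Real.exp_add]
    refine Real.exp_le_exp.mpr ?_
    have hpi : 3 < Real.pi := Real.pi_gt_three
    have h6 : r ^ 2 ≤ M * r ^ 2 := le_mul_of_one_le_left (sq_nonneg r) hM1
    have h5 : 3 * (M * r ^ 2) ≤ Real.pi * (M * r ^ 2) :=
      mul_le_mul_of_nonneg_right hpi.le ((sq_nonneg r).trans h6)
    have h7 : r ≤ 1 + 2 * r ^ 2 := by nlinarith [sq_nonneg (r - 1 / 4)]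
    have h8 : Real.pi * M * r ^ 2 = Real.pi * (M * r ^ 2) := by ring
    rw [h8]
    linarith
  calc (a * (1 + r) + b * n) ^ n * Real.exp (-(Real.pi * M * r ^ 2))
      ≤ (((a + b) * n) ^ n * Real.exp (1 + r)) * Real.exp (-(Real.pi * M * r ^ 2)) :=
        mul_le_mul_of_nonneg_right e2 (Real.exp_pos _).le
    _ = ((a + b) * n) ^ n * (Real.exp (1 + r) * Real.exp (-(Real.pi * M * r ^ 2))) := by ring
    _ ≤ ((a + b) * n) ^ n * (Real.exp 2 * Real.exp (-(M * r ^ 2))) :=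
        mul_le_mul_of_nonneg_left e3 hCn
    _ = _ := by ring

lemma b10_GA (D : Dw) {L E : ℕ} (ν : Iw L E) (u : Fin 2 → ℂ) :
    GA D (Pi.single ν 1) u = Gn D ν (D.om * (u 1 - D.h 1)) (fun l => u l - D.h l) := by
  unfold GA GR
  rw [Finset.sum_eq_single ν]
  · simp
  · intro b _ hb
    simp [hb]
  · intro h
    exact absurd (Finset.mem_univ _) h

/-- bounds for the coordinates in the reduced domain -/
lemma b10_coord (z : ℂ) (hz : 0 < z.im) (v : Fin 2 → ℂ)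
    (h2 : 0 ≤ cb z v 0 ∧ cb z v 0 ≤ 1) (h3 : 0 ≤ cb z v 1 ∧ cb z v 1 ≤ 1) :
    (∀ l, |(v l).im| ≤ z.im) ∧ ‖v 1‖ ≤ (1 + ‖z‖) * (1 + |yy z v|) := by
  constructor
  · intro l
    have h4 : (v l).im = cb z v l * z.im := by
      unfold cb
      field_simp
    have h5 : 0 ≤ cb z v l ∧ cb z v l ≤ 1 := by
      fin_cases l
      · exact h2
      · exact h3
    rw [h4, abs_of_nonneg (mul_nonneg h5.1 hz.le)]
    exact mul_le_of_le_one_left hz.le h5.2
  · have h4 := coord z hz v 1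
    have h5 : ca z v 1 = yy z v + cb z v 0 := by
      unfold yy
      ring
    have h6 : |ca z v 1| ≤ |yy z v| + 1 := by
      rw [h5]
      refine (abs_add_le _ _).trans ?_
      rw [abs_of_nonneg h2.1]
      linarith [h2.2]
    have h7 : ‖((ca z v 1 : ℝ) : ℂ)‖ = |ca z v 1| := by
      rw [Complex.norm_real, Real.norm_eq_abs]
    have h8 : ‖((cb z v 1 : ℝ) : ℂ) * z‖ ≤ ‖z‖ := by
      rw [norm_mul, Complex.norm_real, Real.norm_eq_abs, abs_of_nonneg h3.1]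
      exact mul_le_of_le_one_left (norm_nonneg _) h3.2
    rw [h4]
    refine (norm_add_le _ _).trans ?_
    rw [h7]
    have h9 : 0 ≤ ‖z‖ * |yy z v| := mul_nonneg (norm_nonneg _) (abs_nonneg _)
    nlinarith

lemma b10_om (D : Dw) : ‖D.om‖ ^ 2 = Real.pi := by
  rw [← norm_pow, D.hom, Complex.norm_real, Real.norm_eq_abs, abs_of_pos Real.pi_pos]

lemma b10_om1 (D : Dw) : 1 ≤ ‖D.om‖ ∧ ‖D.om‖ ≤ 2 := by
  have h := b10_om D
  have h1 := Real.pi_gt_three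
  have h2 := Real.pi_le_four
  have h3 := norm_nonneg D.om
  constructor <;> nlinarith

lemma b10_qq (D : Dw) : ‖D.qq‖ ≤ ‖rh‖ ^ 2 * ‖sE D.z‖ * (1 + ‖D.z‖ ^ 2) := by
  unfold Dw.qq Dw.k
  have h1 : ‖(∑ l, cz D.z l ^ 2 : ℂ)‖ ≤ 1 + ‖D.z‖ ^ 2 := by
    rw [Fin.sum_univ_two]
    refine (norm_add_le _ _).trans ?_
    simp [cz]
  have h2 : ‖sE D.z / D.om ^ 2‖ ≤ ‖sE D.z‖ := by
    rw [norm_div, norm_pow, b10_om]
    refine div_le_self (norm_nonneg _) ?_
    linarith [Real.pi_gt_three]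
  rw [norm_mul, norm_mul, norm_pow]
  exact mul_le_mul (mul_le_mul_of_nonneg_left h2 (by positivity)) h1 (norm_nonneg _) (by positivity)

/-- the bound in the reduced domain -/
lemma b10_red (z : ℂ) (hz : 0 < z.im) (H : ℝ) (D : Dw) (hDz : D.z = z) (hH : ∀ l, ‖D.h l‖ ≤ H)
    (Λ : ℝ) (hΛ : 1 ≤ Λ) (hlam : ‖D.lam‖ ≤ Λ) (G : ℝ) (hG : 1 ≤ G)
    (hgr : ∀ om : ℂ, om ^ 2 = Real.pi → ∀ (M a : ℕ) (t : ℂ), 2 * a ≤ M →
      ‖fa z om M a t‖ ≤ Real.exp (G * M * (1 + t.im ^ 2)))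
    (L E : ℕ) (hL : 1 ≤ L) (hE : 1 ≤ E) (ν : Iw L E) (u : Fin 2 → ℂ)
    (h1 : 0 ≤ ca z u 0 ∧ ca z u 0 ≤ 1)
    (h2 : 0 ≤ cb z u 0 ∧ cb z u 0 ≤ 1) (h3 : 0 ≤ cb z u 1 ∧ cb z u 1 ≤ 1) :
    ‖GA D (Pi.single ν 1) u‖ ≤ Real.exp (G * (2 * L : ℕ) * (1 + (z.im + 1) ^ 2)) ^ 2 *
      ((2 * (2 * (1 + ‖z‖ + H) + 1) * Λ * L) * (1 + |yy z u|) +
        ((‖rh‖ * (1 + ‖z‖) + 2 * (‖rh‖ ^ 2 * ‖sE z‖ * (1 + ‖z‖ ^ 2))) * L) * E) ^ E := by
  obtain ⟨him, hnu⟩ := b10_coord z hz u h2 h3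
  obtain ⟨hom1, hom2⟩ := b10_om1 D
  have hr0 : 0 ≤ |yy z u| := abs_nonneg _
  have hLr : (1 : ℝ) ≤ L := by exact_mod_cast hL
  have hL0 : (0 : ℝ) ≤ L := by linarith
  have hE0 : (0 : ℝ) ≤ E := Nat.cast_nonneg _
  have hH0 : 0 ≤ H := (norm_nonneg _).trans (hH 0)
  set A : ℝ := Real.exp (G * (2 * L : ℕ) * (1 + (z.im + 1) ^ 2)) with hA
  have hA1 : 1 ≤ A := Real.one_le_exp (by positivity)
  rw [b10_GA]
  unfold Gn
  set W : ℂ := D.om * (u 1 - D.h 1) with hW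
  have hpt : (fun l => D.h l + (u l - D.h l)) = u := by
    funext l
    ring
  rw [hpt]
  set q := Polynomial.aeval (lin D (2 * L) W) (Bp ((2 * L : ℕ) * D.qq) ν.2.val) with hq
  have hν2 : ν.2.val ≤ E := ν.2.isLt.le
  have hdeg : q.totalDegree ≤ E := by
    refine (deg_aeval1 _ (lin_deg D (2 * L) W) _).trans ?_
    rw [(Bp_monic _ _).2]
    exact hν2
  have hf : ∀ l, Differentiable ℂ ((fun l => fa D.z D.om (2 * L) (ν.1 l).val) l) := fun l =>
    fa_diff D.z D.om D.im (2 * L) (ν.1 l).val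
  have hth : ∀ l, ∀ v : ℂ, ‖v - u l‖ ≤ 1 → ‖(fun l => fa D.z D.om (2 * L) (ν.1 l).val) l v‖ ≤ A := by
    intro l v hv
    have e1 : |(v - u l).im| ≤ 1 := (Complex.abs_im_le_norm _).trans hv
    rw [Complex.sub_im, abs_le] at e1
    have e2 := abs_le.1 (him l)
    have e3 : |v.im| ≤ z.im + 1 := by
      rw [abs_le]
      constructor <;> linarith [e1.1, e1.2, e2.1, e2.2]
    have e4 : v.im ^ 2 ≤ (z.im + 1) ^ 2 := by
      rw [← sq_abs v.im]
      exact pow_le_pow_left₀ (abs_nonneg _) e3 2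
    have e5 : 2 * (ν.1 l).val ≤ 2 * L := Nat.mul_le_mul_left 2 (ν.1 l).isLt.le
    have e6 := hgr D.om D.hom (2 * L) (ν.1 l).val v e5
    rw [hDz]
    refine e6.trans (Real.exp_le_exp.2 ?_)
    exact mul_le_mul_of_nonneg_left (by linarith) (mul_nonneg (by linarith) (Nat.cast_nonneg _))
  refine (TF_bound _ hf u q E hE hdeg A hA1 hth).trans ?_
  refine mul_le_mul_of_nonneg_left ?_ (by positivity)
  have hWl : ‖W - D.lam‖ ≤ (2 * (1 + ‖z‖ + H) + 1) * Λ * (1 + |yy z u|) := by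
    refine (norm_sub_le _ _).trans ?_
    have e1 : ‖W‖ ≤ 2 * ((1 + ‖z‖ + H) * (1 + |yy z u|)) := by
      rw [hW, norm_mul]
      refine mul_le_mul hom2 ?_ (norm_nonneg _) (by norm_num)
      refine (norm_sub_le _ _).trans ?_
      have e2 := hH 1
      have e3 : 0 ≤ H * |yy z u| := mul_nonneg hH0 hr0
      nlinarith
    have e4 : 0 ≤ 2 * ((1 + ‖z‖ + H) * (1 + |yy z u|)) := by positivity
    have e5 : 2 * ((1 + ‖z‖ + H) * (1 + |yy z u|)) ≤ 2 * ((1 + ‖z‖ + H) * (1 + |yy z u|)) * Λ :=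
      le_mul_of_one_le_right e4 hΛ
    have e6 : Λ ≤ Λ * (1 + |yy z u|) := le_mul_of_one_le_right (by linarith) (by linarith)
    calc ‖W‖ + ‖D.lam‖ ≤ 2 * ((1 + ‖z‖ + H) * (1 + |yy z u|)) * Λ + Λ * (1 + |yy z u|) :=
          add_le_add (e1.trans e5) (hlam.trans e6)
      _ = _ := by ring
  have hc : ‖rh / D.om‖ ≤ ‖rh‖ := by
    rw [norm_div]
    exact div_le_self (norm_nonneg _) hom1
  set ρ : ℝ := (2 * (2 * (1 + ‖z‖ + H) + 1) * Λ * L) * (1 + |yy z u|) + (‖rh‖ * (1 + ‖z‖)) * E with hρ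
  have hlin : MSR.nm (E : ℝ) (lin D (2 * L) W) ≤ ρ := by
    refine (lin_nm D (2 * L) W _ hE0).trans ?_
    rw [hρ]
    refine add_le_add ?_ ?_
    · have e1 := mul_le_mul_of_nonneg_left hWl (Nat.cast_nonneg (α := ℝ) (2 * L))
      refine e1.trans (le_of_eq ?_)
      push_cast
      ring
    · rw [hDz]
      exact mul_le_mul_of_nonneg_right (mul_le_mul_of_nonneg_right hc (by positivity)) hE0
  have hρ1 : 1 ≤ ρ := by
    have e1 : 1 ≤ Λ * L := one_le_mul_of_one_le_of_one_le hΛ hLr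
    have e2 : 1 ≤ (Λ * L) * (1 + |yy z u|) := one_le_mul_of_one_le_of_one_le e1 (by linarith)
    have e3 : 1 ≤ 2 * (2 * (1 + ‖z‖ + H) + 1) := by
      have := norm_nonneg z
      linarith
    have e4 : 1 ≤ 2 * (2 * (1 + ‖z‖ + H) + 1) * ((Λ * L) * (1 + |yy z u|)) :=
      one_le_mul_of_one_le_of_one_le e3 e2
    have e5 : 0 ≤ (‖rh‖ * (1 + ‖z‖)) * E := by positivity
    have e6 : (2 * (2 * (1 + ‖z‖ + H) + 1) * Λ * L) * (1 + |yy z u|) =
      2 * (2 * (1 + ‖z‖ + H) + 1) * ((Λ * L) * (1 + |yy z u|)) := by ring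
    rw [hρ, e6]
    linarith
  refine (nm_aeval1 (E : ℝ) ρ hE0 _ hlin _).trans ?_
  refine (nm1_Bp _ E ν.2.val hν2 ρ hρ1).trans ?_
  have hqq : ‖((2 * L : ℕ) : ℂ) * D.qq‖ ≤ 2 * (‖rh‖ ^ 2 * ‖sE z‖ * (1 + ‖z‖ ^ 2)) * L := by
    rw [norm_mul, Complex.norm_natCast]
    have e1 := b10_qq D
    rw [hDz] at e1
    refine (mul_le_mul_of_nonneg_left e1 (Nat.cast_nonneg _)).trans (le_of_eq ?_)
    push_cast
    ring
  have hbase : ρ + ‖((2 * L : ℕ) : ℂ) * D.qq‖ * E ≤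
      (2 * (2 * (1 + ‖z‖ + H) + 1) * Λ * L) * (1 + |yy z u|) +
        ((‖rh‖ * (1 + ‖z‖) + 2 * (‖rh‖ ^ 2 * ‖sE z‖ * (1 + ‖z‖ ^ 2))) * L) * E := by
    rw [hρ]
    have e1 := mul_le_mul_of_nonneg_right hqq hE0
    have e2 : (‖rh‖ * (1 + ‖z‖)) * E ≤ (‖rh‖ * (1 + ‖z‖)) * L * E :=
      mul_le_mul_of_nonneg_right (le_mul_of_one_le_right (by positivity) hLr) hE0
    have e3 : ((‖rh‖ * (1 + ‖z‖) + 2 * (‖rh‖ ^ 2 * ‖sE z‖ * (1 + ‖z‖ ^ 2))) * L) * E =
      (‖rh‖ * (1 + ‖z‖)) * L * E + 2 * (‖rh‖ ^ 2 * ‖sE z‖ * (1 + ‖z‖ ^ 2)) * L * E := by ring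
    rw [e3]
    linarith
  have hb0 : 1 ≤ ρ + ‖((2 * L : ℕ) : ℂ) * D.qq‖ * E := by
    have : 0 ≤ ‖((2 * L : ℕ) : ℂ) * D.qq‖ * E := mul_nonneg (norm_nonneg _) hE0
    linarith
  refine (pow_le_pow_left₀ (by linarith) hbase _).trans ?_
  exact pow_le_pow_right₀ (hb0.trans hbase) hν2

/-- B10b. PROOF. Compare `NnR_bound` in R/B10_NnBound. `GA D (Pi.single ν 1) u = Gn D ν (om (u_1 - h_1)) (u - h)`, `h + (u - h) = u`. By `Nn_shift` and `reduce` we may assume that `a_0, b_0, b_1 ∈ [0, 1]` (`ca`, `cb`), `yy` unchanged; so `|Im u_l| ≤ Im z` and `‖u‖ ≤ (1 + ‖z‖)(2 + r)`, `r = |yy u|` (`u_1 = (yy + b_0) + b_1 z`).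
`n = E`, `M = 2L`. `TF_bound` with `A = exp (C M (1 + (Im z + 1)²))` (`fa_bound`; `fa_diff`), `deg_aeval1`, `Bp_monic`, `nm_aeval1` with `ρ = n`, `ρ' = M ‖W - lam‖ + C n`, (`lin_nm`), `nm1_Bp` (`ρ' ≥ 1`, enlarge), `‖M qq‖ ≤ M ‖qq‖`, `qq = rh² (sE z/π) (1 + z²)`:
`‖GA‖ ≤ A² (M ‖W - lam‖ + C n + M ‖qq‖ n + 1)^n`, `‖W - lam‖ ≤ √π ((1 + ‖z‖)(2 + r) + H) + Λ`, so it is `≤ A² (C L Λ (1 + r) + C L n)^n`. `Qf ≥ π yy²`. `b10_num` with `M = 2L`. -/
theorem Nn_bound (z : ℂ) (hz : 0 < z.im) (H : ℝ) : ∃ C : ℝ, 1 ≤ C ∧ ∀ D : Dw, D.z = z → (∀ l, ‖D.h l‖ ≤ H) → ∀ Λ : ℝ, 1 ≤ Λ → ‖D.lam‖ ≤ Λ →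
    ∀ (L E : ℕ), 1 ≤ L → 1 ≤ E → ∀ (ν : Iw L E) (u : Fin 2 → ℂ),
      Nn z (2 * L) (GA D (Pi.single ν 1)) u ≤ (C * Λ * L * E) ^ E * C ^ L * Real.exp (-((2 * L : ℕ) * yy z u ^ 2)) := by
  obtain ⟨G, hG, hgr⟩ := fa_bound z hz
  set C1 : ℝ := 2 * (2 * (1 + ‖z‖ + |H|) + 1) with hC1
  set C2 : ℝ := ‖rh‖ * (1 + ‖z‖) + 2 * (‖rh‖ ^ 2 * ‖sE z‖ * (1 + ‖z‖ ^ 2)) with hC2
  have hC10 : 1 ≤ C1 := by
    rw [hC1]
    have := norm_nonneg z
    have := abs_nonneg H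
    linarith
  have hC20 : 0 ≤ C2 := by positivity
  set B : ℝ := Real.exp (4 * (G * (1 + (z.im + 1) ^ 2)) + 2) with hB
  have hB0 : 0 < B := Real.exp_pos _
  refine ⟨C1 + C2 + B, by linarith, ?_⟩
  intro D hDz hH Λ hΛ hlam L E hL hE ν u
  have hLr : (1 : ℝ) ≤ L := by exact_mod_cast hL
  have hL0 : (0 : ℝ) ≤ L := by linarith
  have hE0 : (0 : ℝ) ≤ E := Nat.cast_nonneg _
  have hH' : H = |H| := (abs_of_nonneg ((norm_nonneg _).trans (hH 0))).symm
  obtain ⟨n, v, huv, h1, h2, h3, h4⟩ := reduce z hz u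
  have hsh : Nn z (2 * L) (GA D (Pi.single ν 1)) u = Nn z (2 * L) (GA D (Pi.single ν 1)) v := by
    have := Nn_shift D (Pi.single ν 1) n v
    rw [hDz] at this
    rw [huv]
    exact this
  rw [hsh, ← h4]
  set r : ℝ := |yy z v| with hr
  have hr0 : 0 ≤ r := abs_nonneg _
  have hr2 : yy z v ^ 2 = r ^ 2 := (sq_abs _).symm
  have hg := b10_red z hz H D hDz hH Λ hΛ hlam G hG hgr L E hL hE ν v h1 h2 h3
  rw [hH', ← hC1, ← hC2, ← hr] at hg
  have hQ : Real.pi * r ^ 2 ≤ Qf z v := by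
    unfold Qf
    rw [hr2]
    have e1 : 0 ≤ ∑ l, (v l).im ^ 2 / z.im := Finset.sum_nonneg fun l _ => by positivity
    exact mul_le_mul_of_nonneg_left (by linarith) Real.pi_pos.le
  have hnum := b10_num (C1 * Λ * L) (C2 * L) r (by positivity) (by positivity) hr0 E (2 * L) hE (by omega)
  set A : ℝ := Real.exp (G * (2 * L : ℕ) * (1 + (z.im + 1) ^ 2)) with hA
  have hAB : A ^ 2 * Real.exp 2 ≤ B ^ L := by
    rw [hA, hB, ← Real.exp_nat_mul, ← Real.exp_nat_mul, ← Real.exp_add]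
    apply Real.exp_le_exp.2
    push_cast
    have e1 : (L : ℝ) * (4 * (G * (1 + (z.im + 1) ^ 2)) + 2) =
      2 * (G * (2 * L) * (1 + (z.im + 1) ^ 2)) + 2 * L := by ring
    rw [e1]
    linarith
  have hAB2 : A ^ 2 * Real.exp 2 ≤ (C1 + C2 + B) ^ L :=
    hAB.trans (pow_le_pow_left₀ hB0.le (by linarith) L)
  have hbase : (C1 * Λ * L + C2 * L) * E ≤ (C1 + C2 + B) * Λ * L * E := by
    refine mul_le_mul_of_nonneg_right ?_ hE0
    have e1 : C2 * L ≤ C2 * Λ * L :=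
      mul_le_mul_of_nonneg_right (le_mul_of_one_le_right hC20 hΛ) hL0
    have e2 : 0 ≤ B * Λ * L := by positivity
    have e3 : (C1 + C2 + B) * Λ * L = C1 * Λ * L + C2 * Λ * L + B * Λ * L := by ring
    rw [e3]
    linarith
  have hb0 : 0 ≤ (C1 * Λ * L + C2 * L) * E := by positivity
  have hexp : Real.exp (-((2 * L : ℕ) * Qf z v)) ≤ Real.exp (-(Real.pi * (2 * L : ℕ) * r ^ 2)) := by
    apply Real.exp_le_exp.2
    have e1 := mul_le_mul_of_nonneg_left hQ (Nat.cast_nonneg (α := ℝ) (2 * L))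
    have e2 : Real.pi * (2 * L : ℕ) * r ^ 2 = ((2 * L : ℕ) : ℝ) * (Real.pi * r ^ 2) := by ring
    rw [e2]
    exact neg_le_neg e1
  unfold Nn
  calc ‖GA D (Pi.single ν 1) v‖ * Real.exp (-((2 * L : ℕ) * Qf z v))
      ≤ (A ^ 2 * (C1 * Λ * L * (1 + r) + C2 * L * E) ^ E) * Real.exp (-(Real.pi * (2 * L : ℕ) * r ^ 2)) :=
        mul_le_mul hg hexp (Real.exp_pos _).le ((norm_nonneg _).trans hg)
    _ = A ^ 2 * ((C1 * Λ * L * (1 + r) + C2 * L * E) ^ E * Real.exp (-(Real.pi * (2 * L : ℕ) * r ^ 2))) := by ring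
    _ ≤ A ^ 2 * (((C1 * Λ * L + C2 * L) * E) ^ E * Real.exp 2 * Real.exp (-((2 * L : ℕ) * r ^ 2))) :=
        mul_le_mul_of_nonneg_left hnum (by positivity)
    _ = ((C1 * Λ * L + C2 * L) * E) ^ E * (A ^ 2 * Real.exp 2) * Real.exp (-((2 * L : ℕ) * r ^ 2)) := by ring
    _ ≤ ((C1 + C2 + B) * Λ * L * E) ^ E * (C1 + C2 + B) ^ L * Real.exp (-((2 * L : ℕ) * r ^ 2)) := by
        refine mul_le_mul_of_nonneg_right ?_ (Real.exp_pos _).le
        exact mul_le_mul (pow_le_pow_left₀ hb0 hbase E) hAB2 (by positivity) (by positivity)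
    _ = _ := by rw [hr2]

end Pool.Agent.MSW

end
end
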