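import Pool.Agent.Lib.MP_f58a57_nt.K.G1_Pig
import Pool.Agent.Lib.MP_f58a57_nt.T.B3_Bound
import Pool.Agent.Lib.MP_f58a57_nt.T.C1_Small

/-! # MP_f58a57_nt, all nonspecial points: C2_Aux -/

/-! ### the auxiliary function -/

section

open Complex Filter Topology

noncomputable section

namespace Pool.Agent.MSW

open MSD MSP

theorem e1_single (D : Dw) {L E : ℕ} (ν : Iw L E) (t : Fin 2 → ℂ) :
    GR D (Pi.single ν 1) t = Gn D ν (D.om * t 1) t := by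
  unfold GR
  rw [Finset.sum_eq_single ν]
  · rw [Pi.single_eq_same, one_mul]
  · intro μ _ hμ
    rw [Pi.single_eq_of_ne hμ, zero_mul]
  · intro h
    exact absurd (Finset.mem_univ ν) h

theorem e1_GA (D : Dw) {L E : ℕ} (c : Iw L E → ℂ) (u : Fin 2 → ℂ) :
    GA D c u = ∑ ν, c ν * GA D (Pi.single ν 1) u := by
  unfold GA
  conv_lhs => unfold GR
  exact Finset.sum_congr rfl fun ν _ => by rw [e1_single]

/-- the polynomials -/
def e1p {L E T : ℕ} (x : Iw L E × Fin T → ℤ) (ν : Iw L E) : Polynomial ℤ :=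
  ∑ i : Fin T, Polynomial.C (x (ν, i)) * Polynomial.X ^ i.val

theorem e1p_coeff {L E T : ℕ} (x : Iw L E × Fin T → ℤ) (ν : Iw L E) (j : ℕ) :
    (e1p x ν).coeff j = if h : j < T then x (ν, ⟨j, h⟩) else 0 := by
  unfold e1p
  rw [Polynomial.finsetSum_coeff]
  simp_rw [Polynomial.coeff_C_mul_X_pow]
  split_ifs with h
  · rw [Finset.sum_eq_single ⟨j, h⟩]
    · simp
    · intro i _ hi
      rw [if_neg]
      intro hj
      exact hi (Fin.ext hj.symm)
    · intro h'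
      exact absurd (Finset.mem_univ _) h'
  · refine Finset.sum_eq_zero fun i _ => ?_
    rw [if_neg]
    intro hj
    exact h (hj ▸ i.isLt)

theorem e1p_deg {L E T : ℕ} (x : Iw L E × Fin T → ℤ) (ν : Iw L E) : (e1p x ν).natDegree ≤ T := by
  rw [Polynomial.natDegree_le_iff_coeff_eq_zero]
  intro j hj
  rw [e1p_coeff, dif_neg (not_lt.2 hj.le)]

theorem e1p_aeval {L E T : ℕ} (x : Iw L E × Fin T → ℤ) (ν : Iw L E) (θ : ℂ) :
    Polynomial.aeval θ (e1p x ν) = ∑ i : Fin T, (x (ν, i) : ℂ) * θ ^ i.val := by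
  unfold e1p
  rw [map_sum]
  refine Finset.sum_congr rfl fun i _ => ?_
  rw [map_mul, map_pow, Polynomial.aeval_X, Polynomial.aeval_C]
  simp

theorem e1_cardI (L E : ℕ) : (Fintype.card (Iw L E) : ℝ) = (L : ℝ) ^ 2 * E := by
  rw [Fintype.card_prod, Fintype.card_fin, Fintype.card_fun, Fintype.card_fin, Fintype.card_fin]
  push_cast
  ring

theorem e1_card (L E T : ℕ) : (Fintype.card (Iw L E × Fin T) : ℝ) = (L : ℝ) ^ 2 * E * T := by
  rw [Fintype.card_prod, Fintype.card_fin]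
  push_cast
  rw [e1_cardI]

theorem e1_coef {L E T : ℕ} (x : Iw L E × Fin T → ℤ) (θ : ℂ) (B : ℕ) (hx : ∀ i, |x i| ≤ B) (ν : Iw L E) :
    ‖(Polynomial.aeval θ (e1p x ν) : ℂ)‖ ≤ T * B * (max 1 ‖θ‖) ^ T := by
  rw [e1p_aeval]
  refine (norm_sum_le _ _).trans ?_
  have h : ∀ i ∈ (Finset.univ : Finset (Fin T)), ‖(x (ν, i) : ℂ) * θ ^ i.val‖ ≤ B * (max 1 ‖θ‖) ^ T := by
    intro i _
    rw [norm_mul, norm_pow]
    have h1 : ‖(x (ν, i) : ℂ)‖ ≤ B := by
      rw [Complex.norm_intCast]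
      exact_mod_cast hx (ν, i)
    have h2 : ‖θ‖ ^ i.val ≤ (max 1 ‖θ‖) ^ T :=
      (pow_le_pow_left₀ (norm_nonneg _) (le_max_right _ _) _).trans
        (pow_le_pow_right₀ (le_max_left _ _) i.isLt.le)
    exact mul_le_mul h1 h2 (by positivity) (by positivity)
  refine (Finset.sum_le_sum h).trans (le_of_eq ?_)
  rw [Finset.sum_const, Finset.card_univ, Fintype.card_fin, nsmul_eq_mul]
  ring

/-- the size of the coefficients -/
theorem e1_alpha (L E T c₀ : ℕ) (a n b l : ℝ) (hLT : (L : ℝ) ≤ T) (hET : (E : ℝ) ≤ T) (ha : 0 ≤ a) (hn : 0 ≤ n)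
    (hl1 : 1 ≤ l) (hTe : Real.exp l = T) (hb : b = T * l) :
    Real.exp (T * a) * ((Real.exp n * (T : ℝ) ^ c₀ * L * E) ^ E * Real.exp n ^ L) ≤ Real.exp ((a + 2 * n + c₀ + 2) * b) := by
  have hT0 : (0 : ℝ) ≤ T := Nat.cast_nonneg T
  have hE0 : (0 : ℝ) ≤ E := Nat.cast_nonneg E
  have hL0 : (0 : ℝ) ≤ L := Nat.cast_nonneg L
  have hc0 : (0 : ℝ) ≤ c₀ := Nat.cast_nonneg c₀
  have hTb : (T : ℝ) ≤ b := by
    rw [hb]
    exact le_mul_of_one_le_right hT0 hl1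
  have h1 : Real.exp n * (T : ℝ) ^ c₀ * L * E ≤ Real.exp (n + (c₀ + 2) * l) := by
    have e1 : Real.exp (n + (c₀ + 2) * l) = Real.exp n * (T : ℝ) ^ c₀ * T * T := by
      have e2 : n + (c₀ + 2) * l = n + c₀ * l + l + l := by ring
      rw [e2, Real.exp_add, Real.exp_add, Real.exp_add, Real.exp_nat_mul, hTe]
    rw [e1]
    exact mul_le_mul (mul_le_mul_of_nonneg_left hLT (by positivity)) hET hE0 (by positivity)
  have h2 : (Real.exp n * (T : ℝ) ^ c₀ * L * E) ^ E ≤ Real.exp (E * (n + (c₀ + 2) * l)) := by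
    rw [Real.exp_nat_mul]
    exact pow_le_pow_left₀ (by positivity) h1 _
  have h3 : Real.exp n ^ L = Real.exp (L * n) := by rw [Real.exp_nat_mul]
  have h4 : Real.exp (T * a) * ((Real.exp n * (T : ℝ) ^ c₀ * L * E) ^ E * Real.exp n ^ L) ≤
      Real.exp (T * a) * (Real.exp (E * (n + (c₀ + 2) * l)) * Real.exp (L * n)) := by
    rw [h3]
    exact mul_le_mul_of_nonneg_left (mul_le_mul_of_nonneg_right h2 (Real.exp_pos _).le) (Real.exp_pos _).le
  refine h4.trans ?_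
  rw [← Real.exp_add, ← Real.exp_add]
  apply Real.exp_le_exp.2
  have i1 : (T : ℝ) * a ≤ b * a := mul_le_mul_of_nonneg_right hTb ha
  have i2 : (E : ℝ) * n ≤ b * n := mul_le_mul_of_nonneg_right (hET.trans hTb) hn
  have i3 : (L : ℝ) * n ≤ b * n := mul_le_mul_of_nonneg_right (hLT.trans hTb) hn
  have i4 : (E : ℝ) * l ≤ b := by
    rw [hb]
    exact mul_le_mul_of_nonneg_right hET (by linarith)
  have i5 : (E : ℝ) * l * (c₀ + 2) ≤ b * (c₀ + 2) := mul_le_mul_of_nonneg_right i4 (by linarith)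
  have e3 : (E : ℝ) * (n + (c₀ + 2) * l) = E * n + E * l * (c₀ + 2) := by ring
  rw [e3]
  linarith

/-- the number of unknowns -/
theorem e1_N (L E T : ℕ) (b l : ℝ) (hLT : (L : ℝ) ≤ T) (hET : (E : ℝ) ≤ T) (hT1 : (1 : ℝ) ≤ T)
    (hl1 : 1 ≤ l) (hTe : Real.exp l = T) (hb : b = T * l) :
    (L : ℝ) ^ 2 * E * T ≤ Real.exp (4 * b) := by
  have hE0 : (0 : ℝ) ≤ E := Nat.cast_nonneg E
  have hL0 : (0 : ℝ) ≤ L := Nat.cast_nonneg L
  have h1 : (L : ℝ) ^ 2 * E * T ≤ (T : ℝ) ^ 2 * T * T :=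
    mul_le_mul_of_nonneg_right (mul_le_mul (pow_le_pow_left₀ hL0 hLT 2) hET hE0 (by positivity)) (by positivity)
  refine h1.trans ?_
  have h2 : (T : ℝ) ^ 2 * T * T = Real.exp (4 * l) := by
    have e : 4 * l = l + l + l + l := by ring
    rw [e, Real.exp_add, Real.exp_add, Real.exp_add, hTe]
    ring
  rw [h2]
  apply Real.exp_le_exp.2
  rw [hb]
  have : l ≤ T * l := le_mul_of_one_le_left (by linarith) hT1
  linarith

/-- the inequalities between the parameters -/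
theorem e1_num (L E T c₀ : ℕ) (a n s b R g C α l : ℝ) (c : ℕ) (hL : (1 : ℝ) ≤ L) (hE : (1 : ℝ) ≤ E) (hLT : (L : ℝ) ≤ T)
    (hET : (E : ℝ) ≤ T) (ha : 0 ≤ a) (hn : 0 ≤ n)
    (hs : 0 ≤ s) (hb : b = T * l) (hl1 : 1 ≤ l) (hTe : Real.exp l = T) (hR : 1 ≤ R) (hg : 0 ≤ g)
    (hC : C = 8 * Real.exp s * (a + 2 * n + 2 * s + c₀ + 14))
    (hα : α = Real.exp (T * a) * ((Real.exp n * (T : ℝ) ^ c₀ * L * E) ^ E * Real.exp n ^ L))
    (hc : (c : ℝ) ≤ Real.exp s * R * (2 * L) ^ 2)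
    (h1 : C * (b + g) ≤ L * R ^ 2)
    (h2 : C * R * (b + g) < (E : ℝ) * T * b) :
    (4 * (((L : ℝ) ^ 2 * E * T) * α * Real.exp b) / Real.exp (-g - (2 * s * L + 1)) + 2) ^ (2 * c) <
        Real.exp (b * ((L : ℝ) ^ 2 * E * T)) ∧
      Real.exp (2 * s * L) * (Real.exp (-g - (2 * s * L + 1)) + (((L : ℝ) ^ 2 * E * T) * α * Real.exp b) * Real.exp (-(2 * L * R ^ 2)))
        ≤ Real.exp (-g) := by
  have hT1 : (1 : ℝ) ≤ T := hE.trans hET
  have hc0 : (0 : ℝ) ≤ c₀ := Nat.cast_nonneg c₀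
  have hs1 : (1 : ℝ) ≤ Real.exp s := Real.one_le_exp hs
  have hTb : (T : ℝ) ≤ b := by
    rw [hb]
    exact le_mul_of_one_le_right (by linarith) hl1
  have hb1 : 1 ≤ b := hT1.trans hTb
  have hb0 : 0 ≤ b := by linarith
  obtain ⟨K, hK⟩ : ∃ K : ℝ, K = a + 2 * n + 2 * s + c₀ + 14 := ⟨_, rfl⟩
  have hK14 : 14 ≤ K := by rw [hK]; linarith
  have hCK : K ≤ C := by
    rw [hC, ← hK]
    have : 1 ≤ 8 * Real.exp s := by linarith
    exact le_mul_of_one_le_left (by linarith) this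
  have hbg : 0 ≤ b + g := by linarith
  obtain ⟨W, hW⟩ : ∃ W : ℝ, W = (a + 2 * n + c₀ + 7) * b := ⟨_, rfl⟩
  have hW0 : 0 ≤ W := by rw [hW]; positivity
  have hα0 : 0 ≤ α := by rw [hα]; positivity
  have hNα : ((L : ℝ) ^ 2 * E * T) * α * Real.exp b ≤ Real.exp W := by
    have h3 := e1_N L E T b l hLT hET hT1 hl1 hTe hb
    have h4 := e1_alpha L E T c₀ a n b l hLT hET ha hn hl1 hTe hb
    rw [← hα] at h4
    refine (mul_le_mul_of_nonneg_right (mul_le_mul h3 h4 hα0 (Real.exp_pos _).le) (Real.exp_pos _).le).trans (le_of_eq ?_)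
    rw [← Real.exp_add, ← Real.exp_add, hW]
    congr 1
    ring
  obtain ⟨N, hN⟩ : ∃ N : ℝ, N = (L : ℝ) ^ 2 * E * T := ⟨_, rfl⟩
  rw [← hN] at hNα ⊢
  have hN0 : 0 ≤ N := by rw [hN]; positivity
  have hLb : s * L ≤ s * b := mul_le_mul_of_nonneg_left (hLT.trans hTb) hs
  obtain ⟨A, hA⟩ : ∃ A : ℝ, A = N * α * Real.exp b := ⟨_, rfl⟩
  rw [← hA] at hNα ⊢
  have hA0 : 0 ≤ A := by rw [hA]; positivity
  have hKg : g ≤ K * g := le_mul_of_one_le_left hg (by linarith)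
  have hKb : K * b = W + 2 * s * b + 7 * b := by rw [hK, hW]; ring
  constructor
  · -- the pigeonhole inequality
    have h3 : 4 * A / Real.exp (-g - (2 * s * L + 1)) + 2 ≤ Real.exp (K * (b + g)) := by
      obtain ⟨V, hV⟩ : ∃ V : ℝ, V = W + (g + (2 * s * L + 1)) := ⟨_, rfl⟩
      have h4 : A / Real.exp (-g - (2 * s * L + 1)) ≤ Real.exp V := by
        rw [div_le_iff₀ (Real.exp_pos _), ← Real.exp_add]
        refine hNα.trans (Real.exp_le_exp.2 (le_of_eq ?_))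
        rw [hV]
        ring
      have hV0 : 0 ≤ V := by rw [hV]; positivity
      have hV1 : 1 ≤ Real.exp V := Real.one_le_exp hV0
      have h6 : (6 : ℝ) ≤ Real.exp 6 := by
        have := Real.add_one_le_exp (6 : ℝ)
        linarith
      have h5 : 4 * A / Real.exp (-g - (2 * s * L + 1)) + 2 ≤ Real.exp 6 * Real.exp V := by
        have e : 4 * A / Real.exp (-g - (2 * s * L + 1)) = 4 * (A / Real.exp (-g - (2 * s * L + 1))) := by ring
        rw [e]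
        have h7 : 6 * Real.exp V ≤ Real.exp 6 * Real.exp V := mul_le_mul_of_nonneg_right h6 (Real.exp_pos _).le
        linarith
      refine h5.trans ?_
      rw [← Real.exp_add]
      apply Real.exp_le_exp.2
      rw [hV, mul_add, hKb]
      linarith
    have h30 : 0 ≤ 4 * A / Real.exp (-g - (2 * s * L + 1)) + 2 := by positivity
    have h4 : (4 * A / Real.exp (-g - (2 * s * L + 1)) + 2) ^ (2 * c) ≤ Real.exp ((2 * c : ℕ) * (K * (b + g))) := by
      rw [Real.exp_nat_mul]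
      exact pow_le_pow_left₀ h30 h3 _
    refine h4.trans_lt (Real.exp_lt_exp.2 ?_)
    have hbg' : 0 ≤ K * (b + g) := mul_nonneg (by linarith) hbg
    have hL2 : (0 : ℝ) < (L : ℝ) ^ 2 := by positivity
    calc ((2 * c : ℕ) : ℝ) * (K * (b + g)) = 2 * (c : ℝ) * (K * (b + g)) := by push_cast; ring
      _ ≤ 2 * (Real.exp s * R * (2 * L) ^ 2) * (K * (b + g)) :=
          mul_le_mul_of_nonneg_right (by linarith) hbg'
      _ = (L : ℝ) ^ 2 * (C * R * (b + g)) := by rw [hC, ← hK]; ring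
      _ < (L : ℝ) ^ 2 * (E * T * b) := mul_lt_mul_of_pos_left h2 hL2
      _ = b * N := by rw [hN]; ring
  · have h2e : 2 * Real.exp (-g - 1) ≤ Real.exp (-g) := by
      have h3 : Real.exp (-g) = Real.exp 1 * Real.exp (-g - 1) := by
        rw [← Real.exp_add]
        congr 1
        ring
      have h4 := Real.add_one_le_exp (1 : ℝ)
      rw [h3]
      exact mul_le_mul_of_nonneg_right (by linarith) (Real.exp_pos _).le
    have h3 : Real.exp (2 * s * L) * Real.exp (-g - (2 * s * L + 1)) = Real.exp (-g - 1) := by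
      rw [← Real.exp_add]
      congr 1
      ring
    have h4 : Real.exp (2 * s * L) * (A * Real.exp (-(2 * L * R ^ 2))) ≤ Real.exp (-g - 1) := by
      calc Real.exp (2 * s * L) * (A * Real.exp (-(2 * L * R ^ 2)))
          ≤ Real.exp (2 * s * L) * (Real.exp W * Real.exp (-(2 * L * R ^ 2))) :=
            mul_le_mul_of_nonneg_left (mul_le_mul_of_nonneg_right hNα (Real.exp_pos _).le) (Real.exp_pos _).le
        _ ≤ Real.exp (-g - 1) := by
            rw [← Real.exp_add, ← Real.exp_add]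
            apply Real.exp_le_exp.2
            have h5 : K * (b + g) ≤ L * R ^ 2 := (mul_le_mul_of_nonneg_right hCK hbg).trans h1
            have h6 : 0 ≤ (L : ℝ) * R ^ 2 := by positivity
            rw [mul_add, hKb] at h5
            linarith
    calc Real.exp (2 * s * L) * (Real.exp (-g - (2 * s * L + 1)) + A * Real.exp (-(2 * L * R ^ 2)))
        = Real.exp (2 * s * L) * Real.exp (-g - (2 * s * L + 1)) +
          Real.exp (2 * s * L) * (A * Real.exp (-(2 * L * R ^ 2))) := by ring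
      _ ≤ 2 * Real.exp (-g - 1) := by rw [h3]; linarith
      _ ≤ Real.exp (-g) := h2e

/-- E1. PROOF. Compare `aux_existsR` in R/C3_Aux and `aux_exists` in K/G2_Aux (complete proofs there). `M = 2L`, `Sp` from `small_all z hz` for `M` and `R`, `card Sp ≤ C' R (2L)²`. Unknowns `x_{ν,i}`, `ν ∈ Iw L E`, `i < T`, `p ν = ∑_i x_{ν,i} X^i`, bound `T^T`; the number of unknowns is `L² E T`.
Forms: for `u ∈ Sp`: `exp(-M Qf u) GA(c)(u) = ∑ x_{ν,i} θ^i exp(-M Qf u) GA(single ν 1)(u)` with coefficients `≤ α = max(1,‖θ‖)^T (C' T^c₀ L E)^E C'^L ≤ exp(C'' T log T)` (`Nn_bound` with `Λ = T^c₀ ≥ 1`; `L, E ≤ T`, `T ≥ 3` so `log T ≥ 1`; `GA` is linear in `c`).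
`ε = e^{-g - C''' L - 1}` with `C'^(2L) e^{-C''' L - 1} ≤ 1/2`. `MSK.pigeon`: `4 (L² E T α T^T)/ε + 2 ≤ exp(C (T log T + g))` and `(T^T+1)^(L² E T) ≥ exp(L² E T · T log T)`; so we need `2 · C' R 4L² · C (T log T + g) < L² E T · T log T`: hypothesis `h2` with a large `C`. So all `Nn ≤ ε` on `Sp`; by `Nn_bound`
`Nn ≤ B₁ e^{-M yy²}` everywhere, `B₁ = L² E T α T^T`; `GA` is entire (`GA_diff`), periodic (`Nn_shift`), so by `small_all`: `Nn ≤ C'^M (ε + B₁ e^{-M R²}) ≤ e^{-g}` by `h1` (`M R² = 2 L R² ≥ 2 C (T log T + g)`). `p ≠ 0` since `x ≠ 0`. -/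
theorem aux_exists (z : ℂ) (hz : 0 < z.im) (H : ℝ) (θ : ℂ) (c₀ : ℕ) : ∃ C : ℝ, 1 ≤ C ∧ ∀ D : Dw, D.z = z → (∀ l, ‖D.h l‖ ≤ H) →
    ∀ (L E T : ℕ) (R g : ℝ), 1 ≤ L → 1 ≤ E → L ≤ T → E ≤ T → 3 ≤ T → 1 ≤ R → 0 ≤ g → ‖D.lam‖ ≤ (T : ℝ) ^ c₀ →
      (h1 : C * (T * Real.log T + g) ≤ L * R ^ 2) →
      (h2 : C * R * (T * Real.log T + g) < (E : ℝ) * T * (T * Real.log T)) →
      ∃ p : Iw L E → Polynomial ℤ, p ≠ 0 ∧ (∀ ν, (p ν).natDegree ≤ T) ∧ (∀ ν i, |((p ν).coeff i : ℝ)| ≤ (T : ℝ) ^ T) ∧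
        ∀ u, Nn z (2 * L) (GA D (fun ν => Polynomial.aeval θ (p ν))) u ≤ Real.exp (-g) := by
  obtain ⟨Cs', hCs, hsmall⟩ := small_all z hz
  obtain ⟨Cn, hCn, hbd⟩ := Nn_bound z hz H
  obtain ⟨a, ha, hA'⟩ : ∃ a : ℝ, 0 ≤ a ∧ Real.exp a = max 1 ‖θ‖ :=
    ⟨Real.log (max 1 ‖θ‖), Real.log_nonneg (le_max_left _ _), Real.exp_log (lt_of_lt_of_le one_pos (le_max_left _ _))⟩
  obtain ⟨n, hn, hCn'⟩ : ∃ n : ℝ, 0 ≤ n ∧ Real.exp n = Cn :=
    ⟨Real.log Cn, Real.log_nonneg hCn, Real.exp_log (lt_of_lt_of_le one_pos hCn)⟩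
  obtain ⟨s, hs, hCs'⟩ : ∃ s : ℝ, 0 ≤ s ∧ Real.exp s = Cs' :=
    ⟨Real.log Cs', Real.log_nonneg hCs, Real.exp_log (lt_of_lt_of_le one_pos hCs)⟩
  refine ⟨8 * Real.exp s * (a + 2 * n + 2 * s + c₀ + 14), ?_, ?_⟩
  · have h1 : 1 ≤ Real.exp s := Real.one_le_exp hs
    have h2 : (1 : ℝ) ≤ a + 2 * n + 2 * s + c₀ + 14 := by
      have : (0 : ℝ) ≤ c₀ := Nat.cast_nonneg c₀
      linarith
    have h3 : (1 : ℝ) ≤ 8 * Real.exp s := by linarith
    exact one_le_mul_of_one_le_of_one_le h3 h2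
  intro D hDz hDh L E T R g hL hE hLT hET hT hR hg hlam h1 h2
  have hL1 : (1 : ℝ) ≤ L := by exact_mod_cast hL
  have hE1 : (1 : ℝ) ≤ E := by exact_mod_cast hE
  have hLT1 : (L : ℝ) ≤ T := by exact_mod_cast hLT
  have hET1 : (E : ℝ) ≤ T := by exact_mod_cast hET
  have hT3 : (3 : ℝ) ≤ T := by exact_mod_cast hT
  obtain ⟨l, hl⟩ : ∃ l : ℝ, l = Real.log T := ⟨_, rfl⟩
  have hTe : Real.exp l = T := by rw [hl]; exact Real.exp_log (by linarith)
  have hlog : 1 ≤ l := by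
    rw [hl, Real.le_log_iff_exp_le (by linarith)]
    have := Real.exp_one_lt_d9
    linarith
  obtain ⟨b, hb⟩ : ∃ b : ℝ, b = T * l := ⟨_, rfl⟩
  rw [← hl, ← hb] at h1 h2
  have hB' : Real.exp b = (T : ℝ) ^ T := by
    rw [hb, Real.exp_nat_mul, hTe]
  have hΛ : (1 : ℝ) ≤ (T : ℝ) ^ c₀ := one_le_pow₀ (by linarith)
  obtain ⟨Sp, hSp, hsm⟩ := hsmall (2 * L) R (by omega) hR
  have hbd' := hbd D hDz hDh ((T : ℝ) ^ c₀) hΛ hlam L E hL hE
  obtain ⟨β, hβ⟩ : ∃ β : ℝ, β = (Cn * (T : ℝ) ^ c₀ * L * E) ^ E * Cn ^ L := ⟨_, rfl⟩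
  rw [← hβ] at hbd'
  have hβ0 : 0 ≤ β := by rw [hβ, ← hCn']; positivity
  obtain ⟨α, hα⟩ : ∃ α : ℝ, α = (max 1 ‖θ‖) ^ T * β := ⟨_, rfl⟩
  have hα' : α = Real.exp (T * a) * ((Real.exp n * (T : ℝ) ^ c₀ * L * E) ^ E * Real.exp n ^ L) := by
    rw [hα, hβ, Real.exp_nat_mul, hA', hCn']
  have hα0 : 0 ≤ α := by rw [hα]; positivity
  obtain ⟨n1, n2⟩ := e1_num L E T c₀ a n s b R g _ α l Sp.card hL1 hE1 hLT1 hET1 ha hn hs hb hlog hTe hR hg rfl hα'
    (by rw [hCs']; exact_mod_cast hSp) h1 h2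
  have hne : Nonempty (Iw L E × Fin T) := by
    have h3 : Nonempty (Fin L) := ⟨⟨0, hL⟩⟩
    have h4 : Nonempty (Fin E) := ⟨⟨0, hE⟩⟩
    have h5 : Nonempty (Fin T) := ⟨⟨0, by omega⟩⟩
    infer_instance
  have hBc : (((T ^ T : ℕ)) : ℝ) = (T : ℝ) ^ T := by push_cast; ring
  obtain ⟨x, hx0, hxB, hxε⟩ := MSK.pigeon (κ := Sp) (ι := Iw L E × Fin T)
    (fun v i => θ ^ i.2.val * (GA D (Pi.single i.1 1) v * (Real.exp (-(((2 * L : ℕ) : ℝ) * Qf z v)) : ℝ)))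
    α (Real.exp (-g - (2 * s * L + 1))) (T ^ T) hα0 (Real.exp_pos _) (by
      intro k i
      rw [norm_mul, norm_pow, norm_mul, Complex.norm_real, Real.norm_of_nonneg (Real.exp_pos _).le, hα]
      have h3 : ‖θ‖ ^ i.2.val ≤ (max 1 ‖θ‖) ^ T :=
        (pow_le_pow_left₀ (norm_nonneg _) (le_max_right _ _) _).trans
          (pow_le_pow_right₀ (le_max_left _ _) i.2.isLt.le)
      have h4 := hbd' i.1 (k : Fin 2 → ℂ)
      have h5 : β * Real.exp (-(((2 * L : ℕ) : ℝ) * yy z (k : Fin 2 → ℂ) ^ 2)) ≤ β := by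
        refine mul_le_of_le_one_right hβ0 (Real.exp_le_one_iff.2 ?_)
        rw [neg_nonpos]
        positivity
      exact mul_le_mul h3 (h4.trans h5) (by positivity) (by positivity))
    (by
      rw [Fintype.card_coe]
      refine (lt_of_eq_of_lt ?_ n1).trans_le ?_
      · rw [e1_card, hB', hBc]
      · have h3 : Real.exp (b * ((L : ℝ) ^ 2 * E * T)) = ((T ^ T : ℕ) : ℝ) ^ Fintype.card (Iw L E × Fin T) := by
          rw [hBc, ← hB', ← Real.exp_nat_mul, e1_card]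
          congr 1
          ring
        rw [h3]
        exact pow_le_pow_left₀ (by positivity) (by linarith) _)
  have hxB' : ∀ i, |x i| ≤ ((T ^ T : ℕ) : ℤ) := hxB
  refine ⟨e1p x, ?_, e1p_deg x, ?_, ?_⟩
  · intro h0
    apply hx0
    funext i
    have h3 := congrArg (fun f => Polynomial.coeff (f i.1) i.2.val) h0
    simp only [e1p_coeff, Pi.zero_apply, Polynomial.coeff_zero, i.2.isLt, dif_pos] at h3
    exact h3
  · intro ν j
    rw [e1p_coeff]
    split_ifs with h3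
    · rw [← hBc]
      exact_mod_cast hxB (ν, ⟨j, h3⟩)
    · rw [Int.cast_zero, abs_zero]
      positivity
  intro v
  have hmain := hsm (GA D (fun ν => (Polynomial.aeval θ (e1p x ν) : ℂ))) ((L : ℝ) ^ 2 * E * T * α * Real.exp b)
    (GA_diff D _) (fun m u => by rw [← hDz]; exact Nn_shift D _ m u) ?_ (Real.exp (-g - (2 * s * L + 1))) (Real.exp_pos _).le ?_ v
  · refine hmain.trans (le_trans (le_of_eq ?_) n2)
    have e : Cs' ^ (2 * L) = Real.exp (2 * s * L) := by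
      rw [← hCs', ← Real.exp_nat_mul]
      congr 1
      push_cast
      ring
    rw [e]
    push_cast
    ring_nf
  · -- the growth
    intro u
    have h3 : ‖GA D (fun ν => (Polynomial.aeval θ (e1p x ν) : ℂ)) u‖ ≤
        ∑ ν : Iw L E, (T * Real.exp b * (max 1 ‖θ‖) ^ T) * ‖GA D (Pi.single ν 1) u‖ := by
      rw [e1_GA]
      refine (norm_sum_le _ _).trans (Finset.sum_le_sum fun ν _ => ?_)
      rw [norm_mul]
      refine mul_le_mul_of_nonneg_right ?_ (norm_nonneg _)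
      have h5 := e1_coef x θ (T ^ T) hxB' ν
      rw [hBc, ← hB'] at h5
      exact h5
    have h4 : Nn z (2 * L) (GA D (fun ν => (Polynomial.aeval θ (e1p x ν) : ℂ))) u ≤
        ∑ ν : Iw L E, (T * Real.exp b * (max 1 ‖θ‖) ^ T) * Nn z (2 * L) (GA D (Pi.single ν 1)) u := by
      unfold Nn
      refine (mul_le_mul_of_nonneg_right h3 (Real.exp_pos _).le).trans (le_of_eq ?_)
      rw [Finset.sum_mul]
      exact Finset.sum_congr rfl fun ν _ => by ring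
    have h5 : ∑ ν : Iw L E, (T * Real.exp b * (max 1 ‖θ‖) ^ T) * Nn z (2 * L) (GA D (Pi.single ν 1)) u ≤
        ∑ _ν : Iw L E, (T * Real.exp b * (max 1 ‖θ‖) ^ T) *
          (β * Real.exp (-(((2 * L : ℕ) : ℝ) * yy z u ^ 2))) :=
      Finset.sum_le_sum fun ν _ => mul_le_mul_of_nonneg_left (hbd' ν u) (by positivity)
    refine (h4.trans h5).trans (le_of_eq ?_)
    rw [Finset.sum_const, Finset.card_univ, nsmul_eq_mul, e1_cardI, hα]
    ring
  · -- the points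
    intro u hu
    have h3 := hxε ⟨u, hu⟩
    refine le_trans (le_of_eq ?_) h3
    unfold Nn
    have h4 : ‖GA D (fun ν => (Polynomial.aeval θ (e1p x ν) : ℂ)) u‖ * Real.exp (-(((2 * L : ℕ) : ℝ) * Qf z u)) =
        ‖GA D (fun ν => (Polynomial.aeval θ (e1p x ν) : ℂ)) u * (Real.exp (-(((2 * L : ℕ) : ℝ) * Qf z u)) : ℝ)‖ := by
      rw [norm_mul, Complex.norm_real, Real.norm_of_nonneg (Real.exp_pos _).le]
    rw [h4, e1_GA, Finset.sum_mul]
    congr 1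
    refine Eq.trans ?_ (Fintype.sum_prod_type (α₁ := Iw L E) (α₂ := Fin T) _).symm
    refine Finset.sum_congr rfl fun ν _ => ?_
    rw [e1p_aeval, Finset.sum_mul, Finset.sum_mul]
    refine Finset.sum_congr rfl fun i _ => ?_
    ring

end Pool.Agent.MSW

end
end
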