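import Pool.Agent.Lib.MP_f58a57_nt.P.T5_Growth
import Pool.Agent.Lib.MP_f58a57_nt.T.B2_Rep

/-! # MP_f58a57_nt, all nonspecial points: C3_Der -/

/-! ### lower bounds at the base points -/

section

open Complex Filter Topology

noncomputable section

namespace Pool.Agent.MSW

open MSD MSP

theorem d4_pos (τ : ℂ) (hτ : 0 < τ.im) (s h : ℂ) : 0 < max ‖N0 τ h‖ ‖N2 τ s h‖ := by
  by_cases h0 : N0 τ h = 0
  · refine lt_max_of_lt_right (norm_pos_iff.2 ?_)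
    obtain ⟨m, n, hmn⟩ := (th_eq_zero_iff τ hτ h).1 h0
    have h1 : N1 τ h ≠ 0 := by
      have e : h = 0 + m + n * τ := by rw [hmn, zero_add]
      rw [e, N1_shift τ hτ]
      have h2 : N0 τ 0 = 0 := by
        unfold N0 th
        simp
      rw [h2, mul_zero, sub_zero]
      exact mul_ne_zero (au_ne τ m n 0) (deriv_th_zero_ne τ hτ)
    have h3 : N2 τ s h = N1 τ h ^ 2 := by
      have h4 : th τ h = 0 := h0
      unfold N2 N1
      rw [h4]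
      ring
    rw [h3]
    exact pow_ne_zero 2 h1
  · exact lt_max_of_lt_left (norm_pos_iff.2 h0)

/-- D4. PROOF. `N0 = th`, `N1 = deriv th`, `N2 = N1² - N0 N0'' - s N0²` are continuous (t5_cont0, t5_cont1, t5_cont2), `ph = N1/N0`, `wp = N2/N0²`. `N0` and `N2` have no common zero: the zeros of `th` are the lattice points (`th_eq_zero_iff`) and are simple
(`deriv_th_zero_ne` and the functional equations `th_add_one`, `t3_shift`/`th_add_tau`, or K/P lemmas on `au`: `th (t + m + nτ) = au .. * th t`), so `N2 = (deriv th)² ≠ 0` there. Compactness of the ball `‖h‖ ≤ H`: `max ‖N0‖ ‖N2‖ ≥ c` with `0 < c ≤ 1`. If `‖wp‖ ≤ B`, `B ≥ 1`: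
either `‖N0‖ ≥ c ≥ c/B` or `‖N0‖² = ‖N2‖/‖wp‖ ≥ c/B` (if `wp = 0` then `N2 = 0`, so the first case), and then `‖N0‖ ≥ min 1 (c/B)`-ish: `‖N0‖ ≥ ‖N0‖²` if `‖N0‖ ≤ 1`. So `‖N0‖ ≥ c/B` always. `‖ph‖ ≤ sup ‖N1‖ * B / c`. -/
theorem base_bounds (τ : ℂ) (hτ : 0 < τ.im) (H : ℝ) : ∃ C : ℝ, 1 ≤ C ∧ ∀ h : ℂ, ‖h‖ ≤ H → th τ h ≠ 0 → ∀ B : ℝ, 1 ≤ B → ‖wp τ (sE τ) h‖ ≤ B →
    1 / (C * B) ≤ ‖th τ h‖ ∧ ‖ph τ h‖ ≤ C * B := by
  have hK : IsCompact (Metric.closedBall (0 : ℂ) H) := isCompact_closedBall 0 H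
  have hc : Continuous fun h : ℂ => (max ‖N0 τ h‖ ‖N2 τ (sE τ) h‖)⁻¹ :=
    ((t5_cont0 τ hτ).norm.max (t5_cont2 τ (sE τ) hτ).norm).inv₀
      fun h => (d4_pos τ hτ (sE τ) h).ne'
  obtain ⟨D1, hD1⟩ := hK.exists_bound_of_continuousOn hc.continuousOn
  obtain ⟨D2, hD2⟩ := hK.exists_bound_of_continuousOn (t5_cont1 τ hτ).continuousOn
  have hD : 1 ≤ max 1 D1 := le_max_left _ _
  have hE : 1 ≤ max 1 D2 := le_max_left _ _
  have hD0 : 0 < max 1 D1 := lt_of_lt_of_le one_pos hD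
  have hE0 : 0 < max 1 D2 := lt_of_lt_of_le one_pos hE
  refine ⟨max 1 D1 * max 1 D2, one_le_mul_of_one_le_of_one_le hD hE, ?_⟩
  intro h hh h0 B hB hwp
  have hB0 : 0 < B := lt_of_lt_of_le one_pos hB
  have hmem : h ∈ Metric.closedBall (0 : ℂ) H := by
    rw [mem_closedBall_zero_iff]; exact hh
  have hN0 : 0 < ‖N0 τ h‖ := norm_pos_iff.2 h0
  have hmax : 1 / max 1 D1 ≤ max ‖N0 τ h‖ ‖N2 τ (sE τ) h‖ := by
    have h1 := hD1 h hmem
    rw [Real.norm_of_nonneg (inv_nonneg.2 (d4_pos τ hτ (sE τ) h).le)] at h1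
    have h2 : (max ‖N0 τ h‖ ‖N2 τ (sE τ) h‖)⁻¹ ≤ max 1 D1 := h1.trans (le_max_right _ _)
    rw [one_div]
    exact inv_le_of_inv_le₀ (d4_pos τ hτ (sE τ) h) h2
  have hN2 : ‖N2 τ (sE τ) h‖ ≤ B * ‖N0 τ h‖ ^ 2 := by
    have h1 : N2 τ (sE τ) h = wp τ (sE τ) h * N0 τ h ^ 2 := by
      unfold wp
      rw [div_mul_cancel₀ _ (pow_ne_zero 2 (norm_pos_iff.1 hN0))]
    rw [h1, norm_mul, norm_pow]
    exact mul_le_mul_of_nonneg_right hwp (by positivity)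
  have hlow : 1 / (max 1 D1 * B) ≤ ‖N0 τ h‖ := by
    rcases le_total ‖N2 τ (sE τ) h‖ ‖N0 τ h‖ with hle | hle
    · rw [max_eq_left hle] at hmax
      refine le_trans ?_ hmax
      exact one_div_le_one_div_of_le hD0 (le_mul_of_one_le_right hD0.le hB)
    · rw [max_eq_right hle] at hmax
      have h3 : 1 / (max 1 D1 * B) ≤ ‖N0 τ h‖ ^ 2 := by
        rw [← div_div, div_le_iff₀ hB0, mul_comm]
        exact hmax.trans hN2
      rcases le_total 1 ‖N0 τ h‖ with h4 | h4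
      · refine le_trans ?_ h4
        rw [div_le_one (mul_pos hD0 hB0)]
        exact one_le_mul_of_one_le_of_one_le hD hB
      · refine h3.trans ?_
        nlinarith
  refine ⟨?_, ?_⟩
  · refine le_trans ?_ hlow
    refine one_div_le_one_div_of_le (mul_pos hD0 hB0) ?_
    have : max 1 D1 * B ≤ max 1 D1 * B * max 1 D2 :=
      le_mul_of_one_le_right (mul_pos hD0 hB0).le hE
    calc max 1 D1 * B ≤ max 1 D1 * B * max 1 D2 := this
      _ = max 1 D1 * max 1 D2 * B := by ring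
  · unfold ph
    rw [norm_div, div_le_iff₀ hN0]
    have h1 : ‖N1 τ h‖ ≤ max 1 D2 := (hD2 h hmem).trans (le_max_right _ _)
    have h2 : 1 ≤ max 1 D1 * B * ‖N0 τ h‖ := by
      rw [div_le_iff₀ (mul_pos hD0 hB0)] at hlow
      linarith
    calc ‖N1 τ h‖ ≤ max 1 D2 := h1
      _ ≤ max 1 D2 * (max 1 D1 * B * ‖N0 τ h‖) := le_mul_of_one_le_right hE0.le h2
      _ = max 1 D1 * max 1 D2 * B * ‖N0 τ h‖ := by ring

theorem d4_lip (τ : ℂ) (hτ : 0 < τ.im) (R : ℝ) : ∃ L : ℝ, 0 ≤ L ∧ ∀ x y : ℂ, ‖x‖ ≤ R → ‖y‖ ≤ R →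
    ‖th τ y - th τ x‖ ≤ L * ‖y - x‖ := by
  have hd : Differentiable ℂ (th τ) := th_differentiable τ hτ
  have hc : Continuous (deriv (th τ)) := (hd.contDiff (n := 1)).continuous_deriv (by norm_num)
  obtain ⟨L, hL⟩ := (isCompact_closedBall (0 : ℂ) R).exists_bound_of_continuousOn hc.continuousOn
  refine ⟨max L 0, le_max_right _ _, fun x y hx hy => ?_⟩
  refine Convex.norm_image_sub_le_of_norm_deriv_le (s := Metric.closedBall (0 : ℂ) R)
    (fun w _ => hd w) (fun w hw => (hL w hw).trans (le_max_left _ _)) (convex_closedBall _ _) ?_ ?_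
  · simpa using hx
  · simpa using hy

private theorem d4_real {C₀ L B a b e t : ℝ} (hC₀ : 1 ≤ C₀) (hL : 0 ≤ L) (hB : 1 ≤ B) (ha : 1 / (C₀ * B) ≤ a)
    (ht : t ≤ 1 / (2 * C₀ * (L + 1) * B)) (he : e ≤ L * t) (hab : a ≤ b + e) :
    1 / (2 * C₀ * (L + 1) * B) ≤ b := by
  have hC0 : 0 < C₀ := one_pos.trans_le hC₀
  have hB0 : 0 < B := one_pos.trans_le hB
  have hL1 : 0 < L + 1 := by linarith
  have hX : 0 < 1 / (2 * C₀ * (L + 1) * B) :=
    one_div_pos.2 (mul_pos (mul_pos (mul_pos two_pos hC0) hL1) hB0)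
  have e1 : 1 / (C₀ * B) = 2 * (L + 1) * (1 / (2 * C₀ * (L + 1) * B)) := by
    have h1 : C₀ ≠ 0 := hC0.ne'
    have h2 : B ≠ 0 := hB0.ne'
    have h3 : L + 1 ≠ 0 := hL1.ne'
    field_simp
  have h1 : L * t ≤ L * (1 / (2 * C₀ * (L + 1) * B)) := mul_le_mul_of_nonneg_left ht hL
  rw [e1] at ha
  generalize 1 / (2 * C₀ * (L + 1) * B) = X at hX h1 ha ⊢
  have h2 : 0 ≤ L * X := mul_nonneg hL hX.le
  have h3 : 2 * (L + 1) * X = 2 * (L * X) + 2 * X := by ring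
  rw [h3] at ha
  linarith

/-- D4a. PROOF. As `pp_low` in U/D4b_Low: by `base_bounds` (for `H + 1`) `‖th z (h_l)‖ ≥ 1/(C₀ B)`; `th z` is Lipschitz with a constant `K` on the ball of radius `|H| + 1` (see `d4b_lip` in U/D4b_Low), so for `‖t‖ ≤ 1/(C B)`, `C ≥ 2 C₀ K + 2 C₀`, `‖th z (h_l + t)‖ ≥ 1/(2 C₀ B) ≥ 1/(C B)`. -/
theorem th_low (z : ℂ) (hz : 0 < z.im) (H : ℝ) : ∃ C : ℝ, 1 ≤ C ∧ ∀ D : Dw, D.z = z → (∀ l, ‖D.h l‖ ≤ H) → ∀ B : ℝ, 1 ≤ B →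
    (∀ l, ‖wp z (sE z) (D.h l)‖ ≤ B) → ∀ (l : Fin 2) (t : ℂ), ‖t‖ ≤ 1 / (C * B) → 1 / (C * B) ≤ ‖th z (D.h l + t)‖ := by
  obtain ⟨C₀, hC₀, hb⟩ := base_bounds z hz H
  obtain ⟨L, hL0, hL⟩ := d4_lip z hz (|H| + 1)
  have hC1 : 1 ≤ 2 * C₀ * (L + 1) := by
    have h1 : 1 * 1 ≤ C₀ * (L + 1) := mul_le_mul hC₀ (by linarith) zero_le_one (by linarith)
    rw [mul_assoc]
    linarith
  refine ⟨2 * C₀ * (L + 1), hC1, ?_⟩
  intro D hz' hH B hB hw l t ht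
  have hne : th z (D.h l) ≠ 0 := by
    have := D.hh l
    rwa [hz'] at this
  obtain ⟨hlow, -⟩ := hb (D.h l) (hH l) hne B hB (hw l)
  have h2 : 1 ≤ 2 * C₀ * (L + 1) * B := by
    have h1 : 1 * 1 ≤ 2 * C₀ * (L + 1) * B := mul_le_mul hC1 hB zero_le_one (by linarith)
    linarith
  have ht1 : ‖t‖ ≤ 1 := ht.trans (by rw [div_le_one (by linarith)]; exact h2)
  have hx : ‖D.h l‖ ≤ |H| + 1 := (hH l).trans (by linarith [le_abs_self H])
  have hy : ‖D.h l + t‖ ≤ |H| + 1 :=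
    (norm_add_le _ _).trans (add_le_add ((hH l).trans (le_abs_self H)) ht1)
  have h3 := hL _ _ hx hy
  rw [add_sub_cancel_left] at h3
  refine d4_real hC₀ hL0 hB hlow ht h3 ?_
  have : th z (D.h l) = th z (D.h l + t) - (th z (D.h l + t) - th z (D.h l)) := by ring
  calc ‖th z (D.h l)‖ = ‖th z (D.h l + t) - (th z (D.h l + t) - th z (D.h l))‖ := by rw [← this]
    _ ≤ _ := norm_sub_le _ _

/-- D4b. PROOF. `lam = (rh/om) ∑ c_l ph(h_l)`, `‖ph(h_l)‖ ≤ C₀ B` (`base_bounds`), `‖rh‖ = 1/2`, `‖om‖² = π ≥ 1`. -/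
theorem lam_le (z : ℂ) (hz : 0 < z.im) (H : ℝ) : ∃ C : ℝ, 1 ≤ C ∧ ∀ D : Dw, D.z = z → (∀ l, ‖D.h l‖ ≤ H) → ∀ B : ℝ, 1 ≤ B →
    (∀ l, ‖wp z (sE z) (D.h l)‖ ≤ B) → ‖D.lam‖ ≤ C * B := by
  obtain ⟨C₀, hC₀, hb⟩ := base_bounds z hz H
  have hCpos : 0 < C₀ := by linarith
  obtain ⟨S, hS⟩ : ∃ S : ℝ, S = ‖rh‖ * ∑ l : Fin 2, ‖cz z l‖ := ⟨_, rfl⟩
  have hS0 : 0 ≤ S := by
    rw [hS]
    exact mul_nonneg (norm_nonneg _) (Finset.sum_nonneg fun l _ => norm_nonneg _)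
  refine ⟨1 + S * C₀, le_add_of_nonneg_right (mul_nonneg hS0 hCpos.le), ?_⟩
  intro D hz' hH B hB hw
  have hBpos : 0 < B := by linarith
  have hph : ∀ l, ‖ph D.z (D.h l)‖ ≤ C₀ * B := by
    intro l
    have hne : th z (D.h l) ≠ 0 := by
      have := D.hh l
      rwa [hz'] at this
    rw [hz']
    exact (hb (D.h l) (hH l) hne B hB (hw l)).2
  have hom1 : 1 ≤ ‖D.om‖ := by
    have h1 : ‖D.om‖ ^ 2 = Real.pi := by
      rw [← norm_pow, D.hom, Complex.norm_real, Real.norm_of_nonneg Real.pi_pos.le]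
    have h2 : (1 : ℝ) ≤ ‖D.om‖ ^ 2 := by rw [h1]; linarith [Real.pi_gt_three]
    exact (one_le_sq_iff₀ (norm_nonneg _)).1 h2
  have hCB : 0 ≤ C₀ * B := mul_nonneg hCpos.le hBpos.le
  have h2 : ‖∑ l, cz D.z l * ph D.z (D.h l)‖ ≤ (∑ l : Fin 2, ‖cz z l‖) * (C₀ * B) := by
    rw [Finset.sum_mul]
    refine (norm_sum_le _ _).trans (Finset.sum_le_sum fun l _ => ?_)
    rw [norm_mul]
    refine mul_le_mul (le_of_eq (by rw [hz'])) (hph l) (norm_nonneg _) (norm_nonneg _)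
  have h3 : ‖rh / D.om‖ ≤ ‖rh‖ := by
    rw [norm_div]
    exact div_le_self (norm_nonneg _) hom1
  have h4 : ‖D.lam‖ ≤ ‖rh‖ * ((∑ l : Fin 2, ‖cz z l‖) * (C₀ * B)) := by
    unfold Dw.lam
    rw [norm_mul]
    exact mul_le_mul h3 h2 (norm_nonneg _) (norm_nonneg _)
  have h5 : ‖rh‖ * ((∑ l : Fin 2, ‖cz z l‖) * (C₀ * B)) = S * C₀ * B := by
    rw [hS]
    ring
  rw [h5] at h4
  rw [add_mul, one_mul]
  linarith

end Pool.Agent.MSW

end
end

/-! ### small values have small derivatives -/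

section

open Complex Filter Topology

noncomputable section

namespace Pool.Agent.MSW

open MSD MSP

theorem d5_FR (D : Dw) {L E : ℕ} (c : Iw L E → ℂ) (t : Fin 2 → ℂ) (h : ∀ l, th D.z (D.h l + t l) ≠ 0) :
    FR D c t = GA D c (fun l => D.h l + t l) / (∏ l, th D.z (D.h l + t l)) ^ (2 * L) := by
  rw [eq_div_iff (pow_ne_zero _ (Finset.prod_ne_zero_iff.2 fun l _ => h l)), FR_GR D c t h]
  unfold GA
  congr 1
  funext j
  ring

theorem d5_om (D : Dw) : 1 ≤ ‖D.om‖ := by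
  have h3 : ‖D.om‖ ^ 2 = Real.pi := by
    rw [← norm_pow, D.hom, Complex.norm_real, Real.norm_of_nonneg Real.pi_pos.le]
  have h4 : 1 ≤ ‖D.om‖ ^ 2 := by
    rw [h3]
    linarith [Real.pi_gt_three]
  by_contra h5
  push Not at h5
  have h6 := norm_nonneg D.om
  nlinarith

/-- D5. PROOF. Compare `small_der_U` in U/D5_Deriv (complete proof there). `FR D c t = GA D c (h + t) / (∏ th (h_l + t_l))^(2L)` where `th ≠ 0` (`FR_GR`). For `‖t_l‖ ≤ r₀ = 1/(C₀ B)` (`th_low`): `‖∏ th‖^(2L) ≥ (1/(C₀B))^(4L)`, `‖GA (h + t)‖ ≤ η exp (2L Qf (h + t)) ≤ η exp (C₁ L)` (`Qf_le z`, `‖h‖ ≤ H`).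
Cauchy on the circle `‖ζ‖ = r₀/T` (`‖ζ a_l‖ ≤ r₀`): `‖iteratedDeriv k (ζ ↦ FR (ζ a)) 0‖ ≤ k! (T/r₀)^k η (C₀B)^(4L) e^(C₁ L) ≤ (C₀ B T²)^T (C₀B)^(4L) e^(C₁L) η` (`k! ≤ T^T`). By `iteratedDeriv_FR` the left side is `‖om‖^k ‖∑ ..‖`, `‖om‖ ≥ 1` (`‖om‖² = π`). Enlarge `C`. -/
theorem small_der (z : ℂ) (hz : 0 < z.im) (H : ℝ) : ∃ C : ℝ, 1 ≤ C ∧ ∀ D : Dw, D.z = z → (∀ l, ‖D.h l‖ ≤ H) → ∀ B : ℝ, 1 ≤ B →
    (∀ l, ‖wp z (sE z) (D.h l)‖ ≤ B) → ∀ (L E : ℕ) (c : Iw L E → ℂ) (η : ℝ), 1 ≤ L → 0 ≤ η → (∀ u, Nn z (2 * L) (GA D c) u ≤ η) →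
      ∀ T : ℕ, 1 ≤ T → ∀ a : Fin 2 → ℕ, (∀ j, a j ≤ T) → ∀ k ≤ T,
        ‖∑ ν, c ν * MvPolynomial.aeval (vals D) ((der (fun j => (a j : ℤ)))^[k] (Rp ν))‖ ≤ (C * B * T ^ 2) ^ (T + 4 * L) * C ^ L * η := by
  obtain ⟨C₀, hC0, hlow⟩ := th_low z hz H
  obtain ⟨C₁, hC1, hQ⟩ := Qf_le z hz
  set Q₀ : ℝ := C₁ * (|H| + 1) ^ 2 with hQ0
  have hQ0' : 0 ≤ Q₀ := by positivity
  have hexp1 : (1 : ℝ) ≤ Real.exp (2 * Q₀) := Real.one_le_exp (by positivity)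
  have hC0' : 0 < C₀ := by linarith
  refine ⟨C₀ * Real.exp (2 * Q₀), by nlinarith, ?_⟩
  intro D hDz hh B hB hwp L E c η hL hη hN T hT a ha k hk
  set C : ℝ := C₀ * Real.exp (2 * Q₀) with hC
  have hC0C : C₀ ≤ C := by
    rw [hC]
    exact le_mul_of_one_le_right hC0'.le hexp1
  have hexpC : Real.exp (2 * Q₀) ≤ C := by
    rw [hC]
    exact le_mul_of_one_le_left (Real.exp_pos _).le hC0
  have hTpos : (0 : ℝ) < T := by exact_mod_cast hT
  have hT1 : (1 : ℝ) ≤ T := by exact_mod_cast hT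
  have hB0 : (0 : ℝ) < B := by linarith
  have hCB1 : 1 ≤ C₀ * B := by nlinarith
  have hCB0 : 0 < C₀ * B := by linarith
  set r₀ : ℝ := 1 / (C₀ * B) with hr0
  have hr0p : 0 < r₀ := by positivity
  have hr1 : r₀ ≤ 1 := by
    rw [hr0, div_le_one hCB0]
    exact hCB1
  have hlow' := hlow D hDz hh B hB hwp
  have hc0 : 0 < (1 / (C₀ * B)) ^ (4 * L) := by positivity
  set M : ℝ := Real.exp (2 * Q₀) ^ L * (C₀ * B) ^ (4 * L) with hM
  have hM0 : 0 ≤ M := by positivity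
  -- nonvanishing and lower bounds on the ball
  have hne : ∀ t : Fin 2 → ℂ, ‖t‖ ≤ r₀ → ∀ l, th D.z (D.h l + t l) ≠ 0 := by
    intro t ht l
    rw [hDz]
    refine norm_pos_iff.1 (lt_of_lt_of_le (by positivity : 0 < 1 / (C₀ * B)) (hlow' l (t l) ?_))
    exact (norm_le_pi_norm t l).trans ht
  have hlowp : ∀ t : Fin 2 → ℂ, ‖t‖ ≤ r₀ →
      (1 / (C₀ * B)) ^ (4 * L) ≤ ‖(∏ l, th D.z (D.h l + t l)) ^ (2 * L)‖ := by
    intro t ht
    rw [norm_pow, norm_prod]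
    have h1 : (1 / (C₀ * B)) ^ 2 ≤ ∏ l, ‖th D.z (D.h l + t l)‖ := by
      rw [hDz, Fin.prod_univ_two, pow_two]
      exact mul_le_mul (hlow' 0 (t 0) ((norm_le_pi_norm t 0).trans ht))
        (hlow' 1 (t 1) ((norm_le_pi_norm t 1).trans ht)) (by positivity) (norm_nonneg _)
    calc (1 / (C₀ * B)) ^ (4 * L) = ((1 / (C₀ * B)) ^ 2) ^ (2 * L) := by
          rw [← pow_mul]
          congr 1
          ring
      _ ≤ _ := pow_le_pow_left₀ (by positivity) h1 _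
  -- the bound on the ball
  have hball : ∀ t : Fin 2 → ℂ, ‖t‖ ≤ r₀ → ‖FR D c t‖ ≤ M * η := by
    intro t ht
    have hl := hlowp t ht
    rw [d5_FR D c t (hne t ht), norm_div]
    have h1 := hN (fun l => D.h l + t l)
    unfold Nn at h1
    rw [Real.exp_neg, ← div_eq_mul_inv, div_le_iff₀ (Real.exp_pos _)] at h1
    have h2 : Qf z (fun l => D.h l + t l) ≤ Q₀ := by
      refine (hQ _).trans ?_
      rw [hQ0]
      have h3 : ‖(fun l => D.h l + t l)‖ ≤ |H| + 1 := by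
        have h5 := le_abs_self H
        rw [pi_norm_le_iff_of_nonneg (by positivity)]
        intro l
        exact (norm_add_le _ _).trans (add_le_add ((hh l).trans h5) ((norm_le_pi_norm t l).trans (ht.trans hr1)))
      have h5 : ‖(fun l => D.h l + t l)‖ ^ 2 ≤ (|H| + 1) ^ 2 :=
        pow_le_pow_left₀ (norm_nonneg _) h3 2
      exact mul_le_mul_of_nonneg_left h5 (by linarith)
    have h6 : Real.exp (((2 * L : ℕ) : ℝ) * Qf z (fun l => D.h l + t l)) ≤ Real.exp (2 * Q₀) ^ L := by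
      rw [← Real.exp_nat_mul]
      refine Real.exp_le_exp.2 ?_
      push_cast
      have hLr : (0 : ℝ) ≤ L := Nat.cast_nonneg L
      nlinarith
    have h8 : ‖GA D c (fun l => D.h l + t l)‖ ≤ η * Real.exp (2 * Q₀) ^ L :=
      h1.trans (mul_le_mul_of_nonneg_left h6 hη)
    calc ‖GA D c (fun l => D.h l + t l)‖ / ‖(∏ l, th D.z (D.h l + t l)) ^ (2 * L)‖
        ≤ (η * Real.exp (2 * Q₀) ^ L) / (1 / (C₀ * B)) ^ (4 * L) := div_le_div₀ (by positivity) h8 hc0 hl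
      _ = M * η := by
          rw [hM, one_div, inv_pow, div_inv_eq_mul]
          ring
  -- Cauchy
  set f : ℂ → ℂ := fun ζ : ℂ => FR D c (fun j => ζ * a j) with hf
  set R : ℝ := r₀ / T with hR
  have hRpos : 0 < R := by positivity
  have hin : ∀ ζ : ℂ, ‖ζ‖ ≤ R → ‖(fun j => ζ * a j : Fin 2 → ℂ)‖ ≤ r₀ := by
    intro ζ hζ
    rw [pi_norm_le_iff_of_nonneg hr0p.le]
    intro j
    rw [norm_mul, Complex.norm_natCast]
    have h1 : (a j : ℝ) ≤ T := by exact_mod_cast ha j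
    calc ‖ζ‖ * (a j : ℝ) ≤ R * T := mul_le_mul hζ h1 (Nat.cast_nonneg _) hRpos.le
      _ = r₀ := by rw [hR]; field_simp
  have hline : Differentiable ℂ (fun ζ : ℂ => (fun j => ζ * a j : Fin 2 → ℂ)) := by
    rw [differentiable_pi]
    intro j
    fun_prop
  have hdiff : DifferentiableOn ℂ f (Metric.closedBall 0 R) := by
    have h1 : DifferentiableOn ℂ (fun ζ : ℂ => GR D c (fun j => ζ * a j : Fin 2 → ℂ) /
        (∏ l, th D.z (D.h l + (fun j => ζ * a j : Fin 2 → ℂ) l)) ^ (2 * L)) (Metric.closedBall 0 R) := by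
      refine DifferentiableOn.fun_div ?_ ?_ ?_
      · exact ((GR_diff D c).comp hline).differentiableOn
      · refine Differentiable.differentiableOn ?_
        refine Differentiable.fun_pow ?_ _
        simp only [Fin.prod_univ_two]
        refine Differentiable.fun_mul ?_ ?_
        · exact (th_differentiable D.z D.im).comp (by fun_prop)
        · exact (th_differentiable D.z D.im).comp (by fun_prop)
      · intro ζ hζ
        have hζ' : ‖ζ‖ ≤ R := by simpa using hζ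
        exact norm_pos_iff.1 (hc0.trans_le (hlowp _ (hin ζ hζ')))
    refine h1.congr fun ζ hζ => ?_
    have hζ' : ‖ζ‖ ≤ R := by simpa using hζ
    have hne' := norm_pos_iff.1 (hc0.trans_le (hlowp _ (hin ζ hζ')))
    exact (eq_div_iff hne').2 (FR_GR D c _ (hne _ (hin ζ hζ')))
  have hcl : DiffContOnCl ℂ f (Metric.ball 0 R) :=
    (hdiff.mono Metric.closure_ball_subset_closedBall).diffContOnCl
  have hcauchy := Complex.norm_iteratedDeriv_le_of_forall_mem_sphere_norm_le k hRpos hcl (C := M * η) (by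
    intro ζ hζ
    have hζ' : ‖ζ‖ ≤ R := by
      have : ‖ζ‖ = R := by simpa using hζ
      exact this.le
    exact hball _ (hin ζ hζ'))
  have h4 := iteratedDeriv_FR D c a k
  rw [hf, h4, norm_mul, norm_pow] at hcauchy
  have hom := d5_om D
  refine (le_mul_of_one_le_left (norm_nonneg _) (one_le_pow₀ hom)).trans (hcauchy.trans ?_)
  have hCr : C₀ * B ≤ C * B := mul_le_mul_of_nonneg_right hC0C hB0.le
  have hC1' : 1 ≤ C * B := hCB1.trans hCr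
  have e1 : (k.factorial : ℝ) ≤ (T : ℝ) ^ k := by
    have h1 : k.factorial ≤ k ^ k := Nat.factorial_le_pow k
    have h2 : k ^ k ≤ T ^ k := Nat.pow_le_pow_left hk k
    exact_mod_cast h1.trans h2
  have hbase : 1 ≤ C * B * (T : ℝ) ^ 2 := one_le_mul_of_one_le_of_one_le hC1' (one_le_pow₀ hT1)
  have e2 : (k.factorial : ℝ) / R ^ k ≤ (C * B * T ^ 2) ^ T := by
    have h1 : (k.factorial : ℝ) / R ^ k = k.factorial * (T * (C₀ * B)) ^ k := by
      have h2 : (T : ℝ) * (C₀ * B) = R⁻¹ := by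
        rw [hR, hr0, inv_div, one_div, div_inv_eq_mul]
      rw [h2, inv_pow, div_eq_mul_inv]
    rw [h1]
    have h2 : (T * (C₀ * B)) ^ k ≤ ((T : ℝ) * (C * B)) ^ k :=
      pow_le_pow_left₀ (by positivity) (mul_le_mul_of_nonneg_left hCr hTpos.le) k
    calc (k.factorial : ℝ) * (T * (C₀ * B)) ^ k ≤ (T : ℝ) ^ k * ((T : ℝ) * (C * B)) ^ k :=
          mul_le_mul e1 h2 (by positivity) (by positivity)
      _ = (C * B * T ^ 2) ^ k := by rw [← mul_pow]; ring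
      _ ≤ (C * B * T ^ 2) ^ T := pow_le_pow_right₀ hbase hk
  have hT2 : (1 : ℝ) ≤ (T : ℝ) ^ 2 := one_le_pow₀ hT1
  have hCrT : C₀ * B ≤ C * B * (T : ℝ) ^ 2 :=
    hCr.trans (le_mul_of_one_le_right (by linarith) hT2)
  have e3 : M ≤ (C * B * T ^ 2) ^ (4 * L) * C ^ L := by
    rw [hM, mul_comm]
    exact mul_le_mul (pow_le_pow_left₀ hCB0.le hCrT _) (pow_le_pow_left₀ (Real.exp_pos _).le hexpC _)
      (by positivity) (by positivity)
  calc (k.factorial : ℝ) * (M * η) / R ^ k = ((k.factorial : ℝ) / R ^ k) * (M * η) := by ring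
    _ ≤ (C * B * T ^ 2) ^ T * ((C * B * T ^ 2) ^ (4 * L) * C ^ L * η) :=
      mul_le_mul e2 (mul_le_mul_of_nonneg_right e3 hη) (by positivity) (by positivity)
    _ = (C * B * T ^ 2) ^ (T + 4 * L) * C ^ L * η := by rw [pow_add]; ring

end Pool.Agent.MSW

end
end
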