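import Pool.Agent.Lib.MP_f58a57_nt.K.A3_Norm
import Pool.Agent.Lib.MP_f58a57_nt.N.Link
import Pool.Agent.Lib.MP_f58a57_nt.P.T8c_ODE
import Pool.Agent.Lib.MP_f58a57_nt.T.A1_Defs

/-! # MP_f58a57_nt, all nonspecial points: D1_Norm -/

/-! ### elimination of a square root -/

section

open Complex MvPolynomial

noncomputable section

namespace Pool.Agent.MSW

open MSP

/-! ### auxiliary -/

theorem n1_mlen_one {σ : Type} : mlen (1 : MvPolynomial σ ℤ) = 1 := by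
  rw [← MvPolynomial.C_1, mlen_C]
  simp

theorem n1_mlen_pow {σ : Type} (P : MvPolynomial σ ℤ) (p : ℝ) (hp : mlen P ≤ p) (h1 : 1 ≤ p) (k : ℕ) :
    mlen (P ^ k) ≤ p ^ k := by
  induction k with
  | zero => rw [pow_zero, pow_zero, n1_mlen_one]
  | succ k ih =>
    rw [pow_succ, pow_succ]
    exact (mlen_mul _ _).trans (mul_le_mul ih hp (mlen_nonneg _) (by positivity))

/-- the term of a monomial -/
def n1_T {σ : Type} (c : ℤ) (P : MvPolynomial σ ℤ) (m : Option σ →₀ ℕ) : MvPolynomial σ ℤ :=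
  monomial m.some c * P ^ (m none / 2)

theorem n1_T_mlen {σ : Type} (c : ℤ) (P : MvPolynomial σ ℤ) (m : Option σ →₀ ℕ) (p : ℝ) (n : ℕ)
    (hp : mlen P ≤ p) (h1 : 1 ≤ p) (hm : m none ≤ n) : mlen (n1_T c P m) ≤ |(c : ℝ)| * p ^ n := by
  refine (mlen_mul _ _).trans ?_
  rw [mlen_monomial]
  refine mul_le_mul_of_nonneg_left ?_ (abs_nonneg _)
  exact (n1_mlen_pow P p hp h1 _).trans (pow_le_pow_right₀ h1 (by omega))

theorem n1_T_deg {σ : Type} (c : ℤ) (P : MvPolynomial σ ℤ) (m : Option σ →₀ ℕ) (n e : ℕ)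
    (hP : P.totalDegree ≤ e) (hm : m none + (m.some.sum fun _ k => k) ≤ n) :
    (n1_T c P m).totalDegree ≤ (e + 1) * n := by
  refine (totalDegree_mul _ _).trans ?_
  have h1 : ((monomial m.some) c : MvPolynomial σ ℤ).totalDegree ≤ n := by
    refine (totalDegree_monomial_le _ _).trans ?_
    have : (m.some.sum fun _ => id) = m.some.sum fun _ k => k := rfl
    omega
  have h2 : (P ^ (m none / 2)).totalDegree ≤ n * e := by
    refine (totalDegree_pow _ _).trans ?_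
    exact Nat.mul_le_mul (by omega) hP
  calc ((monomial m.some) c : MvPolynomial σ ℤ).totalDegree + (P ^ (m none / 2)).totalDegree
      ≤ n + n * e := Nat.add_le_add h1 h2
    _ = (e + 1) * n := by ring

theorem n1_split {σ : Type} (m : Option σ →₀ ℕ) :
    (m.sum fun _ k => k) = m none + (m.some.sum fun _ k => k) :=
  Finsupp.sum_option_index m (fun _ k => k) (fun _ => rfl) (fun _ _ _ => rfl)

theorem n1_prod {σ : Type} (m : Option σ →₀ ℕ) (x : σ → ℂ) (y : ℂ) :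
    (m.prod fun o k => (o.elim y x : ℂ) ^ k) = y ^ (m none) * m.some.prod fun i k => x i ^ k :=
  Finsupp.prod_option_index m (fun o k => (o.elim y x : ℂ) ^ k) (fun _ => pow_zero _)
    (fun _ _ _ => pow_add _ _ _)

theorem n1_T_val {σ : Type} (c : ℤ) (P : MvPolynomial σ ℤ) (m : Option σ →₀ ℕ) (x : σ → ℂ) (y : ℂ)
    (hy : y ^ 2 = aeval x P) :
    aeval x (n1_T c P m) = (c : ℂ) * (m.some.prod fun i k => x i ^ k) * y ^ (2 * (m none / 2)) := by
  unfold n1_T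
  rw [map_mul, map_pow, ← hy, aeval_monomial, ← pow_mul]
  rfl

theorem n1_prod_norm {σ : Type} (m : σ →₀ ℕ) (x : σ → ℂ) (ρ : ℝ) (hx : ∀ i, ‖x i‖ ≤ ρ) :
    ‖m.prod fun i k => x i ^ k‖ ≤ ρ ^ (m.sum fun _ k => k) := by
  unfold Finsupp.prod Finsupp.sum
  rw [norm_prod, ← Finset.prod_pow_eq_pow_sum]
  refine Finset.prod_le_prod (fun i _ => norm_nonneg _) fun i _ => ?_
  rw [norm_pow]
  exact pow_le_pow_left₀ (norm_nonneg _) (hx i) _

theorem n1_term {σ : Type} (c : ℤ) (P : MvPolynomial σ ℤ) (m : Option σ →₀ ℕ) (x : σ → ℂ) (y : ℂ)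
    (hy : y ^ 2 = aeval x P) (n : ℕ) (ρ : ℝ) (h2 : 1 ≤ ρ) (hx : ∀ i, ‖x i‖ ≤ ρ) (hyρ : ‖y‖ ≤ ρ)
    (hm : m none + (m.some.sum fun _ k => k) ≤ n) :
    aeval (fun o : Option σ => o.elim y x) (monomial m c) =
      aeval x (if m none % 2 = 0 then n1_T c P m else 0) +
        aeval x (if m none % 2 = 0 then 0 else n1_T c P m) * y ∧
    ‖aeval x (if m none % 2 = 0 then n1_T c P m else 0)‖ +
      ‖aeval x (if m none % 2 = 0 then 0 else n1_T c P m)‖ * ‖y‖ ≤ |(c : ℝ)| * ρ ^ n := by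
  have hρ0 : 0 ≤ ρ := by linarith
  have hc : ‖(c : ℂ)‖ = |(c : ℝ)| := by
    rw [Complex.norm_intCast]
  have hpn := n1_prod_norm m.some x ρ hx
  have key : |(c : ℝ)| * ‖m.some.prod fun i k => x i ^ k‖ * ‖y‖ ^ (m none) ≤ |(c : ℝ)| * ρ ^ n := by
    rw [mul_assoc]
    refine mul_le_mul_of_nonneg_left ?_ (abs_nonneg _)
    calc ‖m.some.prod fun i k => x i ^ k‖ * ‖y‖ ^ (m none)
        ≤ ρ ^ (m.some.sum fun _ k => k) * ρ ^ (m none) :=
          mul_le_mul hpn (pow_le_pow_left₀ (norm_nonneg _) hyρ _) (by positivity) (by positivity)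
      _ = ρ ^ (m none + (m.some.sum fun _ k => k)) := by rw [← pow_add, Nat.add_comm]
      _ ≤ ρ ^ n := pow_le_pow_right₀ h2 hm
  have hL : aeval (fun o : Option σ => o.elim y x) (monomial m c) =
      (c : ℂ) * (m.some.prod fun i k => x i ^ k) * y ^ (m none) := by
    rw [aeval_monomial, n1_prod]
    have : (algebraMap ℤ ℂ) c = (c : ℂ) := rfl
    rw [this]
    ring
  by_cases h : m none % 2 = 0
  · have e : 2 * (m none / 2) = m none := by omega
    rw [if_pos h, if_pos h, map_zero, zero_mul, add_zero, norm_zero, zero_mul, add_zero,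
      n1_T_val c P m x y hy, e, norm_mul, norm_mul, norm_pow, hc]
    exact ⟨hL, key⟩
  · have e : m none = 2 * (m none / 2) + 1 := by omega
    rw [if_neg h, if_neg h, map_zero, zero_add, norm_zero, zero_add,
      n1_T_val c P m x y hy, norm_mul, norm_mul, norm_pow, hc]
    constructor
    · rw [hL, mul_assoc _ (y ^ (2 * (m none / 2))) y, ← pow_succ, ← e]
    · rw [mul_assoc _ (‖y‖ ^ (2 * (m none / 2))) ‖y‖, ← pow_succ, ← e]
      exact key

/-- N1a. the decomposition `A = a₀(Y²) + Y a₁(Y²)` with `Y² = P`. PROOF. By linearity on monomials: `A = ∑_m c_m X^m`, `m = (m none, m')`; `a₀ = ∑_{m none even} c_m X^m' P^(m none/2)`, `a₁ = ∑_{m none odd} c_m X^m' P^((m none - 1)/2)` (`MvPolynomial.rename some`-images or `optionEquivLeft`).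
Degrees: `|m'| + e (m none/2) ≤ (e + 1) n`; lengths `≤ ∑ |c_m| p^n = H p^n` for `a₀`, and `∑ |c_m| p^(n-1)`.. (for `n = 0` `a₁ = 0`); to keep it simple: `mlen a_i ≤ H p^n`. Values: `‖aeval x a₀‖ ≤ ∑ |c_m| ρ^|m|` since `‖aeval x (P^i)‖ = ‖y‖^(2i) ≤ ρ^(2i)`. -/
theorem even_odd {σ : Type} [Fintype σ] (A : MvPolynomial (Option σ) ℤ) (P : MvPolynomial σ ℤ) (x : σ → ℂ) (y : ℂ) (hy : y ^ 2 = aeval x P)
    (n e : ℕ) (H p ρ : ℝ) (hA : A.totalDegree ≤ n) (hP : P.totalDegree ≤ e) (hH : mlen A ≤ H) (hp : mlen P ≤ p) (h1 : 1 ≤ p) (h2 : 1 ≤ ρ)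
    (hx : ∀ i, ‖x i‖ ≤ ρ) (hyρ : ‖y‖ ≤ ρ) :
    ∃ a₀ a₁ : MvPolynomial σ ℤ, aeval (fun o : Option σ => o.elim y x) A = aeval x a₀ + aeval x a₁ * y ∧
      a₀.totalDegree ≤ (e + 1) * n ∧ a₁.totalDegree ≤ (e + 1) * n ∧ mlen a₀ ≤ H * p ^ n ∧ mlen a₁ ≤ H * p ^ n ∧
      ‖aeval x a₀‖ + ‖aeval x a₁‖ * ‖y‖ ≤ 2 * H * ρ ^ n := by
  have hρ0 : 0 ≤ ρ := by linarith
  have hH0 : 0 ≤ H := (mlen_nonneg A).trans hH
  have hm : ∀ m ∈ A.support, m none + (m.some.sum fun _ k => k) ≤ n := by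
    intro m hm
    rw [← n1_split]
    exact (le_totalDegree hm).trans hA
  have hlen : ∀ g : (Option σ →₀ ℕ) → MvPolynomial σ ℤ,
      (∀ m ∈ A.support, mlen (g m) ≤ |((A.coeff m : ℤ) : ℝ)| * p ^ n) →
      mlen (∑ m ∈ A.support, g m) ≤ H * p ^ n := by
    intro g hg
    refine (mlen_sum _ _).trans ((Finset.sum_le_sum hg).trans ?_)
    rw [← Finset.sum_mul]
    exact mul_le_mul_of_nonneg_right hH (by positivity)
  have hz : ∀ m, mlen (0 : MvPolynomial σ ℤ) ≤ |((A.coeff m : ℤ) : ℝ)| * p ^ n := by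
    intro m
    rw [mlen_zero]
    positivity
  refine ⟨∑ m ∈ A.support, (if m none % 2 = 0 then n1_T (A.coeff m) P m else 0),
    ∑ m ∈ A.support, (if m none % 2 = 0 then 0 else n1_T (A.coeff m) P m), ?_, ?_, ?_, ?_, ?_, ?_⟩
  · conv_lhs => rw [← support_sum_monomial_coeff A]
    rw [map_sum, map_sum, map_sum, Finset.sum_mul, ← Finset.sum_add_distrib]
    refine Finset.sum_congr rfl fun m hmm => ?_
    exact (n1_term _ P m x y hy n ρ h2 hx hyρ (hm m hmm)).1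
  · refine totalDegree_finsetSum_le fun m hmm => ?_
    split_ifs
    · exact n1_T_deg _ P m n e hP (hm m hmm)
    · rw [totalDegree_zero]
      exact Nat.zero_le _
  · refine totalDegree_finsetSum_le fun m hmm => ?_
    split_ifs
    · rw [totalDegree_zero]
      exact Nat.zero_le _
    · exact n1_T_deg _ P m n e hP (hm m hmm)
  · refine hlen _ fun m hmm => ?_
    have := hm m hmm
    split_ifs
    · exact n1_T_mlen _ P m p n hp h1 (by omega)
    · exact hz m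
  · refine hlen _ fun m hmm => ?_
    have := hm m hmm
    split_ifs
    · exact hz m
    · exact n1_T_mlen _ P m p n hp h1 (by omega)
  · rw [map_sum, map_sum]
    have h3 : ‖∑ m ∈ A.support, aeval x (if m none % 2 = 0 then n1_T (A.coeff m) P m else 0)‖ +
        ‖∑ m ∈ A.support, aeval x (if m none % 2 = 0 then 0 else n1_T (A.coeff m) P m)‖ * ‖y‖ ≤
        ∑ m ∈ A.support, (‖aeval x (if m none % 2 = 0 then n1_T (A.coeff m) P m else 0)‖ +
          ‖aeval x (if m none % 2 = 0 then 0 else n1_T (A.coeff m) P m)‖ * ‖y‖) := by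
      rw [Finset.sum_add_distrib, ← Finset.sum_mul]
      exact add_le_add (norm_sum_le _ _)
        (mul_le_mul_of_nonneg_right (norm_sum_le _ _) (norm_nonneg _))
    refine h3.trans ((Finset.sum_le_sum fun m hmm =>
      (n1_term _ P m x y hy n ρ h2 hx hyρ (hm m hmm)).2).trans ?_)
    rw [← Finset.sum_mul]
    refine mul_le_mul_of_nonneg_right ?_ (by positivity)
    have h4 : ∑ m ∈ A.support, |((A.coeff m : ℤ) : ℝ)| ≤ H := hH
    linarith

/-- N1b. PROOF. `S = a₀ + a₁ y ≠ 0`. If `a₀ - a₁ y ≠ 0` take `A' = a₀² - a₁² P`: value `S (a₀ - a₁ y)`, `mlen ≤ H² p^(2n) (1 + p)`. Otherwise `S = 2 a₀`, take `A' = 2 a₀`. (`mlen_add`, `mlen_mul` of P/A1_Len.) -/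
theorem elim_sqrt {σ : Type} [Fintype σ] (A : MvPolynomial (Option σ) ℤ) (P : MvPolynomial σ ℤ) (x : σ → ℂ) (y : ℂ) (hy : y ^ 2 = aeval x P)
    (n e : ℕ) (H p ρ : ℝ) (hA : A.totalDegree ≤ n) (hP : P.totalDegree ≤ e) (hH : mlen A ≤ H) (hp : mlen P ≤ p) (h0 : 1 ≤ H) (h1 : 1 ≤ p)
    (h2 : 1 ≤ ρ) (hx : ∀ i, ‖x i‖ ≤ ρ) (hyρ : ‖y‖ ≤ ρ) (hne : aeval (fun o : Option σ => o.elim y x) A ≠ 0) :
    ∃ A' : MvPolynomial σ ℤ, aeval x A' ≠ 0 ∧ A'.totalDegree ≤ 2 * (e + 1) * n + e ∧ mlen A' ≤ 2 * H ^ 2 * p ^ (2 * n + 1) ∧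
      ‖aeval x A'‖ ≤ ‖aeval (fun o : Option σ => o.elim y x) A‖ * (2 * H * ρ ^ n) := by
  obtain ⟨a₀, a₁, hS, hd0, hd1, hl0, hl1, hv⟩ := even_odd A P x y hy n e H p ρ hA hP hH hp h1 h2 hx hyρ
  have hp0 : 0 ≤ p := by linarith
  have hH0 : 0 ≤ H := by linarith
  have hpn : 1 ≤ p ^ n := one_le_pow₀ h1
  have hB : 0 ≤ H * p ^ n := by positivity
  have hle : (e + 1) * n ≤ 2 * (e + 1) * n + e := by
    have : 2 * (e + 1) * n = (e + 1) * n + (e + 1) * n := by ring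
    omega
  by_cases h : aeval x a₀ - aeval x a₁ * y = 0
  · refine ⟨a₀ + a₀, ?_, ?_, ?_, ?_⟩
    · rw [map_add]
      intro h3
      apply hne
      rw [hS]
      linear_combination h3 - h
    · exact (totalDegree_add _ _).trans (max_le (hd0.trans hle) (hd0.trans hle))
    · refine (mlen_add _ _).trans ?_
      have h3 : H * p ^ n ≤ H ^ 2 * p ^ (2 * n + 1) := by
        refine mul_le_mul (le_self_pow₀ h0 two_ne_zero) (pow_le_pow_right₀ h1 (by omega))
          (by positivity) (by positivity)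
      linarith
    · have h3 : aeval x (a₀ + a₀) = aeval (fun o : Option σ => o.elim y x) A := by
        rw [map_add, hS]
        linear_combination h
      rw [h3]
      refine le_mul_of_one_le_right (norm_nonneg _) ?_
      have h4 : 1 ≤ H * ρ ^ n := one_le_mul_of_one_le_of_one_le h0 (one_le_pow₀ h2)
      linarith
  · have h3 : aeval x (a₀ * a₀ - a₁ * a₁ * P) =
        aeval (fun o : Option σ => o.elim y x) A * (aeval x a₀ - aeval x a₁ * y) := by
      rw [map_sub, map_mul, map_mul, map_mul, ← hy, hS]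
      ring
    refine ⟨a₀ * a₀ - a₁ * a₁ * P, ?_, ?_, ?_, ?_⟩
    · rw [h3]
      exact mul_ne_zero hne h
    · refine (totalDegree_sub _ _).trans (max_le ?_ ?_)
      · have h4 := totalDegree_mul a₀ a₀
        have : 2 * (e + 1) * n = (e + 1) * n + (e + 1) * n := by ring
        omega
      · have h4 := totalDegree_mul (a₁ * a₁) P
        have h5 := totalDegree_mul a₁ a₁
        have : 2 * (e + 1) * n = (e + 1) * n + (e + 1) * n := by ring
        omega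
    · have h4 : mlen (a₀ * a₀ - a₁ * a₁ * P) ≤ mlen (a₀ * a₀) + mlen (-(a₁ * a₁ * P)) := by
        rw [sub_eq_add_neg]
        exact mlen_add _ _
      have h5 : mlen (-(a₁ * a₁ * P)) = mlen (a₁ * a₁ * P) := by
        unfold mlen
        rw [support_neg]
        refine Finset.sum_congr rfl fun m _ => ?_
        rw [coeff_neg]
        push_cast
        exact abs_neg _
      have h6 : mlen (a₀ * a₀) ≤ (H * p ^ n) * (H * p ^ n) :=
        (mlen_mul _ _).trans (mul_le_mul hl0 hl0 (mlen_nonneg _) hB)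
      have h7 : mlen (a₁ * a₁) ≤ (H * p ^ n) * (H * p ^ n) :=
        (mlen_mul _ _).trans (mul_le_mul hl1 hl1 (mlen_nonneg _) hB)
      have h8 : mlen (a₁ * a₁ * P) ≤ (H * p ^ n) * (H * p ^ n) * p :=
        (mlen_mul _ _).trans (mul_le_mul h7 hp (mlen_nonneg _) (mul_nonneg hB hB))
      have h9 : (H * p ^ n) * (H * p ^ n) ≤ (H * p ^ n) * (H * p ^ n) * p :=
        le_mul_of_one_le_right (mul_nonneg hB hB) h1
      have h10 : (H * p ^ n) * (H * p ^ n) * p = H ^ 2 * p ^ (2 * n + 1) := by ring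
      linarith
    · rw [h3, norm_mul]
      refine mul_le_mul_of_nonneg_left ?_ (norm_nonneg _)
      refine (norm_sub_le _ _).trans ?_
      rw [norm_mul]
      exact hv

end Pool.Agent.MSW

end
end

/-! ### the values as values of one polynomial -/

section

open Complex Filter Topology IntermediateField

noncomputable section

namespace Pool.Agent.MSW

open MSD MSP

/-- the variables of the values, without the `X l` and `Y l`; `th` is the transcendental number -/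
inductive Vn : Type
  | th : Vn
  | g : Vn
  | g3 : Vn
  | k : Vn
  | z : Vn
  | r : Vn
  deriving DecidableEq, Fintype

/-- their values -/
def vn (θ : ℂ) (D : Dw) : Vn → ℂ
  | .th => θ
  | .g => D.g
  | .g3 => D.g3
  | .k => D.k
  | .z => D.z
  | .r => rh

/-- N2a. PROOF. `wp_ode` divided by `om⁶`, `X = wp/om²`, `Y = wp'/om³`, at the point `h l + 0`. -/
theorem curve_eq (D : Dw) (l : Fin 2) : D.Y l 0 ^ 2 = 4 * D.X l 0 ^ 3 - 2 * D.g * D.X l 0 - D.g3 := by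
  have h0 : th D.z (D.h l + 0) ≠ 0 := by
    rw [add_zero]
    exact D.hh l
  have h1 := wp_ode D.z D.im (D.h l + 0) h0
  have hne := D.ne
  unfold Dw.Y Dw.X Dw.g Dw.g3
  rw [div_pow, h1]
  field_simp
  ring

/-! ### substitution of polynomials -/

theorem n2_mlen_one {τ : Type*} : mlen (1 : MvPolynomial τ ℤ) = 1 := by
  have := mlen_C (σ := τ) 1
  rw [map_one] at this
  rw [this]
  simp

theorem n2_mlen_pow {τ : Type*} (p : MvPolynomial τ ℤ) (B : ℝ) (h : mlen p ≤ B) (n : ℕ) : mlen (p ^ n) ≤ B ^ n := by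
  have hB : 0 ≤ B := (mlen_nonneg p).trans h
  induction n with
  | zero => rw [pow_zero, pow_zero, n2_mlen_one]
  | succ n ih =>
    rw [pow_succ, pow_succ]
    exact (mlen_mul _ _).trans (mul_le_mul ih h (mlen_nonneg _) (by positivity))

theorem n2_mlen_prod {ι τ : Type*} (s : Finset ι) (p : ι → MvPolynomial τ ℤ) : mlen (∏ i ∈ s, p i) ≤ ∏ i ∈ s, mlen (p i) := by
  classical
  induction s using Finset.induction_on with
  | empty => rw [Finset.prod_empty, Finset.prod_empty, n2_mlen_one]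
  | insert a s ha ih =>
    rw [Finset.prod_insert ha, Finset.prod_insert ha]
    exact (mlen_mul _ _).trans (mul_le_mul_of_nonneg_left ih (mlen_nonneg _))

/-- substituting polynomials of degree at most one and length at most `B` -/
theorem n2_subst {σ τ : Type*} [Fintype σ] (f : σ → MvPolynomial τ ℤ) (B : ℝ) (hB : 1 ≤ B) (hd : ∀ v, (f v).totalDegree ≤ 1)
    (hl : ∀ v, mlen (f v) ≤ B) (P : MvPolynomial σ ℤ) (l : ℕ) (hP : P.totalDegree ≤ l) :
    (MvPolynomial.aeval f P).totalDegree ≤ l ∧ mlen (MvPolynomial.aeval f P) ≤ mlen P * B ^ l := by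
  classical
  have hsum : ∀ m ∈ P.support, ∑ v, m v ≤ l := by
    intro m hm
    refine le_trans ?_ ((MvPolynomial.le_totalDegree hm).trans hP)
    rw [Finsupp.sum_fintype _ _ (fun _ => rfl)]
  have e : MvPolynomial.aeval f P = ∑ m ∈ P.support, MvPolynomial.C (P.coeff m) * ∏ v, f v ^ m v := by
    rw [MvPolynomial.aeval_def, MvPolynomial.eval₂_eq']
    rfl
  rw [e]
  constructor
  · refine MvPolynomial.totalDegree_finsetSum_le fun m hm => ?_
    refine (MvPolynomial.totalDegree_mul _ _).trans ?_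
    rw [MvPolynomial.totalDegree_C, zero_add]
    refine (MvPolynomial.totalDegree_finsetProd _ _).trans ?_
    refine le_trans ?_ (hsum m hm)
    refine Finset.sum_le_sum fun v _ => ?_
    refine (MvPolynomial.totalDegree_pow _ _).trans ?_
    calc m v * (f v).totalDegree ≤ m v * 1 := Nat.mul_le_mul_left _ (hd v)
      _ = m v := mul_one _
  · refine (mlen_sum _ _).trans ?_
    unfold mlen
    rw [Finset.sum_mul]
    refine Finset.sum_le_sum fun m hm => ?_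
    refine (mlen_mul _ _).trans ?_
    rw [mlen_C]
    refine mul_le_mul_of_nonneg_left ?_ (abs_nonneg _)
    refine (n2_mlen_prod _ _).trans ?_
    calc ∏ v, mlen (f v ^ m v) ≤ ∏ v, B ^ m v :=
          Finset.prod_le_prod (fun v _ => mlen_nonneg _) fun v _ => n2_mlen_pow _ _ (hl v) _
      _ = B ^ ∑ v, m v := by rw [Finset.prod_pow_eq_pow_sum]
      _ ≤ B ^ l := pow_le_pow_right₀ hB (hsum m hm)

/-- one variable polynomials in a variable of a polynomial ring -/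
theorem n2_one {τ : Type*} (i : τ) (p : Polynomial ℤ) (δ : ℕ) (hp : p.natDegree ≤ δ) :
    (Polynomial.aeval (MvPolynomial.X i : MvPolynomial τ ℤ) p).totalDegree ≤ δ ∧
      mlen (Polynomial.aeval (MvPolynomial.X i : MvPolynomial τ ℤ) p) ≤ len p := by
  classical
  have e : Polynomial.aeval (MvPolynomial.X i : MvPolynomial τ ℤ) p = ∑ n ∈ p.support, MvPolynomial.monomial (Finsupp.single i n) (p.coeff n) := by
    rw [Polynomial.aeval_def, Polynomial.eval₂_eq_sum, Polynomial.sum]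
    refine Finset.sum_congr rfl fun n _ => ?_
    rw [← MvPolynomial.C_mul_X_pow_eq_monomial]
    rfl
  rw [e]
  constructor
  · refine MvPolynomial.totalDegree_finsetSum_le fun n hn => ?_
    refine (MvPolynomial.totalDegree_monomial_le _ _).trans ?_
    rw [Finsupp.sum_single_index rfl]
    exact (Polynomial.le_natDegree_of_mem_supp n hn).trans hp
  · refine (mlen_sum _ _).trans ?_
    unfold len
    refine Finset.sum_le_sum fun n _ => ?_
    rw [mlen_monomial]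

/-- the substitution -/
def n2_sub (x : Fin 2 → ℕ) : Vw → MvPolynomial (Option (Option Vn)) ℤ
  | .X l => MvPolynomial.C (x l : ℤ)
  | .Y l => if l = 0 then MvPolynomial.X none else MvPolynomial.X (some none)
  | .Q => 0
  | .g => MvPolynomial.X (some (some .g))
  | .k => MvPolynomial.X (some (some .k))
  | .z => MvPolynomial.X (some (some .z))
  | .r => MvPolynomial.X (some (some .r))

theorem n2_sub_bd (x : Fin 2 → ℕ) (B : ℝ) (hB : 2 ≤ B) (hxB : ∀ i, (x i : ℝ) ≤ B) (v : Vw) :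
    (n2_sub x v).totalDegree ≤ 1 ∧ mlen (n2_sub x v) ≤ B := by
  have hX : ∀ o : Option (Option Vn), (MvPolynomial.X o : MvPolynomial (Option (Option Vn)) ℤ).totalDegree ≤ 1 ∧
      mlen (MvPolynomial.X o : MvPolynomial (Option (Option Vn)) ℤ) ≤ B := by
    intro o
    refine ⟨(MvPolynomial.totalDegree_X o).le, ?_⟩
    have h : (MvPolynomial.X o : MvPolynomial (Option (Option Vn)) ℤ) = MvPolynomial.monomial (Finsupp.single o 1) 1 := rfl
    rw [h, mlen_monomial]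
    norm_num
    linarith
  cases v with
  | X l =>
    refine ⟨?_, ?_⟩
    · show (MvPolynomial.C (x l : ℤ) : MvPolynomial (Option (Option Vn)) ℤ).totalDegree ≤ 1
      rw [MvPolynomial.totalDegree_C]
      exact zero_le_one
    · show mlen (MvPolynomial.C (x l : ℤ) : MvPolynomial (Option (Option Vn)) ℤ) ≤ B
      rw [mlen_C, Int.cast_natCast, abs_of_nonneg (Nat.cast_nonneg _)]
      exact hxB l
  | Y l =>
    show (if l = 0 then MvPolynomial.X none else MvPolynomial.X (some none) : MvPolynomial (Option (Option Vn)) ℤ).totalDegree ≤ 1 ∧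
      mlen (if l = 0 then MvPolynomial.X none else MvPolynomial.X (some none) : MvPolynomial (Option (Option Vn)) ℤ) ≤ B
    split_ifs
    · exact hX _
    · exact hX _
  | Q =>
    refine ⟨?_, ?_⟩
    · show (0 : MvPolynomial (Option (Option Vn)) ℤ).totalDegree ≤ 1
      rw [MvPolynomial.totalDegree_zero]
      exact zero_le_one
    · show mlen (0 : MvPolynomial (Option (Option Vn)) ℤ) ≤ B
      rw [mlen_zero]
      linarith
  | g => exact hX _
  | k => exact hX _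
  | z => exact hX _
  | r => exact hX _

/-- N2b. PROOF. `A = ∑ ν, (aeval (X (some (some th))) (p ν)) * (Ξ ν with X l ↦ C (x l), Y 0 ↦ X none, Y 1 ↦ X (some none), Q ↦ 0, g ↦ X (some (some g)) ..)`. Substituting `x l ≤ B` in a polynomial of degree `≤ l` multiplies the length at most by `B^l`. -/
theorem single_poly (θ : ℂ) (D : Dw) (x : Fin 2 → ℕ) (hx : ∀ i, D.X i 0 = x i) (B : ℝ) (hB : 2 ≤ B) (hxB : ∀ i, (x i : ℝ) ≤ B)
    (ι : Type) [Fintype ι] (l δ : ℕ) (H H' : ℝ) (p : ι → Polynomial ℤ) (Ξ : ι → MvPolynomial Vw ℤ) (h1 : 1 ≤ H) (h2 : 1 ≤ H')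
    (hΞ : ∀ ν, (Ξ ν).totalDegree ≤ l ∧ mlen (Ξ ν) ≤ H) (hp : ∀ ν, (p ν).natDegree ≤ δ) (hl : ∀ ν, len (p ν) ≤ H') :
    ∃ A : MvPolynomial (Option (Option Vn)) ℤ, A.totalDegree ≤ l + δ ∧ mlen A ≤ Fintype.card ι * H * H' * B ^ l ∧
      MvPolynomial.aeval (fun o : Option (Option Vn) => o.elim (D.Y 0 0) (fun o' => o'.elim (D.Y 1 0) (vn θ D))) A =
        ∑ ν, Polynomial.aeval θ (p ν) * MvPolynomial.aeval (vals D) (Ξ ν) := by
  classical
  have hs := fun ν => n2_subst (n2_sub x) B (by linarith) (fun v => (n2_sub_bd x B hB hxB v).1) (fun v => (n2_sub_bd x B hB hxB v).2) (Ξ ν) l (hΞ ν).1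
  have ho := fun ν => n2_one (some (some Vn.th) : Option (Option Vn)) (p ν) δ (hp ν)
  refine ⟨∑ ν, Polynomial.aeval (MvPolynomial.X (some (some Vn.th)) : MvPolynomial (Option (Option Vn)) ℤ) (p ν) *
    MvPolynomial.aeval (n2_sub x) (Ξ ν), ?_, ?_, ?_⟩
  · refine MvPolynomial.totalDegree_finsetSum_le fun ν _ => ?_
    refine (MvPolynomial.totalDegree_mul _ _).trans ?_
    have := (ho ν).1
    have := (hs ν).1
    omega
  · refine (mlen_sum _ _).trans ?_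
    have hle : ∀ ν ∈ (Finset.univ : Finset ι), mlen (Polynomial.aeval (MvPolynomial.X (some (some Vn.th)) : MvPolynomial (Option (Option Vn)) ℤ) (p ν) *
        MvPolynomial.aeval (n2_sub x) (Ξ ν)) ≤ H' * (H * B ^ l) := by
      intro ν _
      refine (mlen_mul _ _).trans ?_
      refine mul_le_mul ((ho ν).2.trans (hl ν)) ((hs ν).2.trans ?_) (mlen_nonneg _) (by linarith)
      exact mul_le_mul_of_nonneg_right (hΞ ν).2 (by positivity)
    refine (Finset.sum_le_card_nsmul _ _ _ hle).trans ?_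
    rw [Finset.card_univ, nsmul_eq_mul]
    apply le_of_eq
    ring
  · rw [map_sum]
    refine Finset.sum_congr rfl fun ν _ => ?_
    rw [map_mul]
    congr 1
    · have h := Polynomial.aeval_algHom_apply (MvPolynomial.aeval (R := ℤ) (fun o : Option (Option Vn) => o.elim (D.Y 0 0) (fun o' => o'.elim (D.Y 1 0) (vn θ D))))
        (MvPolynomial.X (some (some Vn.th)) : MvPolynomial (Option (Option Vn)) ℤ) (p ν)
      rw [← h, MvPolynomial.aeval_X]
      rfl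
    · have h : (MvPolynomial.aeval (R := ℤ) (fun o : Option (Option Vn) => o.elim (D.Y 0 0) (fun o' => o'.elim (D.Y 1 0) (vn θ D)))).comp
          (MvPolynomial.aeval (n2_sub x)) = MvPolynomial.aeval (vals D) := by
        refine MvPolynomial.algHom_ext fun v => ?_
        rw [AlgHom.comp_apply, MvPolynomial.aeval_X, MvPolynomial.aeval_X]
        cases v with
        | X l =>
          show MvPolynomial.aeval _ (MvPolynomial.C (x l : ℤ) : MvPolynomial (Option (Option Vn)) ℤ) = D.X l 0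
          rw [MvPolynomial.aeval_C, hx l]
          simp
        | Y l =>
          show MvPolynomial.aeval _ (if l = 0 then MvPolynomial.X none else MvPolynomial.X (some none) : MvPolynomial (Option (Option Vn)) ℤ) = D.Y l 0
          fin_cases l
          · simp
          · simp
        | Q =>
          show MvPolynomial.aeval _ (0 : MvPolynomial (Option (Option Vn)) ℤ) = 0
          rw [map_zero]
        | g =>
          show MvPolynomial.aeval _ (MvPolynomial.X (some (some Vn.g)) : MvPolynomial (Option (Option Vn)) ℤ) = _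
          rw [MvPolynomial.aeval_X]
          rfl
        | k =>
          show MvPolynomial.aeval _ (MvPolynomial.X (some (some Vn.k)) : MvPolynomial (Option (Option Vn)) ℤ) = _
          rw [MvPolynomial.aeval_X]
          rfl
        | z =>
          show MvPolynomial.aeval _ (MvPolynomial.X (some (some Vn.z)) : MvPolynomial (Option (Option Vn)) ℤ) = _
          rw [MvPolynomial.aeval_X]
          rfl
        | r =>
          show MvPolynomial.aeval _ (MvPolynomial.X (some (some Vn.r)) : MvPolynomial (Option (Option Vn)) ℤ) = _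
          rw [MvPolynomial.aeval_X]
          rfl
      rw [← h]
      rfl

end Pool.Agent.MSW

end
end

/-! ### norms of the values at integral base points -/

section

open Complex Filter Topology IntermediateField

noncomputable section

namespace Pool.Agent.MSW

open MSD MSP

/-- the polynomial `4 n³ - 2 n a - b` -/
private def n3_P {σ : Type} (n : ℕ) (a b : σ) : MvPolynomial σ ℤ :=
  MvPolynomial.C (4 * (n : ℤ) ^ 3) + (MvPolynomial.monomial (Finsupp.single a 1) (-(2 * (n : ℤ))) +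
    MvPolynomial.monomial (Finsupp.single b 1) (-1))

private theorem n3_deg {σ : Type} (n : ℕ) (a b : σ) : (n3_P n a b).totalDegree ≤ 1 := by
  unfold n3_P
  refine (MvPolynomial.totalDegree_add _ _).trans (max_le ?_ ((MvPolynomial.totalDegree_add _ _).trans (max_le ?_ ?_)))
  · rw [MvPolynomial.totalDegree_C]; exact Nat.zero_le _
  · refine (MvPolynomial.totalDegree_monomial_le _ _).trans ?_
    rw [Finsupp.sum_single_index rfl]; exact le_rfl
  · refine (MvPolynomial.totalDegree_monomial_le _ _).trans ?_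
    rw [Finsupp.sum_single_index rfl]; exact le_rfl

private theorem n3_len {σ : Type} (n : ℕ) (a b : σ) (B : ℝ) (hB : 2 ≤ B) (hn : (n : ℝ) ≤ B) :
    mlen (n3_P n a b) ≤ 7 * B ^ 3 := by
  unfold n3_P
  have h1 := mlen_add (MvPolynomial.C (4 * (n : ℤ) ^ 3) : MvPolynomial σ ℤ)
    (MvPolynomial.monomial (Finsupp.single a 1) (-(2 * (n : ℤ))) + MvPolynomial.monomial (Finsupp.single b 1) (-1))
  have h2 := mlen_add (MvPolynomial.monomial (Finsupp.single a 1) (-(2 * (n : ℤ))) : MvPolynomial σ ℤ)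
    (MvPolynomial.monomial (Finsupp.single b 1) (-1))
  rw [mlen_C] at h1
  rw [mlen_monomial, mlen_monomial] at h2
  have hn0 : (0 : ℝ) ≤ n := Nat.cast_nonneg n
  have e1 : |((4 * (n : ℤ) ^ 3 : ℤ) : ℝ)| = 4 * (n : ℝ) ^ 3 := by
    push_cast
    exact abs_of_nonneg (by positivity)
  have e2 : |((-(2 * (n : ℤ)) : ℤ) : ℝ)| = 2 * (n : ℝ) := by
    push_cast
    rw [abs_neg]
    exact abs_of_nonneg (by positivity)
  have e3 : |((-1 : ℤ) : ℝ)| = 1 := by norm_num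
  rw [e1] at h1
  rw [e2, e3] at h2
  have h3 : (n : ℝ) ^ 3 ≤ B ^ 3 := pow_le_pow_left₀ hn0 hn 3
  have h4 : 4 * B ≤ B ^ 3 := by
    have h5 : 0 ≤ B * (B - 2) * (B + 2) := mul_nonneg (mul_nonneg (by linarith only [hB]) (by linarith only [hB]))
      (by linarith only [hB])
    have h6 : B * (B - 2) * (B + 2) = B ^ 3 - 4 * B := by ring
    linarith only [h5, h6]
  linarith only [h1, h2, h3, h4, hn, hB]

private theorem n3_val {σ : Type} (n : ℕ) (a b : σ) (x : σ → ℂ) :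
    MvPolynomial.aeval x (n3_P n a b) = 4 * (n : ℂ) ^ 3 - 2 * x a * n - x b := by
  unfold n3_P
  rw [map_add, map_add, MvPolynomial.aeval_C, MvPolynomial.aeval_monomial, MvPolynomial.aeval_monomial,
    Finsupp.prod_single_index (h := fun i k => x i ^ k) (pow_zero _),
    Finsupp.prod_single_index (h := fun i k => x i ^ k) (pow_zero _)]
  simp only [algebraMap_int_eq, eq_intCast, pow_one]
  push_cast
  ring

/-- bound of the ordinate -/
private theorem n3_Y {G B : ℝ} (hG : 1 ≤ G) (hB : 2 ≤ B) (n : ℕ) (hn : (n : ℝ) ≤ B) (g g3 y : ℂ) (hg : ‖g‖ ≤ G)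
    (hg3 : ‖g3‖ ≤ G) (hy : y ^ 2 = 4 * (n : ℂ) ^ 3 - 2 * g * n - g3) : ‖y‖ ≤ (3 * G + 4) * B ^ 2 := by
  have hn0 : (0 : ℝ) ≤ n := Nat.cast_nonneg n
  have h1 : ‖y‖ ^ 2 ≤ 4 * (n : ℝ) ^ 3 + 2 * ‖g‖ * n + ‖g3‖ := by
    rw [← norm_pow, hy]
    refine (norm_sub_le _ _).trans (add_le_add ((norm_sub_le _ _).trans (add_le_add ?_ ?_)) le_rfl)
    · rw [norm_mul, norm_pow, Complex.norm_natCast]; norm_num
    · rw [norm_mul, norm_mul, Complex.norm_natCast]; norm_num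
  have h2 : (n : ℝ) ^ 3 ≤ B ^ 3 := pow_le_pow_left₀ hn0 hn 3
  have hG0 : 0 ≤ G := zero_le_one.trans hG
  have hB1 : 1 ≤ B := by linarith only [hB]
  have h3 : ‖g‖ * n ≤ G * B := mul_le_mul hg hn hn0 hG0
  have hB4 : B ^ 3 ≤ B ^ 4 := pow_le_pow_right₀ hB1 (by norm_num)
  have hB5 : B ≤ B ^ 4 := le_self_pow₀ hB1 (by norm_num)
  have hB6 : 1 ≤ B ^ 4 := one_le_pow₀ hB1
  have h4 : G * B ≤ G * B ^ 4 := mul_le_mul_of_nonneg_left hB5 hG0
  have h5 : G * 1 ≤ G * B ^ 4 := mul_le_mul_of_nonneg_left hB6 hG0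
  have h6 : ‖y‖ ^ 2 ≤ (3 * G + 4) * B ^ 4 := by
    have e : (3 * G + 4) * B ^ 4 = 3 * (G * B ^ 4) + 4 * B ^ 4 := by ring
    rw [e]
    linarith only [h1, h2, h3, h4, h5, hB4, hg3]
  have h7 : (3 * G + 4) * B ^ 4 ≤ ((3 * G + 4) * B ^ 2) ^ 2 := by
    have e : ((3 * G + 4) * B ^ 2) ^ 2 = (3 * G + 4) * ((3 * G + 4) * B ^ 4) := by ring
    rw [e]
    exact le_mul_of_one_le_left (mul_nonneg (by linarith only [hG0]) (zero_le_one.trans hB6)) (by linarith only [hG0])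
  exact le_of_sq_le_sq (h6.trans h7) (mul_nonneg (by linarith only [hG0]) (sq_nonneg B))

/-- the arithmetic at the end -/
private theorem n3_arith {C₀ LB Lm R T n₀ n₁ n₂ lH1 lH2 lH3 lp lρ l2 l7 cρ lA : ℝ} (hC₀ : 1 ≤ C₀) (hLm : 0 ≤ Lm) (hT : 1 ≤ T)
    (h2LB : l2 ≤ LB) (h12 : 1 ≤ 2 * l2) (h7 : l7 ≤ 3 * l2) (hcρ : 0 ≤ cρ)
    (hn₀ : 0 ≤ n₀) (hn₀T : n₀ + 1 ≤ T) (hn₁ : n₁ = 4 * n₀ + 1) (hn₂ : n₂ = 4 * n₁ + 1)
    (hH1 : lH1 ≤ Lm + n₀ * LB) (hp : lp = l7 + 3 * LB) (hρ : lρ = cρ + 2 * LB)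
    (hH2 : lH2 = l2 + 2 * lH1 + (2 * n₀ + 1) * lp) (hH3 : lH3 = l2 + 2 * lH2 + (2 * n₁ + 1) * lp)
    (hA : lA ≤ R + (l2 + lH1 + n₀ * lρ) + (l2 + lH2 + n₁ * lρ)) :
    C₀ * (0 + n₂) ≤ (100 + 10 * cρ + 200 * C₀) * T ∧
    C₀ * (lH3 + (n₂ + 1)) ≤ (100 + 10 * cρ + 200 * C₀) * (Lm + T * LB) ∧
    lA + C₀ * (lH3 + (n₂ + 0 + 1)) ≤ R + (100 + 10 * cρ + 200 * C₀) * (Lm + T * LB) := by
  have hLB : 0 ≤ LB := by linarith only [h2LB, h12]
  have hlp : lp ≤ 6 * LB := by linarith only [hp, h7, h2LB]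
  have hTL : LB ≤ T * LB := le_mul_of_one_le_left hLB hT
  have hnL : n₀ * LB + LB ≤ T * LB := by
    have := mul_le_mul_of_nonneg_right hn₀T hLB
    linarith only [this]
  have hT2 : T ≤ 2 * (T * LB) := by
    have : T * 1 ≤ T * (2 * LB) := mul_le_mul_of_nonneg_left (by linarith only [h2LB, h12]) (zero_le_one.trans hT)
    linarith only [this]
  have ha : (2 * n₀ + 1) * lp ≤ (2 * n₀ + 1) * (6 * LB) := mul_le_mul_of_nonneg_left hlp (by linarith only [hn₀])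
  have hb : (2 * n₁ + 1) * lp ≤ (2 * n₁ + 1) * (6 * LB) := mul_le_mul_of_nonneg_left hlp (by linarith only [hn₀, hn₁])
  have hb' : (2 * n₁ + 1) * (6 * LB) = 48 * (n₀ * LB) + 18 * LB := by rw [hn₁]; ring
  have hH2' : lH2 ≤ 2 * Lm + 15 * (T * LB) := by linarith only [hH2, hH1, ha, hnL, h2LB, hTL, hLB]
  have hH3' : lH3 ≤ 4 * Lm + 80 * (T * LB) := by
    linarith only [hH3, hH2', hb, hb', hnL, h2LB, hTL, hLB]
  have hn₂' : n₂ + 1 ≤ 16 * T := by linarith only [hn₂, hn₁, hn₀T]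
  have hP : 0 ≤ T * LB := mul_nonneg (zero_le_one.trans hT) hLB
  have hS : lH3 + (n₂ + 1) ≤ 112 * (Lm + T * LB) := by linarith only [hH3', hn₂', hT2, hLm, hP]
  have hC0 : 0 ≤ C₀ := zero_le_one.trans hC₀
  have hQ : 0 ≤ Lm + T * LB := add_nonneg hLm hP
  have hCQ : 0 ≤ C₀ * (Lm + T * LB) := mul_nonneg hC0 hQ
  have hcQ : 0 ≤ cρ * (Lm + T * LB) := mul_nonneg hcρ hQ
  have hS2 : C₀ * (lH3 + (n₂ + 1)) ≤ 112 * (C₀ * (Lm + T * LB)) := by
    have := mul_le_mul_of_nonneg_left hS hC0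
    linarith only [this]
  refine ⟨?_, ?_, ?_⟩
  · have h1 : C₀ * (0 + n₂) ≤ C₀ * (16 * T) := mul_le_mul_of_nonneg_left (by linarith only [hn₂']) hC0
    have h2 : 0 ≤ cρ * T := mul_nonneg hcρ (zero_le_one.trans hT)
    have h3 : 0 ≤ C₀ * T := mul_nonneg hC0 (zero_le_one.trans hT)
    linarith only [h1, h2, h3, hT]
  · linarith only [hS2, hCQ, hcQ, hQ]
  · have h1 : n₀ * lρ = cρ * n₀ + 2 * (n₀ * LB) := by rw [hρ]; ring
    have h2 : n₁ * lρ = 4 * (cρ * n₀) + cρ + 8 * (n₀ * LB) + 2 * LB := by rw [hρ, hn₁]; ring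
    have h3 : cρ * (n₀ + 1) ≤ cρ * T := mul_le_mul_of_nonneg_left hn₀T hcρ
    have h4 : cρ * T ≤ cρ * (2 * (T * LB)) := mul_le_mul_of_nonneg_left hT2 hcρ
    have h5 : 0 ≤ cρ * Lm := mul_nonneg hcρ hLm
    have h6 : C₀ * (lH3 + (n₂ + 0 + 1)) = C₀ * (lH3 + (n₂ + 1)) := by ring
    have h7' : 0 ≤ cρ * n₀ := mul_nonneg hcρ hn₀
    rw [h6]
    linarith only [hA, h1, h2, h3, h4, h5, hS2, hCQ, hH1, hH2', hnL, h2LB, hTL, hLB, hLm, hP, h7', hcρ]

/-- the constants do not depend on the square root -/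
private theorem n3_vn (θ : ℂ) (D D' : Dw) (h : D.z = D'.z) : vn θ D = vn θ D' := by
  have e4 : D.om ^ 4 = D'.om ^ 4 := by
    have : ∀ w : ℂ, w ^ 4 = (w ^ 2) ^ 2 := fun w => by ring
    rw [this, this, D.hom, D'.hom]
  have e6 : D.om ^ 6 = D'.om ^ 6 := by
    have : ∀ w : ℂ, w ^ 6 = (w ^ 2) ^ 3 := fun w => by ring
    rw [this, this, D.hom, D'.hom]
  funext v
  cases v with
  | th => rfl
  | g => show D.g = D'.g; unfold Dw.g; rw [h, e4]
  | g3 => show D.g3 = D'.g3; unfold Dw.g3; rw [h, e6]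
  | k => show D.k = D'.k; unfold Dw.k; rw [h, D.hom, D'.hom]
  | z => exact h
  | r => rfl

private theorem n3_log_le {a b : ℝ} (ha : 0 < a) (h : a ≤ b) : Real.log a ≤ Real.log b := Real.log_le_log ha h

/-- N3. PROOF. `single_poly`, then `elim_sqrt` twice (`P = 4 x³ - 2 x g - g3`, `e = 1`, `p = 7 B³`; first for `Y 0` with `σ = Option Vn`, then for `Y 1` with `σ = Vn`), all the logarithms of the lengths and of the factors are `≤ C (log (card ι * H * H') + (l + δ + 1) log B)`; a bound `ρ = C B²` for the values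
(`‖Y‖² ≤ 4 B³ + 2 ‖g‖ B + ‖g3‖`; `D.g, D.g3, D.k` depend only on `z` and `om² = π`). Finally `MSK.norm_lemma_fin` for `σ = Vn`, `y = vn θ D`, `ι = Unit`, `p = 1`, `Ξ = A''` (all the values are algebraic over `ℚ(θ)`; the constant depends only on `vn θ D`, i.e. on `θ, z`: note that `vn θ D = vn θ D'` for `D.z = D'.z`). -/
theorem norm_w (z : ℂ) (hz : 0 < z.im) (θ : ℂ) (hθ : Transcendental ℚ θ)
    (hal : ∀ D : Dw, D.z = z → ∀ v, IsAlgebraic ℚ⟮θ⟯ (vn θ D v)) : ∃ C : ℝ, 1 ≤ C ∧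
    ∀ D : Dw, D.z = z → ∀ (x : Fin 2 → ℕ), (∀ i, D.X i 0 = x i) → ∀ B : ℝ, 2 ≤ B → (∀ i, (x i : ℝ) ≤ B) →
      ∀ (ι : Type) [Fintype ι] (l δ : ℕ) (H H' : ℝ) (p : ι → Polynomial ℤ) (Ξ : ι → MvPolynomial Vw ℤ), 1 ≤ H → 1 ≤ H' →
        (∀ ν, (Ξ ν).totalDegree ≤ l ∧ mlen (Ξ ν) ≤ H) → (∀ ν, (p ν).natDegree ≤ δ) → (∀ ν, len (p ν) ≤ H') →
        ∑ ν, Polynomial.aeval θ (p ν) * MvPolynomial.aeval (vals D) (Ξ ν) ≠ 0 →
        ∃ Q : Polynomial ℤ, Polynomial.aeval θ Q ≠ 0 ∧ (Q.natDegree : ℝ) ≤ C * (l + δ + 1) ∧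
          Real.log (len Q) ≤ C * (Real.log (Fintype.card ι * H * H') + (l + δ + 1) * Real.log B) ∧
          Real.log ‖Polynomial.aeval θ Q‖ ≤ Real.log ‖∑ ν, Polynomial.aeval θ (p ν) * MvPolynomial.aeval (vals D) (Ξ ν)‖ +
            C * (Real.log (Fintype.card ι * H * H') + (l + δ + 1) * Real.log B) := by
  by_cases hD : ∃ D₀ : Dw, D₀.z = z
  swap
  · exact ⟨1, le_rfl, fun D hDz => absurd ⟨D, hDz⟩ hD⟩
  obtain ⟨D₀, hD₀⟩ := hD
  obtain ⟨C₀, hC₀, hC⟩ := MSK.norm_lemma_fin θ hθ (vn θ D₀) (hal D₀ hD₀)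
  obtain ⟨G, hG⟩ : ∃ G : ℝ, G = 1 + ∑ v, ‖vn θ D₀ v‖ := ⟨_, rfl⟩
  have hG1 : 1 ≤ G := by
    rw [hG]
    exact le_add_of_nonneg_right (Finset.sum_nonneg fun v _ => norm_nonneg _)
  have hGv : ∀ v, ‖vn θ D₀ v‖ ≤ G := by
    intro v
    have := Finset.single_le_sum (f := fun v => ‖vn θ D₀ v‖) (fun v _ => norm_nonneg _) (Finset.mem_univ v)
    rw [hG]
    linarith only [this]
  have hG4 : 1 ≤ 3 * G + 4 := by linarith only [hG1]
  have hcρ : 0 ≤ Real.log (3 * G + 4) := Real.log_nonneg hG4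
  refine ⟨100 + 10 * Real.log (3 * G + 4) + 200 * C₀, by linarith only [hcρ, hC₀], ?_⟩
  intro D hDz x hx B hB hxB ι _ l δ H H' p Ξ hH hH' hΞ hp hl hne
  have hvn : vn θ D = vn θ D₀ := n3_vn θ D D₀ (hDz.trans hD₀.symm)
  obtain ⟨A, hA1, hA2, hA3⟩ := single_poly θ D x hx B hB hxB ι l δ H H' p Ξ hH hH' hΞ hp hl
  have hB1 : 1 ≤ B := by linarith only [hB]
  have hB0 : 0 < B := by linarith only [hB]
  -- the number of terms
  have hN : (1 : ℝ) ≤ Fintype.card ι := by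
    have : 0 < Fintype.card ι := by
      rw [Fintype.card_pos_iff]
      by_contra hemp
      rw [not_nonempty_iff] at hemp
      exact hne (Finset.sum_of_isEmpty _)
    exact Nat.one_le_cast.mpr this
  obtain ⟨N, hNN⟩ : ∃ N : ℝ, N = Fintype.card ι * H * H' := ⟨_, rfl⟩
  have hN1 : 1 ≤ N := hNN ▸ one_le_mul_of_one_le_of_one_le (one_le_mul_of_one_le_of_one_le hN hH) hH'
  rw [← hNN] at hA2 ⊢
  obtain ⟨S, hS⟩ : ∃ S : ℂ, S = ∑ ν, Polynomial.aeval θ (p ν) * MvPolynomial.aeval (vals D) (Ξ ν) := ⟨_, rfl⟩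
  rw [← hS] at hA3 hne ⊢
  have hH1 : 1 ≤ N * B ^ l := one_le_mul_of_one_le_of_one_le hN1 (one_le_pow₀ hB1)
  have hp1 : 1 ≤ 7 * B ^ 3 := one_le_mul_of_one_le_of_one_le (by norm_num) (one_le_pow₀ hB1)
  have hB2 : 1 ≤ B ^ 2 := one_le_pow₀ hB1
  have hρ1 : 1 ≤ (3 * G + 4) * B ^ 2 := one_le_mul_of_one_le_of_one_le hG4 hB2
  have hGρ : G ≤ (3 * G + 4) * B ^ 2 :=
    le_trans (by linarith only [hG1] : G ≤ 3 * G + 4) (le_mul_of_one_le_right (zero_le_one.trans hG4) hB2)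
  have hvρ : ∀ v, ‖vn θ D v‖ ≤ (3 * G + 4) * B ^ 2 := fun v => by rw [hvn]; exact (hGv v).trans hGρ
  have hgG : ‖D.g‖ ≤ G := by have := hGv Vn.g; rw [← hvn] at this; exact this
  have hg3G : ‖D.g3‖ ≤ G := by have := hGv Vn.g3; rw [← hvn] at this; exact this
  have hcur : ∀ i : Fin 2, D.Y i 0 ^ 2 = 4 * ((x i : ℕ) : ℂ) ^ 3 - 2 * D.g * (x i : ℕ) - D.g3 := by
    intro i
    rw [curve_eq, hx i]
  have hYρ : ∀ i : Fin 2, ‖D.Y i 0‖ ≤ (3 * G + 4) * B ^ 2 := fun i =>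
    n3_Y hG1 hB (x i) (hxB i) D.g D.g3 (D.Y i 0) hgG hg3G (hcur i)
  -- first elimination
  obtain ⟨A', hA'1, hA'2, hA'3, hA'4⟩ := elim_sqrt A (n3_P (x 0) (some Vn.g) (some Vn.g3))
    (fun o' : Option Vn => o'.elim (D.Y 1 0) (vn θ D)) (D.Y 0 0)
    (by rw [n3_val]; exact hcur 0) (l + δ) 1 (N * B ^ l) (7 * B ^ 3) ((3 * G + 4) * B ^ 2) hA1 (n3_deg _ _ _) hA2
    (n3_len _ _ _ B hB (hxB 0)) hH1 hp1 hρ1
    (by
      intro o
      cases o with
      | none => exact hYρ 1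
      | some v => exact hvρ v) (hYρ 0) (by rw [hA3]; exact hne)
  rw [hA3] at hA'4
  -- second elimination
  obtain ⟨H2, hH2⟩ : ∃ H2 : ℝ, H2 = 2 * (N * B ^ l) ^ 2 * (7 * B ^ 3) ^ (2 * (l + δ) + 1) := ⟨_, rfl⟩
  rw [← hH2] at hA'3
  have hH21 : 1 ≤ H2 := by
    rw [hH2]
    exact one_le_mul_of_one_le_of_one_le (one_le_mul_of_one_le_of_one_le one_le_two (one_le_pow₀ hH1)) (one_le_pow₀ hp1)
  obtain ⟨A₂, hA₂1, hA₂2, hA₂3, hA₂4⟩ := elim_sqrt A' (n3_P (x 1) Vn.g Vn.g3) (vn θ D) (D.Y 1 0)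
    (by rw [n3_val]; exact hcur 1) (2 * (1 + 1) * (l + δ) + 1) 1 H2 (7 * B ^ 3) ((3 * G + 4) * B ^ 2) hA'2 (n3_deg _ _ _) hA'3
    (n3_len _ _ _ B hB (hxB 1)) hH21 hp1 hρ1 hvρ (hYρ 1) hA'1
  obtain ⟨H3, hH3⟩ : ∃ H3 : ℝ, H3 = 2 * H2 ^ 2 * (7 * B ^ 3) ^ (2 * (2 * (1 + 1) * (l + δ) + 1) + 1) := ⟨_, rfl⟩
  rw [← hH3] at hA₂3
  have hH31 : 1 ≤ H3 := by
    rw [hH3]
    exact one_le_mul_of_one_le_of_one_le (one_le_mul_of_one_le_of_one_le one_le_two (one_le_pow₀ hH21)) (one_le_pow₀ hp1)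
  -- the norm lemma
  rw [hvn] at hA₂1 hA₂4
  have e1 : ∑ _ν : Unit, Polynomial.aeval θ (1 : Polynomial ℤ) * MvPolynomial.aeval (vn θ D₀) A₂ =
      MvPolynomial.aeval (vn θ D₀) A₂ := by
    rw [Fintype.sum_unique, map_one, one_mul]
  obtain ⟨Q, hQ1, hQ2, hQ3, hQ4⟩ := hC Unit (2 * (1 + 1) * (2 * (1 + 1) * (l + δ) + 1) + 1) 0 H3 1 (fun _ => 1) (fun _ => A₂)
    hH31 le_rfl (fun _ => ⟨hA₂2, hA₂3⟩) (fun _ => by rw [Polynomial.natDegree_one])
    (fun _ => by rw [← Polynomial.C_1, len_C]; norm_num) (by rw [e1]; exact hA₂1)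
  rw [e1] at hQ4
  rw [Fintype.card_unit, Nat.cast_one, one_mul, mul_one] at hQ3 hQ4
  rw [Nat.cast_zero] at hQ2 hQ4
  -- logarithms
  have hl2 := Real.log_two_gt_d9
  have hLp : Real.log (7 * B ^ 3) = Real.log 7 + 3 * Real.log B := by
    rw [Real.log_mul (by norm_num) (pow_pos hB0 3).ne', Real.log_pow]; norm_num
  have hLρ : Real.log ((3 * G + 4) * B ^ 2) = Real.log (3 * G + 4) + 2 * Real.log B := by
    rw [Real.log_mul (zero_lt_one.trans_le hG4).ne' (pow_pos hB0 2).ne', Real.log_pow]; norm_num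
  have hLH1 : Real.log (N * B ^ l) = Real.log N + l * Real.log B := by
    rw [Real.log_mul (zero_lt_one.trans_le hN1).ne' (pow_pos hB0 l).ne', Real.log_pow]
  have hLB0 : 0 ≤ Real.log B := Real.log_nonneg hB1
  have p0 : (0 : ℝ) < 7 * B ^ 3 := zero_lt_one.trans_le hp1
  have q0 : (0 : ℝ) < N * B ^ l := zero_lt_one.trans_le hH1
  have q2 : 0 < H2 := zero_lt_one.trans_le hH21
  have r0 : 0 < (3 * G + 4) * B ^ 2 := zero_lt_one.trans_le hρ1
  have hLH2 : Real.log H2 = Real.log 2 + 2 * Real.log (N * B ^ l) + (2 * ((l : ℝ) + δ) + 1) * Real.log (7 * B ^ 3) := by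
    rw [hH2, Real.log_mul (mul_pos two_pos (pow_pos q0 2)).ne' (pow_pos p0 _).ne', Real.log_mul two_ne_zero (pow_pos q0 2).ne',
      Real.log_pow, Real.log_pow]
    push_cast
    ring
  have hLH3 : Real.log H3 = Real.log 2 + 2 * Real.log H2 +
      (2 * (4 * ((l : ℝ) + δ) + 1) + 1) * Real.log (7 * B ^ 3) := by
    rw [hH3, Real.log_mul (mul_pos two_pos (pow_pos q2 2)).ne' (pow_pos p0 _).ne', Real.log_mul two_ne_zero (pow_pos q2 2).ne',
      Real.log_pow, Real.log_pow]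
    push_cast
    ring
  have hS0 : 0 < ‖S‖ := norm_pos_iff.mpr hne
  have hA'0 : 0 < ‖MvPolynomial.aeval (fun o' : Option Vn => o'.elim (D.Y 1 0) (vn θ D)) A'‖ := norm_pos_iff.mpr hA'1
  have hA₂0 : 0 < ‖MvPolynomial.aeval (vn θ D₀) A₂‖ := norm_pos_iff.mpr hA₂1
  have hLA' := n3_log_le hA'0 hA'4
  rw [Real.log_mul hS0.ne' (mul_pos (mul_pos two_pos q0) (pow_pos r0 _)).ne', Real.log_mul (mul_pos two_pos q0).ne'
    (pow_pos r0 _).ne', Real.log_mul two_ne_zero q0.ne', Real.log_pow] at hLA'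
  rw [← hvn] at hA₂4 hA₂0
  have hLA₂ := n3_log_le hA₂0 hA₂4
  rw [Real.log_mul hA'0.ne' (mul_pos (mul_pos two_pos q2) (pow_pos r0 _)).ne', Real.log_mul (mul_pos two_pos q2).ne'
    (pow_pos r0 _).ne', Real.log_mul two_ne_zero q2.ne', Real.log_pow] at hLA₂
  have h7 : Real.log 7 ≤ 3 * Real.log 2 := by
    have : Real.log 7 ≤ Real.log (2 ^ 3) := Real.log_le_log (by norm_num) (by norm_num)
    rwa [Real.log_pow, Nat.cast_ofNat] at this
  have h2B : Real.log 2 ≤ Real.log B := Real.log_le_log two_pos hB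
  have hl0 : (0 : ℝ) ≤ l := Nat.cast_nonneg l
  have hδ0 : (0 : ℝ) ≤ δ := Nat.cast_nonneg δ
  have hδB : 0 ≤ (δ : ℝ) * Real.log B := mul_nonneg hδ0 hLB0
  obtain ⟨k1, k2, k3⟩ := n3_arith (C₀ := C₀) (LB := Real.log B) (Lm := Real.log N) (R := Real.log ‖S‖) (T := (l : ℝ) + δ + 1)
    (n₀ := (l : ℝ) + δ) (n₁ := 4 * ((l : ℝ) + δ) + 1) (n₂ := 4 * (4 * ((l : ℝ) + δ) + 1) + 1) (lH1 := Real.log (N * B ^ l))
    (lH2 := Real.log H2) (lH3 := Real.log H3) (lp := Real.log (7 * B ^ 3)) (lρ := Real.log ((3 * G + 4) * B ^ 2))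
    (l2 := Real.log 2) (l7 := Real.log 7) (cρ := Real.log (3 * G + 4)) (lA := Real.log ‖MvPolynomial.aeval (vn θ D) A₂‖)
    hC₀ (Real.log_nonneg hN1) (by linarith only [hl0, hδ0]) h2B (by linarith only [hl2]) h7 hcρ (add_nonneg hl0 hδ0) le_rfl
    rfl rfl (by rw [hLH1]; linarith only [hδB]) hLp hLρ hLH2 hLH3
    (by
      push_cast at hLA' hLA₂
      linarith only [hLA', hLA₂])
  have en : (((2 * (1 + 1) * (2 * (1 + 1) * (l + δ) + 1) + 1 : ℕ) : ℕ) : ℝ) = 4 * (4 * ((l : ℝ) + δ) + 1) + 1 := by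
    push_cast; ring
  rw [en] at hQ2 hQ3 hQ4
  rw [hvn] at k3
  exact ⟨Q, hQ1, hQ2.trans k1, hQ3.trans k2, hQ4.trans k3⟩

end Pool.Agent.MSW

end
end

/-! ### the values are algebraic over `ℚ(θ)` -/

section

open Complex Filter Topology IntermediateField

noncomputable section

namespace Pool.Agent.MSW

open MSD MSP

/-- F4. PROOF. Compare `vals_alg` in K/G6c_Alg (complete proof there): `π² e4(z), π³ e6(z), π e2(z)` are rational functions of `i, j, j', j''` (`link4, link6` of G2_Link and `link2'` of N/Link with `Ω² = 1/π`). `D.g = (2/3) π² e4`, `D.g3 = (8/27) π³ e6`, `D.k = sE/π = (π/3) e2` (`om² = π`), `rh = -i/2`, `θ`. -/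
theorem vn_alg (z : ℂ) (hz : 0 < z.im) (hj : deriv jj z ≠ 0) (θ : ℂ) (h : IsAlgebraic ℚ⟮θ⟯ z) (h0 : IsAlgebraic ℚ⟮θ⟯ (jj z))
    (h1 : IsAlgebraic ℚ⟮θ⟯ (deriv jj z)) (h2 : IsAlgebraic ℚ⟮θ⟯ (deriv (deriv jj) z)) :
    ∀ D : Dw, D.z = z → ∀ v, IsAlgebraic ℚ⟮θ⟯ (vn θ D v) := by
  intro D hDz
  have hpi : (Real.pi : ℂ) ≠ 0 := by exact_mod_cast Real.pi_ne_zero
  have hom := D.ne
  have hΩ : (D.om)⁻¹ ≠ 0 := inv_ne_zero hom
  have hπ : (Real.pi : ℂ) * (D.om)⁻¹ ^ 2 = 1 := by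
    rw [inv_pow, D.hom]
    exact mul_inv_cancel₀ hpi
  have tI := MSN.gm_algI ℚ⟮θ⟯
  have tZ := MSN.gm_algZ ℚ⟮θ⟯
  have t2 : IsAlgebraic ℚ⟮θ⟯ (2 : ℂ) := by simpa using tZ 2
  have t3 : IsAlgebraic ℚ⟮θ⟯ (3 : ℂ) := by simpa using tZ 3
  have t4 : IsAlgebraic ℚ⟮θ⟯ (4 : ℂ) := by simpa using tZ 4
  have t6 : IsAlgebraic ℚ⟮θ⟯ (6 : ℂ) := by simpa using tZ 6
  have t8 : IsAlgebraic ℚ⟮θ⟯ (8 : ℂ) := by simpa using tZ 8
  have t27 : IsAlgebraic ℚ⟮θ⟯ (27 : ℂ) := by simpa using tZ 27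
  have t1728 : IsAlgebraic ℚ⟮θ⟯ (1728 : ℂ) := by simpa using tZ 1728
  have e4' : D.om ^ 4 = Real.pi ^ 2 := by
    rw [← D.hom]; ring
  have e6' : D.om ^ 6 = Real.pi ^ 3 := by
    rw [← D.hom]; ring
  have a4 : IsAlgebraic ℚ⟮θ⟯ (Real.pi ^ 2 * e4 z) := by
    have h := link4 z (D.om)⁻¹ hz hΩ hj
    rw [hπ, inv_pow, div_inv_eq_mul, e4', mul_comm] at h
    rw [h, one_pow, mul_one]
    exact MSN.gm_alg _ (h1.pow 2).neg ((t4.mul h0).mul (h0.sub t1728))
  have a6 : IsAlgebraic ℚ⟮θ⟯ (Real.pi ^ 3 * e6 z) := by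
    have h := link6 z (D.om)⁻¹ hz hΩ hj
    rw [hπ, inv_pow, div_inv_eq_mul, inv_pow, div_inv_eq_mul, e4', e6', mul_comm, mul_comm (e4 z)] at h
    rw [h, mul_one]
    exact a4.mul (MSN.gm_alg _ h1.neg ((t2.mul tI).mul h0))
  have a2 : IsAlgebraic ℚ⟮θ⟯ (Real.pi * e2 z) := by
    have h := MSN.link2' z (D.om)⁻¹ hz hΩ hj
    rw [hπ, inv_pow, div_inv_eq_mul, inv_pow, div_inv_eq_mul, inv_pow, div_inv_eq_mul, D.hom, e4', e6', mul_comm,
      mul_comm (e4 z), mul_comm (e6 z)] at h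
    rw [h, mul_one]
    refine t6.mul (((MSN.gm_alg _ (MSN.gm_alg _ h2 h1) (t2.mul tI)).add ((MSN.gm_alg _ t2 t3).mul (MSN.gm_alg _ a6 a4))).add
      (MSN.gm_alg _ (a4.pow 2) (t2.mul a6)))
  intro v
  cases v with
  | th =>
    change IsAlgebraic ℚ⟮θ⟯ θ
    exact isAlgebraic_algebraMap (A := ℂ) (⟨θ, mem_adjoin_simple_self ℚ θ⟩ : ℚ⟮θ⟯)
  | g =>
    change IsAlgebraic ℚ⟮θ⟯ (2 / 3 * Real.pi ^ 4 * e4 D.z / D.om ^ 4)
    have h : 2 / 3 * (Real.pi : ℂ) ^ 4 * e4 D.z / D.om ^ 4 = 2 / 3 * (Real.pi ^ 2 * e4 z) := by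
      rw [e4', hDz]
      field_simp
    rw [h]
    exact (MSN.gm_alg _ t2 t3).mul a4
  | g3 =>
    change IsAlgebraic ℚ⟮θ⟯ (8 / 27 * Real.pi ^ 6 * e6 D.z / D.om ^ 6)
    have h : 8 / 27 * (Real.pi : ℂ) ^ 6 * e6 D.z / D.om ^ 6 = 8 / 27 * (Real.pi ^ 3 * e6 z) := by
      rw [e6', hDz]
      field_simp
    rw [h]
    exact (MSN.gm_alg _ t8 t27).mul a6
  | k =>
    change IsAlgebraic ℚ⟮θ⟯ (sE D.z / D.om ^ 2)
    have h : sE D.z / D.om ^ 2 = Real.pi * e2 z / 3 := by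
      rw [D.hom, hDz]
      unfold sE
      field_simp
    rw [h]
    exact MSN.gm_alg _ a2 t3
  | z =>
    change IsAlgebraic ℚ⟮θ⟯ D.z
    rw [hDz]
    exact h
  | r =>
    change IsAlgebraic ℚ⟮θ⟯ (-I / 2)
    exact MSN.gm_alg _ tI.neg t2

end Pool.Agent.MSW

end
end
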