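import Pool.Agent.Lib.MP_f58a57_nt.K.A2_Bd
import Pool.Agent.Lib.MP_f58a57_nt.K.T3b_Half
import Pool.Agent.Lib.MP_f58a57_nt.T.A1_Defs
import Pool.Agent.Lib.MP_f58a57_nt.T.A2_Num

/-! # MP_f58a57_nt, all nonspecial points: D2_Base -/

/-! ### base points with given values of the Weierstrass function -/

section

open Complex

noncomputable section

namespace Pool.Agent.MSW

open MSD MSP MSK

/-- F1a. PROOF. Suppose `wp - X` has no zero off the lattice. `wp = N2/N0²` (definition), so `f = N0²/(N2 - X N0²)` is entire: if `N0 t ≠ 0` then `N2 - X N0² = N0² (wp - X) ≠ 0`; if `N0 t = 0` then `N2 t ≠ 0` (`N2 = N1² - N0 N0'' - s N0²`, `N1 = (th)' ≠ 0` at the zeros of `th`: `deriv_th_zero_ne` and the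
functional equation; alternatively: `wp → ∞` at lattice points). `f = 1/(wp - X)` off the lattice is periodic (`t7_wp_add`), so bounded (fundamental parallelogram compact; continuity), so constant (Liouville, `Differentiable.apply_eq_apply_of_bounded`), `= f 0 = 0`. Contradiction.
Alternatively use Mathlib's results on `PeriodPair.weierstrassP` with `wp_eq`. -/
theorem wp_surj (τ : ℂ) (hτ : 0 < τ.im) (X : ℂ) : ∃ h : ℂ, th τ h ≠ 0 ∧ wp τ (sE τ) h = X := by
  by_contra hcon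
  push Not at hcon
  set s := sE τ with hs
  have hth : Differentiable ℂ (th τ) := th_differentiable τ hτ
  have han : ∀ t, AnalyticAt ℂ (th τ) t := fun t => hth.analyticAt t
  have h0 : Differentiable ℂ (N0 τ) := hth
  have h2 : Differentiable ℂ (N2 τ s) := by
    intro t
    have a1 : AnalyticAt ℂ (deriv (th τ)) t := (han t).deriv
    have a2 : AnalyticAt ℂ (deriv (deriv (th τ))) t := a1.deriv
    exact (((a1.pow 2).sub ((han t).mul a2)).sub (analyticAt_const.mul ((han t).pow 2))).differentiableAt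
  let D : ℂ → ℂ := fun t => N2 τ s t - X * N0 τ t ^ 2
  have hD : Differentiable ℂ D := h2.sub ((differentiable_const X).mul (h0.pow 2))
  have hDne : ∀ t, D t ≠ 0 := by
    intro t
    by_cases ht : th τ t = 0
    · obtain ⟨m, n, rfl⟩ := (th_eq_zero_iff τ hτ t).1 ht
      have e1 : N2 τ s (m + n * τ) = au τ m n 0 ^ 2 * N2 τ s 0 := by
        have := N2_shift τ s hτ m n 0
        rwa [zero_add] at this
      have e2 : N2 τ s 0 = deriv (th τ) 0 ^ 2 := by
        unfold N2
        rw [t8c_zero τ hτ]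
        ring
      have e3 : D (m + n * τ) = au τ m n 0 ^ 2 * deriv (th τ) 0 ^ 2 := by
        show N2 τ s (m + n * τ) - X * N0 τ (m + n * τ) ^ 2 = _
        have : N0 τ (m + n * τ) = 0 := ht
        rw [this, e1, e2]
        ring
      rw [e3]
      exact mul_ne_zero (pow_ne_zero 2 (au_ne τ m n 0)) (pow_ne_zero 2 (deriv_th_zero_ne τ hτ))
    · intro h
      apply hcon t ht
      have h3 : N2 τ s t = X * N0 τ t ^ 2 := sub_eq_zero.1 h
      have h4 : N0 τ t ≠ 0 := ht
      unfold wp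
      rw [h3]
      field_simp
  let f : ℂ → ℂ := fun t => N0 τ t ^ 2 / D t
  have hf : Differentiable ℂ f := (h0.pow 2).div hD hDne
  have hper : ∀ z w : ℂ, w ∈ (pp τ hτ).lattice → f (z + w) = f z := by
    intro z w hw
    obtain ⟨m, n, h⟩ := PeriodPair.mem_lattice.1 hw
    have hw' : z + w = z + m + n * τ := by
      rw [← h]
      simp only [MSP.pp]
      ring
    rw [hw']
    show N0 τ (z + m + n * τ) ^ 2 / (N2 τ s (z + m + n * τ) - X * N0 τ (z + m + n * τ) ^ 2) =
      N0 τ z ^ 2 / (N2 τ s z - X * N0 τ z ^ 2)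
    rw [N0_shift τ hτ, N2_shift τ s hτ]
    have hau := au_ne τ m n z
    have e : au τ m n z ^ 2 * N2 τ s z - X * (au τ m n z * N0 τ z) ^ 2 =
        au τ m n z ^ 2 * (N2 τ s z - X * N0 τ z ^ 2) := by ring
    rw [e, mul_pow]
    exact mul_div_mul_left _ _ (pow_ne_zero 2 hau)
  have hconst : ∀ t, f t = f 0 := fun t =>
    hf.apply_eq_apply_of_bounded (IsZLattice.isCompact_range_of_periodic (pp τ hτ).lattice _
      hf.continuous fun z w hw => hper z w hw).isBounded t 0
  have hf0 : f 0 = 0 := by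
    show N0 τ 0 ^ 2 / D 0 = 0
    have : N0 τ 0 = 0 := t8c_zero τ hτ
    rw [this]
    simp
  have h5 : th τ (1 / 2) ≠ 0 := by
    have := t3b_ne τ hτ 1 0 (Or.inl (by decide))
    simpa using this
  have h6 : f (1 / 2) = 0 := (hconst _).trans hf0
  have h7 : N0 τ (1 / 2) ^ 2 / D (1 / 2) = 0 := h6
  rcases div_eq_zero_iff.1 h7 with h8 | h8
  · exact h5 (pow_eq_zero_iff (two_ne_zero) |>.1 h8)
  · exact hDne _ h8

/-- F1b. PROOF. `h` from `wp_surj` for `X om²`; subtract a lattice vector `m + nτ` such that `h = a + bτ` with `0 ≤ a, b < 1` (`t7_wp_add`, `th_eq_zero_iff`), so `‖h‖ ≤ 1 + ‖τ‖`. By `wp_ode` divided by `om⁶` `(wp' h/om³)² = 4X³ - 2gX - g₃ = Y²`, so `wp' h/om³ = ± Y`; in the second case replace `h` by `-h`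
(`t3b_wp_neg`, so `deriv wp (-h) = -deriv wp h`; `th τ (-h) = -th τ h`). -/
theorem base_pt (τ om : ℂ) (hτ : 0 < τ.im) (hom : om ≠ 0) (X Y : ℂ)
    (h : Y ^ 2 = 4 * X ^ 3 - 2 * (2 / 3 * Real.pi ^ 4 * e4 τ / om ^ 4) * X - 8 / 27 * Real.pi ^ 6 * e6 τ / om ^ 6) :
    ∃ t : ℂ, ‖t‖ ≤ 1 + ‖τ‖ ∧ th τ t ≠ 0 ∧ wp τ (sE τ) t / om ^ 2 = X ∧ deriv (wp τ (sE τ)) t / om ^ 3 = Y := by
  obtain ⟨h₀, hh₀, hX₀⟩ := wp_surj τ hτ (X * om ^ 2)
  -- reduce to the fundamental parallelogram
  obtain ⟨t, hle, ht0, htX⟩ : ∃ t : ℂ, ‖t‖ ≤ 1 + ‖τ‖ ∧ th τ t ≠ 0 ∧ wp τ (sE τ) t = X * om ^ 2 := by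
    let b : ℝ := h₀.im / τ.im
    let a : ℝ := h₀.re - b * τ.re
    have hab : h₀ = (a : ℂ) + (b : ℂ) * τ := by
      apply Complex.ext
      · simp [a]
      · simp [b]
        field_simp
    refine ⟨((Int.fract a : ℝ) : ℂ) + ((Int.fract b : ℝ) : ℂ) * τ, ?_, ?_, ?_⟩
    · refine (norm_add_le _ _).trans ?_
      rw [norm_mul, Complex.norm_real, Complex.norm_real, Real.norm_eq_abs, Real.norm_eq_abs,
        abs_of_nonneg (Int.fract_nonneg a), abs_of_nonneg (Int.fract_nonneg b)]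
      have h1 := (Int.fract_lt_one a).le
      have h2 := (Int.fract_lt_one b).le
      have h3 := norm_nonneg τ
      nlinarith
    · have e : h₀ = (((Int.fract a : ℝ) : ℂ) + ((Int.fract b : ℝ) : ℂ) * τ) + (⌊a⌋ : ℤ) + (⌊b⌋ : ℤ) * τ := by
        rw [hab]
        have ha : (a : ℂ) = ((⌊a⌋ : ℤ) : ℂ) + ((Int.fract a : ℝ) : ℂ) := by
          exact_mod_cast congrArg (fun x : ℝ => (x : ℂ)) (Int.floor_add_fract a).symm
        have hb : (b : ℂ) = ((⌊b⌋ : ℤ) : ℂ) + ((Int.fract b : ℝ) : ℂ) := by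
          exact_mod_cast congrArg (fun x : ℝ => (x : ℂ)) (Int.floor_add_fract b).symm
        rw [ha, hb]
        ring
      intro h
      apply hh₀
      rw [e]
      have := N0_shift τ hτ ⌊a⌋ ⌊b⌋ (((Int.fract a : ℝ) : ℂ) + ((Int.fract b : ℝ) : ℂ) * τ)
      unfold N0 at this
      rw [this, h, mul_zero]
    · have e : h₀ = (((Int.fract a : ℝ) : ℂ) + ((Int.fract b : ℝ) : ℂ) * τ) + (⌊a⌋ : ℤ) + (⌊b⌋ : ℤ) * τ := by
        rw [hab]
        have ha : (a : ℂ) = ((⌊a⌋ : ℤ) : ℂ) + ((Int.fract a : ℝ) : ℂ) := by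
          exact_mod_cast congrArg (fun x : ℝ => (x : ℂ)) (Int.floor_add_fract a).symm
        have hb : (b : ℂ) = ((⌊b⌋ : ℤ) : ℂ) + ((Int.fract b : ℝ) : ℂ) := by
          exact_mod_cast congrArg (fun x : ℝ => (x : ℂ)) (Int.floor_add_fract b).symm
        rw [ha, hb]
        ring
      rw [← hX₀]
      conv_rhs => rw [e]
      exact (t7_wp_add τ hτ (sE τ) ⌊a⌋ ⌊b⌋ _).symm
  have hode := wp_ode τ hτ t ht0
  have hsq : (deriv (wp τ (sE τ)) t / om ^ 3) ^ 2 = Y ^ 2 := by
    rw [h, div_pow, hode, htX]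
    field_simp
    ring
  rcases sq_eq_sq_iff_eq_or_eq_neg.1 hsq with h1 | h1
  · exact ⟨t, hle, ht0, by rw [htX]; field_simp, h1⟩
  · refine ⟨-t, by rwa [norm_neg], ?_, ?_, ?_⟩
    · rw [th_neg]
      exact neg_ne_zero.2 ht0
    · rw [t3b_wp_neg, htX]
      field_simp
    · have e1 : deriv (wp τ (sE τ)) (-t) = -deriv (wp τ (sE τ)) t := by
        have e2 : (fun x => wp τ (sE τ) (-x)) = wp τ (sE τ) := funext fun x => t3b_wp_neg τ (sE τ) x
        have e3 := deriv_comp_neg (wp τ (sE τ)) t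
        rw [e2] at e3
        rw [e3, neg_neg]
      rw [e1, neg_div, h1, neg_neg]

/-- F1c. base points with integral values. -/
theorem exists_Dw (z om : ℂ) (hz : 0 < z.im) (hom : om ^ 2 = Real.pi) (x : Fin 2 → ℕ) :
    ∃ D : Dw, D.z = z ∧ D.om = om ∧ (∀ l, ‖D.h l‖ ≤ 1 + ‖z‖) ∧ ∀ l, D.X l 0 = x l := by
  have hne : om ≠ 0 := by
    intro h
    rw [h] at hom
    have hp : (Real.pi : ℂ) ≠ 0 := by exact_mod_cast Real.pi_ne_zero
    apply hp
    rw [← hom]
    norm_num
  have key : ∀ l, ∃ t : ℂ, ‖t‖ ≤ 1 + ‖z‖ ∧ th z t ≠ 0 ∧ wp z (sE z) t / om ^ 2 = x l := by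
    intro l
    obtain ⟨y, hy⟩ := IsAlgClosed.exists_pow_nat_eq
      (4 * (x l : ℂ) ^ 3 - 2 * (2 / 3 * Real.pi ^ 4 * e4 z / om ^ 4) * x l - 8 / 27 * Real.pi ^ 6 * e6 z / om ^ 6) (n := 2) (by norm_num)
    obtain ⟨t, h1, h2, h3, _⟩ := base_pt z om hz hne (x l) y hy
    exact ⟨t, h1, h2, h3⟩
  choose t h1 h2 h3 using key
  refine ⟨⟨z, hz, om, hom, t, h2⟩, rfl, rfl, h1, fun l => ?_⟩
  show wp z (sE z) (t l + 0) / om ^ 2 = x l
  rw [add_zero]
  exact h3 l

end Pool.Agent.MSW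

end
end

/-! ### degree and length of the functions and their derivatives -/

section

open Complex

noncomputable section

namespace Pool.Agent.MSW

open MSD MSP

open MSK (a2_B a2_mono a2_C a2_var a2_add a2_mul a2_neg' a2_sub a2_pow a2_sum a2_prod)

theorem a1w_cp (l : Fin 2) : a2_B 1 1 (cp l) := by
  unfold cp
  by_cases h : l = 0
  · rw [if_pos h, ← MvPolynomial.C_1]
    exact a2_mono (a2_C 1) (by omega) (by simp)
  · rw [if_neg h]
    exact a2_var _

theorem a1w_dlv (v : Vw) : a2_B 5 7 (dlv v) := by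
  have h0 : a2_B 5 7 (0 : MvPolynomial Vw ℤ) := by
    rw [← MvPolynomial.C_0]
    exact a2_mono (a2_C 0) (by omega) (by simp)
  cases v with
  | X l =>
    change a2_B _ _ (MvPolynomial.X Vw.r * cp l * MvPolynomial.X (Vw.Y l))
    exact a2_mono (a2_mul (a2_mul (a2_var _) (a1w_cp l)) (a2_var _)) (by omega) (by norm_num)
  | Y l =>
    change a2_B _ _ (MvPolynomial.X Vw.r * cp l * (6 * MvPolynomial.X (Vw.X l) ^ 2 - MvPolynomial.X Vw.g))
    have h1 : a2_B 2 6 (6 * (MvPolynomial.X (Vw.X l) : MvPolynomial Vw ℤ) ^ 2) := by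
      have h2 := a2_mul (a2_C (σ := Vw) 6) (a2_pow (a2_var (Vw.X l)) 2)
      rw [show (MvPolynomial.C (6 : ℤ) : MvPolynomial Vw ℤ) = 6 from map_ofNat _ 6] at h2
      exact a2_mono h2 (by omega) (by norm_num)
    exact a2_mono (a2_mul (a2_mul (a2_var _) (a1w_cp l)) (a2_sub h1 (a2_var Vw.g))) (by omega) (by norm_num)
  | Q =>
    change a2_B _ _ (-(MvPolynomial.X Vw.r ^ 2 * ∑ l, cp l ^ 2 * MvPolynomial.X (Vw.X l)))
    have h1 : a2_B 3 (∑ _l : Fin 2, (1 : ℝ)) (∑ l, cp l ^ 2 * MvPolynomial.X (Vw.X l)) :=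
      a2_sum _ _ _ _ fun l _ => a2_mono (a2_mul (a2_pow (a1w_cp l) 2) (a2_var _)) (by omega) (by norm_num)
    refine a2_mono (a2_neg' (a2_mul (a2_pow (a2_var Vw.r) 2) h1)) (by omega) ?_
    rw [Finset.sum_const, Finset.card_univ, Fintype.card_fin, nsmul_eq_mul]
    norm_num
  | g => exact h0
  | k => exact h0
  | z => exact h0
  | r => exact h0

theorem a1w_dlt (n : ℕ) (H : ℝ) (p : MvPolynomial Vw ℤ)
    (h1 : p.totalDegree ≤ n) (h2 : mlen p ≤ H) : a2_B (n + 4) (7 * n * H) (dlt p) := by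
  classical
  have key : ∀ m ∈ p.support, a2_B (n + 4) (|((p.coeff m : ℤ) : ℝ)| * (7 * n))
      (dlt (MvPolynomial.monomial m (p.coeff m))) := by
    intro m hm
    unfold dlt
    rw [MvPolynomial.mkDerivation_monomial, ← MvPolynomial.C_mul', Finsupp.sum]
    have hdeg : ∑ v ∈ m.support, m v ≤ n := (MvPolynomial.le_totalDegree hm).trans h1
    have hs : a2_B (n + 4) (∑ v ∈ m.support, (m v : ℝ) * 7)
        (∑ v ∈ m.support, (MvPolynomial.monomial (m - Finsupp.single v 1) ((m v : ℕ) : ℤ)) • dlv v) := by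
      refine a2_sum _ _ _ _ fun v hv => ?_
      rw [smul_eq_mul]
      have hv1 : 1 ≤ m v := Nat.one_le_iff_ne_zero.mpr (Finsupp.mem_support_iff.mp hv)
      have h3 : a2_B (n - 1) (m v : ℝ)
          (MvPolynomial.monomial (m - Finsupp.single v 1) ((m v : ℕ) : ℤ) : MvPolynomial Vw ℤ) := by
        refine ⟨(MvPolynomial.totalDegree_monomial_le _ _).trans ?_, ?_⟩
        · have e1 : (m - Finsupp.single v 1).sum (fun _ => id) = ∑ w, (m - Finsupp.single v 1 : Vw →₀ ℕ) w :=
            Finsupp.sum_fintype _ _ (fun _ => rfl)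
          have e2 : ∑ w ∈ m.support, m w = ∑ w, m w := Finsupp.sum_fintype m (fun _ e => e) (fun _ => rfl)
          rw [e2] at hdeg
          rw [e1]
          have e3 : ∑ w, (m - Finsupp.single v 1 : Vw →₀ ℕ) w + 1 ≤ ∑ w, m w := by
            rw [← Finset.add_sum_erase _ _ (Finset.mem_univ v), ← Finset.add_sum_erase _ (fun w => m w) (Finset.mem_univ v),
              Finsupp.coe_tsub, Pi.sub_apply, Finsupp.single_eq_same]
            have e4 : ∑ w ∈ Finset.univ.erase v, (m - Finsupp.single v 1 : Vw →₀ ℕ) w ≤ ∑ w ∈ Finset.univ.erase v, m w := by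
              refine Finset.sum_le_sum fun w _ => ?_
              rw [Finsupp.coe_tsub, Pi.sub_apply]
              exact Nat.sub_le _ _
            rw [Finsupp.coe_tsub] at e4
            omega
          omega
        · rw [mlen_monomial]
          push_cast
          rw [abs_of_nonneg (Nat.cast_nonneg _)]
      have hn : 1 ≤ n := by
        refine hv1.trans (le_trans ?_ hdeg)
        exact Finset.single_le_sum (f := fun v => m v) (fun _ _ => Nat.zero_le _) hv
      exact a2_mono (a2_mul h3 (a1w_dlv v)) (by omega) le_rfl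
    have h4 := a2_mul (a2_C (σ := Vw) (p.coeff m)) hs
    refine a2_mono h4 (by omega) ?_
    refine mul_le_mul_of_nonneg_left ?_ (abs_nonneg _)
    rw [← Finset.sum_mul, mul_comm]
    refine mul_le_mul_of_nonneg_left ?_ (by norm_num)
    exact_mod_cast hdeg
  have hsum := a2_sum p.support _ _ _ key
  rw [← map_sum, ← p.as_sum] at hsum
  refine ⟨hsum.1, hsum.2.trans ?_⟩
  rw [← Finset.sum_mul]
  have h7 : ∑ m ∈ p.support, |((p.coeff m : ℤ) : ℝ)| ≤ H := h2
  have h8 : (0 : ℝ) ≤ 7 * n := mul_nonneg (by norm_num) (Nat.cast_nonneg _)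
  calc _ ≤ H * (7 * n) := mul_le_mul_of_nonneg_right h7 h8
    _ = _ := by ring

/-- A1a. PROOF. Compare `nab_bd` in R/A1_NabBd and `der_bd` in K/A2_Bd (lemmas `a2_..` there). `dlv v` has degree `≤ 3, 4, 5` and length `≤ 1, 7, 2` for `v = X l, Y l, Q`, and is `0` for the other variables. `dlt R = ∑_m ∑_v c_m m_v X^(m - e_v) dlv v` over the monomials `m` of `R` and the variables `v`,
`∑_v m_v ≤ n`: degree `≤ n + 4`, length `≤ 7 n H`. `M X_Q R` has degree `≤ n + 1`, length `≤ M H`. -/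
theorem nab_bd (M n : ℕ) (H : ℝ) (R : MvPolynomial Vw ℤ) (h1 : R.totalDegree ≤ n) (h2 : mlen R ≤ H) :
    (nab M R).totalDegree ≤ n + 4 ∧ mlen (nab M R) ≤ (7 * n + M) * H := by
  have h3 : a2_B 0 (M : ℝ) ((M : ℕ) : MvPolynomial Vw ℤ) := by
    have h := a2_C (σ := Vw) ((M : ℕ) : ℤ)
    rw [map_natCast] at h
    exact a2_mono h le_rfl (by simp)
  have h4 := a2_add (a1w_dlt n H R h1 h2)
    (a2_mul h3 (a2_mul (a2_var (Vw.Q)) (⟨h1, h2⟩ : a2_B n H R)))
  have h5 : a2_B (n + 4) ((7 * n + M) * H) (nab M R) :=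
    a2_mono h4 (by omega) (le_of_eq (by ring))
  exact h5

/-- A1b. PROOF. Induction on `ν.2 < E`: start: `∏ X_l^(a_l)`: degree `≤ 2L`, length `1`; `nab_bd` with `M = 2L`, `n = 2L + 4i`: factor `7(2L + 4i) + 2L ≤ 16 L + 28 E`, and `16 L + 28 E ≥ 1` (`E ≥ 1`). -/
theorem Rp_bd {L E : ℕ} (ν : Iw L E) : (Rp ν).totalDegree ≤ 2 * L + 4 * E ∧ mlen (Rp ν) ≤ (16 * L + 28 * E : ℝ) ^ E := by
  have hE : ν.2.val < E := ν.2.isLt
  have hE1 : (1 : ℝ) ≤ E := by exact_mod_cast (by omega : 1 ≤ E)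
  have hL : (0 : ℝ) ≤ L := Nat.cast_nonneg _
  have hB1 : (1 : ℝ) ≤ 16 * L + 28 * E := by linarith
  have hB0 : (0 : ℝ) ≤ 16 * L + 28 * E := zero_le_one.trans hB1
  have hst : a2_B (2 * L) 1 (∏ l, (MvPolynomial.X (Vw.X l) : MvPolynomial Vw ℤ) ^ (ν.1 l).val) := by
    have h1 := a2_prod (Finset.univ : Finset (Fin 2))
      (fun l => (MvPolynomial.X (Vw.X l) : MvPolynomial Vw ℤ) ^ (ν.1 l).val) (fun _ => L) (fun l _ => by
        refine a2_mono (a2_pow (a2_var (Vw.X l)) (ν.1 l).val) ?_ le_rfl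
        have := (ν.1 l).isLt
        omega)
    refine a2_mono h1 ?_ le_rfl
    rw [Finset.sum_const, Finset.card_univ, Fintype.card_fin, smul_eq_mul]
  have main : ∀ k, k ≤ E → ((nab (2 * L))^[k] (∏ l, (MvPolynomial.X (Vw.X l) : MvPolynomial Vw ℤ) ^ (ν.1 l).val)).totalDegree ≤
        2 * L + 4 * k ∧
      mlen ((nab (2 * L))^[k] (∏ l, (MvPolynomial.X (Vw.X l) : MvPolynomial Vw ℤ) ^ (ν.1 l).val)) ≤
        (16 * L + 28 * E : ℝ) ^ k := by
    intro k
    induction k with
    | zero =>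
      intro _
      rw [Function.iterate_zero, id_eq, pow_zero]
      exact ⟨hst.1.trans (by omega), hst.2⟩
    | succ k ih =>
      intro hk'
      obtain ⟨h1, h2⟩ := ih (by omega)
      rw [Function.iterate_succ_apply']
      obtain ⟨h3, h4⟩ := nab_bd (2 * L) _ _ _ h1 h2
      refine ⟨h3.trans (by omega), h4.trans ?_⟩
      rw [pow_succ, mul_comm (_ ^ k)]
      refine mul_le_mul_of_nonneg_right ?_ (pow_nonneg hB0 _)
      push_cast
      have h6 : (k : ℝ) ≤ E := by exact_mod_cast (by omega : k ≤ E)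
      linarith
  obtain ⟨h1, h2⟩ := main ν.2.val hE.le
  refine ⟨?_, ?_⟩
  · unfold Rp
    exact h1.trans (by omega)
  · unfold Rp
    exact h2.trans (pow_le_pow_right₀ hB1 hE.le)

end Pool.Agent.MSW

end
end

/-! ### degree and length of the derivatives -/

section

open Complex

noncomputable section

namespace Pool.Agent.MSW

open MSD MSP MSK

theorem a1bw_cp (l : Fin 2) : a2_B 1 1 (cp l) := by
  unfold cp
  by_cases h : l = 0
  · rw [if_pos h, ← MvPolynomial.C_1]
    exact a2_mono (a2_C 1) (by omega) (by simp)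
  · rw [if_neg h]
    exact a2_var _

theorem a1bw_dv (a : Fin 2 → ℤ) (A : ℝ) (hA : 1 ≤ A) (ha : ∀ j, |(a j : ℝ)| ≤ A) (v : Vw) :
    a2_B 3 (7 * A) (dv a v) := by
  have hA0 : 0 ≤ A := zero_le_one.trans hA
  have h0 : a2_B 3 (7 * A) (0 : MvPolynomial Vw ℤ) := by
    rw [← MvPolynomial.C_0]
    refine a2_mono (a2_C 0) (by omega) ?_
    rw [Int.cast_zero, abs_zero]
    exact mul_nonneg (by norm_num) hA0
  have hC : ∀ l, a2_B 0 A (MvPolynomial.C (a l) : MvPolynomial Vw ℤ) := fun l => a2_mono (a2_C (a l)) le_rfl (ha l)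
  cases v with
  | X l =>
    change a2_B _ _ (MvPolynomial.C (a l) * MvPolynomial.X (Vw.Y l))
    exact a2_mono (a2_mul (hC l) (a2_var _)) (by omega) (by linarith only [hA0])
  | Y l =>
    change a2_B _ _ (MvPolynomial.C (a l) * (6 * MvPolynomial.X (Vw.X l) ^ 2 - MvPolynomial.X Vw.g))
    have h1 : a2_B 2 6 (6 * (MvPolynomial.X (Vw.X l) : MvPolynomial Vw ℤ) ^ 2) := by
      have h2 := a2_mul (a2_C (σ := Vw) 6) (a2_pow (a2_var (Vw.X l)) 2)
      rw [show (MvPolynomial.C (6 : ℤ) : MvPolynomial Vw ℤ) = 6 from map_ofNat _ 6] at h2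
      exact a2_mono h2 (by omega) (by norm_num)
    exact a2_mono (a2_mul (hC l) (a2_sub h1 (a2_var Vw.g))) (by omega) (by linarith only [hA0])
  | Q =>
    change a2_B _ _ (MvPolynomial.C (a 1) - MvPolynomial.X Vw.r *
      ∑ l, cp l * (MvPolynomial.C (a l) * (MvPolynomial.X (Vw.X l) + MvPolynomial.X Vw.k)))
    have h1 : a2_B 2 (∑ _l : Fin 2, (2 * A))
        (∑ l, cp l * (MvPolynomial.C (a l) * (MvPolynomial.X (Vw.X l) + MvPolynomial.X Vw.k))) :=
      a2_sum _ _ _ _ fun l _ => a2_mono (a2_mul (a1bw_cp l) (a2_mul (hC l) (a2_add (a2_var _) (a2_var _))))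
        (by omega) (by linarith only [hA0])
    refine a2_mono (a2_sub (hC 1) (a2_mul (a2_var Vw.r) h1)) (by omega) ?_
    rw [Finset.sum_const, Finset.card_univ, Fintype.card_fin, nsmul_eq_mul]
    push_cast
    linarith only [hA0]
  | g => exact h0
  | k => exact h0
  | z => exact h0
  | r => exact h0

/-- degree and length of a derivation of a polynomial ring -/
theorem a1bw_gen {σ : Type} [Fintype σ] [DecidableEq σ] (f : σ → MvPolynomial σ ℤ) (e : ℕ) (c : ℝ) (hc : 0 ≤ c)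
    (hf : ∀ v, a2_B (e + 1) c (f v)) (n : ℕ) (H : ℝ) (p : MvPolynomial σ ℤ)
    (h1 : p.totalDegree ≤ n) (h2 : mlen p ≤ H) : a2_B (n + e) (c * n * H) (MvPolynomial.mkDerivation ℤ f p) := by
  classical
  have key : ∀ m ∈ p.support, a2_B (n + e) (|((p.coeff m : ℤ) : ℝ)| * (c * n))
      (MvPolynomial.mkDerivation ℤ f (MvPolynomial.monomial m (p.coeff m))) := by
    intro m hm
    rw [MvPolynomial.mkDerivation_monomial, ← MvPolynomial.C_mul', Finsupp.sum]
    have hdeg : ∑ v ∈ m.support, m v ≤ n := (MvPolynomial.le_totalDegree hm).trans h1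
    have hs : a2_B (n + e) (∑ v ∈ m.support, (m v : ℝ) * c)
        (∑ v ∈ m.support, (MvPolynomial.monomial (m - Finsupp.single v 1) ((m v : ℕ) : ℤ)) • f v) := by
      refine a2_sum _ _ _ _ fun v hv => ?_
      rw [smul_eq_mul]
      have hv1 : 1 ≤ m v := Nat.one_le_iff_ne_zero.mpr (Finsupp.mem_support_iff.mp hv)
      have h3 : a2_B (n - 1) (m v : ℝ)
          (MvPolynomial.monomial (m - Finsupp.single v 1) ((m v : ℕ) : ℤ) : MvPolynomial σ ℤ) := by
        refine ⟨(MvPolynomial.totalDegree_monomial_le _ _).trans ?_, ?_⟩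
        · have e1 : (m - Finsupp.single v 1).sum (fun _ => id) = ∑ w, (m - Finsupp.single v 1 : σ →₀ ℕ) w :=
            Finsupp.sum_fintype _ _ (fun _ => rfl)
          have e2 : ∑ w ∈ m.support, m w = ∑ w, m w := Finsupp.sum_fintype m (fun _ e => e) (fun _ => rfl)
          rw [e2] at hdeg
          rw [e1]
          have e3 : ∑ w, (m - Finsupp.single v 1 : σ →₀ ℕ) w + 1 ≤ ∑ w, m w := by
            rw [← Finset.add_sum_erase _ _ (Finset.mem_univ v), ← Finset.add_sum_erase _ (fun w => m w) (Finset.mem_univ v),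
              Finsupp.coe_tsub, Pi.sub_apply, Finsupp.single_eq_same]
            have e4 : ∑ w ∈ Finset.univ.erase v, (m - Finsupp.single v 1 : σ →₀ ℕ) w ≤ ∑ w ∈ Finset.univ.erase v, m w := by
              refine Finset.sum_le_sum fun w _ => ?_
              rw [Finsupp.coe_tsub, Pi.sub_apply]
              exact Nat.sub_le _ _
            rw [Finsupp.coe_tsub] at e4
            omega
          omega
        · rw [mlen_monomial]
          push_cast
          rw [abs_of_nonneg (Nat.cast_nonneg _)]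
      have hn : 1 ≤ n := by
        refine hv1.trans (le_trans ?_ hdeg)
        exact Finset.single_le_sum (f := fun v => m v) (fun _ _ => Nat.zero_le _) hv
      exact a2_mono (a2_mul h3 (hf v)) (by omega) le_rfl
    have h4 := a2_mul (a2_C (σ := σ) (p.coeff m)) hs
    refine a2_mono h4 (by omega) ?_
    refine mul_le_mul_of_nonneg_left ?_ (abs_nonneg _)
    rw [← Finset.sum_mul, mul_comm]
    refine mul_le_mul_of_nonneg_left ?_ hc
    exact_mod_cast hdeg
  have hsum := a2_sum p.support _ _ _ key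
  rw [← map_sum, ← p.as_sum] at hsum
  refine ⟨hsum.1, hsum.2.trans ?_⟩
  rw [← Finset.sum_mul]
  have h7 : ∑ m ∈ p.support, |((p.coeff m : ℤ) : ℝ)| ≤ H := h2
  have h8 : (0 : ℝ) ≤ c * n := mul_nonneg hc (Nat.cast_nonneg _)
  calc _ ≤ H * (c * n) := mul_le_mul_of_nonneg_right h7 h8
    _ = _ := by ring

/-- A1c. PROOF. Compare `der_bd` in K/A2_Bd. `dv a v` has degree `≤ 1, 2, 3` and length `≤ A, 7A, 5A` for `v = X l, Y l, Q`. -/
theorem der_bd (a : Fin 2 → ℤ) (A : ℝ) (hA : 1 ≤ A) (ha : ∀ j, |(a j : ℝ)| ≤ A) (n : ℕ) (H : ℝ) (p : MvPolynomial Vw ℤ)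
    (h1 : p.totalDegree ≤ n) (h2 : mlen p ≤ H) :
    (der a p).totalDegree ≤ n + 2 ∧ mlen (der a p) ≤ 7 * A * n * H :=
  a1bw_gen (dv a) 2 (7 * A) (mul_nonneg (by norm_num) (zero_le_one.trans hA)) (a1bw_dv a A hA ha) n H p h1 h2

/-- A1d. PROOF. Induction on `k ≤ T` (compare `der_iter_gen` in R/A3_DerIt): after `k` steps degree `≤ n₀ + 2k`, length `≤ ∏_{i<k} (7 A (n₀ + 2i)) H₀`, all the factors are `≤ F = 7 A (n₀ + 2T)` and `F ≥ 1`. -/
theorem der_iter (a : Fin 2 → ℤ) (A : ℝ) (hA : 1 ≤ A) (ha : ∀ j, |(a j : ℝ)| ≤ A) (p : MvPolynomial Vw ℤ) (n₀ : ℕ) (H₀ : ℝ)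
    (h1 : p.totalDegree ≤ n₀) (h2 : mlen p ≤ H₀) (T k : ℕ) (hT : 1 ≤ T) (hk : k ≤ T) :
    ((der a)^[k] p).totalDegree ≤ n₀ + 2 * T ∧ mlen ((der a)^[k] p) ≤ (7 * A * (n₀ + 2 * T)) ^ T * H₀ := by
  have hA0 : 0 ≤ A := zero_le_one.trans hA
  have hc : (0 : ℝ) ≤ 7 * A := mul_nonneg (by norm_num) hA0
  have hT' : (1 : ℝ) ≤ T := Nat.one_le_cast.2 hT
  have hL : (0 : ℝ) ≤ n₀ := Nat.cast_nonneg _
  have hH : 0 ≤ H₀ := (mlen_nonneg p).trans h2
  have hB1 : (1 : ℝ) ≤ 7 * A * (n₀ + 2 * T) :=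
    one_le_mul_of_one_le_of_one_le (by linarith only [hA]) (by linarith only [hT', hL])
  have main : ∀ k, k ≤ T → ((der a)^[k] p).totalDegree ≤ n₀ + 2 * k ∧
      mlen ((der a)^[k] p) ≤ (7 * A * (n₀ + 2 * T)) ^ k * H₀ := by
    intro k
    induction k with
    | zero =>
      intro _
      rw [Function.iterate_zero, id_eq, pow_zero, one_mul]
      exact ⟨h1.trans (by omega), h2⟩
    | succ k ih =>
      intro hk'
      obtain ⟨h1, h2⟩ := ih (by omega)
      rw [Function.iterate_succ_apply']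
      obtain ⟨h3, h4⟩ := der_bd a A hA ha _ _ _ h1 h2
      refine ⟨h3.trans (by omega), h4.trans ?_⟩
      have h5 : 0 ≤ (7 * A * (n₀ + 2 * T)) ^ k * H₀ :=
        mul_nonneg (pow_nonneg (zero_le_one.trans hB1) _) hH
      have e1 : (7 * A * (n₀ + 2 * T)) ^ (k + 1) * H₀
          = (7 * A * (n₀ + 2 * T)) * ((7 * A * (n₀ + 2 * T)) ^ k * H₀) := by ring
      rw [e1]
      refine mul_le_mul_of_nonneg_right ?_ h5
      refine mul_le_mul_of_nonneg_left ?_ hc
      push_cast
      have h6 : (k : ℝ) ≤ T := Nat.cast_le.2 (by omega : k ≤ T)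
      linarith only [h6]
  obtain ⟨h3, h4⟩ := main k hk
  exact ⟨h3.trans (by omega), h4.trans (mul_le_mul_of_nonneg_right (pow_le_pow_right₀ hB1 hk) hH)⟩

/-- A1e. PROOF. `Rp_bd` and `der_iter` with `A = T`. -/
theorem der_Rp_bd {L E T : ℕ} (hT : 1 ≤ T) (a : Fin 2 → ℕ) (ha : ∀ j, a j ≤ T) (k : ℕ) (hk : k ≤ T) (ν : Iw L E) :
    ((der (fun j => (a j : ℤ)))^[k] (Rp ν)).totalDegree ≤ 2 * L + 4 * E + 2 * T ∧
      mlen ((der (fun j => (a j : ℤ)))^[k] (Rp ν)) ≤ (7 * T * (2 * L + 4 * E + 2 * T : ℝ)) ^ T * (16 * L + 28 * E : ℝ) ^ E := by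
  have h := der_iter (fun j => (a j : ℤ)) (T : ℝ) (Nat.one_le_cast.2 hT)
    (fun j => by
      rw [Int.cast_natCast, abs_of_nonneg (Nat.cast_nonneg _)]
      exact Nat.cast_le.2 (ha j))
    (Rp ν) (2 * L + 4 * E) ((16 * L + 28 * E : ℝ) ^ E) (Rp_bd ν).1 (Rp_bd ν).2 T k hT hk
  push_cast at h
  exact h

end Pool.Agent.MSW

end
end

/-! ### the determinant as a polynomial in the values at the base points -/

section

open Complex MvPolynomial

noncomputable section

namespace Pool.Agent.MSW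

open MSD MSP

/-- V5a. linear algebra. PROOF. The vectors `v_r ∈ ℂ^ι`, `r ∈ R`, have no common nonzero `c` with `∑ c_i v_r i = 0`, so they span `ℂ^ι`; choose `card ι` linearly independent ones. -/
theorem rows_exist {ι R : Type} [Fintype ι] [DecidableEq ι] (S : Set R) (v : R → ι → ℂ) (h : ∀ c : ι → ℂ, c ≠ 0 → ∃ r ∈ S, ∑ i, c i * v r i ≠ 0) :
    ∃ f : ι → R, (∀ i, f i ∈ S) ∧ (Matrix.of fun i j => v (f i) j).det ≠ 0 := by
  have hspan : Submodule.span ℂ (v '' S) = ⊤ := by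
    by_contra hne
    obtain ⟨f, hf, hf'⟩ := Submodule.exists_le_ker_of_lt_top _ (lt_top_iff_ne_top.2 hne)
    have hfv : ∀ w : ι → ℂ, f w = ∑ i, f (Pi.single i 1) * w i := by
      intro w
      conv_lhs => rw [← Finset.univ_sum_single w]
      rw [map_sum]
      apply Finset.sum_congr rfl
      intro i _
      have h1 : (Pi.single i (w i) : ι → ℂ) = w i • Pi.single i 1 := by
        rw [← Pi.single_smul, smul_eq_mul, mul_one]
      rw [h1, map_smul, smul_eq_mul, mul_comm]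
    have hc : (fun i => f (Pi.single i 1)) ≠ 0 := by
      intro h0
      apply hf
      apply LinearMap.ext
      intro w
      rw [hfv w]
      have h2 : ∀ i, f (Pi.single i 1) = 0 := fun i => congrFun h0 i
      simp [h2]
    obtain ⟨r, hr, hr'⟩ := h _ hc
    apply hr'
    have h3 : v r ∈ LinearMap.ker f := hf' (Submodule.subset_span ⟨r, hr, rfl⟩)
    rw [LinearMap.mem_ker, hfv] at h3
    exact h3
  obtain ⟨b, hb, hbs, hbi⟩ := exists_linearIndependent ℂ (v '' S)
  rw [hspan] at hbs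
  have hB : ⊤ ≤ Submodule.span ℂ (Set.range ((↑) : b → ι → ℂ)) := by
    rw [Subtype.range_coe, hbs]
  let B := Module.Basis.mk hbi hB
  let e : ι ≃ b := (Pi.basisFun ℂ ι).indexEquiv B
  have hf : ∀ i : ι, ∃ r ∈ S, v r = (e i : ι → ℂ) := by
    intro i
    obtain ⟨r, hr, hr'⟩ := hb (e i).2
    exact ⟨r, hr, hr'⟩
  choose f hfS hfv using hf
  refine ⟨f, hfS, ?_⟩
  have h4 : LinearIndependent ℂ (fun i => (e i : ι → ℂ)) := hbi.comp e e.injective
  have h5 : LinearIndependent ℂ (Matrix.of fun i j => v (f i) j).row := by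
    have h6 : (Matrix.of fun i j => v (f i) j).row = fun i => (e i : ι → ℂ) := by
      funext i
      exact hfv i
    rw [h6]
    exact h4
  have h7 := Matrix.linearIndependent_rows_iff_isUnit.1 h5
  rw [Matrix.isUnit_iff_isUnit_det] at h7
  exact h7.ne_zero

/-- the matrix of the values -/
def Dm {L E : ℕ} (x : Vw → ℂ) (a : Iw L E → Fin 2 → ℕ) (k : Iw L E → ℕ) : Matrix (Iw L E) (Iw L E) ℂ :=
  Matrix.of fun i κ => aeval x ((der (fun j => (a i j : ℤ)))^[k i] (Rp κ))

/-- the determinant as a polynomial -/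
def Dp {L E : ℕ} (a : Iw L E → Fin 2 → ℕ) (k : Iw L E → ℕ) : MvPolynomial Vw ℤ :=
  (Matrix.of fun i κ : Iw L E => (der (fun j => (a i j : ℤ)))^[k i] (Rp κ)).det

/-- V5b. -/
theorem aeval_Dp {L E : ℕ} (a : Iw L E → Fin 2 → ℕ) (k : Iw L E → ℕ) (x : Vw → ℂ) : aeval x (Dp a k) = (Dm x a k).det := by
  rw [Dp, AlgHom.map_det]
  rfl

/-- V5c. -/
theorem Dp_deg {L E T : ℕ} (hT : 1 ≤ T) (a : Iw L E → Fin 2 → ℕ) (k : Iw L E → ℕ) (ha : ∀ i j, a i j ≤ T) (hk : ∀ i, k i ≤ T) :
    (Dp a k).totalDegree ≤ L ^ 2 * E * (2 * L + 4 * E + 2 * T) := by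
  have hent : ∀ i κ : Iw L E, ((der (fun j => (a i j : ℤ)))^[k i] (Rp κ)).totalDegree ≤ 2 * L + 4 * E + 2 * T :=
    fun i κ => (der_Rp_bd hT (a i) (ha i) (k i) (hk i) κ).1
  have hcard : Fintype.card (Iw L E) = L ^ 2 * E := by simp
  rw [Dp, Matrix.det_apply]
  apply totalDegree_finsetSum_le
  intro σ _
  have h1 : (∏ i : Iw L E, (Matrix.of fun i κ : Iw L E => (der (fun j => (a i j : ℤ)))^[k i]
      (Rp κ)) (σ i) i).totalDegree ≤ L ^ 2 * E * (2 * L + 4 * E + 2 * T) := by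
    refine (totalDegree_finsetProd _ _).trans ?_
    refine (Finset.sum_le_sum fun i _ => hent (σ i) i).trans ?_
    rw [Finset.sum_const, Finset.card_univ, hcard, smul_eq_mul]
  rcases Int.units_eq_one_or (Equiv.Perm.sign σ) with h2 | h2
  · rw [h2, one_smul]
    exact h1
  · rw [h2, Units.neg_smul, one_smul, totalDegree_neg]
    exact h1

/-- the values with given `x_l`, `y_l` -/
def vxy (z om : ℂ) (x y : Fin 2 → ℂ) : Vw → ℂ
  | .X l => x l
  | .Y l => y l
  | .Q => 0
  | .g => 2 / 3 * Real.pi ^ 4 * e4 z / om ^ 4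
  | .k => sE z / om ^ 2
  | .z => z
  | .r => rh

theorem vals_eq (D : Dw) : vals D = vxy D.z D.om (fun l => D.X l 0) (fun l => D.Y l 0) := by
  funext v
  cases v <;> rfl

/-- the substitution of the values of the other variables -/
def va08s (z om : ℂ) : Vw → MvPolynomial (Fin 2 ⊕ Fin 2) ℂ
  | .X l => X (Sum.inl l)
  | .Y l => X (Sum.inr l)
  | .Q => C 0
  | .g => C (2 / 3 * Real.pi ^ 4 * e4 z / om ^ 4)
  | .k => C (sE z / om ^ 2)
  | .z => C z
  | .r => C rh

/-- V5d. -/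
theorem delta_exists (z om : ℂ) (Q : MvPolynomial Vw ℤ) (n : ℕ) (hn : Q.totalDegree ≤ n) :
    ∃ δ : MvPolynomial (Fin 2 ⊕ Fin 2) ℂ, δ.totalDegree ≤ n ∧ ∀ x y : Fin 2 → ℂ, aeval (Sum.elim x y) δ = aeval (vxy z om x y) Q := by
  have hs : ∀ v, (va08s z om v).totalDegree ≤ 1 := by
    intro v
    cases v <;> simp [va08s]
  refine ⟨aeval (va08s z om) Q, le_trans ?_ hn, fun x y => ?_⟩
  · rw [aeval_def, eval₂_eq]
    refine (totalDegree_finsetSum _ _).trans (Finset.sup_le fun m hm => ?_)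
    refine (totalDegree_mul _ _).trans ?_
    have h1 : ((algebraMap ℤ (MvPolynomial (Fin 2 ⊕ Fin 2) ℂ)) (coeff m Q)).totalDegree = 0 := by
      have h2 : (algebraMap ℤ (MvPolynomial (Fin 2 ⊕ Fin 2) ℂ)) (coeff m Q) = C ((coeff m Q : ℤ) : ℂ) := by
        simp
      rw [h2]
      exact totalDegree_C _
    rw [h1, zero_add]
    refine (totalDegree_finsetProd _ _).trans ?_
    refine le_trans (Finset.sum_le_sum fun i _ => ?_) (le_totalDegree hm)
    calc (va08s z om i ^ m i).totalDegree ≤ m i * (va08s z om i).totalDegree := totalDegree_pow _ _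
      _ ≤ m i * 1 := Nat.mul_le_mul_left _ (hs i)
      _ = m i := mul_one _
  · have hv : ∀ v, aeval (Sum.elim x y) (va08s z om v) = vxy z om x y v := by
      intro v
      cases v <;> simp [va08s, vxy]
    have key : ∀ R : MvPolynomial Vw ℤ,
        aeval (Sum.elim x y) (aeval (va08s z om) R) = aeval (vxy z om x y) R := by
      intro R
      induction R using MvPolynomial.induction_on with
      | C a => simp
      | add p q hp hq => rw [map_add, map_add, map_add, hp, hq]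
      | mul_X p i hp => rw [map_mul, map_mul, map_mul, aeval_X, aeval_X, hp, hv]
    exact key Q

/-- V5e. the equation of the curve -/
theorem v5_curve_eq (D : Dw) (l : Fin 2) :
    D.Y l 0 ^ 2 = 4 * D.X l 0 ^ 3 - 2 * (2 / 3 * Real.pi ^ 4 * e4 D.z / D.om ^ 4) * D.X l 0 - 8 / 27 * Real.pi ^ 6 * e6 D.z / D.om ^ 6 := by
  have h1 := wp_ode D.z D.im (D.h l) (D.hh l)
  have h2 := D.ne
  unfold Dw.Y Dw.X
  rw [add_zero, div_pow, h1]
  field_simp
  ring

end Pool.Agent.MSW

end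
end

/-! ### a base point where all sign changes are nonzero -/

section

open Complex MvPolynomial

noncomputable section

namespace Pool.Agent.MSW

open MSD MSP

/-- V6a. `D` with another base point -/
def rebase (D : Dw) (h : Fin 2 → ℂ) (hh : ∀ l, th D.z (h l) ≠ 0) : Dw := ⟨D.z, D.im, D.om, D.hom, h, hh⟩

theorem v6_N1_neg (τ t : ℂ) : deriv (th τ) (-t) = deriv (th τ) t := by
  have h : (fun u : ℂ => th τ (-u)) = fun u => -th τ u := by
    funext u; exact th_neg τ u
  have h1 : deriv (fun u : ℂ => th τ (-u)) t = deriv (fun u => -th τ u) t := by rw [h]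
  rw [deriv_comp_neg, deriv.fun_neg] at h1
  exact neg_injective h1

theorem v6_d2_neg (τ t : ℂ) : deriv (deriv (th τ)) (-t) = -deriv (deriv (th τ)) t := by
  have h : (fun u : ℂ => deriv (th τ) (-u)) = fun u => deriv (th τ) u := by
    funext u; exact v6_N1_neg τ u
  have h1 : deriv (fun u : ℂ => deriv (th τ) (-u)) t = deriv (fun u => deriv (th τ) u) t := by rw [h]
  rw [deriv_comp_neg] at h1
  change -deriv (deriv (th τ)) (-t) = deriv (deriv (th τ)) t at h1
  rw [← h1, neg_neg]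

theorem v6_wp_neg (τ s t : ℂ) : wp τ s (-t) = wp τ s t := by
  simp only [wp, N2, N0, v6_N1_neg, v6_d2_neg, th_neg]
  ring

/-- V6b. PROOF. `wp` is even (`th` is odd: `N2` is even, `N0^2` is even), its derivative is odd. -/
theorem wp_even (τ : ℂ) (hτ : 0 < τ.im) (t : ℂ) : wp τ (sE τ) (-t) = wp τ (sE τ) t ∧
    deriv (wp τ (sE τ)) (-t) = -deriv (wp τ (sE τ)) t := by
  refine ⟨v6_wp_neg τ _ t, ?_⟩
  have h : (fun u : ℂ => wp τ (sE τ) (-u)) = fun u => wp τ (sE τ) u := by
    funext u; exact v6_wp_neg τ _ u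
  have h1 : deriv (fun u : ℂ => wp τ (sE τ) (-u)) t = deriv (fun u => wp τ (sE τ) u) t := by rw [h]
  rw [deriv_comp_neg] at h1
  rw [← h1, neg_neg]

/-- finitely many analytic functions, none identically zero, on a preconnected set have a common point where they do not vanish -/
theorem v6_common {E : Type*} [NormedAddCommGroup E] [NormedSpace ℂ E] {ι : Type*} [DecidableEq ι] (U : Set E)
    (hU : IsOpen U) (hP : IsPreconnected U) (f : ι → E → ℂ) (hf : ∀ i, AnalyticOnNhd ℂ (f i) U) (hne : U.Nonempty)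
    (ha : ∀ i, ∃ a ∈ U, f i a ≠ 0) (s : Finset ι) : ∃ h ∈ U, ∀ i ∈ s, f i h ≠ 0 := by
  induction s using Finset.induction_on with
  | empty =>
    obtain ⟨a, haU⟩ := hne
    exact ⟨a, haU, by simp⟩
  | insert j s hj ih =>
    obtain ⟨a, haU, has⟩ := ih
    by_contra hcon
    push Not at hcon
    have hev : ∀ᶠ x in nhds a, ∀ i ∈ s, f i x ≠ 0 := by
      rw [Filter.eventually_all_finset]
      intro i hi
      exact (hf i a haU).continuousAt.eventually_ne (has i hi)
    have hUa : ∀ᶠ x in nhds a, x ∈ U := hU.mem_nhds haU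
    have hz : f j =ᶠ[nhds a] 0 := by
      filter_upwards [hev, hUa] with x hx hxU
      by_contra hne0
      obtain ⟨i, hi, hi0⟩ := hcon x hxU
      rcases Finset.mem_insert.1 hi with rfl | hi'
      · exact hne0 hi0
      · exact hx i hi' hi0
    have h0 := (hf j).eqOn_zero_of_preconnected_of_eventuallyEq_zero hP haU hz
    obtain ⟨b, hbU, hb⟩ := ha j
    exact hb (h0 hbU)

/-- the values as functions of the base point, with signs -/
theorem v6_an (D : Dw) (Q : MvPolynomial Vw ℤ) (ε : Fin 2 → Bool) :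
    AnalyticOnNhd ℂ (fun h : Fin 2 → ℂ => aeval (vxy D.z D.om (fun l => wp D.z (sE D.z) (h l) / D.om ^ 2)
      (sg2 ε (fun l => deriv (wp D.z (sE D.z)) (h l) / D.om ^ 3))) Q) {h | ∀ l, th D.z (h l) ≠ 0} := by
  intro h hh
  have hX : ∀ l, AnalyticAt ℂ (fun h : Fin 2 → ℂ => wp D.z (sE D.z) (h l) / D.om ^ 2) h := by
    intro l
    have h1 : AnalyticAt ℂ (fun h : Fin 2 → ℂ => h l) h :=
      (ContinuousLinearMap.proj (R := ℂ) (φ := fun _ : Fin 2 => ℂ) l).analyticAt h
    have h2 : AnalyticAt ℂ (wp D.z (sE D.z)) (h l) := wp_analyticAt D.z _ D.im (h l) (hh l)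
    have h3 : AnalyticAt ℂ (fun h : Fin 2 → ℂ => wp D.z (sE D.z) (h l)) h :=
      AnalyticAt.fun_comp (f := fun h : Fin 2 → ℂ => h l) (g := wp D.z (sE D.z)) h2 h1
    simpa only [div_eq_mul_inv] using h3.fun_mul (analyticAt_const (v := (D.om ^ 2)⁻¹))
  have hY : ∀ l, AnalyticAt ℂ (fun h : Fin 2 → ℂ => deriv (wp D.z (sE D.z)) (h l) / D.om ^ 3) h := by
    intro l
    have h1 : AnalyticAt ℂ (fun h : Fin 2 → ℂ => h l) h :=
      (ContinuousLinearMap.proj (R := ℂ) (φ := fun _ : Fin 2 => ℂ) l).analyticAt h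
    have h2 : AnalyticAt ℂ (deriv (wp D.z (sE D.z))) (h l) := (wp_analyticAt D.z _ D.im (h l) (hh l)).deriv
    have h3 : AnalyticAt ℂ (fun h : Fin 2 → ℂ => deriv (wp D.z (sE D.z)) (h l)) h :=
      AnalyticAt.fun_comp (f := fun h : Fin 2 → ℂ => h l) (g := deriv (wp D.z (sE D.z))) h2 h1
    simpa only [div_eq_mul_inv] using h3.fun_mul (analyticAt_const (v := (D.om ^ 3)⁻¹))
  have hv : ∀ v : Vw, AnalyticAt ℂ (fun h : Fin 2 → ℂ => vxy D.z D.om (fun l => wp D.z (sE D.z) (h l) / D.om ^ 2)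
      (sg2 ε (fun l => deriv (wp D.z (sE D.z)) (h l) / D.om ^ 3)) v) h := by
    intro v
    cases v with
    | X l => exact hX l
    | Y l =>
      by_cases hε : ε l = true
      · simpa only [vxy, sg2, hε, if_true] using hY l
      · have hε' : ε l = false := by simpa using hε
        simpa only [vxy, sg2, hε', if_false, Bool.false_eq_true] using (hY l).fun_neg
    | Q => exact analyticAt_const
    | g => exact analyticAt_const
    | k => exact analyticAt_const
    | z => exact analyticAt_const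
    | r => exact analyticAt_const
  induction Q using MvPolynomial.induction_on with
  | C a =>
    simp only [aeval_C]
    exact analyticAt_const
  | add p q hp hq =>
    simp only [map_add]
    exact hp.add hq
  | mul_X p v hp =>
    simp only [map_mul, aeval_X]
    exact hp.mul (hv v)

/-- V6c. PROOF. `Ω = {h : ∀ l, th τ (h l) ≠ 0}` is open and connected (a product of the connected sets of `t8c_preconn`), symmetric under sign changes. `F(h) = aeval (vals P (rebase D h)) Q` is analytic on `Ω` (`wp_analyticAt`, its derivative), and `F(ε h)` is `aeval (vxy .. x (ε y))` by `wp_even`. `F` is not identically `0` on `Ω`,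
so by the identity theorem none of the `8` functions `h ↦ F(ε h)` vanishes on a nonempty open subset of `Ω`; their zero sets are closed with empty interior in `Ω`, so there is `h ∈ Ω` where all are `≠ 0`. -/
theorem all_signs (D : Dw) (Q : MvPolynomial Vw ℤ) (h0 : aeval (vals D) Q ≠ 0) :
    ∃ D' : Dw, D'.z = D.z ∧ D'.om = D.om ∧
      ∀ ε : Fin 2 → Bool, aeval (vxy D.z D.om (fun l => D'.X l 0) (sg2 ε (fun l => D'.Y l 0))) Q ≠ 0 := by
  have hset : {h : Fin 2 → ℂ | ∀ l, th D.z (h l) ≠ 0} = Set.pi Set.univ (fun _ : Fin 2 => {t : ℂ | th D.z t ≠ 0}) := by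
    ext h
    simp [Set.mem_pi]
  have hU : IsOpen {h : Fin 2 → ℂ | ∀ l, th D.z (h l) ≠ 0} := by
    rw [hset]
    exact isOpen_set_pi Set.finite_univ fun _ _ => t8c_open D.z D.im
  have hP : IsPreconnected {h : Fin 2 → ℂ | ∀ l, th D.z (h l) ≠ 0} := by
    rw [hset]
    exact isPreconnected_univ_pi fun _ => t8c_preconn D.z D.im
  obtain ⟨h, hh, hs⟩ := v6_common {h : Fin 2 → ℂ | ∀ l, th D.z (h l) ≠ 0} hU hP
    (fun (ε : Fin 2 → Bool) (h : Fin 2 → ℂ) => aeval (vxy D.z D.om (fun l => wp D.z (sE D.z) (h l) / D.om ^ 2)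
      (sg2 ε (fun l => deriv (wp D.z (sE D.z)) (h l) / D.om ^ 3))) Q) (fun ε => v6_an D Q ε) ⟨D.h, D.hh⟩
    (by
      intro ε
      refine ⟨fun l => if ε l then D.h l else -D.h l, ?_, ?_⟩
      · intro l
        by_cases hε : ε l = true
        · simpa only [hε, if_true] using D.hh l
        · have hε' : ε l = false := by simpa using hε
          simp only [hε', if_false, Bool.false_eq_true]
          rw [th_neg]
          exact neg_ne_zero.2 (D.hh l)
      · have hx : (fun l => wp D.z (sE D.z) ((fun l => if ε l then D.h l else -D.h l) l) / D.om ^ 2) = fun l => D.X l 0 := by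
          funext l
          by_cases hε : ε l = true
          · simp only [hε, if_true, Dw.X, add_zero]
          · have hε' : ε l = false := by simpa using hε
            simp only [hε', if_false, Bool.false_eq_true, Dw.X, add_zero, (wp_even D.z D.im (D.h l)).1]
        have hy : (sg2 ε (fun l => deriv (wp D.z (sE D.z)) ((fun l => if ε l then D.h l else -D.h l) l) / D.om ^ 3)) = fun l => D.Y l 0 := by
          funext l
          by_cases hε : ε l = true
          · simp only [sg2, hε, if_true, Dw.Y, add_zero]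
          · have hε' : ε l = false := by simpa using hε
            simp only [sg2, hε', if_false, Bool.false_eq_true, Dw.Y, add_zero, (wp_even D.z D.im (D.h l)).2]
            ring
        intro hcon
        apply h0
        rw [vals_eq]
        rw [hx, hy] at hcon
        exact hcon)
    Finset.univ
  refine ⟨rebase D h hh, rfl, rfl, ?_⟩
  intro ε
  have h1 := hs ε (Finset.mem_univ _)
  have hx : (fun l => (rebase D h hh).X l 0) = fun l => wp D.z (sE D.z) (h l) / D.om ^ 2 := by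
    funext l
    simp only [Dw.X, rebase, add_zero]
  have hy : (fun l => (rebase D h hh).Y l 0) = fun l => deriv (wp D.z (sE D.z)) (h l) / D.om ^ 3 := by
    funext l
    simp only [Dw.Y, rebase, add_zero]
  rw [hx, hy]
  exact h1

end Pool.Agent.MSW

end
end
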