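import Pool.Agent.Lib.MP_f58a57_nt.U.Z2_Sh

/-! # MP_f58a57_nt, all nonspecial points: E2_Lin -/

/-! ### MP_f58a57_nt, nonspecial points: abstract kernels with several columns

A kernel is a bilinear form `B` on `M[X_1, X_2] × M[s]^ι`, `M` a field with derivations and automorphisms, which behaves like
`B(P, q) = ∑_j P(∂_u) q_j(∂_s) K_j(t; u, s)` at `u = s = 0` for `K_j = exp(s (e·u)) Φ_j(t + u + s Z)`, as a function of `t`. -/

section

open MvPolynomial

noncomputable section

namespace Pool.Agent.MSW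

open MSU

variable {M : Type} [Field M] [Algebra ℂ M]

/-- a derivation applied to the coefficients, one variable -/
def cP (δ : Derivation ℂ M M) (q : Polynomial M) : Polynomial M := ∑ n ∈ q.support, Polynomial.monomial n (δ (q.coeff n))

/-- abstract kernels -/
structure Ker (M : Type) [Field M] [Algebra ℂ M] (Λ ι : Type) where
  D : Fin 2 → Derivation ℂ M M
  Z : Derivation ℂ M M
  T : Λ → M →+* M
  Tsurj : ∀ w, Function.Surjective (T w)
  TC : ∀ w (a : ℂ), T w (algebraMap ℂ M a) = algebraMap ℂ M a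
  e : Fin 2 → ℂ
  lam : Λ → Fin 2 → ℂ
  chi : Λ → ℂ
  c : Λ → M
  c0 : ∀ w, c w ≠ 0
  B : Po M →ₗ[M] (ι → Polynomial M) →ₗ[M] M
  B1 : ∀ a : ι → ℂ, a ≠ 0 → B 1 (fun j => Polynomial.C (algebraMap ℂ M (a j))) ≠ 0
  hD : ∀ i P q, D i (B P q) = B (cD (D i) P + X i * P) q +
    B P (fun j => cP (D i) (q j) - Polynomial.C (algebraMap ℂ M (e i)) * Polynomial.derivative (q j))
  hZ : ∀ P q, Z (B P q) = B (cD Z P - ∑ i, cst (e i) * pderiv i P) q + B P (fun j => cP Z (q j) + Polynomial.X * q j)
  hT : ∀ w P q, T w (B P q) = c w * B (sh (lam w) (map (T w) P)) (fun j => Polynomial.taylor (algebraMap ℂ M (chi w)) ((q j).map (T w)))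
  rigD : ∀ (f : M) (κ : Fin 2 → ℂ) (c : ℂ), (∀ i, D i f = algebraMap ℂ M (κ i)) →
    (∀ w, T w f = f + algebraMap ℂ M (c * chi w)) → c = 0 ∧ ∃ a : ℂ, f = algebraMap ℂ M a
  rigZ : ∀ (f : M) (κ : ℂ) (c : Fin 2 → ℂ), Z f = algebraMap ℂ M κ →
    (∀ w, T w f = f + algebraMap ℂ M (∑ j, c j * lam w j)) → c = 0 ∧ ∃ a : ℂ, f = algebraMap ℂ M a

variable {Λ ι : Type}

/-- the polynomials orthogonal to all vectors of polynomials of degree `< n` -/
def Rn (K : Ker M Λ ι) (n : ℕ) : Submodule M (Po M) where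
  carrier := {P | ∀ q : ι → Polynomial M, (∀ j, q j ∈ Polynomial.degreeLT M n) → K.B P q = 0}
  add_mem' := by
    intro a b ha hb q hq
    rw [map_add, LinearMap.add_apply, ha q hq, hb q hq, add_zero]
  zero_mem' := by
    intro q _
    rw [map_zero, LinearMap.zero_apply]
  smul_mem' := by
    intro c x hx q hq
    rw [map_smul, LinearMap.smul_apply, hx q hq, smul_zero]

/-- the leading forms of degree `k` of the elements of `Rn K n` -/
def J (K : Ker M Λ ι) (n k : ℕ) : Submodule M (Po M) :=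
  (Rn K n ⊓ restrictTotalDegree (Fin 2) M k).map (homogeneousComponent k)

/-- the codimension of `J K n k` in the space of forms of degree `k` -/
def aa (K : Ker M Λ ι) (n k : ℕ) : ℕ := k + 1 - Module.finrank M (J K n k)

end Pool.Agent.MSW

end
end

/-! ### derivations on the coefficients of polynomials in one variable -/

section

open MvPolynomial

noncomputable section

namespace Pool.Agent.MSW

open MSU

variable {M : Type} [Field M] [Algebra ℂ M]

theorem coeff_cP (δ : Derivation ℂ M M) (q : Polynomial M) (n : ℕ) : (cP δ q).coeff n = δ (q.coeff n) := by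
  classical
  unfold cP
  rw [Polynomial.finsetSum_coeff]
  simp only [Polynomial.coeff_monomial]
  rw [Finset.sum_ite_eq']
  split_ifs with h
  · rfl
  · rw [Polynomial.notMem_support_iff.1 h, map_zero]

theorem cP_add (δ : Derivation ℂ M M) (p q : Polynomial M) : cP δ (p + q) = cP δ p + cP δ q := by
  ext n
  rw [Polynomial.coeff_add, coeff_cP, coeff_cP, coeff_cP, Polynomial.coeff_add, map_add]

theorem cP_C_mul (δ : Derivation ℂ M M) (a : M) (q : Polynomial ℂ) :
    cP δ (Polynomial.C a * q.map (algebraMap ℂ M)) = Polynomial.C (δ a) * q.map (algebraMap ℂ M) := by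
  ext n
  rw [coeff_cP, Polynomial.coeff_C_mul, Polynomial.coeff_C_mul, Polynomial.coeff_map, Derivation.leibniz, Derivation.map_algebraMap,
    smul_zero, zero_add, smul_eq_mul, mul_comm]

theorem mem_lt (n : ℕ) (q : Polynomial M) : q ∈ Polynomial.degreeLT M n ↔ ∀ m, n ≤ m → q.coeff m = 0 := by
  rw [Polynomial.mem_degreeLT, Polynomial.degree_lt_iff_coeff_zero]

theorem cP_lt (δ : Derivation ℂ M M) (n : ℕ) (q : Polynomial M) (h : q ∈ Polynomial.degreeLT M n) : cP δ q ∈ Polynomial.degreeLT M n := by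
  rw [mem_lt] at h ⊢
  intro m hm
  rw [coeff_cP, h m hm, map_zero]

theorem der_lt (n : ℕ) (q : Polynomial M) (h : q ∈ Polynomial.degreeLT M n) : Polynomial.derivative q ∈ Polynomial.degreeLT M n := by
  rw [mem_lt] at h ⊢
  intro m hm
  rw [Polynomial.coeff_derivative, h (m + 1) (by omega), zero_mul]

theorem C_mul_lt (n : ℕ) (a : M) (q : Polynomial M) (h : q ∈ Polynomial.degreeLT M n) : Polynomial.C a * q ∈ Polynomial.degreeLT M n := by
  rw [← Polynomial.smul_eq_C_mul]
  exact Submodule.smul_mem _ _ h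

theorem X_mul_lt (n : ℕ) (q : Polynomial M) (h : q ∈ Polynomial.degreeLT M n) : Polynomial.X * q ∈ Polynomial.degreeLT M (n + 1) := by
  rw [mem_lt] at h ⊢
  intro m hm
  obtain ⟨k, rfl⟩ : ∃ k, m = k + 1 := ⟨m - 1, by omega⟩
  rw [Polynomial.coeff_X_mul, h k (by omega)]

theorem map_lt (T : M →+* M) (n : ℕ) (q : Polynomial M) (h : q ∈ Polynomial.degreeLT M n) : q.map T ∈ Polynomial.degreeLT M n := by
  rw [mem_lt] at h ⊢
  intro m hm
  rw [Polynomial.coeff_map, h m hm, map_zero]

theorem taylor_lt (a : M) (n : ℕ) (q : Polynomial M) (h : q ∈ Polynomial.degreeLT M n) : Polynomial.taylor a q ∈ Polynomial.degreeLT M n := by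
  rw [Polynomial.mem_degreeLT] at h ⊢
  rwa [Polynomial.degree_taylor]

/-- the two top coefficients of a Taylor shift -/
theorem taylor_top (a : M) (n : ℕ) (q : Polynomial M) (h : q ∈ Polynomial.degreeLT M (n + 1)) : (Polynomial.taylor a q).coeff n = q.coeff n := by
  rw [Polynomial.taylor_coeff]
  have h1 : Polynomial.hasseDeriv n q = Polynomial.C (q.coeff n) := by
    rw [mem_lt] at h
    ext m
    rw [Polynomial.hasseDeriv_coeff, Polynomial.coeff_C]
    rcases m with _ | m
    · simp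
    · rw [h _ (by omega), mul_zero, if_neg (Nat.succ_ne_zero m)]
  rw [h1, Polynomial.eval_C]

theorem taylor_top2 (a : M) (n : ℕ) (q : Polynomial M) (h : q ∈ Polynomial.degreeLT M (n + 2)) :
    (Polynomial.taylor a q).coeff n = q.coeff n + ((n + 1 : ℕ) : M) * a * q.coeff (n + 1) := by
  rw [Polynomial.taylor_coeff]
  have h1 : Polynomial.hasseDeriv n q = Polynomial.C (q.coeff n) + Polynomial.C (((n + 1 : ℕ) : M) * q.coeff (n + 1)) * Polynomial.X := by
    rw [mem_lt] at h
    ext m
    rw [Polynomial.hasseDeriv_coeff, Polynomial.coeff_add, Polynomial.coeff_C]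
    rcases m with _ | _ | m
    · simp
    · simp [Nat.choose_succ_self_right, add_comm]
    · rw [h _ (by omega), mul_zero, if_neg (Nat.succ_ne_zero _), Polynomial.coeff_C_mul, Polynomial.coeff_X, if_neg (by omega), mul_zero, add_zero]
  rw [h1, Polynomial.eval_add, Polynomial.eval_C, Polynomial.eval_mul, Polynomial.eval_C, Polynomial.eval_X]
  ring

theorem taylor_inv (a : M) (q : Polynomial M) : Polynomial.taylor a (Polynomial.taylor (-a) q) = q := by
  rw [Polynomial.taylor_taylor, add_neg_cancel, Polynomial.taylor_zero]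

end Pool.Agent.MSW

end
end

/-! ### extension of scalars of a bilinear form -/

section

open MvPolynomial

noncomputable section

namespace Pool.Agent.MSW

open MSU

variable {M : Type} [Field M] [Algebra ℂ M]

/-- complex polynomials in `M[X]` -/
def oP (q : Polynomial ℂ) : Polynomial M := q.map (algebraMap ℂ M)

theorem oP_add (p q : Polynomial ℂ) : (oP (p + q) : Polynomial M) = oP p + oP q := Polynomial.map_add _

/-- X3a. -/
theorem ext_exists (b : Po ℂ →ₗ[ℂ] Polynomial ℂ →ₗ[ℂ] M) : ∃ B : Po M →ₗ[M] Polynomial M →ₗ[M] M, ∀ (p : Po ℂ) (q : Polynomial ℂ), B (ofC p) (oP q) = b p q := by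
  let bs := basisMonomials (Fin 2) M
  let bt := Polynomial.basisMonomials M
  let B : Po M →ₗ[M] Polynomial M →ₗ[M] M :=
    bs.constr M fun α => bt.constr M fun β => b (monomial α 1) (Polynomial.monomial β 1)
  have hbs : ∀ α, bs α = monomial α (1 : M) := fun α => by
    simp [bs]
  have hbt : ∀ β, bt β = Polynomial.monomial β (1 : M) := fun β => by
    simp [bt]
  have hB : ∀ α β, B (monomial α 1) (Polynomial.monomial β 1) = b (monomial α 1) (Polynomial.monomial β 1) := by
    intro α β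
    rw [← hbs α, ← hbt β]
    simp only [B]
    rw [Module.Basis.constr_basis, Module.Basis.constr_basis]
  have hm : ∀ (α : Fin 2 →₀ ℕ) (a : ℂ), (ofC (monomial α a) : Po M) =
      algebraMap ℂ M a • monomial α (1 : M) := by
    intro α a
    unfold ofC
    rw [map_monomial, smul_monomial, smul_eq_mul, mul_one]
  have hm' : ∀ (α : Fin 2 →₀ ℕ) (a : ℂ), (monomial α a : Po ℂ) = a • monomial α (1 : ℂ) := by
    intro α a
    rw [smul_monomial, smul_eq_mul, mul_one]
  have hn : ∀ (β : ℕ) (a : ℂ), (oP (Polynomial.monomial β a) : Polynomial M) =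
      algebraMap ℂ M a • Polynomial.monomial β (1 : M) := by
    intro α a
    unfold oP
    rw [Polynomial.map_monomial, Polynomial.smul_monomial, smul_eq_mul, mul_one]
  have hn' : ∀ (β : ℕ) (a : ℂ), (Polynomial.monomial β a : Polynomial ℂ) = a • Polynomial.monomial β (1 : ℂ) := by
    intro α a
    rw [Polynomial.smul_monomial, smul_eq_mul, mul_one]
  refine ⟨B, fun p q => ?_⟩
  induction p using MvPolynomial.induction_on' with
  | monomial α a =>
    induction q using Polynomial.induction_on' with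
    | monomial β c =>
      rw [hm, hn, hm' α a, hn' β c]
      simp only [map_smul, LinearMap.smul_apply, hB]
      simp only [Algebra.smul_def]
      rfl
    | add q q' h h' =>
      rw [oP_add, map_add, map_add, h, h']
  | add p p' h h' =>
    have e : (ofC (p + p') : Po M) = ofC p + ofC p' := map_add _ _ _
    rw [e, map_add, map_add, LinearMap.add_apply, LinearMap.add_apply, h, h']

/-- X3b. -/
theorem add_ext {N : Type} [AddCommGroup N] (F G : Po M → N) (hF : ∀ P Q, F (P + Q) = F P + F Q) (hG : ∀ P Q, G (P + Q) = G P + G Q)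
    (h : ∀ (a : M) (p : Po ℂ), F (C a * ofC p) = G (C a * ofC p)) (P : Po M) : F P = G P := by
  induction P using MvPolynomial.induction_on' with
  | monomial α a =>
    have e : (monomial α a : Po M) = C a * ofC (monomial α (1 : ℂ)) := by
      unfold ofC
      rw [map_monomial, map_one, C_mul_monomial, mul_one]
    rw [e]
    exact h _ _
  | add P Q h1 h2 => rw [hF, hG, h1, h2]

theorem add_extP {N : Type} [AddCommGroup N] (F G : Polynomial M → N) (hF : ∀ P Q, F (P + Q) = F P + F Q) (hG : ∀ P Q, G (P + Q) = G P + G Q)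
    (h : ∀ (a : M) (p : Polynomial ℂ), F (Polynomial.C a * oP p) = G (Polynomial.C a * oP p)) (P : Polynomial M) : F P = G P := by
  induction P using Polynomial.induction_on' with
  | monomial α a =>
    have e : (Polynomial.monomial α a : Polynomial M) = Polynomial.C a * oP (Polynomial.monomial α (1 : ℂ)) := by
      unfold oP
      rw [Polynomial.map_monomial, map_one, Polynomial.C_mul_monomial, mul_one]
    rw [e]
    exact h _ _
  | add P Q h1 h2 => rw [hF, hG, h1, h2]

theorem XA04_cD_C (δ : Derivation ℂ M M) (a : M) (p : Po ℂ) :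
    cD δ (C a * ofC p) = C (δ a) * ofC p := by
  rw [cD_mul_ofC]
  congr 1
  ext m
  rw [coeff_cD, coeff_C, coeff_C]
  split_ifs
  · rfl
  · exact map_zero _

theorem XA04_X (a : M) (p : Po ℂ) (i : Fin 2) :
    (X i : Po M) * (C a * ofC p) = C a * ofC (X i * p) := by
  unfold ofC
  rw [map_mul, map_X]
  ring

theorem XA04_XP (a : M) (q : Polynomial ℂ) :
    Polynomial.X * (Polynomial.C a * oP q) = Polynomial.C a * (oP (Polynomial.X * q) : Polynomial M) := by
  unfold oP
  rw [Polynomial.map_mul, Polynomial.map_X]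
  ring

theorem XA04_pds (a : M) (p : Po ℂ) (e : Fin 2 → ℂ) :
    ∑ i, (cst (e i) : Po M) * pderiv i (C a * ofC p) =
      ∑ i, C (algebraMap ℂ M (e i) * a) * ofC (pderiv i p) := by
  refine Finset.sum_congr rfl fun i _ => ?_
  unfold ofC cst
  rw [pderiv_C_mul, ← pderiv_map, C_mul]
  ring

theorem XA04_dP (a : M) (q : Polynomial ℂ) (e : ℂ) :
    Polynomial.C (algebraMap ℂ M e) * Polynomial.derivative (Polynomial.C a * oP q) =
      Polynomial.C (algebraMap ℂ M e * a) * (oP (Polynomial.derivative q) : Polynomial M) := by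
  unfold oP
  rw [Polynomial.derivative_C_mul, Polynomial.derivative_map, Polynomial.C_mul]
  ring

theorem XA04_B (B : Po M →ₗ[M] Polynomial M →ₗ[M] M) (b : Po ℂ →ₗ[ℂ] Polynomial ℂ →ₗ[ℂ] M)
    (hB : ∀ (p : Po ℂ) (q : Polynomial ℂ), B (ofC p) (oP q) = b p q) (a c : M) (p : Po ℂ) (q : Polynomial ℂ) :
    B (C a * ofC p) (Polynomial.C c * oP q) = a * c * b p q := by
  rw [← smul_eq_C_mul, ← Polynomial.smul_eq_C_mul, map_smul, map_smul, LinearMap.smul_apply, hB]
  simp only [smul_eq_mul]
  ring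

/-- X3c. -/
theorem ext_D (B : Po M →ₗ[M] Polynomial M →ₗ[M] M) (b : Po ℂ →ₗ[ℂ] Polynomial ℂ →ₗ[ℂ] M)
    (hB : ∀ (p : Po ℂ) (q : Polynomial ℂ), B (ofC p) (oP q) = b p q)
    (δ : Derivation ℂ M M) (i : Fin 2) (e : ℂ)
    (h : ∀ (p : Po ℂ) (q : Polynomial ℂ), δ (b p q) = b (X i * p) q - algebraMap ℂ M e * b p (Polynomial.derivative q)) (P : Po M) (q : Polynomial M) :
    δ (B P q) = B (cD δ P + X i * P) q + B P (cP δ q - Polynomial.C (algebraMap ℂ M e) * Polynomial.derivative q) := by
  refine add_ext (fun P => δ (B P q))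
    (fun P => B (cD δ P + X i * P) q + B P (cP δ q - Polynomial.C (algebraMap ℂ M e) * Polynomial.derivative q)) ?_ ?_ ?_ P
  · intro P Q
    simp only [map_add, LinearMap.add_apply]
  · intro P Q
    simp only [cD_add, mul_add, map_add, LinearMap.add_apply]
    abel
  intro a p
  refine add_extP (fun q => δ (B (C a * ofC p) q))
    (fun q => B (cD δ (C a * ofC p) + X i * (C a * ofC p)) q +
      B (C a * ofC p) (cP δ q - Polynomial.C (algebraMap ℂ M e) * Polynomial.derivative q)) ?_ ?_ ?_ q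
  · intro P Q
    simp only [map_add]
  · intro P Q
    simp only [cP_add, map_add, mul_add, map_sub]
    abel
  intro c r
  show δ (B (C a * ofC p) (Polynomial.C c * oP r)) = B (cD δ (C a * ofC p) + X i * (C a * ofC p)) (Polynomial.C c * oP r) +
      B (C a * ofC p) (cP δ (Polynomial.C c * oP r) - Polynomial.C (algebraMap ℂ M e) * Polynomial.derivative (Polynomial.C c * oP r))
  have e0 : cP δ (Polynomial.C c * oP r) = Polynomial.C (δ c) * oP r := cP_C_mul δ c r
  rw [XA04_dP, XA04_X, XA04_cD_C, e0, map_add, LinearMap.add_apply, map_sub]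
  simp only [XA04_B B b hB]
  rw [Derivation.leibniz, Derivation.leibniz, h]
  simp only [smul_eq_mul]
  ring

/-- X3d. -/
theorem ext_Z (B : Po M →ₗ[M] Polynomial M →ₗ[M] M) (b : Po ℂ →ₗ[ℂ] Polynomial ℂ →ₗ[ℂ] M)
    (hB : ∀ (p : Po ℂ) (q : Polynomial ℂ), B (ofC p) (oP q) = b p q)
    (δ : Derivation ℂ M M) (e : Fin 2 → ℂ)
    (h : ∀ (p : Po ℂ) (q : Polynomial ℂ), δ (b p q) = b p (Polynomial.X * q) - ∑ i, algebraMap ℂ M (e i) * b (pderiv i p) q) (P : Po M) (q : Polynomial M) :
    δ (B P q) = B (cD δ P - ∑ i, cst (e i) * pderiv i P) q + B P (cP δ q + Polynomial.X * q) := by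
  refine add_ext (fun P => δ (B P q))
    (fun P => B (cD δ P - ∑ i, cst (e i) * pderiv i P) q + B P (cP δ q + Polynomial.X * q)) ?_ ?_ ?_ P
  · intro P Q
    simp only [map_add, LinearMap.add_apply]
  · intro P Q
    simp only [cD_add, mul_add, map_add, LinearMap.add_apply, Finset.sum_add_distrib, map_sub,
      LinearMap.sub_apply]
    abel
  intro a p
  refine add_extP (fun q => δ (B (C a * ofC p) q))
    (fun q => B (cD δ (C a * ofC p) - ∑ i, cst (e i) * pderiv i (C a * ofC p)) q +
      B (C a * ofC p) (cP δ q + Polynomial.X * q)) ?_ ?_ ?_ q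
  · intro P Q
    simp only [map_add]
  · intro P Q
    simp only [cP_add, map_add, mul_add]
    abel
  intro c r
  show δ (B (C a * ofC p) (Polynomial.C c * oP r)) =
    B (cD δ (C a * ofC p) - ∑ i, cst (e i) * pderiv i (C a * ofC p)) (Polynomial.C c * oP r) +
      B (C a * ofC p) (cP δ (Polynomial.C c * oP r) + Polynomial.X * (Polynomial.C c * oP r))
  have e0 : cP δ (Polynomial.C c * oP r) = Polynomial.C (δ c) * oP r := cP_C_mul δ c r
  rw [XA04_pds, XA04_XP, XA04_cD_C, e0, map_add, map_sub, map_sum, LinearMap.sub_apply,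
    LinearMap.sum_apply]
  simp only [XA04_B B b hB]
  rw [Derivation.leibniz, Derivation.leibniz, h]
  simp only [smul_eq_mul]
  rw [mul_sub, Finset.mul_sum]
  have e1 : ∑ j, a * c * (algebraMap ℂ M (e j) * b (pderiv j p) r) =
      ∑ j, algebraMap ℂ M (e j) * a * c * b (pderiv j p) r :=
    Finset.sum_congr rfl fun j _ => by ring
  rw [e1]
  ring

theorem XA04_sh (v : Fin 2 → ℂ) (a : M) (p : Po ℂ) :
    sh v (C a * ofC p) = C a * ofC (sh v p) := by
  have h1 : sh v (C a : Po M) = C a := by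
    unfold sh
    rw [aeval_C]
    rfl
  have h2 : sh v (ofC p : Po M) = ofC (sh v p) := by
    induction p using MvPolynomial.induction_on with
    | C a =>
      unfold sh ofC
      rw [map_C, aeval_C, aeval_C, algebraMap_eq, algebraMap_eq, map_C]
    | add p q hp hq =>
      have e1 : (ofC (p + q) : Po M) = ofC p + ofC q := map_add _ _ _
      have e2 : (ofC (sh v p + sh v q) : Po M) = ofC (sh v p) + ofC (sh v q) := map_add _ _ _
      rw [e1, sh_add, sh_add, e2, hp, hq]
    | mul_X p i hp =>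
      have e1 : (ofC (p * X i) : Po M) = ofC p * X i := by
        unfold ofC
        rw [map_mul, map_X]
      have e2 : sh v (X i : Po M) = X i + cst (v i) := by
        unfold sh
        rw [aeval_X]
      have e3 : sh v (X i : Po ℂ) = X i + cst (v i) := by
        unfold sh
        rw [aeval_X]
      have e4 : (ofC (sh v p * (X i + cst (v i))) : Po M) = ofC (sh v p) * (X i + cst (v i)) := by
        unfold ofC cst
        rw [map_mul, map_add, map_X, map_C]
        rfl
      rw [e1, sh_mul, sh_mul, e2, e3, e4, hp]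
  rw [sh_mul, h1, h2]

theorem XA04_ty (v : ℂ) (a : M) (q : Polynomial ℂ) :
    Polynomial.taylor (algebraMap ℂ M v) (Polynomial.C a * oP q) = Polynomial.C a * oP (Polynomial.taylor v q) := by
  unfold oP
  rw [Polynomial.taylor_mul, Polynomial.taylor_C]
  congr 1
  rw [Polynomial.taylor_apply, Polynomial.taylor_apply, Polynomial.map_comp, Polynomial.map_add, Polynomial.map_X, Polynomial.map_C]

/-- X3e. -/
theorem ext_T (B : Po M →ₗ[M] Polynomial M →ₗ[M] M) (b : Po ℂ →ₗ[ℂ] Polynomial ℂ →ₗ[ℂ] M)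
    (hB : ∀ (p : Po ℂ) (q : Polynomial ℂ), B (ofC p) (oP q) = b p q)
    (T : M →+* M) (hT : ∀ a : ℂ, T (algebraMap ℂ M a) = algebraMap ℂ M a) (c : M) (lam : Fin 2 → ℂ) (chi : ℂ)
    (h : ∀ (p : Po ℂ) (q : Polynomial ℂ), T (b p q) = c * b (sh lam p) (Polynomial.taylor chi q)) (P : Po M) (q : Polynomial M) :
    T (B P q) = c * B (sh lam (map T P)) (Polynomial.taylor (algebraMap ℂ M chi) (q.map T)) := by
  have hm : ∀ (a : M) (p : Po ℂ), map T (C a * ofC p) = C (T a) * ofC p := by
    intro a p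
    rw [map_mul, map_C, map_ofC T hT]
  have hn : ∀ (a : M) (p : Polynomial ℂ), (Polynomial.C a * oP p : Polynomial M).map T = Polynomial.C (T a) * oP p := by
    intro a p
    unfold oP
    rw [Polynomial.map_mul, Polynomial.map_C, Polynomial.map_map]
    have h1 : T.comp (algebraMap ℂ M) = algebraMap ℂ M := RingHom.ext hT
    rw [h1]
  refine add_ext (fun P => T (B P q))
    (fun P => c * B (sh lam (map T P)) (Polynomial.taylor (algebraMap ℂ M chi) (q.map T))) ?_ ?_ ?_ P
  · intro P Q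
    simp only [map_add, LinearMap.add_apply]
  · intro P Q
    simp only [map_add, sh_add, LinearMap.add_apply, mul_add]
  intro a p
  refine add_extP (fun q => T (B (C a * ofC p) q))
    (fun q => c * B (sh lam (map T (C a * ofC p))) (Polynomial.taylor (algebraMap ℂ M chi) (q.map T))) ?_ ?_ ?_ q
  · intro P Q
    simp only [map_add]
  · intro P Q
    simp only [Polynomial.map_add, map_add, mul_add]
  intro d r
  show T (B (C a * ofC p) (Polynomial.C d * oP r)) =
    c * B (sh lam (map T (C a * ofC p))) (Polynomial.taylor (algebraMap ℂ M chi) ((Polynomial.C d * oP r).map T))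
  rw [hm, hn, XA04_sh, XA04_ty, XA04_B B b hB, XA04_B B b hB, map_mul, map_mul, h]
  ring

end Pool.Agent.MSW

end
end

/-! ### the form `B` has no right kernel -/

section

open MvPolynomial

noncomputable section

namespace Pool.Agent.MSW

open MSU

variable {M : Type} [Field M] [Algebra ℂ M] {Λ ι : Type}

/-- Z3a. -/
theorem ker_D (K : Ker M Λ ι) (q : ι → Polynomial M) (h : ∀ P, K.B P q = 0) (i : Fin 2) (P : Po M) :
    K.B P (fun j => cP (K.D i) (q j) - Polynomial.C (algebraMap ℂ M (K.e i)) * Polynomial.derivative (q j)) = 0 := by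
  have h1 := K.hD i P q
  rw [h P, h, map_zero, zero_add] at h1
  exact h1.symm

/-- Z3b. -/
theorem ker_T (K : Ker M Λ ι) (q : ι → Polynomial M) (h : ∀ P, K.B P q = 0) (w : Λ) (P : Po M) :
    K.B P (fun j => Polynomial.taylor (algebraMap ℂ M (K.chi w)) ((q j).map (K.T w))) = 0 := by
  obtain ⟨P', hP'⟩ := map_surjective (K.T w) (K.Tsurj w) (sh (-K.lam w) P)
  have h1 := K.hT w P' q
  rw [h P', map_zero, hP', sh_sh_neg] at h1
  exact (mul_eq_zero.1 h1.symm).resolve_left (K.c0 w)

/-- the contradiction for a normalised minimal element of the kernel -/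
theorem z3_core (K : Ker M Λ ι) (b : ℕ) (q : ι → Polynomial M) (h : ∀ P, K.B P q = 0)
    (hd : ∀ j, q j ∈ Polynomial.degreeLT M (b + 1)) (j0 : ι) (hj : (q j0).coeff b = 1)
    (hD0 : ∀ i j, cP (K.D i) (q j) = Polynomial.C (algebraMap ℂ M (K.e i)) * Polynomial.derivative (q j))
    (hT0 : ∀ w j, Polynomial.taylor (algebraMap ℂ M (K.chi w)) ((q j).map (K.T w)) = q j) : False := by
  have hz : ∀ j m, b < m → (q j).coeff m = 0 := fun j m hm => (mem_lt _ _).1 (hd j) m hm
  -- the leading coefficients are complex numbers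
  have hco : ∀ j, ∃ a : ℂ, (q j).coeff b = algebraMap ℂ M a := by
    intro j
    refine (K.rigD _ 0 0 (fun i => ?_) (fun w => ?_)).2
    · rw [← coeff_cP, hD0, Polynomial.coeff_C_mul, Polynomial.coeff_derivative, hz j (b + 1) (Nat.lt_succ_self b)]
      simp
    · have h1 := taylor_top (algebraMap ℂ M (K.chi w)) b ((q j).map (K.T w)) (map_lt _ _ _ (hd j))
      rw [hT0, Polynomial.coeff_map] at h1
      rw [← h1]
      simp
  choose a ha using hco
  have ha0 : a j0 ≠ 0 := by
    intro h0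
    have h1 := ha j0
    rw [h0, map_zero, hj] at h1
    exact one_ne_zero h1
  rcases b with _ | n
  · refine K.B1 a (fun h0 => ha0 (congrFun h0 j0)) ?_
    have e : (fun j => Polynomial.C (algebraMap ℂ M (a j))) = q := by
      funext j
      rw [← ha j]
      ext m
      rw [Polynomial.coeff_C]
      rcases m with _ | m
      · simp
      · rw [if_neg (Nat.succ_ne_zero m), hz j (m + 1) (Nat.succ_pos m)]
    rw [e]
    exact h 1
  · have h1 := (K.rigD ((q j0).coeff n) (fun i => K.e i * (a j0 * (n + 1))) (-((n + 1) * a j0)) (fun i => ?_) (fun w => ?_)).1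
    · rw [neg_eq_zero, mul_eq_zero] at h1
      rcases h1 with h1 | h1
      · exact absurd h1 (by exact_mod_cast Nat.succ_ne_zero n)
      · exact ha0 h1
    · rw [← coeff_cP, hD0, Polynomial.coeff_C_mul, Polynomial.coeff_derivative, ha j0, map_mul, map_mul, map_add, map_natCast, map_one]
    · have h2 := taylor_top2 (algebraMap ℂ M (K.chi w)) n ((q j0).map (K.T w)) (map_lt _ _ _ (hd j0))
      rw [hT0, Polynomial.coeff_map, Polynomial.coeff_map, ha j0, K.TC] at h2
      rw [eq_comm, ← eq_sub_iff_add_eq] at h2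
      rw [h2]
      simp only [map_mul, map_neg, map_add, map_natCast, map_one, Nat.cast_add, Nat.cast_one]
      ring

/-- Z3c. -/
theorem step1 [Fintype ι] (K : Ker M Λ ι) (q : ι → Polynomial M) (h : ∀ P, K.B P q = 0) : q = 0 := by
  classical
  by_contra hne
  -- minimal degree
  have hex : ∃ b, ∃ q : ι → Polynomial M, q ≠ 0 ∧ (∀ P, K.B P q = 0) ∧ ∀ j, q j ∈ Polynomial.degreeLT M b := by
    refine ⟨Finset.univ.sup (fun j => (q j).natDegree + 1), q, hne, h, fun j => ?_⟩
    rw [mem_lt]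
    intro m hm
    apply Polynomial.coeff_eq_zero_of_natDegree_lt
    have h1 : (q j).natDegree + 1 ≤ Finset.univ.sup (fun j => (q j).natDegree + 1) :=
      Finset.le_sup (f := fun j => (q j).natDegree + 1) (Finset.mem_univ j)
    omega
  obtain ⟨b, ⟨q0, hq0, hK0, hd0⟩, hmin⟩ : ∃ b, (∃ q : ι → Polynomial M, q ≠ 0 ∧ (∀ P, K.B P q = 0) ∧ ∀ j, q j ∈ Polynomial.degreeLT M b) ∧
      ∀ b' < b, ∀ q' : ι → Polynomial M, (∀ P, K.B P q' = 0) → (∀ j, q' j ∈ Polynomial.degreeLT M b') → q' = 0 := by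
    refine ⟨Nat.find hex, Nat.find_spec hex, fun b' h2 q' h1 h4 => ?_⟩
    by_contra h3
    exact Nat.find_min hex h2 ⟨q', h3, h1, h4⟩
  obtain ⟨b, rfl⟩ : ∃ b', b = b' + 1 := by
    rcases b with _ | b
    · exfalso
      apply hq0
      funext j
      ext m
      rw [(mem_lt _ _).1 (hd0 j) m (Nat.zero_le m)]
      simp
    · exact ⟨b, rfl⟩
  -- an element with zero leading coefficients vanishes
  have hlow : ∀ q' : ι → Polynomial M, (∀ P, K.B P q' = 0) → (∀ j, q' j ∈ Polynomial.degreeLT M (b + 1)) →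
      (∀ j, (q' j).coeff b = 0) → q' = 0 := by
    intro q' h1 h2 h3
    refine hmin b (Nat.lt_succ_self b) q' h1 fun j => ?_
    rw [mem_lt]
    intro m hm
    rcases Nat.eq_or_lt_of_le hm with h5 | h5
    · rw [← h5, h3]
    · exact (mem_lt _ _).1 (h2 j) m h5
  -- minimal support
  have hex2 : ∃ c, ∃ q : ι → Polynomial M, (q ≠ 0 ∧ (∀ P, K.B P q = 0) ∧ ∀ j, q j ∈ Polynomial.degreeLT M (b + 1)) ∧
      (Finset.univ.filter fun j => (q j).coeff b ≠ 0).card = c := ⟨_, q0, ⟨hq0, hK0, hd0⟩, rfl⟩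
  obtain ⟨q1, ⟨hq1, hK1, hd1⟩, hm1⟩ : ∃ q : ι → Polynomial M, (q ≠ 0 ∧ (∀ P, K.B P q = 0) ∧ ∀ j, q j ∈ Polynomial.degreeLT M (b + 1)) ∧
      ∀ q' : ι → Polynomial M, q' ≠ 0 → (∀ P, K.B P q' = 0) → (∀ j, q' j ∈ Polynomial.degreeLT M (b + 1)) →
        (Finset.univ.filter fun j => (q j).coeff b ≠ 0).card ≤ (Finset.univ.filter fun j => (q' j).coeff b ≠ 0).card := by
    obtain ⟨q, hq, hc⟩ := Nat.find_spec hex2
    refine ⟨q, hq, fun q' h1 h2 h3 => ?_⟩
    rw [hc]
    exact Nat.find_min' hex2 ⟨q', ⟨h1, h2, h3⟩, rfl⟩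
  obtain ⟨j0, hj0⟩ : ∃ j0, (q1 j0).coeff b ≠ 0 := by
    by_contra hcon
    push Not at hcon
    exact hq1 (hlow q1 hK1 hd1 hcon)
  -- normalise
  obtain ⟨q2, hK2, hd2, hs2, hc2⟩ : ∃ q2 : ι → Polynomial M, (∀ P, K.B P q2 = 0) ∧ (∀ j, q2 j ∈ Polynomial.degreeLT M (b + 1)) ∧
      (∀ j, (q2 j).coeff b = 0 ↔ (q1 j).coeff b = 0) ∧ (q2 j0).coeff b = 1 := by
    refine ⟨((q1 j0).coeff b)⁻¹ • q1, fun P => ?_, fun j => ?_, fun j => ?_, ?_⟩
    · rw [map_smul, hK1 P, smul_zero]
    · exact Submodule.smul_mem _ _ (hd1 j)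
    · rw [Pi.smul_apply, Polynomial.coeff_smul, smul_eq_mul, mul_eq_zero]
      exact ⟨fun h1 => h1.resolve_left (inv_ne_zero hj0), Or.inr⟩
    · rw [Pi.smul_apply, Polynomial.coeff_smul, smul_eq_mul, inv_mul_cancel₀ hj0]
  have key : ∀ q' : ι → Polynomial M, (∀ P, K.B P q' = 0) → (∀ j, q' j ∈ Polynomial.degreeLT M (b + 1)) →
      (∀ j, (q2 j).coeff b = 0 → (q' j).coeff b = 0) → (q' j0).coeff b = 0 → q' = 0 := by
    intro q' h1 h2 h3 h4
    by_contra h5
    have h8 := hm1 q' h5 h1 h2
    refine absurd h8 (not_le.2 (Finset.card_lt_card ?_))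
    rw [Finset.ssubset_iff_of_subset]
    · refine ⟨j0, ?_, ?_⟩
      · rw [Finset.mem_filter]
        exact ⟨Finset.mem_univ _, hj0⟩
      · rw [Finset.mem_filter]
        exact fun h9 => h9.2 h4
    · intro j hj
      rw [Finset.mem_filter] at hj ⊢
      exact ⟨Finset.mem_univ _, fun h9 => hj.2 (h3 j ((hs2 j).2 h9))⟩
  have hz2 : ∀ j, (q2 j).coeff (b + 1) = 0 := fun j => (mem_lt _ _).1 (hd2 j) _ le_rfl
  refine z3_core K b q2 hK2 hd2 j0 hc2 (fun i j => ?_) (fun w j => ?_)
  · have h1 := key _ (fun P => ker_D K q2 hK2 i P)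
      (fun j => Submodule.sub_mem _ (cP_lt _ _ _ (hd2 j)) (C_mul_lt _ _ _ (der_lt _ _ (hd2 j)))) (fun j hj => ?_) ?_
    · exact sub_eq_zero.1 (congrFun h1 j)
    · rw [Polynomial.coeff_sub, coeff_cP, hj, map_zero, Polynomial.coeff_C_mul, Polynomial.coeff_derivative, hz2 j, zero_mul, mul_zero, sub_zero]
    · rw [Polynomial.coeff_sub, coeff_cP, hc2, Polynomial.coeff_C_mul, Polynomial.coeff_derivative, hz2 j0, zero_mul, mul_zero, sub_zero]
      exact (K.D i).map_one_eq_zero
  · have h1 := key (fun j => Polynomial.taylor (algebraMap ℂ M (K.chi w)) ((q2 j).map (K.T w)) - q2 j) (fun P => ?_)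
      (fun j => Submodule.sub_mem _ (taylor_lt _ _ _ (map_lt _ _ _ (hd2 j))) (hd2 j)) (fun j hj => ?_) ?_
    · exact sub_eq_zero.1 (congrFun h1 j)
    · have e : (fun j => Polynomial.taylor (algebraMap ℂ M (K.chi w)) ((q2 j).map (K.T w)) - q2 j) =
          (fun j => Polynomial.taylor (algebraMap ℂ M (K.chi w)) ((q2 j).map (K.T w))) - q2 := rfl
      rw [e, map_sub, ker_T K q2 hK2 w P, hK2 P, sub_zero]
    · rw [Polynomial.coeff_sub, taylor_top _ _ _ (map_lt _ _ _ (hd2 j)), Polynomial.coeff_map, hj, map_zero, sub_zero]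
    · rw [Polynomial.coeff_sub, taylor_top _ _ _ (map_lt _ _ _ (hd2 j0)), Polynomial.coeff_map, hc2, map_one, sub_self]

end Pool.Agent.MSW

end
end
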