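import Pool.Agent.Lib.MP_f58a57_nt.T.E2_Lin
import Pool.Agent.Lib.MP_f58a57_nt.U.Z9b_Split

/-! # MP_f58a57_nt, all nonspecial points: E3_Block -/

/-! ### the relations between the jets -/

section

open MvPolynomial

noncomputable section

namespace Pool.Agent.MSW

open MSU

variable {M : Type} [Field M] [Algebra ℂ M] {Λ ι : Type}

/-- Z6a. -/
theorem Rn_anti (K : Ker M Λ ι) (n : ℕ) : Rn K (n + 1) ≤ Rn K n := by
  intro P hP q hq
  exact hP q fun j => Polynomial.degreeLT_mono (Nat.le_succ n) (hq j)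

/-- Z6b. -/
theorem Rn_D (K : Ker M Λ ι) (n : ℕ) (P : Po M) (h : P ∈ Rn K n) (i : Fin 2) : cD (K.D i) P + X i * P ∈ Rn K n := by
  intro q hq
  have h1 := K.hD i P q
  have h2 : K.B P q = 0 := h q hq
  have h3 : K.B P (fun j => cP (K.D i) (q j) - Polynomial.C (algebraMap ℂ M (K.e i)) * Polynomial.derivative (q j)) = 0 :=
    h _ fun j => Submodule.sub_mem _ (cP_lt _ _ _ (hq j)) (C_mul_lt _ _ _ (der_lt _ _ (hq j)))
  rw [h2, h3, map_zero, add_zero] at h1
  exact h1.symm

/-- Z6c. -/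
theorem Rn_Z (K : Ker M Λ ι) (n : ℕ) (P : Po M) (h : P ∈ Rn K (n + 1)) :
    cD K.Z P - ∑ i, cst (K.e i) * pderiv i P ∈ Rn K n := by
  intro q hq
  have h1 := K.hZ P q
  have h2 : K.B P q = 0 := h q fun j => Polynomial.degreeLT_mono (Nat.le_succ n) (hq j)
  have h3 : K.B P (fun j => cP K.Z (q j) + Polynomial.X * q j) = 0 :=
    h _ fun j => Submodule.add_mem _ (Polynomial.degreeLT_mono (Nat.le_succ n) (cP_lt _ _ _ (hq j))) (X_mul_lt _ _ (hq j))
  rw [h2, h3, map_zero, add_zero] at h1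
  exact h1.symm

/-- Z6d. -/
theorem Rn_T (K : Ker M Λ ι) (n : ℕ) (P : Po M) (h : P ∈ Rn K n) (w : Λ) : sh (K.lam w) (map (K.T w) P) ∈ Rn K n := by
  intro q' hq'
  choose q hq using fun j => Polynomial.map_surjective (K.T w) (K.Tsurj w) (Polynomial.taylor (-algebraMap ℂ M (K.chi w)) (q' j))
  have hdeg : ∀ j, q j ∈ Polynomial.degreeLT M n := by
    intro j
    rw [mem_lt]
    intro m hm
    have h1 := (mem_lt n _).1 (taylor_lt (-algebraMap ℂ M (K.chi w)) n (q' j) (hq' j)) m hm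
    rw [← hq j, Polynomial.coeff_map] at h1
    exact (map_eq_zero (K.T w)).1 h1
  have h2 := K.hT w P q
  have h3 : (fun j => Polynomial.taylor (algebraMap ℂ M (K.chi w)) ((q j).map (K.T w))) = q' := by
    funext j
    rw [hq j, taylor_inv]
  rw [h q hdeg, map_zero, h3] at h2
  exact (mul_eq_zero.1 h2.symm).resolve_left (K.c0 w)

/-- Z6e. -/
theorem mem_J (K : Ker M Λ ι) (n k : ℕ) (p : Po M) : p ∈ J K n k ↔ ∃ P ∈ Rn K n, P.totalDegree ≤ k ∧ homogeneousComponent k P = p := by
  rw [J, Submodule.mem_map]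
  constructor
  · rintro ⟨P, hP, hp⟩
    rw [Submodule.mem_inf, mem_restrictTotalDegree] at hP
    exact ⟨P, hP.1, hP.2, hp⟩
  · rintro ⟨P, hP, hd, hp⟩
    refine ⟨P, ?_, hp⟩
    rw [Submodule.mem_inf, mem_restrictTotalDegree]
    exact ⟨hP, hd⟩

/-- Z6f. -/
theorem J_le (K : Ker M Λ ι) (n k : ℕ) : J K n k ≤ Hs M k := by
  intro p hp
  obtain ⟨P, -, -, rfl⟩ := (mem_J K n k p).1 hp
  exact homogeneousComponent_mem k P

theorem J_anti (K : Ker M Λ ι) (n k : ℕ) : J K (n + 1) k ≤ J K n k := by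
  intro p hp
  obtain ⟨P, hP, hd, h⟩ := (mem_J K (n + 1) k p).1 hp
  exact (mem_J K n k p).2 ⟨P, Rn_anti K n hP, hd, h⟩

/-- Z6g. PROOF. `Rn_D`: the component of degree `k + 1` of `cD (D i) P + X i * P` is `X i * homogeneousComponent k P` (`hc_X_mul`, `cD_totalDegree`). -/
theorem J_X (K : Ker M Λ ι) (n k : ℕ) (p : Po M) (h : p ∈ J K n k) (i : Fin 2) : X i * p ∈ J K n (k + 1) := by
  obtain ⟨P, hP, hd, h⟩ := (mem_J K n k p).1 h
  refine (mem_J K n (k + 1) _).2 ⟨cD (K.D i) P + X i * P, Rn_D K n P hP i, ?_, ?_⟩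
  · refine (totalDegree_add _ _).trans (max_le ((cD_totalDegree _ _).trans (by omega)) ?_)
    refine (totalDegree_mul _ _).trans ?_
    rw [totalDegree_X]
    omega
  · have h0 : homogeneousComponent (k + 1) (cD (K.D i) P) = 0 :=
      homogeneousComponent_eq_zero _ _ (lt_of_le_of_lt (cD_totalDegree _ _) (by omega))
    rw [map_add, h0, zero_add, hc_X_mul, h]

/-- Z6h. PROOF. `Submodule.finrank_mono` in the finite dimensional space `Hs M k`, `finrank_Hs`. -/
theorem J_finrank_le (K : Ker M Λ ι) (n k : ℕ) : Module.finrank M (J K n k) ≤ k + 1 := by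
  rw [← finrank_Hs (M := M) k]
  exact Submodule.finrank_mono (J_le K n k)

theorem aa_add (K : Ker M Λ ι) (n k : ℕ) : aa K n k + Module.finrank M (J K n k) = k + 1 := by
  have h := J_finrank_le K n k
  unfold aa
  omega

private theorem ZA06_fin (K : Ker M Λ ι) (n k : ℕ) : FiniteDimensional M (J K n k) :=
  Submodule.finiteDimensional_of_le (J_le K n k)

theorem aa_anti (K : Ker M Λ ι) (n k : ℕ) : aa K n k ≤ aa K (n + 1) k := by
  have h1 := aa_add K n k
  have h2 := aa_add K (n + 1) k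
  have hf := ZA06_fin K n k
  have h3 : Module.finrank M (J K (n + 1) k) ≤ Module.finrank M (J K n k) :=
    Submodule.finrank_mono (J_anti K n k)
  omega

/-- Z6i. PROOF. `two_var_lt` and `J_X`: if `aa K n k ≤ k` then `finrank (J K n k) ≥ 1`. -/
theorem aa_step (K : Ker M Λ ι) (n k : ℕ) (h : aa K n k ≤ k) : aa K n (k + 1) ≤ aa K n k := by
  have h1 := aa_add K n k
  have h2 := aa_add K n (k + 1)
  have h3 := two_var_lt k (J K n k) (J K n (k + 1)) (J_le K n k) (J_le K n (k + 1))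
    (fun P hP i => J_X K n k P hP i) (by omega)
  omega

/-- Z6j. PROOF. `aa = 0` means `J K n k = Hs M k` (dimensions). -/
theorem J_eq_of_aa (K : Ker M Λ ι) (n k : ℕ) (h : aa K n k = 0) : J K n k = Hs M k := by
  have h1 := aa_add K n k
  refine Submodule.eq_of_le_of_finrank_eq (J_le K n k) ?_
  rw [finrank_Hs]
  omega

/-- Z6k. PROOF. Induction on the degree `k` of `P`: if `k < k0` the hypothesis; if `k ≥ k0` then the leading form of `P` is in `Hs M k = J K n k` so there is `P' ∈ Rn K n` of degree `≤ k` with the same component of degree `k`, `B P q = B (P - P') q`, and `P - P'` has degree `< k`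
(`totalDegree_lt_of_hc`; for `k = 0` it is `0`). -/
theorem all_of_low (K : Ker M Λ ι) (n k0 : ℕ) (h : ∀ k, k0 ≤ k → aa K n k = 0) (q : ι → Polynomial M) (hq : ∀ j, q j ∈ Polynomial.degreeLT M n)
    (h0 : ∀ P : Po M, P.totalDegree < k0 → K.B P q = 0) (P : Po M) : K.B P q = 0 := by
  have key : ∀ N : ℕ, ∀ P : Po M, P.totalDegree < N → K.B P q = 0 := by
    intro N
    induction N with
    | zero => intro P hP; exact absurd hP (Nat.not_lt_zero _)
    | succ N ih =>
      intro P hP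
      by_cases hN : N < k0
      · exact h0 P (lt_of_lt_of_le hP hN)
      · have hmem : homogeneousComponent N P ∈ J K n N := by
          rw [J_eq_of_aa K n N (h N (not_lt.1 hN))]
          exact homogeneousComponent_mem N P
        obtain ⟨P', hP', hd', hc'⟩ := (mem_J K n N _).1 hmem
        have h1 : K.B P' q = 0 := hP' q hq
        have h2 : (P - P').totalDegree ≤ N :=
          (totalDegree_sub _ _).trans (max_le (Nat.lt_succ_iff.1 hP) hd')
        have h3 : homogeneousComponent N (P - P') = 0 := by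
          rw [map_sub, hc', sub_self]
        have h4 : K.B (P - P') q = 0 := by
          rcases N with _ | N
          · have h5 := eq_C_of_totalDegree_zero (P - P') h2
            rw [homogeneousComponent_zero] at h3
            rw [h5, h3, map_zero, LinearMap.zero_apply]
          · exact ih _ (Nat.lt_succ_of_le (totalDegree_lt_of_hc N (P - P') h2 h3))
        rw [map_sub, LinearMap.sub_apply, h1, sub_zero] at h4
        exact h4
  exact key _ P (Nat.lt_succ_self _)

end Pool.Agent.MSW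

end
end

/-! ### sums of the Hilbert function -/

section

open MvPolynomial

noncomputable section

namespace Pool.Agent.MSW

open MSU

variable {M : Type} [Field M] [Algebra ℂ M] {Λ ι : Type}

/-- the polynomials of degree `< n` -/
def Lt (M : Type) [Field M] (n : ℕ) : Submodule M (Po M) := match n with
  | 0 => ⊥
  | n + 1 => restrictTotalDegree (Fin 2) M n

/-- Z7a. PROOF. `restrictTotalDegree`; for `n = 0`: `0` is the only element of `⊥`; state: -/
theorem mem_Lt (n : ℕ) (P : Po M) : P ∈ Lt M n ↔ P = 0 ∨ P.totalDegree < n := by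
  cases n with
  | zero =>
    show P ∈ (⊥ : Submodule M (Po M)) ↔ _
    simp
  | succ n =>
    show P ∈ restrictTotalDegree (Fin 2) M n ↔ _
    rw [mem_restrictTotalDegree]
    constructor
    · intro h
      exact Or.inr (Nat.lt_succ_of_le h)
    · rintro (rfl | h)
      · simp
      · exact Nat.lt_succ_iff.1 h

private theorem ZA07_rank {V W : Type} [AddCommGroup V] [Module M V] [AddCommGroup W] [Module M W]
    (g : V →ₗ[M] W) (S : Submodule M V) [FiniteDimensional M S] :
    Module.finrank M (S.map g) + Module.finrank M (S ⊓ LinearMap.ker g : Submodule M V) =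
      Module.finrank M S := by
  have h1 := LinearMap.finrank_range_add_finrank_ker (g ∘ₗ S.subtype)
  have h2 : LinearMap.range (g ∘ₗ S.subtype) = S.map g := by
    rw [LinearMap.range_comp, Submodule.range_subtype]
  have h3 : LinearMap.ker (g ∘ₗ S.subtype) = (LinearMap.ker g).comap S.subtype :=
    LinearMap.ker_comp _ _
  have h4 : Module.finrank M ((LinearMap.ker g).comap S.subtype) =
      Module.finrank M (S ⊓ LinearMap.ker g : Submodule M V) := by
    have h5 : ((LinearMap.ker g).comap S.subtype).map S.subtype = S ⊓ LinearMap.ker g :=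
      Submodule.map_comap_subtype _ _
    rw [← h5]
    exact (LinearEquiv.finrank_eq
      (Submodule.equivMapOfInjective S.subtype S.subtype_injective _))
  rw [h2, h3, h4] at h1
  exact h1

private theorem ZA07_dual {V W : Type} [AddCommGroup V] [Module M V] [AddCommGroup W] [Module M W] (B : V →ₗ[M] W →ₗ[M] M)
    (S T : Submodule M V) (U : Submodule M W) [FiniteDimensional M S] [FiniteDimensional M U]
    (h : ∀ P ∈ S, (∀ q ∈ U, B P q = 0) → P ∈ T) :
    Module.finrank M S ≤ Module.finrank M (S ⊓ T : Submodule M V) + Module.finrank M U := by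
  let g : V →ₗ[M] (U →ₗ[M] M) := (LinearMap.lcomp M M U.subtype) ∘ₗ B
  have hg : ∀ P (q : U), g P q = B P q := fun P q => rfl
  have h1 := ZA07_rank g S
  have h2 : Module.finrank M (S.map g) ≤ Module.finrank M U := by
    have h3 : Module.finrank M (U →ₗ[M] M) = Module.finrank M U := Subspace.dual_finrank_eq
    rw [← h3]
    exact Submodule.finrank_le _
  have h4 : S ⊓ LinearMap.ker g ≤ S ⊓ T := by
    rintro P ⟨hP, hk⟩
    refine ⟨hP, h P hP fun q hq => ?_⟩
    have h5 : g P = 0 := hk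
    have h6 := hg P ⟨q, hq⟩
    rw [h5] at h6
    exact h6.symm
  have : FiniteDimensional M (S ⊓ T : Submodule M V) :=
    Submodule.finiteDimensional_of_le (inf_le_left : S ⊓ T ≤ S)
  have h7 := Submodule.finrank_mono h4
  omega

private theorem ZA07_fin (n : ℕ) : FiniteDimensional M (Lt M n) := by
  have h : Lt M n ≤ (Finset.range n).sup (fun i => Hs M i) := by
    intro P hP
    rw [mem_Lt] at hP
    rcases hP with rfl | hP
    · exact Submodule.zero_mem _
    · rw [← sum_homogeneousComponent P]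
      refine Submodule.sum_mem _ fun i hi => ?_
      have hi' : i ∈ Finset.range n := by
        rw [Finset.mem_range] at hi ⊢
        omega
      exact (Finset.le_sup (f := fun i => Hs M i) hi') (homogeneousComponent_isHomogeneous i P)
  have : FiniteDimensional M ((Finset.range n).sup (fun i => Hs M i) : Submodule M (Po M)) :=
    Submodule.finiteDimensional_finset_sup _ _
  exact Submodule.finiteDimensional_of_le h

instance (n : ℕ) : FiniteDimensional M (Lt M n) := ZA07_fin n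

private theorem ZA07_mono (n : ℕ) : Lt M n ≤ Lt M (n + 1) := by
  intro P hP
  rw [mem_Lt] at hP ⊢
  rcases hP with h | h
  · exact Or.inl h
  · exact Or.inr (Nat.lt_succ_of_lt h)

private theorem ZA07_Hs (i n : ℕ) (h : i < n) : Hs M i ≤ Lt M n := by
  intro P hP
  rw [mem_Lt]
  exact Or.inr (lt_of_le_of_lt (IsHomogeneous.totalDegree_le hP) h)

private theorem ZA07_ker (k : ℕ) (P : Po M) (hP : P ∈ Lt M (k + 1)) :
    homogeneousComponent k P = 0 ↔ P ∈ Lt M k := by
  have h : P.totalDegree ≤ k := (mem_restrictTotalDegree _ _ _).1 hP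
  constructor
  · intro h0
    rw [← sum_homogeneousComponent P]
    refine Submodule.sum_mem _ fun i hi => ?_
    rw [Finset.mem_range] at hi
    rcases Nat.lt_or_ge i k with hik | hik
    · exact ZA07_Hs i k hik (homogeneousComponent_isHomogeneous i P)
    · have : i = k := by omega
      rw [this, h0]
      exact Submodule.zero_mem _
  · intro h0
    rw [mem_Lt] at h0
    rcases h0 with rfl | h0
    · exact map_zero _
    · exact homogeneousComponent_eq_zero k P h0

private theorem ZA07_split (S : Submodule M (Po M)) (k : ℕ) (hS : S ≤ Lt M (k + 1)) :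
    Module.finrank M (S.map (homogeneousComponent k)) +
      Module.finrank M (Lt M k ⊓ S : Submodule M (Po M)) = Module.finrank M S := by
  have : FiniteDimensional M S := Submodule.finiteDimensional_of_le hS
  have h1 := ZA07_rank (homogeneousComponent (R := M) k) S
  have h2 : S ⊓ LinearMap.ker (homogeneousComponent (R := M) k) = Lt M k ⊓ S := by
    ext P
    constructor
    · rintro ⟨h3, h4⟩
      exact ⟨(ZA07_ker k P (hS h3)).1 h4, h3⟩
    · rintro ⟨h3, h4⟩
      exact ⟨h4, (ZA07_ker k P (hS h4)).2 h3⟩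
  rw [h2] at h1
  exact h1

private theorem ZA07_succ (k : ℕ) :
    Module.finrank M (Lt M (k + 1)) = Module.finrank M (Lt M k) + (k + 1) := by
  have h1 := ZA07_split (Lt M (k + 1)) k le_rfl
  have h2 : (Lt M (k + 1)).map (homogeneousComponent k) = Hs M k := by
    apply le_antisymm
    · rintro _ ⟨P, _, rfl⟩
      exact homogeneousComponent_isHomogeneous k P
    · intro P hP
      exact ⟨P, ZA07_Hs k (k + 1) (Nat.lt_succ_self k) hP, by
        rw [homogeneousComponent_of_mem hP, if_pos rfl]⟩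
  have h3 : Lt M k ⊓ Lt M (k + 1) = Lt M k := inf_eq_left.2 (ZA07_mono k)
  rw [h2, h3, finrank_Hs] at h1
  omega

/-- Z7b. PROOF. Induction: `Lt (n+1)` is the direct sum of `Lt n` and `Hs M n`, `finrank_Hs`. -/
theorem finrank_Lt (n : ℕ) : Module.finrank M (Lt M n) = n * (n + 1) / 2 := by
  induction n with
  | zero =>
    show Module.finrank M (⊥ : Submodule M (Po M)) = _
    simp
  | succ n ih =>
    rw [ZA07_succ, ih]
    have h : (n + 1) * (n + 1 + 1) = n * (n + 1) + 2 * (n + 1) := by ring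
    rw [h, Nat.add_mul_div_left _ _ (by norm_num)]

/-- Z7c. PROOF. Induction on `k`: the map `homogeneousComponent k` from `Lt (k+1) ⊓ Rn` onto `J K n k` has kernel `Lt k ⊓ Rn` (`Submodule.finrank_map_add_finrank_ker` or rank-nullity), so `finrank (Lt (k+1) ⊓ Rn) = finrank (Lt k ⊓ Rn) + finrank (J K n k)`;
`finrank (Lt (k+1)) = finrank (Lt k) + (k + 1)`; subtract. -/
theorem sum_aa (K : Ker M Λ ι) (n k : ℕ) :
    ∑ j ∈ Finset.range k, aa K n j + Module.finrank M (Lt M k ⊓ Rn K n : Submodule M (Po M)) = Module.finrank M (Lt M k) := by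
  induction k with
  | zero =>
    have h : (Lt M 0 ⊓ Rn K n : Submodule M (Po M)) = Lt M 0 := by
      show (⊥ ⊓ Rn K n : Submodule M (Po M)) = ⊥
      simp
    rw [h]
    simp
  | succ k ih =>
    have h1 := ZA07_split (Lt M (k + 1) ⊓ Rn K n) k inf_le_left
    have h2 : (Lt M (k + 1) ⊓ Rn K n).map (homogeneousComponent k) = J K n k := by
      rw [inf_comm]
      rfl
    have h3 : Lt M k ⊓ (Lt M (k + 1) ⊓ Rn K n) = Lt M k ⊓ Rn K n := by
      rw [← inf_assoc, inf_eq_left.2 (ZA07_mono k)]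
    rw [h2, h3] at h1
    have h4 := aa_add K n k
    have h5 := ZA07_succ (M := M) k
    rw [Finset.sum_range_succ, ← h1, h5, ← ih]
    have h6 : aa K n k + Module.finrank M (J K n k) = k + 1 := h4
    rw [← h6]
    ring

/-- vectors of polynomials of degree `< n` -/
def Lv (M : Type) [Field M] (ι : Type) (n : ℕ) : Submodule M (ι → Polynomial M) :=
  Submodule.pi Set.univ fun _ => Polynomial.degreeLT M n

theorem mem_Lv (n : ℕ) (q : ι → Polynomial M) : q ∈ Lv M ι n ↔ ∀ j, q j ∈ Polynomial.degreeLT M n := by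
  rw [Lv, Submodule.mem_pi]
  exact ⟨fun h j => h j (Set.mem_univ j), fun h j _ => h j⟩

theorem Lv_equiv (M : Type) [Field M] [Algebra ℂ M] (ι : Type) (n : ℕ) : Nonempty (Lv M ι n ≃ₗ[M] (ι → Fin n → M)) := by
  refine ⟨?_⟩
  refine LinearEquiv.ofBijective
    (LinearMap.pi fun j => (Polynomial.degreeLTEquiv M n).toLinearMap ∘ₗ
      LinearMap.codRestrict (Polynomial.degreeLT M n) (LinearMap.proj j ∘ₗ (Lv M ι n).subtype) (fun q => (mem_Lv n q.1).1 q.2 j)) ⟨?_, ?_⟩
  · intro p q h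
    apply Subtype.ext
    funext j
    have h1 := congrFun h j
    have h2 := (Polynomial.degreeLTEquiv M n).injective h1
    exact congrArg Subtype.val h2
  · intro v
    refine ⟨⟨fun j => ((Polynomial.degreeLTEquiv M n).symm (v j) : Polynomial M), (mem_Lv n _).2 fun j => Subtype.mem _⟩, ?_⟩
    funext j
    exact (Polynomial.degreeLTEquiv M n).apply_symm_apply (v j)

instance [Finite ι] (n : ℕ) : FiniteDimensional M (Lv M ι n) := by
  obtain ⟨f⟩ := Lv_equiv M ι n
  exact LinearEquiv.finiteDimensional f.symm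

theorem finrank_Lv [Fintype ι] (n : ℕ) : Module.finrank M (Lv M ι n) = Fintype.card ι * n := by
  obtain ⟨f⟩ := Lv_equiv M ι n
  rw [f.finrank_eq, Module.finrank_pi_fintype]
  simp

/-- vectors of monomials of degree `n` -/
def Lm (M : Type) [Field M] (ι : Type) (n : ℕ) : (ι → M) →ₗ[M] (ι → Polynomial M) :=
  LinearMap.pi fun j => (Polynomial.monomial n) ∘ₗ LinearMap.proj j

/-- Z7d. -/
theorem sum_aa_le [Fintype ι] (K : Ker M Λ ι) (n k : ℕ) : ∑ j ∈ Finset.range k, aa K n j ≤ Fintype.card ι * n := by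
  have h1 := sum_aa K n k
  have h2 := ZA07_dual K.B (Lt M k) (Rn K n) (Lv M ι n) fun P _ h => by
    intro q hq
    exact h q ((mem_Lv n q).2 hq)
  rw [finrank_Lv n] at h2
  omega

/-- Z7e. -/
theorem sum_aa_succ [Fintype ι] (K : Ker M Λ ι) (n k : ℕ) :
    ∑ j ∈ Finset.range k, aa K (n + 1) j ≤ ∑ j ∈ Finset.range k, aa K n j + Fintype.card ι := by
  have h1 := sum_aa K n k
  have h2 := sum_aa K (n + 1) k
  have hfin : FiniteDimensional M (Lt M k ⊓ Rn K n : Submodule M (Po M)) :=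
    Submodule.finiteDimensional_of_le inf_le_left
  have h3 := ZA07_dual K.B (Lt M k ⊓ Rn K n) (Rn K (n + 1)) (LinearMap.range (Lm M ι n)) fun P hP h => by
    intro q hq
    have e : q = (fun j => q j - Polynomial.monomial n ((q j).coeff n)) + Lm M ι n (fun j => (q j).coeff n) := by
      funext j
      simp [Lm]
    rw [e, map_add, h _ ⟨_, rfl⟩, add_zero]
    refine hP.2 _ fun j => ?_
    rw [mem_lt]
    intro m hm
    rw [Polynomial.coeff_sub, Polynomial.coeff_monomial]
    rcases Nat.eq_or_lt_of_le hm with h5 | h5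
    · rw [if_pos h5, h5, sub_self]
    · rw [if_neg (by omega), (mem_lt _ _).1 (hq j) m h5, sub_zero]
  have h4 : (Lt M k ⊓ Rn K n) ⊓ Rn K (n + 1) = Lt M k ⊓ Rn K (n + 1) := by
    rw [inf_assoc, inf_eq_right.2 (Rn_anti K n)]
  have h5 : Module.finrank M (LinearMap.range (Lm M ι n)) ≤ Fintype.card ι := by
    refine (LinearMap.finrank_range_le _).trans ?_
    rw [Module.finrank_fintype_fun_eq_card]
  rw [h4] at h3
  omega

end Pool.Agent.MSW

end
end

/-! ### the symbol has constant coefficients -/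

section

open MvPolynomial

noncomputable section

namespace Pool.Agent.MSW

open MSU

variable {M : Type} [Field M] [Algebra ℂ M] {Λ ι : Type}

private theorem ZA09_ofC_mem (N : ℕ) (g : Po ℂ) (hg : g.IsHomogeneous N) : (ofC g : Po M) ∈ Hs M N :=
  IsHomogeneous.map hg _

/-- proportionality of forms -/
private theorem ZA09_prop (r N : ℕ) (Q H : Po M) (hQ : Q.IsHomogeneous r) (hH : H.IsHomogeneous r)
    (hH0 : H ≠ 0) (h : ∀ i : Fin 2, ∃ g : Po M, Q * (X i : Po M) ^ N = H * g) :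
    ∃ c : M, Q = H * C c := by
  obtain ⟨g0, hg0⟩ := h 0
  obtain ⟨g1, hg1⟩ := h 1
  have hX0 : (X 0 : Po M) ≠ 0 := X_ne_zero 0
  have e1 : H * (g0 * (X 1) ^ N) = H * (g1 * (X 0) ^ N) := by
    rw [← mul_assoc, ← mul_assoc, ← hg0, ← hg1]
    ring
  have e2 : g0 * (X 1 : Po M) ^ N = g1 * (X 0) ^ N := mul_left_cancel₀ hH0 e1
  have hp : Prime (X 0 : Po M) := X_prime
  have hnd : ¬ (X 0 : Po M) ∣ (X 1) ^ N := by
    intro hd
    have hd1 := hp.dvd_of_dvd_pow hd
    rw [X_dvd_X] at hd1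
    exact absurd hd1 (by decide)
  have hdvd : (X 0 : Po M) ^ N ∣ g0 := by
    have h1 : (X 0 : Po M) ^ N ∣ (X 1) ^ N * g0 := by
      rw [mul_comm, e2]
      exact Dvd.intro_left _ rfl
    exact hp.pow_dvd_of_dvd_mul_left N hnd h1
  obtain ⟨s, hs⟩ := hdvd
  have e3 : Q = H * s := by
    have h1 : Q * (X 0 : Po M) ^ N = (H * s) * (X 0) ^ N := by
      rw [hg0, hs]
      ring
    exact mul_right_cancel₀ (pow_ne_zero N hX0) h1
  by_cases hs0 : s = 0
  · exact ⟨0, by rw [e3, hs0, C_0]⟩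
  · have hQ0 : Q ≠ 0 := by
      rw [e3]
      exact mul_ne_zero hH0 hs0
    have h1 := hQ.totalDegree hQ0
    have h2 := hH.totalDegree hH0
    rw [e3, totalDegree_mul_of_isDomain hH0 hs0, h2] at h1
    have h3 : s.totalDegree = 0 := by omega
    rw [totalDegree_eq_zero_iff_eq_C] at h3
    exact ⟨_, by rw [e3]; exact congrArg _ h3⟩

/-- a polynomial with complex coefficients -/
private theorem ZA09_lift (H : Po M) (h : ∀ s, ∃ a : ℂ, H.coeff s = algebraMap ℂ M a) :
    ∃ g : Po ℂ, ofC g = H := by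
  choose a ha using h
  refine ⟨∑ s ∈ H.support, monomial s (a s), ?_⟩
  ext s
  unfold ofC
  rw [coeff_map, coeff_sum]
  simp only [coeff_monomial, Finset.sum_ite_eq']
  split_ifs with hs
  · exact (ha s).symm
  · rw [map_zero]
    exact (notMem_support_iff.1 hs).symm

/-- Z9a. -/
theorem symbol (K : Ker M Λ ι) (n m a : ℕ) (h1 : J K (n + 1) m = J K n m) (h2 : J K (n + 1) (m + 1) = J K n (m + 1))
    (ha : Module.finrank M (J K (n + 1) m) = a + 1) (hb : Module.finrank M (J K (n + 1) (m + 1)) = a + 2) :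
    ∃ r : ℕ, r + a = m ∧ ∃ h : Po ℂ, h ≠ 0 ∧ h.IsHomogeneous r ∧ (∀ P, P ∈ J K (n + 1) m ↔ ∃ g ∈ Hs M a, P = ofC h * g) ∧
      (∀ P, P ∈ J K (n + 1) (m + 1) ↔ ∃ g ∈ Hs M (a + 1), P = ofC h * g) := by
  obtain ⟨r, hr, h0, h00, h0r, hA0, hB0⟩ := two_var m (J K (n + 1) m) (J K (n + 1) (m + 1))
    (J_le K (n + 1) m) (J_le K (n + 1) (m + 1)) (fun P hP i => J_X K (n + 1) m P hP i) a ha hb
  obtain ⟨m0, hm0⟩ : ∃ s, h0.coeff s ≠ 0 := ne_zero_iff.1 h00
  set u : M := h0.coeff m0 with hu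
  -- the normalised form
  set H : Po M := C u⁻¹ * h0 with hH
  have hHm0 : H.coeff m0 = 1 := by
    rw [hH, coeff_C_mul, ← hu, inv_mul_cancel₀ hm0]
  have hH0 : H ≠ 0 := by
    intro h
    rw [h, coeff_zero] at hHm0
    exact zero_ne_one hHm0
  have hHr : H.IsHomogeneous r := by
    have := (isHomogeneous_C (Fin 2) (u⁻¹ : M)).mul h0r
    rwa [zero_add] at this
  have hh0 : h0 = C u * H := by
    rw [hH, ← mul_assoc, ← C_mul, mul_inv_cancel₀ hm0, C_1, one_mul]
  have hscale : ∀ (N : ℕ) (P : Po M), (∃ g ∈ Hs M N, P = h0 * g) ↔ ∃ g ∈ Hs M N, P = H * g := by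
    intro N P
    constructor
    · rintro ⟨g, hg, rfl⟩
      refine ⟨C u * g, ?_, by rw [hh0]; ring⟩
      have := (isHomogeneous_C (Fin 2) (u : M)).mul hg
      rwa [zero_add] at this
    · rintro ⟨g, hg, rfl⟩
      refine ⟨C u⁻¹ * g, ?_, by rw [hH]; ring⟩
      have := (isHomogeneous_C (Fin 2) (u⁻¹ : M)).mul hg
      rwa [zero_add] at this
  have hA : ∀ P, P ∈ J K (n + 1) m ↔ ∃ g ∈ Hs M a, P = H * g := fun P => (hA0 P).trans (hscale a P)
  have hB : ∀ P, P ∈ J K (n + 1) (m + 1) ↔ ∃ g ∈ Hs M (a + 1), P = H * g :=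
    fun P => (hB0 P).trans (hscale (a + 1) P)
  -- the complex forms `g = X i ^ (a + 1)`
  have hgi : ∀ i : Fin 2, (ofC ((X i : Po ℂ) ^ (a + 1)) : Po M) = (X i) ^ (a + 1) := by
    intro i
    unfold ofC
    rw [map_pow, map_X]
  have hgh : ∀ i : Fin 2, ((X i : Po ℂ) ^ (a + 1)).IsHomogeneous (a + 1) := by
    intro i
    have := (isHomogeneous_X ℂ i).pow (a + 1)
    rwa [one_mul] at this
  have hP : ∀ i : Fin 2, ∃ P ∈ Rn K (n + 1), P.totalDegree ≤ m + 1 ∧
      homogeneousComponent (m + 1) P = H * ofC ((X i : Po ℂ) ^ (a + 1)) := by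
    intro i
    exact (mem_J K (n + 1) (m + 1) _).1 ((hB _).2 ⟨_, ZA09_ofC_mem _ _ (hgh i), rfl⟩)
  -- (i)
  have hZ : cD K.Z H = 0 := by
    obtain ⟨c, hc⟩ := ZA09_prop r (a + 1) (cD K.Z H) H (cD_homog _ _ _ hHr) hHr hH0 (by
      intro i
      obtain ⟨P, hP1, hP2, hP3⟩ := hP i
      have hP' := Rn_Z K n P hP1
      have hdeg : ∀ i' : Fin 2, (cst (K.e i') * pderiv i' P : Po M).totalDegree ≤ m := by
        intro i'
        refine (totalDegree_mul _ _).trans ?_
        have h3 : (cst (K.e i') : Po M).totalDegree = 0 := totalDegree_C _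
        have h4 := totalDegree_pderiv_lt m i' P hP2
        omega
      have hdsum : (∑ i', cst (K.e i') * pderiv i' P : Po M).totalDegree ≤ m :=
        totalDegree_finsetSum_le fun i' _ => hdeg i'
      have hmem : cD K.Z H * (X i) ^ (a + 1) ∈ J K n (m + 1) := by
        refine (mem_J K n (m + 1) _).2 ⟨_, hP', ?_, ?_⟩
        · refine (totalDegree_sub _ _).trans (max_le ((cD_totalDegree _ _).trans hP2) ?_)
          omega
        · rw [map_sub, cD_hc, hP3, cD_mul_ofC, hgi, homogeneousComponent_eq_zero (m + 1) _ (by omega), sub_zero]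
      rw [← h2] at hmem
      obtain ⟨g, -, hg⟩ := (hB _).1 hmem
      exact ⟨g, hg⟩)
    have h3 : (cD K.Z H).coeff m0 = (H * C c).coeff m0 := by rw [hc]
    rw [coeff_cD, hHm0, mul_comm, coeff_C_mul, hHm0, mul_one, Derivation.map_one_eq_zero] at h3
    rw [hc, ← h3, C_0, mul_zero]
  -- (ii)
  have hT : ∀ w : Λ, map (K.T w) H = H := by
    intro w
    obtain ⟨c, hc⟩ := ZA09_prop r (a + 1) (map (K.T w) H) H (hHr.map _) hHr hH0 (by
      intro i
      obtain ⟨P, hP1, hP2, hP3⟩ := hP i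
      have hP' := Rn_T K (n + 1) P hP1 w
      have hd : (map (K.T w) P).totalDegree ≤ m + 1 :=
        (Finset.sup_mono (support_map_subset _ _)).trans hP2
      have hmem : map (K.T w) H * (X i) ^ (a + 1) ∈ J K (n + 1) (m + 1) := by
        refine (mem_J K (n + 1) (m + 1) _).2 ⟨_, hP', (sh_totalDegree _ _).trans hd, ?_⟩
        rw [(hc_sh _ m _ hd).1, hc_map, hP3, map_mul, map_ofC _ (K.TC w), hgi]
      obtain ⟨g, -, hg⟩ := (hB _).1 hmem
      exact ⟨g, hg⟩)
    have h3 : (map (K.T w) H).coeff m0 = (H * C c).coeff m0 := by rw [hc]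
    rw [coeff_map, hHm0, mul_comm, coeff_C_mul, hHm0, mul_one, map_one] at h3
    rw [hc, ← h3, C_1, mul_one]
  -- (iii)
  obtain ⟨h, hh⟩ := ZA09_lift H (by
    intro s
    refine (K.rigZ (H.coeff s) 0 0 ?_ (fun w => ?_)).2
    · rw [← coeff_cD, hZ, coeff_zero, map_zero]
    · have h3 : (map (K.T w) H).coeff s = H.coeff s := by rw [hT w]
      rw [coeff_map] at h3
      rw [h3]
      simp)
  have hinj : Function.Injective (algebraMap ℂ M) := (algebraMap ℂ M).injective
  refine ⟨r, hr, h, ?_, ?_, fun P => ?_, fun P => ?_⟩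
  · rintro rfl
    apply hH0
    rw [← hh]
    unfold ofC
    rw [map_zero]
  · intro s hs
    apply hHr
    rw [← hh]
    unfold ofC
    rw [coeff_map]
    intro h3
    exact hs (hinj (by rw [h3, map_zero]))
  · rw [hh]
    exact hA P
  · rw [hh]
    exact hB P

end Pool.Agent.MSW

end
end

/-! ### there is no block of constant Hilbert function -/

section

open MvPolynomial

noncomputable section

namespace Pool.Agent.MSW

open MSU

variable {M : Type} [Field M] [Algebra ℂ M] {Λ ι : Type}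

theorem ZA11_ofC_mul (g g' : Po ℂ) : (ofC (g * g') : Po M) = ofC g * ofC g' := by
  simp [ofC]

theorem ZA11_ofC_homog (n : ℕ) (g : Po ℂ) (hg : g.IsHomogeneous n) : (ofC g : Po M).IsHomogeneous n := by
  unfold ofC
  exact hg.map _

theorem ZA11_pderiv_ofC (i : Fin 2) (g : Po ℂ) : pderiv i (ofC g : Po M) = ofC (pderiv i g) := by
  unfold ofC
  exact pderiv_map

/-- Z9c1. -/
theorem pi_exists (K : Ker M Λ ι) (n m a r' : ℕ) (hm : r' + 1 + a = m) (h L : Po ℂ) (hh : h.IsHomogeneous (r' + 1)) (hL : L.IsHomogeneous 1)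
    (hs : ∀ f ∈ Hs M (a + r' + 1), ∃ g ∈ Hs M a, ∃ p ∈ Hs M r', f = (ofC h : Po M) * g + ofC (L ^ (a + 1)) * p)
    (h1 : ∀ P, P ∈ J K (n + 1) m ↔ ∃ g ∈ Hs M a, P = ofC h * g)
    (h2 : ∀ P, P ∈ J K (n + 1) (m + 1) ↔ ∃ g ∈ Hs M (a + 1), P = ofC h * g) :
    ∃ P ∈ Rn K (n + 1), ∃ p ∈ Hs M r', P.totalDegree ≤ m + 1 ∧ homogeneousComponent (m + 1) P = ofC (h * L ^ (a + 1)) ∧
      homogeneousComponent m P = ofC (L ^ (a + 1)) * p := by
  classical
  have hLp : (L ^ (a + 1)).IsHomogeneous (a + 1) := by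
    have := hL.pow (a + 1)
    simpa using this
  have hmem : (ofC (h * L ^ (a + 1)) : Po M) ∈ J K (n + 1) (m + 1) := by
    rw [h2]
    refine ⟨ofC (L ^ (a + 1)), ?_, ZA11_ofC_mul _ _⟩
    rw [mem_homogeneousSubmodule]
    exact ZA11_ofC_homog _ _ hLp
  obtain ⟨P0, hP0, hd0, hc0⟩ := (mem_J K (n + 1) (m + 1) _).1 hmem
  obtain ⟨g, hg, p, hp, hf⟩ := hs (homogeneousComponent m P0) (by
    rw [mem_homogeneousSubmodule]
    have := homogeneousComponent_isHomogeneous m P0
    have e : a + r' + 1 = m := by omega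
    rw [e]
    exact this)
  have hm1 : (ofC h : Po M) * g ∈ J K (n + 1) m := (h1 _).2 ⟨g, hg, rfl⟩
  obtain ⟨P1, hP1, hd1, hc1⟩ := (mem_J K (n + 1) m _).1 hm1
  refine ⟨P0 - P1, Submodule.sub_mem _ hP0 hP1, p, hp, ?_, ?_, ?_⟩
  · exact (totalDegree_sub P0 P1).trans (max_le hd0 (by omega))
  · rw [map_sub, hc0, homogeneousComponent_eq_zero _ _ (by omega), sub_zero]
  · rw [map_sub, hf, hc1]
    ring

/-- Z9c2. -/
theorem pi_Z (K : Ker M Λ ι) (n m a r' : ℕ) (hm : r' + 1 + a = m) (h L : Po ℂ) (hh : h.IsHomogeneous (r' + 1)) (hL : L.IsHomogeneous 1)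
    (hu : ∀ g ∈ Hs M a, ∀ p ∈ Hs M r', (ofC h : Po M) * g + ofC (L ^ (a + 1)) * p = 0 → p = 0)
    (hJ : J K (n + 1) m = J K n m) (h1 : ∀ P, P ∈ J K (n + 1) m ↔ ∃ g ∈ Hs M a, P = ofC h * g)
    (P : Po M) (hP : P ∈ Rn K (n + 1)) (p : Po M) (hp : p ∈ Hs M r') (hd : P.totalDegree ≤ m + 1)
    (hc1 : homogeneousComponent (m + 1) P = ofC (h * L ^ (a + 1))) (hc0 : homogeneousComponent m P = ofC (L ^ (a + 1)) * p) :
    cD K.Z p = ∑ i, cst (K.e i) * ofC (pderiv i h) := by
  classical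
  have hR := Rn_Z K n P hP
  have hLa : (L ^ a).IsHomogeneous a := by
    have := hL.pow a
    simpa using this
  have hcst : ∀ (c : ℂ) (Q : Po M) (N : ℕ), Q.IsHomogeneous N → (cst c * Q : Po M).IsHomogeneous N := by
    intro c Q N hQ
    have h0 : (cst c : Po M).IsHomogeneous 0 := by
      unfold cst
      exact isHomogeneous_C _ _
    have := h0.mul hQ
    simpa using this
  -- degrees
  have hsum_le : ∀ (N : ℕ) (f : Fin 2 → Po M), (∀ i, (f i).totalDegree ≤ N) → (∑ i, f i).totalDegree ≤ N := by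
    intro N f hf
    rw [Fin.sum_univ_two]
    exact (totalDegree_add _ _).trans (max_le (hf 0) (hf 1))
  have hcstdeg : ∀ (c : ℂ) (Q : Po M) (N : ℕ), Q.totalDegree ≤ N → (cst c * Q : Po M).totalDegree ≤ N := by
    intro c Q N hQ
    refine (totalDegree_mul _ _).trans ?_
    have h0 : (cst c : Po M).totalDegree = 0 := by
      unfold cst
      exact totalDegree_C _
    omega
  have hdP' : (cD K.Z P - ∑ i, cst (K.e i) * pderiv i P).totalDegree ≤ m + 1 := by
    refine (totalDegree_sub _ _).trans (max_le ((cD_totalDegree _ _).trans hd) ?_)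
    refine hsum_le _ _ (fun i => hcstdeg _ _ _ ?_)
    exact (totalDegree_pderiv_lt m i P hd).trans (by omega)
  have hz : homogeneousComponent (m + 1 + 1) P = 0 := homogeneousComponent_eq_zero _ _ (by omega)
  have hcomp1 : homogeneousComponent (m + 1) (cD K.Z P - ∑ i, cst (K.e i) * pderiv i P) = 0 := by
    rw [map_sub, map_sum, cD_hc, hc1, cD_ofC, zero_sub, neg_eq_zero]
    refine Finset.sum_eq_zero (fun i _ => ?_)
    rw [hc_cst_mul, hc_pderiv, hz, map_zero, mul_zero]
  have hdm := totalDegree_lt_of_hc m _ hdP' hcomp1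
  have hcomp0 : homogeneousComponent m (cD K.Z P - ∑ i, cst (K.e i) * pderiv i P) =
      ofC (L ^ (a + 1)) * cD K.Z p - ∑ i, cst (K.e i) * (ofC (pderiv i h) * ofC (L ^ (a + 1)) +
        ofC h * (((a + 1 : ℕ) : Po M) * (ofC (L ^ a) * ofC (pderiv i L)))) := by
    rw [map_sub, map_sum, cD_hc, hc0, mul_comm (ofC (L ^ (a + 1))) p, cD_mul_ofC, mul_comm (cD K.Z p)]
    congr 1
    refine Finset.sum_congr rfl (fun i _ => ?_)
    rw [hc_cst_mul, hc_pderiv, hc1, ZA11_pderiv_ofC]
    congr 1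
    rw [pderiv_mul, pderiv_pow]
    simp only [ofC, map_add, map_mul, map_pow, map_natCast, Nat.add_sub_cancel]
    ring
  have hJm : homogeneousComponent m (cD K.Z P - ∑ i, cst (K.e i) * pderiv i P) ∈ J K (n + 1) m := by
    rw [hJ, mem_J]
    exact ⟨_, hR, hdm, rfl⟩
  obtain ⟨g, hg, hgE⟩ := (h1 _).1 hJm
  rw [hcomp0] at hgE
  have hpdL : ∀ i, (pderiv i L).IsHomogeneous 0 := by
    intro i
    have := hL.pderiv (i := i)
    simpa using this
  have hpdh : ∀ i, (pderiv i h).IsHomogeneous r' := by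
    intro i
    have := hh.pderiv (i := i)
    simpa using this
  have hq : cD K.Z p - ∑ i, cst (K.e i) * ofC (pderiv i h) = 0 := by
    refine hu (-(g + ∑ i, cst (K.e i) * (((a + 1 : ℕ) : Po M) * (ofC (L ^ a) * ofC (pderiv i L))))) ?_ _ ?_ ?_
    · refine Submodule.neg_mem _ (Submodule.add_mem _ hg (Submodule.sum_mem _ (fun i _ => ?_)))
      rw [mem_homogeneousSubmodule]
      refine hcst _ _ _ ?_
      have e1 := (ZA11_ofC_homog (M := M) _ _ hLa).mul (ZA11_ofC_homog (M := M) _ _ (hpdL i))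
      have e2 : (((a + 1 : ℕ) : Po M)).IsHomogeneous 0 := by
        have : (((a + 1 : ℕ) : Po M)) = C ((a + 1 : ℕ) : M) := by simp
        rw [this]
        exact isHomogeneous_C _ _
      have := e2.mul e1
      simpa using this
    · refine Submodule.sub_mem _ ?_ (Submodule.sum_mem _ (fun i _ => ?_))
      · rw [mem_homogeneousSubmodule]
        exact cD_homog _ _ _ ((mem_homogeneousSubmodule _ _).1 hp)
      · rw [mem_homogeneousSubmodule]
        exact hcst _ _ _ (ZA11_ofC_homog _ _ (hpdh i))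
    · rw [Fin.sum_univ_two] at hgE ⊢
      rw [Fin.sum_univ_two]
      linear_combination hgE
  exact sub_eq_zero.1 hq

theorem z12_pd (r : ℕ) (h : Po ℂ) (hh : h.IsHomogeneous (r + 1)) (i : Fin 2) : (pderiv i h).IsHomogeneous r := by
  have h1 := hh.pderiv (i := i)
  rwa [Nat.add_sub_cancel] at h1

theorem z12_ofC (r : ℕ) (h : Po ℂ) (hh : h.IsHomogeneous r) : (ofC h : Po M) ∈ Hs M r := by
  rw [mem_homogeneousSubmodule]
  exact hh.map _

theorem z12_cst (r : ℕ) (b : ℂ) (f : Po M) (hf : f ∈ Hs M r) : cst b * f ∈ Hs M r := by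
  rw [mem_homogeneousSubmodule] at hf ⊢
  exact hf.C_mul _

theorem z12_pd_ofC (i : Fin 2) (h : Po ℂ) : pderiv i (ofC h : Po M) = ofC (pderiv i h) := by
  unfold ofC
  rw [pderiv_map]

theorem z12_ofC_mul (f g : Po ℂ) : (ofC (f * g) : Po M) = ofC f * ofC g := map_mul _ _ _

theorem z12_ofC_add (f g : Po ℂ) : (ofC (f + g) : Po M) = ofC f + ofC g := map_add _ _ _

/-- the derivative of the leading form -/
theorem z12_lead (a : ℕ) (h L : Po ℂ) (i : Fin 2) :
    pderiv i (ofC (h * L ^ (a + 1)) : Po M) =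
      ofC (L ^ (a + 1)) * ofC (pderiv i h) + ofC h * ofC (((a + 1 : ℕ) : Po ℂ) * L ^ a * pderiv i L) := by
  rw [z12_pd_ofC, pderiv_mul, pderiv_pow, z12_ofC_add, z12_ofC_mul, z12_ofC_mul, Nat.add_sub_cancel,
    mul_comm (ofC (pderiv i h)) _]

theorem z12_Ld (a : ℕ) (L : Po ℂ) (hL : L.IsHomogeneous 1) (i : Fin 2) :
    (ofC (((a + 1 : ℕ) : Po ℂ) * L ^ a * pderiv i L) : Po M) ∈ Hs M a := by
  refine z12_ofC a _ ?_
  have h1 : (L ^ a).IsHomogeneous (1 * a) := hL.pow a
  have h2 : (pderiv i L).IsHomogeneous 0 := z12_pd 0 L hL i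
  have h3 : (C ((a + 1 : ℕ) : ℂ) * (L ^ a * pderiv i L) : Po ℂ).IsHomogeneous (1 * a + 0) := (h1.mul h2).C_mul _
  have e : (((a + 1 : ℕ) : Po ℂ) * L ^ a * pderiv i L) = C ((a + 1 : ℕ) : ℂ) * (L ^ a * pderiv i L) := by
    rw [map_natCast, mul_assoc]
  rw [e]
  rwa [one_mul, add_zero] at h3

/-- Z9c3. PROOF. `Rn_T`: `P' = sh (lam w) (map (T w) P) ∈ Rn K (n+1)`, and `P' - P ∈ Rn K (n+1)`. By `hc_sh`, `hc_map`, `map_ofC`: the component of degree `m + 1` of `P'` is that of `P`, so `deg (P' - P) ≤ m`, its component of degree `m` is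
`ofC (L^(a+1)) * (map (T w) p - p) + ∑ i, cst (lam w i) * pderiv i (ofC (h L^(a+1)))`, in `J K (n+1) m`. As in Z9c2. -/
theorem pi_T (K : Ker M Λ ι) (n m a r' : ℕ) (hm : r' + 1 + a = m) (h L : Po ℂ) (hh : h.IsHomogeneous (r' + 1)) (hL : L.IsHomogeneous 1)
    (hu : ∀ g ∈ Hs M a, ∀ p ∈ Hs M r', (ofC h : Po M) * g + ofC (L ^ (a + 1)) * p = 0 → p = 0)
    (h1 : ∀ P, P ∈ J K (n + 1) m ↔ ∃ g ∈ Hs M a, P = ofC h * g)
    (P : Po M) (hP : P ∈ Rn K (n + 1)) (p : Po M) (hp : p ∈ Hs M r') (hd : P.totalDegree ≤ m + 1)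
    (hc1 : homogeneousComponent (m + 1) P = ofC (h * L ^ (a + 1))) (hc0 : homogeneousComponent m P = ofC (L ^ (a + 1)) * p) (w : Λ) :
    map (K.T w) p = p - ∑ i, cst (K.lam w i) * ofC (pderiv i h) := by
  have hTP : (map (K.T w) P).totalDegree ≤ m + 1 := by
    refine le_trans ?_ hd
    refine Finset.sup_mono ?_
    exact support_map_subset _ _
  obtain ⟨e1, e0⟩ := hc_sh (K.lam w) m (map (K.T w) P) hTP
  rw [hc_map, hc1, map_ofC _ (K.TC w)] at e1
  rw [hc_map, hc_map, hc1, hc0, map_ofC _ (K.TC w), map_mul, map_ofC _ (K.TC w)] at e0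
  have hdS : (sh (K.lam w) (map (K.T w) P)).totalDegree ≤ m + 1 := (sh_totalDegree _ _).trans hTP
  have hR : sh (K.lam w) (map (K.T w) P) - P ∈ Rn K (n + 1) := Submodule.sub_mem _ (Rn_T K (n + 1) P hP w) hP
  have hdR : (sh (K.lam w) (map (K.T w) P) - P).totalDegree ≤ m := by
    refine totalDegree_lt_of_hc m _ ?_ ?_
    · exact (totalDegree_sub _ _).trans (max_le hdS hd)
    · rw [map_sub, e1, hc1, sub_self]
  have hJ : homogeneousComponent m (sh (K.lam w) (map (K.T w) P) - P) ∈ J K (n + 1) m :=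
    (mem_J K (n + 1) m _).2 ⟨_, hR, hdR, rfl⟩
  obtain ⟨g, hg, eg⟩ := (h1 _).1 hJ
  rw [map_sub, e0, hc0] at eg
  have es : ∑ i, cst (K.lam w i) * pderiv i (ofC (h * L ^ (a + 1)) : Po M) =
      ofC (L ^ (a + 1)) * (∑ i, cst (K.lam w i) * ofC (pderiv i h)) +
        ofC h * (∑ i, cst (K.lam w i) * ofC (((a + 1 : ℕ) : Po ℂ) * L ^ a * pderiv i L)) := by
    rw [Finset.mul_sum, Finset.mul_sum, ← Finset.sum_add_distrib]
    refine Finset.sum_congr rfl fun i _ => ?_
    rw [z12_lead]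
    ring
  rw [es] at eg
  have hg' : ((∑ i, cst (K.lam w i) * ofC (((a + 1 : ℕ) : Po ℂ) * L ^ a * pderiv i L)) - g : Po M) ∈ Hs M a := by
    refine Submodule.sub_mem _ (Submodule.sum_mem _ fun i _ => ?_) hg
    exact z12_cst a _ _ (z12_Ld a L hL i)
  have hmp : (map (K.T w) p) ∈ Hs M r' := by
    rw [mem_homogeneousSubmodule] at hp ⊢
    exact hp.map _
  have hp' : (map (K.T w) p - p + ∑ i, cst (K.lam w i) * ofC (pderiv i h) : Po M) ∈ Hs M r' := by
    refine Submodule.add_mem _ (Submodule.sub_mem _ hmp hp) (Submodule.sum_mem _ fun i _ => ?_)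
    exact z12_cst r' _ _ (z12_ofC r' _ (z12_pd r' h hh i))
  have key := hu _ hg' _ hp' (by linear_combination eg)
  linear_combination key

theorem z12_pd_zero (r : ℕ) (h : Po ℂ) (hh : h.IsHomogeneous (r + 1)) (hz : ∀ i, pderiv i h = 0) : h = 0 := by
  have h1 := hh.sum_X_mul_pderiv
  rw [Finset.sum_eq_zero fun i _ => by rw [hz i, mul_zero]] at h1
  have h2 : ((r + 1 : ℕ) : ℂ) • h = 0 := by
    rw [Nat.cast_smul_eq_nsmul, ← h1]
  rcases smul_eq_zero.1 h2 with h3 | h3
  · exact absurd h3 (by exact_mod_cast Nat.succ_ne_zero r)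
  · exact h3

theorem z12_coeff (b : ℂ) (g : Po ℂ) (m1 : Fin 2 →₀ ℕ) :
    (cst b * ofC g : Po M).coeff m1 = algebraMap ℂ M (b * g.coeff m1) := by
  unfold cst ofC
  rw [coeff_C_mul, coeff_map, map_mul]

/-- Z9c4. PROOF. By contradiction and `symbol`: `a0 = finrank (J K (n+1) m) = a + 1 ≥ 1` as `aa K (n+1) m ≤ m`, and `finrank (J K (n+1) (m+1)) = m + 2 - aa = a + 2`. `r = aa K (n+1) m`; if `r = r' + 1`: `split_forms`, `pi_exists`, `pi_Z`, `pi_T`. For a monomial `m1` let `f = p.coeff m1` and `c i = -(pderiv i h).coeff m1`: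
`Z j f` and `T w f - f = ∑ c i lam w i` as in `rigZ`, so `c = 0`: `pderiv i h = 0` for `i = 0, 1`, and `h` is a form of degree `r' + 1 ≥ 1`: `h = 0` (Euler), contradiction. (`aa_add`; `J K n m` has the same dimension as `J K (n+1) m` and is larger, so they are equal: `Submodule.eq_of_le_of_finrank_eq`, `J_anti`.) -/
theorem no_block (K : Ker M Λ ι) (n m : ℕ) (h0 : aa K (n + 1) (m + 1) = aa K (n + 1) m) (h1 : aa K n m = aa K (n + 1) m)
    (h2 : aa K n (m + 1) = aa K (n + 1) m) (h3 : aa K (n + 1) m ≤ m) : aa K (n + 1) m = 0 := by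
  obtain ⟨a, ha⟩ := Nat.exists_eq_add_of_le h3
  have d0 := aa_add K (n + 1) m
  have d1 := aa_add K (n + 1) (m + 1)
  have d2 := aa_add K n m
  have d3 := aa_add K n (m + 1)
  have f0 : Module.finrank M (J K (n + 1) m) = a + 1 := by omega
  have f1 : Module.finrank M (J K (n + 1) (m + 1)) = a + 2 := by omega
  have hfin : ∀ n' k, FiniteDimensional M (J K n' k) := fun n' k =>
    Submodule.finiteDimensional_of_le (J_le K n' k)
  have e0 : J K (n + 1) m = J K n m := by
    have := hfin n m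
    exact Submodule.eq_of_le_of_finrank_eq (J_anti K n m) (by omega)
  have e1 : J K (n + 1) (m + 1) = J K n (m + 1) := by
    have := hfin n (m + 1)
    exact Submodule.eq_of_le_of_finrank_eq (J_anti K n (m + 1)) (by omega)
  obtain ⟨r, hr, h, hne, hh, k1, k2⟩ := symbol K n m a e0 e1 f0 f1
  have hra : aa K (n + 1) m = r := by omega
  rw [hra]
  rcases r with _ | r'
  · rfl
  exfalso
  obtain ⟨L, hL, -, hN⟩ := split_forms (M := M) r' h hne hh
  obtain ⟨hu, hs⟩ := hN a
  obtain ⟨P, hP, p, hp, hd, c1, c0⟩ := pi_exists K n m a r' hr h L hh hL hs k1 k2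
  have hZ := pi_Z K n m a r' hr h L hh hL hu e0 k1 P hP p hp hd c1 c0
  have hT := pi_T K n m a r' hr h L hh hL hu k1 P hP p hp hd c1 c0
  apply hne
  refine z12_pd_zero r' h hh fun i => ?_
  ext m1
  rw [coeff_zero]
  have hrig := K.rigZ (p.coeff m1) (∑ i, K.e i * (pderiv i h).coeff m1)
    (fun i => -(pderiv i h).coeff m1) ?_ ?_
  · have := congrFun hrig.1 i
    simpa using this
  · rw [← coeff_cD, hZ, coeff_sum, map_sum]
    exact Finset.sum_congr rfl fun i _ => z12_coeff _ _ _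
  · intro w
    rw [← coeff_map, hT w, coeff_sub, coeff_sum, map_sum, sub_eq_add_neg, ← Finset.sum_neg_distrib]
    congr 1
    refine Finset.sum_congr rfl fun i _ => ?_
    rw [z12_coeff, ← map_neg]
    congr 1
    ring

end Pool.Agent.MSW

end
end
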