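import Pool.Agent.Lib.MP_f58a57_nt.P.T8c_ODE
import Pool.Agent.Lib.MP_f58a57_nt.T.B3_Bound
import Pool.Agent.Lib.MP_f58a57_nt.T.E1_Rig
import Pool.Agent.Lib.MP_f58a57_nt.T.E2_Lin

/-! # MP_f58a57_nt, all nonspecial points: F1_Ker -/

/-! ### the algebraic part of the kernel -/

section

open Complex MvPolynomial

noncomputable section

namespace Pool.Agent.MSW

open MSD MSP MSU

/-- the operators on the linear maps -/
def x1_T (v : MvPolynomial (Fin 2) ℂ) (e : ℂ) :
    (Polynomial ℂ →ₗ[ℂ] MvPolynomial (Fin 2) ℂ) →ₗ[ℂ] (Polynomial ℂ →ₗ[ℂ] MvPolynomial (Fin 2) ℂ) where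
  toFun f := (LinearMap.mulLeft ℂ v) ∘ₗ f + e • (f ∘ₗ Polynomial.derivative)
  map_add' f g := by
    refine LinearMap.ext fun q => ?_
    simp only [LinearMap.add_apply, LinearMap.comp_apply, LinearMap.smul_apply,
      LinearMap.mulLeft_apply, mul_add, smul_add]
    abel
  map_smul' c f := by
    refine LinearMap.ext fun q => ?_
    simp only [LinearMap.add_apply, LinearMap.comp_apply, LinearMap.smul_apply,
      LinearMap.mulLeft_apply, smul_add, RingHom.id_apply, mul_smul_comm]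
    congr 1
    rw [smul_comm]

theorem x1_T_apply (v : MvPolynomial (Fin 2) ℂ) (e : ℂ) (f : Polynomial ℂ →ₗ[ℂ] MvPolynomial (Fin 2) ℂ) (q : Polynomial ℂ) :
    x1_T v e f q = v * f q + e • f (Polynomial.derivative q) := rfl

theorem x1_comm (v v' : MvPolynomial (Fin 2) ℂ) (e e' : ℂ) :
    Commute (x1_T v e : Module.End ℂ (Polynomial ℂ →ₗ[ℂ] MvPolynomial (Fin 2) ℂ)) (x1_T v' e') := by
  show x1_T v e * x1_T v' e' = x1_T v' e' * x1_T v e
  refine LinearMap.ext fun f => LinearMap.ext fun q => ?_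
  rw [Module.End.mul_apply, Module.End.mul_apply]
  simp only [x1_T_apply]
  simp only [smul_eq_C_mul, mul_add]
  ring

/-- the bilinear map -/
def Phi (zv : MvPolynomial (Fin 2) ℂ) (e : Fin 2 → ℂ) : Po ℂ →ₗ[ℂ] Polynomial ℂ →ₗ[ℂ] MvPolynomial (Fin 2) ℂ :=
  (basisMonomials (Fin 2) ℂ).constr ℂ fun α =>
    ((x1_T (X 0) (e 0) : Module.End ℂ (Polynomial ℂ →ₗ[ℂ] MvPolynomial (Fin 2) ℂ)) ^ (α 0) * (x1_T (X 1) (e 1)) ^ (α 1))
      (Polynomial.aeval zv : Polynomial ℂ →ₐ[ℂ] MvPolynomial (Fin 2) ℂ).toLinearMap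

theorem x1_Phi_X (zv : MvPolynomial (Fin 2) ℂ) (e : Fin 2 → ℂ) (i : Fin 2) (P : Po ℂ) :
    Phi zv e (X i * P) = x1_T (X i) (e i) (Phi zv e P) := by
  have h : (Phi zv e) ∘ₗ (LinearMap.mulLeft ℂ (X i)) = (x1_T (X i) (e i)) ∘ₗ (Phi zv e) := by
    apply (basisMonomials (Fin 2) ℂ).ext
    intro α
    rw [LinearMap.comp_apply, LinearMap.comp_apply, LinearMap.mulLeft_apply]
    have h1 : (X i : Po ℂ) * basisMonomials (Fin 2) ℂ α = basisMonomials (Fin 2) ℂ (Finsupp.single i 1 + α) := by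
      rw [coe_basisMonomials]
      simp only [X, monomial_mul, one_mul]
    rw [h1, Phi, Module.Basis.constr_basis, Module.Basis.constr_basis, ← Module.End.mul_apply]
    congr 1
    fin_cases i
    · simp [pow_add, mul_assoc]
    · have hc := x1_comm (X 0) (X 1) (e 0) (e 1)
      have hc2 := (hc.pow_left (α 0)).eq
      simp only [Fin.mk_one, Finsupp.coe_add, Pi.add_apply, Finsupp.single_eq_same, pow_add, pow_one]
      rw [Finsupp.single_eq_of_ne (by decide), pow_zero, one_mul, ← mul_assoc, hc2, mul_assoc]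
  exact LinearMap.congr_fun h P

theorem Phi_one (zv : MvPolynomial (Fin 2) ℂ) (e : Fin 2 → ℂ) (q : Polynomial ℂ) : Phi zv e 1 q = Polynomial.aeval zv q := by
  have h1 : (1 : Po ℂ) = basisMonomials (Fin 2) ℂ 0 := by
    rw [coe_basisMonomials]
    rfl
  rw [h1, Phi, Module.Basis.constr_basis]
  simp

theorem Phi_X (zv : MvPolynomial (Fin 2) ℂ) (e : Fin 2 → ℂ) (i : Fin 2) (p : Po ℂ) (q : Polynomial ℂ) :
    Phi zv e (X i * p) q = X i * Phi zv e p q + C (e i) * Phi zv e p (Polynomial.derivative q) := by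
  rw [x1_Phi_X, x1_T_apply, smul_eq_C_mul]

theorem XA02_C (zv : MvPolynomial (Fin 2) ℂ) (e : Fin 2 → ℂ) (a : ℂ) (q : Polynomial ℂ) :
    Phi zv e (C a) q = C a * Polynomial.aeval zv q := by
  have h1 : (C a : Po ℂ) = a • (1 : Po ℂ) := by rw [smul_eq_C_mul, mul_one]
  conv_lhs => rw [h1]
  rw [map_smul, LinearMap.smul_apply, Phi_one, smul_eq_C_mul]

theorem XA02_Csmul (zv : MvPolynomial (Fin 2) ℂ) (e : Fin 2 → ℂ) (a : ℂ) (p : Po ℂ) (q : Polynomial ℂ) :
    Phi zv e (C a * p) q = C a * Phi zv e p q := by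
  rw [← smul_eq_C_mul, map_smul, LinearMap.smul_apply, smul_eq_C_mul]

theorem XA02_pX (l j : Fin 2) (q : Po ℂ) :
    pderiv l (X j * q) = (if l = j then q else 0) + X j * pderiv l q := by
  rw [Derivation.leibniz, pderiv_X, smul_eq_mul, smul_eq_mul, add_comm]
  congr 1
  by_cases h : l = j
  · subst h
    simp
  · rw [if_neg h, Pi.single_apply, if_neg (Ne.symm h), mul_zero]

/-- X1b. -/
theorem Phi_Xs (zv : MvPolynomial (Fin 2) ℂ) (e : Fin 2 → ℂ) (p : Po ℂ) (q : Polynomial ℂ) :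
    Phi zv e p (Polynomial.X * q) = zv * Phi zv e p q + ∑ i, C (e i) * Phi zv e (pderiv i p) q := by
  induction p using MvPolynomial.induction_on generalizing q with
  | C a =>
    rw [XA02_C, XA02_C, map_mul, Polynomial.aeval_X]
    simp only [pderiv_C, map_zero, LinearMap.zero_apply, mul_zero, Finset.sum_const_zero, add_zero]
    ring
  | add p1 p2 h1 h2 =>
    simp only [map_add, LinearMap.add_apply]
    rw [h1, h2]
    simp only [mul_add, Finset.sum_add_distrib]
    ring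
  | mul_X p k ih =>
    rw [mul_comm p (X k)]
    have hd : Polynomial.derivative (Polynomial.X * q) = q + Polynomial.X * Polynomial.derivative q := by
      rw [Polynomial.derivative_mul, Polynomial.derivative_X, one_mul]
    rw [Phi_X, ih q, hd, map_add, ih (Polynomial.derivative q), Phi_X]
    have hR : ∀ i : Fin 2, C (e i) * Phi zv e (pderiv i (X k * p)) q =
        (if i = k then C (e i) * Phi zv e p q else 0) + C (e i) *
          (X k * Phi zv e (pderiv i p) q + C (e k) * Phi zv e (pderiv i p) (Polynomial.derivative q)) := by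
      intro i
      rw [XA02_pX, map_add, LinearMap.add_apply, Phi_X, mul_add]
      congr 1
      by_cases h : i = k
      · rw [if_pos h, if_pos h]
      · rw [if_neg h, if_neg h, map_zero, LinearMap.zero_apply, mul_zero]
    rw [Finset.sum_congr rfl fun i _ => hR i, Finset.sum_add_distrib, Finset.sum_ite_eq' Finset.univ k,
        if_pos (Finset.mem_univ k)]
    simp only [Fin.sum_univ_two]
    ring

theorem XA02_lf (η v : Fin 2 → ℂ) :
    aeval (fun l => (X l : MvPolynomial (Fin 2) ℂ) + C (η l)) (lf v) = lf v + C (∑ l, v l * η l) := by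
  unfold lf
  rw [map_sum, map_sum, ← Finset.sum_add_distrib]
  apply Finset.sum_congr rfl
  intro l _
  rw [map_mul, aeval_X, aeval_C, C_mul, mul_add]
  rfl

theorem x1_der_taylor (a : ℂ) (q : Polynomial ℂ) : Polynomial.derivative (Polynomial.taylor a q) = Polynomial.taylor a (Polynomial.derivative q) := by
  simp only [Polynomial.taylor_apply, Polynomial.derivative_comp, Polynomial.derivative_add, Polynomial.derivative_X, Polynomial.derivative_C,
    add_zero, one_mul]

/-- X1c. -/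
theorem Phi_shift (ζ : Fin 2 → ℂ) (e : Fin 2 → ℂ) (η : Fin 2 → ℂ) (p : Po ℂ) (q : Polynomial ℂ) :
    aeval (fun l => (X l : MvPolynomial (Fin 2) ℂ) + C (η l)) (Phi (lf ζ) e p q) =
      Phi (lf ζ) e (sh η p) (Polynomial.taylor (∑ l, ζ l * η l) q) := by
  induction p using MvPolynomial.induction_on generalizing q with
  | C a =>
    have h1 : sh η (C a : Po ℂ) = C a := by
      unfold sh
      rw [aeval_C]
      rfl
    rw [h1, XA02_C, XA02_C, map_mul, aeval_C]
    have h2 : (algebraMap ℂ (MvPolynomial (Fin 2) ℂ)) a = C a := rfl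
    rw [h2]
    congr 1
    have h3 : (aeval (fun l => (X l : MvPolynomial (Fin 2) ℂ) + C (η l))).comp
        (Polynomial.aeval (lf ζ) : Polynomial ℂ →ₐ[ℂ] MvPolynomial (Fin 2) ℂ) =
        (Polynomial.aeval (lf ζ) : Polynomial ℂ →ₐ[ℂ] MvPolynomial (Fin 2) ℂ).comp
          (Polynomial.aeval (Polynomial.X + Polynomial.C (∑ l, ζ l * η l)) : Polynomial ℂ →ₐ[ℂ] Polynomial ℂ) := by
      apply Polynomial.algHom_ext
      rw [AlgHom.comp_apply, AlgHom.comp_apply, Polynomial.aeval_X, Polynomial.aeval_X, XA02_lf, map_add, Polynomial.aeval_X, Polynomial.aeval_C]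
      rfl
    have h4 := congrArg (fun f : Polynomial ℂ →ₐ[ℂ] MvPolynomial (Fin 2) ℂ => f q) h3
    simp only [AlgHom.comp_apply] at h4
    rw [h4]
    congr 1
  | add p1 p2 h1 h2 =>
    have h3 : sh η (p1 + p2) = sh η p1 + sh η p2 := map_add _ _ _
    rw [h3, map_add, map_add, LinearMap.add_apply, LinearMap.add_apply, map_add, h1, h2]
  | mul_X p k ih =>
    rw [mul_comm p (X k)]
    have h3 : sh η (X k * p) = X k * sh η p + C (η k) * sh η p := by
      unfold sh
      rw [map_mul, aeval_X, add_mul]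
      rfl
    rw [h3, Phi_X, map_add, map_add, LinearMap.add_apply, Phi_X, XA02_Csmul, map_mul, map_mul, aeval_X, aeval_C, ih q, ih (Polynomial.derivative q),
      x1_der_taylor]
    have h2 : (algebraMap ℂ (MvPolynomial (Fin 2) ℂ)) (e k) = C (e k) := rfl
    rw [h2]
    ring

end Pool.Agent.MSW

end
end

/-! ### derivatives of the sections as entire functions -/

section

open Complex MvPolynomial Filter Topology

noncomputable section

namespace Pool.Agent.MSW

open MSD MSP MSU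

theorem x2_iter (f : ℂ → ℂ) (hf : Differentiable ℂ f) (k : ℕ) (u : ℂ) : AnalyticAt ℂ (iteratedDeriv k f) u := by
  have h1 : ContDiff ℂ ((k + 1 : ℕ) : WithTop ℕ∞) f := hf.contDiff
  have h2 : Differentiable ℂ (iteratedDeriv k f) :=
    h1.differentiable_iteratedDeriv k (by exact_mod_cast Nat.lt_succ_self k)
  exact h2.analyticAt u

theorem x2_au_an (τ : ℂ) (m n : ℤ) (u : ℂ) : AnalyticAt ℂ (fun t => au τ m n t) u := by
  have h : Differentiable ℂ (fun t => au τ m n t) := by
    unfold au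
    fun_prop
  exact h.analyticAt u

theorem x2_co (l : Fin 2) (t : Fin 2 → ℂ) : AnalyticAt ℂ (fun t : Fin 2 → ℂ => t l) t :=
  (ContinuousLinearMap.proj (R := ℂ) (φ := fun _ : Fin 2 => ℂ) l).analyticAt t

/-- X2a. -/
theorem te_an (f : Fin 2 → ℂ → ℂ) (hf : ∀ l, Differentiable ℂ (f l)) (q : MvPolynomial (Fin 2) ℂ) :
    AnalyticOnNhd ℂ (fun t : Fin 2 → ℂ => TF f t q) Set.univ := by
  intro t _
  unfold TF
  refine Finset.analyticAt_fun_sum _ fun m _ => ?_
  refine AnalyticAt.mul analyticAt_const ?_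
  refine Finset.analyticAt_fun_prod _ fun l _ => ?_
  exact AnalyticAt.fun_comp (x2_iter (f l) (hf l) (m l) _) (x2_co l t)

/-- the function `q(∂) Φ` -/
def TE (f : Fin 2 → ℂ → ℂ) (hf : ∀ l, Differentiable ℂ (f l)) : MvPolynomial (Fin 2) ℂ →ₗ[ℂ] E2 where
  toFun q := ⟨fun t => TF f t q, te_an f hf q⟩
  map_add' p q := by
    apply Subtype.ext
    funext t
    exact TF_add f _ p q
  map_smul' a q := by
    apply Subtype.ext
    funext t
    have := TF_C_mul f t a q
    rw [← MvPolynomial.smul_eq_C_mul] at this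
    exact this

theorem TE_apply (f : Fin 2 → ℂ → ℂ) (hf : ∀ l, Differentiable ℂ (f l)) (q : MvPolynomial (Fin 2) ℂ) (t : Fin 2 → ℂ) :
    (TE f hf q : (Fin 2 → ℂ) → ℂ) t = TF f t q := rfl

/-- X2b. -/
theorem TE_D (f : Fin 2 → ℂ → ℂ) (hf : ∀ l, Differentiable ℂ (f l)) (v : Fin 2 → ℂ) (q : MvPolynomial (Fin 2) ℂ) :
    dE v (TE f hf q) = TE f hf (lf v * q) := by
  apply Subtype.ext
  funext t
  have h1 := dE_line v (TE f hf q) t 0
  have h2 := TF_line f hf t v q 0
  have e1 : (fun y : ℂ => (TE f hf q : (Fin 2 → ℂ) → ℂ) (t + y • v)) =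
      fun s : ℂ => TF f (fun l => t l + s * v l) q := by
    funext y
    rw [TE_apply]
    rfl
  rw [e1] at h1
  have h3 := h1.unique h2
  have e2 : t + (0 : ℂ) • v = t := by simp
  rw [e2] at h3
  refine h3.trans ?_
  have e5 : (fun l => t l + 0 * v l) = t := by
    funext l
    rw [zero_mul, add_zero]
  rw [e5]
  rfl

/-- X2c. -/
theorem aut_exists (z : ℂ) (M : ℕ) (w : Lz) : ∃ f : E2, f ≠ 0 ∧ ∀ t, (f : (Fin 2 → ℂ) → ℂ) t = (∏ l, au z (w.1 l) (w.2 l) (t l)) ^ M := by
  refine ⟨⟨fun t => (∏ l, au z (w.1 l) (w.2 l) (t l)) ^ M, ?_⟩, ?_, fun t => rfl⟩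
  · intro t _
    refine AnalyticAt.pow ?_ M
    refine Finset.analyticAt_fun_prod _ fun l _ => ?_
    exact AnalyticAt.fun_comp (x2_au_an z (w.1 l) (w.2 l) _) (x2_co l t)
  · intro h
    have h1 := congrArg (fun f : E2 => (f : (Fin 2 → ℂ) → ℂ) 0) h
    have h2 : (∏ l : Fin 2, au z (w.1 l) (w.2 l) ((0 : Fin 2 → ℂ) l)) ^ M = 0 := h1
    exact (Finset.prod_ne_zero_iff.2 fun l _ => au_ne _ _ _ _) (eq_zero_of_pow_eq_zero h2)

/-- X2d. -/
theorem TE_tr (z : ℂ) (hz : 0 < z.im) (M : ℕ) (f : Fin 2 → ℂ → ℂ) (hf : ∀ l, Differentiable ℂ (f l))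
    (hs : ∀ (m n : ℤ) l t, f l (t + (m + n * z)) = au z m n t ^ M * f l t) (w : Lz) (q : MvPolynomial (Fin 2) ℂ) (g : E2)
    (hg : ∀ t, (g : (Fin 2 → ℂ) → ℂ) t = (∏ l, au z (w.1 l) (w.2 l) (t l)) ^ M) :
    trE (wz z w) (TE f hf q) = g * TE f hf (aeval (fun l => (X l : MvPolynomial (Fin 2) ℂ) + C (qz M w l)) q) := by
  apply Subtype.ext
  funext t
  have h1 := TF_shift z hz M f hf w.1 w.2 (fun l t => hs (w.1 l) (w.2 l) l t) t q
  have e2 : (g * TE f hf (aeval (fun l => (X l : MvPolynomial (Fin 2) ℂ) + C (qz M w l)) q) : E2).1 t =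
      (g : (Fin 2 → ℂ) → ℂ) t * TF f t (aeval (fun l => (X l : MvPolynomial (Fin 2) ℂ) + C (qz M w l)) q) := rfl
  have e3 : (fun l => (X l : MvPolynomial (Fin 2) ℂ) + C (qz M w l)) =
      fun l => X l - C (2 * Real.pi * I * M * w.2 l) := by
    funext l
    rw [qz, C_neg, sub_eq_add_neg]
  refine Eq.trans ?_ e2.symm
  rw [hg t, e3]
  exact h1

/-- X2e. one variable: the sections are linearly independent. Near `t = 0`, `N0 = th` has a zero and `N2` does not vanish. -/
theorem fa_li (z om : ℂ) (hz : 0 < z.im) (hom : om ≠ 0) (L : ℕ) (c : Fin L → ℂ) (h : ∀ t, ∑ a, c a * fa z om (2 * L) a.val t = 0) : c = 0 := by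
  have hth : Differentiable ℂ (th z) := th_differentiable z hz
  have h00 : N0 z 0 = 0 := t8c_zero z hz
  have hN2c : ContinuousAt (N2 z (sE z)) 0 := by
    have h1 : Differentiable ℂ (deriv (th z)) := hth.deriv
    have h2 : Differentiable ℂ (deriv (deriv (th z))) := h1.deriv
    have h3 : Differentiable ℂ (fun t => N2 z (sE z) t) := by
      unfold N2
      exact ((h1.pow 2).sub (hth.mul h2)).sub ((hth.pow 2).const_mul _)
    exact h3.continuous.continuousAt
  have hN20 : N2 z (sE z) 0 ≠ 0 := by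
    have h1 : N2 z (sE z) 0 = deriv (th z) 0 ^ 2 := by
      unfold N2
      rw [show th z 0 = 0 from h00]
      ring
    rw [h1]
    exact pow_ne_zero 2 (deriv_th_zero_ne z hz)
  have hN0c : ContinuousAt (N0 z) 0 := hth.continuous.continuousAt
  by_contra hc
  have hex : ∃ a : Fin L, c a ≠ 0 := by
    by_contra hcon
    push Not at hcon
    exact hc (funext hcon)
  -- the largest index
  obtain ⟨a, ha, hmax⟩ : ∃ a : Fin L, c a ≠ 0 ∧ ∀ b, a < b → c b = 0 := by
    obtain ⟨a, ha1, ha2⟩ := (Finset.univ.filter fun a : Fin L => c a ≠ 0).exists_max_image (fun a => a)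
      (by obtain ⟨a, ha⟩ := hex; exact ⟨a, Finset.mem_filter.2 ⟨Finset.mem_univ _, ha⟩⟩)
    refine ⟨a, (Finset.mem_filter.1 ha1).2, fun b hb => ?_⟩
    by_contra hb0
    exact absurd (ha2 b (Finset.mem_filter.2 ⟨Finset.mem_univ _, hb0⟩)) (not_le.2 hb)
  -- the quotient by `N0 ^ (2 L - 2 a)`
  let G : ℂ → ℂ := fun t => ∑ b : Fin L, if b ≤ a then c b * ((N2 z (sE z) t / om ^ 2) ^ b.val * N0 z t ^ (2 * (a.val - b.val))) else 0
  have hG : ∀ t, ∑ b, c b * fa z om (2 * L) b.val t = N0 z t ^ (2 * L - 2 * a.val) * G t := by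
    intro t
    simp only [G]
    rw [Finset.mul_sum]
    refine Finset.sum_congr rfl fun b _ => ?_
    by_cases hb : b ≤ a
    · rw [if_pos hb]
      unfold fa
      have e : 2 * L - 2 * b.val = (2 * L - 2 * a.val) + 2 * (a.val - b.val) := by
        have h1 : b.val ≤ a.val := hb
        have h2 := a.isLt
        omega
      rw [e, pow_add]
      ring
    · rw [if_neg hb, hmax b (not_le.1 hb)]
      ring
  have hGz : ∀ᶠ t in 𝓝[≠] (0 : ℂ), G t = 0 := by
    filter_upwards [t8c_ev_ne z hz] with t ht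
    have h1 := hG t
    rw [h t] at h1
    exact (mul_eq_zero.1 h1.symm).resolve_left (pow_ne_zero _ ht)
  have hGc : ContinuousAt G 0 := by
    simp only [G]
    refine tendsto_finsetSum _ fun b _ => ?_
    by_cases hb : b ≤ a
    · simp only [if_pos hb]
      exact (continuousAt_const.mul (((hN2c.div_const _).pow _).mul (hN0c.pow _)))
    · simp only [if_neg hb]
      exact tendsto_const_nhds
  have hG0 : G 0 = 0 := by
    have h1 : Tendsto G (𝓝[≠] (0 : ℂ)) (𝓝 (G 0)) := hGc.tendsto.mono_left nhdsWithin_le_nhds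
    have h2 : Tendsto G (𝓝[≠] (0 : ℂ)) (𝓝 0) := (tendsto_const_nhds).congr' (hGz.mono fun t ht => ht.symm)
    exact tendsto_nhds_unique h1 h2
  have hGv : G 0 = c a * (N2 z (sE z) 0 / om ^ 2) ^ a.val := by
    simp only [G]
    rw [Finset.sum_eq_single a]
    · rw [if_pos le_rfl, Nat.sub_self, mul_zero, pow_zero, mul_one]
    · intro b _ hb
      by_cases hba : b ≤ a
      · rw [if_pos hba, h00, zero_pow, mul_zero, mul_zero]
        have h1 : b.val < a.val := lt_of_le_of_ne hba (fun h9 => hb (Fin.ext h9))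
        omega
      · rw [if_neg hba]
    · intro hna
      exact absurd (Finset.mem_univ a) hna
  rw [hG0] at hGv
  have h5 : (N2 z (sE z) 0 / om ^ 2) ^ a.val ≠ 0 := pow_ne_zero _ (div_ne_zero hN20 (pow_ne_zero 2 hom))
  exact ha ((mul_eq_zero.1 hGv.symm).resolve_right h5)

/-- X2f. two variables -/
theorem fa_li2 (z om : ℂ) (hz : 0 < z.im) (hom : om ≠ 0) (L : ℕ) (c : (Fin 2 → Fin L) → ℂ)
    (h : ∀ t : Fin 2 → ℂ, ∑ a, c a * ∏ l, fa z om (2 * L) (a l).val (t l) = 0) : c = 0 := by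
  have h1 : ∀ t0 t1 : ℂ, ∑ a0 : Fin L, (∑ a1 : Fin L, c ![a0, a1] * fa z om (2 * L) a1.val t1) * fa z om (2 * L) a0.val t0 = 0 := by
    intro t0 t1
    rw [← h ![t0, t1]]
    rw [← (finTwoArrowEquiv (Fin L)).symm.sum_comp, Fintype.sum_prod_type]
    refine Finset.sum_congr rfl fun a0 _ => ?_
    rw [Finset.sum_mul]
    refine Finset.sum_congr rfl fun a1 _ => ?_
    simp only [finTwoArrowEquiv_symm_apply, Fin.prod_univ_two, Matrix.cons_val_zero, Matrix.cons_val_one, Matrix.cons_val_fin_one]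
    ring
  have h2 : ∀ (a0 : Fin L) (t1 : ℂ), ∑ a1 : Fin L, c ![a0, a1] * fa z om (2 * L) a1.val t1 = 0 := by
    intro a0 t1
    exact congrFun (fa_li z om hz hom L (fun a0 => ∑ a1 : Fin L, c ![a0, a1] * fa z om (2 * L) a1.val t1) (fun t0 => h1 t0 t1)) a0
  funext a
  have h3 := congrFun (fa_li z om hz hom L (fun a1 => c ![a 0, a1]) (h2 (a 0))) (a 1)
  have h4 : (![a 0, a 1] : Fin 2 → Fin L) = a := by
    funext l
    fin_cases l <;> rfl
  rw [h4] at h3
  exact h3

end Pool.Agent.MSW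

end
end

/-! ### the kernel of the sections is a kernel -/

section

open Complex MvPolynomial

noncomputable section

namespace Pool.Agent.MSW

open MSD MSP MSU

theorem em_smul (a : ℂ) (f : E2) : em (a • f) = a • em f := by
  rw [Algebra.smul_def, Algebra.smul_def, ← em_C, em, em, em, map_mul]

theorem em_add (f g : E2) : em (f + g) = em f + em g := by
  rw [em, em, em, map_add]

theorem em_mul (f g : E2) : em (f * g) = em f * em g := by
  rw [em, em, em, map_mul]

theorem TE_C (f : Fin 2 → ℂ → ℂ) (hf : ∀ l, Differentiable ℂ (f l)) (a : ℂ) (q : MvPolynomial (Fin 2) ℂ) : TE f hf (C a * q) = a • TE f hf q := by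
  rw [← MvPolynomial.smul_eq_C_mul, map_smul]

/-- the bilinear form over `ℂ` of one column -/
def bK (f : Fin 2 → ℂ → ℂ) (hf : ∀ l, Differentiable ℂ (f l)) (z om : ℂ) (M : ℕ) : Po ℂ →ₗ[ℂ] Polynomial ℂ →ₗ[ℂ] M2 :=
  LinearMap.mk₂ ℂ (fun p q => em (TE f hf (Phi (lf (Zv z om)) (eK om M) p q)))
    (by
      intro m₁ m₂ n
      rw [map_add, LinearMap.add_apply, map_add, em_add])
    (by
      intro c m n
      rw [map_smul, LinearMap.smul_apply, map_smul, em_smul])
    (by
      intro m n₁ n₂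
      rw [map_add, map_add, em_add])
    (by
      intro c m n
      rw [map_smul, map_smul, em_smul])

theorem bK_apply (f : Fin 2 → ℂ → ℂ) (hf : ∀ l, Differentiable ℂ (f l)) (z om : ℂ) (M : ℕ) (p : Po ℂ) (q : Polynomial ℂ) :
    bK f hf z om M p q = em (TE f hf (Phi (lf (Zv z om)) (eK om M) p q)) := rfl

theorem lf_single (i : Fin 2) : lf (Pi.single i 1) = X i := by
  unfold lf
  rw [Finset.sum_eq_single i]
  · simp
  · intro l _ hl
    simp [hl]
  · intro h
    exact absurd (Finset.mem_univ i) h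

/-- X5a. -/
theorem bK_D (f : Fin 2 → ℂ → ℂ) (hf : ∀ l, Differentiable ℂ (f l)) (z om : ℂ) (M : ℕ) (i : Fin 2) (p : Po ℂ) (q : Polynomial ℂ) :
    dM (Pi.single i 1) (bK f hf z om M p q) = bK f hf z om M (X i * p) q -
      algebraMap ℂ M2 (eK om M i) * bK f hf z om M p (Polynomial.derivative q) := by
  simp only [bK_apply]
  rw [dM_em, TE_D, lf_single, Phi_X, map_add, em_add, TE_C, em_smul, Algebra.smul_def, add_sub_cancel_right]

/-- X5b. -/
theorem bK_Z (f : Fin 2 → ℂ → ℂ) (hf : ∀ l, Differentiable ℂ (f l)) (z om : ℂ) (M : ℕ) (p : Po ℂ) (q : Polynomial ℂ) :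
    dM (Zv z om) (bK f hf z om M p q) = bK f hf z om M p (Polynomial.X * q) -
      ∑ i, algebraMap ℂ M2 (eK om M i) * bK f hf z om M (pderiv i p) q := by
  simp only [bK_apply]
  rw [dM_em, TE_D, Phi_Xs, map_add, map_sum, em_add]
  rw [eq_sub_iff_add_eq]
  congr 1
  rw [em, map_sum]
  apply Finset.sum_congr rfl
  intro i _
  rw [TE_C, ← Algebra.smul_def, ← em_smul]
  rfl

/-- X5c. -/
theorem bK_T (z om : ℂ) (hz : 0 < z.im) (M : ℕ) (w : Lz) : ∃ c : M2, c ≠ 0 ∧ ∀ (f : Fin 2 → ℂ → ℂ) (hf : ∀ l, Differentiable ℂ (f l)),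
    (∀ (m n : ℤ) l t, f l (t + (m + n * z)) = au z m n t ^ M * f l t) → ∀ (p : Po ℂ) (q : Polynomial ℂ),
      trM (wz z w) (bK f hf z om M p q) = c * bK f hf z om M (sh (qz M w) p) (Polynomial.taylor (∑ l, Zv z om l * qz M w l) q) := by
  obtain ⟨g, hg0, hg⟩ := aut_exists z M w
  refine ⟨em g, em_ne g hg0, fun f hf hs p q => ?_⟩
  simp only [bK_apply]
  rw [trM_em, TE_tr z hz M f hf hs w _ g hg, Phi_shift, em_mul]

theorem pi2_ne : (-(2 * Real.pi * I) : ℂ) ≠ 0 := by
  rw [neg_ne_zero]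
  exact mul_ne_zero (mul_ne_zero two_ne_zero (by exact_mod_cast Real.pi_ne_zero)) I_ne_zero

theorem rh_ne : (rh : ℂ) ≠ 0 := by
  show MSK.rh ≠ 0
  rw [MSK.rh]
  exact div_ne_zero (neg_ne_zero.2 I_ne_zero) two_ne_zero

/-- X5d. -/
theorem bK_rigD (z om : ℂ) (hom : om ≠ 0) (M : ℕ) (hM : M ≠ 0) (f : M2) (κ : Fin 2 → ℂ) (c : ℂ)
    (h1 : ∀ i, dM (Pi.single i 1) f = algebraMap ℂ M2 (κ i))
    (h2 : ∀ w : Lz, trM (wz z w) f = f + algebraMap ℂ M2 (c * ∑ l, Zv z om l * qz M w l)) : c = 0 ∧ ∃ a : ℂ, f = algebraMap ℂ M2 a := by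
  refine rigD z (fun l => Zv z om l * (-(2 * Real.pi * I) * M)) ?_ f κ c h1 fun m n => ?_
  · have hM' : (M : ℂ) ≠ 0 := by exact_mod_cast hM
    have h3 : Zv z om 0 ≠ 0 := by
      unfold Zv cz
      rw [if_pos rfl, mul_one]
      exact div_ne_zero rh_ne hom
    exact mul_ne_zero h3 (mul_ne_zero pi2_ne hM')
  · have h := h2 (m, n)
    have e1 : wz z ((m, n) : Lz) = fun l => (m l : ℂ) + n l * z := rfl
    rw [e1] at h
    rw [h]
    congr 3
    refine Finset.sum_congr rfl fun l _ => ?_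
    simp only [qz]
    ring

/-- X5e. -/
theorem bK_rigZ (z om : ℂ) (hz : 0 < z.im) (hns : ¬ IsSpecial z) (hom : om ≠ 0) (M : ℕ) (hM : M ≠ 0) (f : M2) (κ : ℂ) (c : Fin 2 → ℂ)
    (h1 : dM (Zv z om) f = algebraMap ℂ M2 κ)
    (h2 : ∀ w : Lz, trM (wz z w) f = f + algebraMap ℂ M2 (∑ j, c j * qz M w j)) : c = 0 ∧ ∃ a : ℂ, f = algebraMap ℂ M2 a := by
  have hz0 : z ≠ 0 := by
    rintro rfl
    simp at hz
  have hns' : ∀ n : Fin 3 → ℤ, ∑ l, (![z ^ 2, z, -1] : Fin 3 → ℂ) l * (n l : ℂ) = 0 → n = 0 := by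
    intro n hn
    by_contra hcon
    apply hns
    refine ⟨n 0, n 1, -n 2, ?_, ?_⟩
    · rintro ⟨e0, e1, e2⟩
      apply hcon
      funext l
      fin_cases l
      · exact e0
      · exact e1
      · exact neg_eq_zero.1 e2
    · rw [Fin.sum_univ_three] at hn
      simp only [Matrix.cons_val_zero, Matrix.cons_val_one, Matrix.cons_val] at hn
      push_cast
      linear_combination hn
  have eZ : Zv z om = fun l => rh / om * (![1, z] : Fin 2 → ℂ) l := by
    funext l
    unfold Zv cz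
    fin_cases l <;> simp
  rw [eZ] at h1
  obtain ⟨hC, ha⟩ := rigZ z hz0 hns' (rh / om) (div_ne_zero rh_ne hom) f κ (fun j => c j * (-(2 * Real.pi * I) * M)) h1 fun m n => by
    have h := h2 (m, n)
    have e1 : wz z ((m, n) : Lz) = fun l => (m l : ℂ) + n l * z := rfl
    rw [e1] at h
    rw [h]
    congr 2
    refine Finset.sum_congr rfl fun l _ => ?_
    simp only [qz]
    ring
  refine ⟨?_, ha⟩
  funext j
  have h3 := congrFun hC j
  simp only [Pi.zero_apply] at h3
  have hM' : (M : ℂ) ≠ 0 := by exact_mod_cast hM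
  exact (mul_eq_zero.1 h3).resolve_right (mul_ne_zero pi2_ne hM')

/-- the columns -/
def fc (z om : ℂ) {L : ℕ} (a : Fin 2 → Fin L) (l : Fin 2) : ℂ → ℂ := fa z om (2 * L) (a l).val

theorem fc_diff (z om : ℂ) (hz : 0 < z.im) {L : ℕ} (a : Fin 2 → Fin L) (l : Fin 2) : Differentiable ℂ (fc z om a l) :=
  fa_diff z om hz (2 * L) (a l).val

theorem fc_shift (z om : ℂ) (hz : 0 < z.im) {L : ℕ} (a : Fin 2 → Fin L) (m n : ℤ) (l : Fin 2) (t : ℂ) :
    fc z om a l (t + (m + n * z)) = au z m n t ^ (2 * L) * fc z om a l t :=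
  fa_shift z om hz (2 * L) (a l).val (by have := (a l).isLt; omega) m n t

/-- X5f. -/
theorem ker_exists (z om : ℂ) (hz : 0 < z.im) (hns : ¬ IsSpecial z) (hom : om ≠ 0) (L : ℕ) (hL : 1 ≤ L) :
    ∃ K : Ker M2 Lz (Fin 2 → Fin L), ∀ (p : Po ℂ) (q : (Fin 2 → Fin L) → Polynomial ℂ), K.B (ofC p) (fun a => oP (q a)) =
      em (∑ a, TE (fc z om a) (fc_diff z om hz a) (Phi (lf (Zv z om)) (eK om (2 * L)) p (q a))) := by
  classical
  choose B hB using fun a : Fin 2 → Fin L => ext_exists (bK (fc z om a) (fc_diff z om hz a) z om (2 * L))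
  choose cc hc0 hcT using bK_T z om hz (2 * L)
  let BB : Po M2 →ₗ[M2] ((Fin 2 → Fin L) → Polynomial M2) →ₗ[M2] M2 :=
    ∑ a, (B a).compl₂ (LinearMap.proj a)
  have hBB : ∀ P q, BB P q = ∑ a, B a P (q a) := by
    intro P q
    simp only [BB, LinearMap.sum_apply, LinearMap.compl₂_apply, LinearMap.proj_apply]
  have hem : ∀ (s : Finset (Fin 2 → Fin L)) (F : (Fin 2 → Fin L) → E2), em (∑ a ∈ s, F a) = ∑ a ∈ s, em (F a) :=
    fun s F => map_sum (algebraMap E2 M2) F s
  have hval : ∀ (p : Po ℂ) (q : (Fin 2 → Fin L) → Polynomial ℂ), BB (ofC p) (fun a => oP (q a)) =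
      em (∑ a, TE (fc z om a) (fc_diff z om hz a) (Phi (lf (Zv z om)) (eK om (2 * L)) p (q a))) := by
    intro p q
    rw [hBB, hem]
    exact Finset.sum_congr rfl fun a _ => (hB a p (q a)).trans (bK_apply _ _ _ _ _ _ _)
  have hB1 : ∀ c : (Fin 2 → Fin L) → ℂ, c ≠ 0 → BB 1 (fun a => Polynomial.C (algebraMap ℂ M2 (c a))) ≠ 0 := by
    intro c hc h0
    apply hc
    have h1 : (1 : Po M2) = ofC (1 : Po ℂ) := by
      unfold ofC
      rw [map_one]
    have h2 : (fun a : Fin 2 → Fin L => (Polynomial.C (algebraMap ℂ M2 (c a)) : Polynomial M2)) = fun a => oP (Polynomial.C (c a)) := by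
      funext a
      unfold oP
      rw [Polynomial.map_C]
    rw [h1, h2, hval] at h0
    have h3 : (∑ a, TE (fc z om a) (fc_diff z om hz a) (Phi (lf (Zv z om)) (eK om (2 * L)) 1 (Polynomial.C (c a)))) = 0 := by
      by_contra hne
      exact em_ne _ hne h0
    refine fa_li2 z om hz hom L c fun t => ?_
    have h4 := congrArg (fun F : E2 => (F : (Fin 2 → ℂ) → ℂ) t) h3
    have h5 : ∀ (s : Finset (Fin 2 → Fin L)) (F : (Fin 2 → Fin L) → E2), ((∑ a ∈ s, F a : E2) : (Fin 2 → ℂ) → ℂ) t = ∑ a ∈ s, (F a : (Fin 2 → ℂ) → ℂ) t := by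
      intro s F
      induction s using Finset.induction_on with
      | empty => rfl
      | insert a s ha ih =>
        rw [Finset.sum_insert ha, Finset.sum_insert ha, ← ih]
        rfl
    simp only [h5] at h4
    refine Eq.trans ?_ h4
    refine Finset.sum_congr rfl fun a _ => ?_
    rw [Phi_one, Polynomial.aeval_C]
    have h6 : (algebraMap ℂ (MvPolynomial (Fin 2) ℂ)) (c a) = C (c a) * 1 := by rw [mul_one]; rfl
    rw [h6, TE_C]
    have h7 : ((c a • TE (fc z om a) (fc_diff z om hz a) 1 : E2) : (Fin 2 → ℂ) → ℂ) t = c a * TF (fc z om a) t 1 := rfl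
    rw [h7, TF_one]
    rfl
  exact ⟨{ D := fun i => dM (Pi.single i 1)
           Z := dM (Zv z om)
           T := fun w => trM (wz z w)
           Tsurj := fun w => trM_surj _
           TC := fun w a => trM_C _ a
           e := eK om (2 * L)
           lam := fun w => qz (2 * L) w
           chi := fun w => ∑ l, Zv z om l * qz (2 * L) w l
           c := cc
           c0 := hc0
           B := BB
           B1 := hB1
           hD := fun i P q => by
             rw [hBB, hBB, hBB, map_sum, ← Finset.sum_add_distrib]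
             exact Finset.sum_congr rfl fun a _ => ext_D (B a) _ (hB a) (dM (Pi.single i 1)) i (eK om (2 * L) i)
               (fun p q => bK_D _ _ z om (2 * L) i p q) P (q a)
           hZ := fun P q => by
             rw [hBB, hBB, hBB, map_sum, ← Finset.sum_add_distrib]
             exact Finset.sum_congr rfl fun a _ => ext_Z (B a) _ (hB a) (dM (Zv z om)) (eK om (2 * L))
               (fun p q => bK_Z _ _ z om (2 * L) p q) P (q a)
           hT := fun w P q => by
             rw [hBB, hBB, map_sum, Finset.mul_sum]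
             exact Finset.sum_congr rfl fun a _ => ext_T (B a) _ (hB a) (trM (wz z w)) (trM_C _) (cc w) _ _
               (fun p q => hcT w (fc z om a) (fc_diff z om hz a) (fun m n l t => fc_shift z om hz a m n l t) p q) P (q a)
           rigD := fun f κ c h1 h2 => bK_rigD z om hom (2 * L) (by omega) f κ c h1 h2
           rigZ := fun f κ c h1 h2 => bK_rigZ z om hz hns hom (2 * L) (by omega) f κ c h1 h2 }, hval⟩

end Pool.Agent.MSW

end
end

/-! ### the derivatives of the functions `GR` and the kernel -/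

section

open Complex MvPolynomial

noncomputable section

namespace Pool.Agent.MSW

open MSD MSP MSU

/-- the polynomials attached to the auxiliary function with coefficients `c` -/
def qc (D : Dw) {L E : ℕ} (c : Iw L E → ℂ) (a : Fin 2 → Fin L) : Polynomial ℂ :=
  Polynomial.taylor (-(((2 * L : ℕ) : ℂ) * D.lam)) (∑ k : Fin E, Polynomial.C (c (a, k)) * Bp ((2 * L : ℕ) * D.qq) k.val)

/-- V1a. -/
theorem qc_ne (D : Dw) {L E : ℕ} (c : Iw L E → ℂ) (hc : c ≠ 0) : qc D c ≠ 0 := by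
  classical
  intro h
  apply hc
  funext ν
  obtain ⟨a, k⟩ := ν
  have h1 : ∑ k : Fin E, Polynomial.C (c (a, k)) * Bp ((2 * L : ℕ) * D.qq) k.val = 0 := by
    have h2 := congrFun h a
    unfold qc at h2
    have h3 := congrArg (Polynomial.taylor (((2 * L : ℕ) : ℂ) * D.lam)) h2
    rw [Polynomial.taylor_taylor, Pi.zero_apply, map_zero] at h3
    have h4 : (((2 * L : ℕ) : ℂ) * D.lam) + -(((2 * L : ℕ) : ℂ) * D.lam) = 0 := by ring
    rw [h4, Polynomial.taylor_zero] at h3
    exact h3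
  by_contra hk
  -- the largest index with a nonzero coefficient
  obtain ⟨m, hm1, hm2⟩ := (Finset.univ.filter fun k : Fin E => c (a, k) ≠ 0).exists_max_image (fun k => k)
    ⟨k, Finset.mem_filter.2 ⟨Finset.mem_univ _, hk⟩⟩
  have hm3 : c (a, m) ≠ 0 := (Finset.mem_filter.1 hm1).2
  have h5 := congrArg (fun p : Polynomial ℂ => p.coeff m.val) h1
  simp only [Polynomial.finsetSum_coeff, Polynomial.coeff_C_mul, Polynomial.coeff_zero] at h5
  rw [Finset.sum_eq_single m] at h5
  · have h6 := (Bp_monic ((2 * L : ℕ) * D.qq) m.val).1.coeff_natDegree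
    rw [(Bp_monic ((2 * L : ℕ) * D.qq) m.val).2] at h6
    rw [h6, mul_one] at h5
    exact hm3 h5
  · intro b _ hb
    by_cases hbm : c (a, b) = 0
    · rw [hbm, zero_mul]
    · have h7 : b ≤ m := hm2 b (Finset.mem_filter.2 ⟨Finset.mem_univ _, hbm⟩)
      have h8 : b.val < m.val := lt_of_le_of_ne h7 (fun h9 => hb (Fin.ext h9))
      rw [Polynomial.coeff_eq_zero_of_natDegree_lt, mul_zero]
      rw [(Bp_monic ((2 * L : ℕ) * D.qq) b.val).2]
      exact h8
  · intro hn
    exact absurd (Finset.mem_univ m) hn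

/-- V1b. -/
theorem qc_deg (D : Dw) {L E : ℕ} (c : Iw L E → ℂ) (a : Fin 2 → Fin L) : qc D c a ∈ Polynomial.degreeLT ℂ E := by
  unfold qc
  have h1 : (∑ k : Fin E, Polynomial.C (c (a, k)) * Bp ((2 * L : ℕ) * D.qq) k.val) ∈ Polynomial.degreeLT ℂ E := by
    refine Submodule.sum_mem _ fun k _ => ?_
    rw [← Polynomial.smul_eq_C_mul]
    refine Submodule.smul_mem _ _ ?_
    rw [Polynomial.mem_degreeLT, Polynomial.degree_eq_natDegree (Bp_monic ((2 * L : ℕ) * D.qq) k.val).1.ne_zero,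
      (Bp_monic ((2 * L : ℕ) * D.qq) k.val).2]
    exact_mod_cast k.isLt
  rw [Polynomial.mem_degreeLT] at h1 ⊢
  rwa [Polynomial.degree_taylor]

/-- V1c. -/
theorem Phi_lin (z om : ℂ) (M : ℕ) (a : Fin 2 → ℂ) (p : Po ℂ) (q : Polynomial ℂ) :
    Phi (lf (Zv z om)) (eK om M) ((∑ i, C (a i) * X i) * p) q = lf a * Phi (lf (Zv z om)) (eK om M) p q +
      C (M * om * a 1) * Phi (lf (Zv z om)) (eK om M) p (Polynomial.derivative q) := by
  have h1 : (∑ i : Fin 2, C (a i) * X i) * p = (a 0) • (X 0 * p) + (a 1) • (X 1 * p : Po ℂ) := by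
    rw [Fin.sum_univ_two, MvPolynomial.smul_eq_C_mul, MvPolynomial.smul_eq_C_mul]
    ring
  rw [h1, map_add, LinearMap.add_apply, map_smul, map_smul, LinearMap.smul_apply, LinearMap.smul_apply, Phi_X, Phi_X]
  have h2 : lf a = C (a 0) * X 0 + C (a 1) * X 1 := by
    unfold lf
    rw [Fin.sum_univ_two]
  have h3 : eK om M 0 = 0 := by simp [eK]
  have h4 : eK om M 1 = M * om := by simp [eK]
  rw [h2, h3, h4]
  simp only [MvPolynomial.smul_eq_C_mul, C_mul, C_0]
  ring

/-- the function of `link_deriv` -/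
def v1_F (f : Fin 2 → ℂ → ℂ) (h : Fin 2 → ℂ) (z om : ℂ) (M : ℕ) (a : Fin 2 → ℂ) (p0 : MvPolynomial (Fin 2) ℂ) (q : Polynomial ℂ) (ζ : ℂ) : ℂ :=
  TF f (fun l => h l + ζ * a l) (p0 * Polynomial.aeval (C (ζ * (M * om * a 1)) + lf (Zv z om)) q)

variable (f : Fin 2 → ℂ → ℂ) (h : Fin 2 → ℂ) (z om : ℂ) (M : ℕ) (a : Fin 2 → ℂ)

theorem v1_add (p0 : MvPolynomial (Fin 2) ℂ) (p q : Polynomial ℂ) (ζ : ℂ) :
    v1_F f h z om M a p0 (p + q) ζ = v1_F f h z om M a p0 p ζ + v1_F f h z om M a p0 q ζ := by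
  unfold v1_F
  rw [map_add, mul_add, TF_add]

theorem v1_mul (p0 : MvPolynomial (Fin 2) ℂ) (p : Polynomial ℂ) (ζ : ℂ) :
    v1_F f h z om M a p0 (p * Polynomial.X) ζ = ζ * (M * om * a 1) * v1_F f h z om M a p0 p ζ + v1_F f h z om M a (p0 * lf (Zv z om)) p ζ := by
  unfold v1_F
  rw [map_mul, Polynomial.aeval_X, ← TF_C_mul, ← TF_add]
  congr 1
  ring

/-- V1d. -/
theorem v1_gen (hf : ∀ l, Differentiable ℂ (f l)) (q : Polynomial ℂ) (ζ : ℂ) : ∀ p0 : MvPolynomial (Fin 2) ℂ,
    HasDerivAt (v1_F f h z om M a p0 q) (v1_F f h z om M a (lf a * p0) q ζ + (M * om * a 1) * v1_F f h z om M a p0 (Polynomial.derivative q) ζ) ζ := by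
  induction q using Polynomial.induction_on with
  | C c =>
    intro p0
    have h1 := TF_line f hf h a (p0 * C c) ζ
    have e1 : ∀ p : MvPolynomial (Fin 2) ℂ, v1_F f h z om M a p (Polynomial.C c) = fun s : ℂ => TF f (fun l => h l + s * a l) (p * C c) := by
      intro p
      funext s
      unfold v1_F
      rw [Polynomial.aeval_C]
      rfl
    have e2 : v1_F f h z om M a p0 (Polynomial.derivative (Polynomial.C c)) ζ = 0 := by
      unfold v1_F
      rw [Polynomial.derivative_C, map_zero, mul_zero, TF_zero]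
    rw [e2, mul_zero, add_zero, e1, e1]
    have e3 : lf a * p0 * C c = (∑ l, C (a l) * X l) * (p0 * C c) := by
      unfold lf
      rw [mul_assoc]
    simp only [e3]
    exact h1
  | add p q hp hq =>
    intro p0
    have h1 := (hp p0).fun_add (hq p0)
    have e1 : ∀ p', v1_F f h z om M a p' (p + q) = fun t => v1_F f h z om M a p' p t + v1_F f h z om M a p' q t := by
      intro p'
      funext t
      exact v1_add f h z om M a p' p q t
    rw [e1, e1, Polynomial.derivative_add, v1_add]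
    refine h1.congr_deriv ?_
    ring
  | monomial n c ih =>
    intro p0
    have e0 : Polynomial.C c * Polynomial.X ^ (n + 1) = (Polynomial.C c * Polynomial.X ^ n) * Polynomial.X := by
      rw [pow_succ, mul_assoc]
    rw [e0]
    obtain ⟨p, hp⟩ : ∃ p, Polynomial.C c * Polynomial.X ^ n = p := ⟨_, rfl⟩
    rw [hp] at ih ⊢
    have e1 : v1_F f h z om M a p0 (p * Polynomial.X) = fun t => t * (M * om * a 1) * v1_F f h z om M a p0 p t + v1_F f h z om M a (p0 * lf (Zv z om)) p t := by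
      funext t
      exact v1_mul f h z om M a p0 p t
    have h3 : HasDerivAt (fun t : ℂ => t * (M * om * a 1)) (M * om * a 1) ζ := by
      have h := (hasDerivAt_id ζ).mul_const (M * om * a 1)
      rw [one_mul] at h
      exact h
    have h4 := (h3.fun_mul (ih p0)).fun_add (ih (p0 * lf (Zv z om)))
    rw [Polynomial.derivative_mul, Polynomial.derivative_X, mul_one, v1_add, v1_mul, v1_mul, e1, mul_assoc (lf a) p0]
    refine h4.congr_deriv ?_
    ring

theorem v1_diff (hf : ∀ l, Differentiable ℂ (f l)) (p0 : MvPolynomial (Fin 2) ℂ) (q : Polynomial ℂ) : Differentiable ℂ (v1_F f h z om M a p0 q) :=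
  fun ζ => (v1_gen f h z om M a hf q ζ p0).differentiableAt

/-- V1e. -/
theorem v1_iter (hf : ∀ l, Differentiable ℂ (f l)) (k : ℕ) : ∀ (p0 : MvPolynomial (Fin 2) ℂ) (q : Polynomial ℂ),
    iteratedDeriv k (v1_F f h z om M a p0 q) 0 = TF f h (p0 * Phi (lf (Zv z om)) (eK om M) ((∑ i, C (a i) * X i) ^ k) q) := by
  induction k with
  | zero =>
    intro p0 q
    rw [iteratedDeriv_zero, pow_zero, Phi_one]
    unfold v1_F
    have e1 : (fun l => h l + (0 : ℂ) * a l) = h := by
      funext l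
      rw [zero_mul, add_zero]
    rw [e1, zero_mul, C_0, zero_add]
  | succ k ih =>
    intro p0 q
    have e1 : deriv (v1_F f h z om M a p0 q) =
        v1_F f h z om M a (lf a * p0) q + fun t => (M * om * a 1) * v1_F f h z om M a p0 (Polynomial.derivative q) t := by
      funext ζ
      rw [(v1_gen f h z om M a hf q ζ p0).deriv, Pi.add_apply]
    have hc : ∀ (p : MvPolynomial (Fin 2) ℂ) (r : Polynomial ℂ), ContDiff ℂ k (v1_F f h z om M a p r) := fun p r => (v1_diff f h z om M a hf p r).contDiff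
    have hc2 : ContDiff ℂ k (fun t => (M * om * a 1) * v1_F f h z om M a p0 (Polynomial.derivative q) t) := contDiff_const.mul (hc _ _)
    have hm : iteratedDeriv k (fun t => (M * om * a 1) * v1_F f h z om M a p0 (Polynomial.derivative q) t) 0 =
        TF f h (C (M * om * a 1) * (p0 * Phi (lf (Zv z om)) (eK om M) ((∑ i, C (a i) * X i) ^ k) (Polynomial.derivative q))) := by
      rw [TF_C_mul, ← ih]
      exact iteratedDeriv_const_mul _ (hc _ _).contDiffAt
    rw [iteratedDeriv_succ', e1, iteratedDeriv_add (hc _ _).contDiffAt hc2.contDiffAt, hm, ih, ← TF_add, pow_succ', Phi_lin]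
    congr 1
    ring

/-- V1f. -/
theorem link (D : Dw) {L E : ℕ} (c : Iw L E → ℂ) (a : Fin 2 → ℂ) (k : ℕ) :
    iteratedDeriv k (fun ζ : ℂ => GR D c (fun j => ζ * a j)) 0 =
      ∑ b : Fin 2 → Fin L, TF (fc D.z D.om b) D.h (Phi (lf (Zv D.z D.om)) (eK D.om (2 * L)) ((∑ i, C (a i) * X i) ^ k) (qc D c b)) := by
  have h1 : (fun ζ : ℂ => GR D c (fun j => ζ * a j)) = ∑ b : Fin 2 → Fin L, v1_F (fc D.z D.om b) D.h D.z D.om (2 * L) a 1 (qc D c b) := by
    funext ζ
    rw [Finset.sum_apply]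
    unfold GR
    rw [Fintype.sum_prod_type]
    refine Finset.sum_congr rfl fun b _ => ?_
    unfold v1_F
    rw [one_mul]
    have h2 : Polynomial.aeval (C (ζ * (((2 * L : ℕ) : ℂ) * D.om * a 1)) + lf (Zv D.z D.om)) (qc D c b) =
        ∑ k : Fin E, C (c (b, k)) * Polynomial.aeval (lin D (2 * L) (D.om * (ζ * a 1))) (Bp ((2 * L : ℕ) * D.qq) k.val) := by
      unfold qc
      have h3 : ∀ q : Polynomial ℂ, Polynomial.aeval (C (ζ * (((2 * L : ℕ) : ℂ) * D.om * a 1)) + lf (Zv D.z D.om))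
          (Polynomial.taylor (-(((2 * L : ℕ) : ℂ) * D.lam)) q) = Polynomial.aeval (lin D (2 * L) (D.om * (ζ * a 1))) q := by
        intro q
        rw [Polynomial.taylor_apply, Polynomial.aeval_comp]
        congr 1
        rw [map_add, Polynomial.aeval_X, Polynomial.aeval_C]
        unfold lin lf Zv
        have h4 : (algebraMap ℂ (MvPolynomial (Fin 2) ℂ)) (-(((2 * L : ℕ) : ℂ) * D.lam)) = C (-(((2 * L : ℕ) : ℂ) * D.lam)) := rfl
        rw [h4, Finset.mul_sum]
        have h5 : (C (((2 * L : ℕ) : ℂ) * (D.om * (ζ * a 1) - D.lam)) : MvPolynomial (Fin 2) ℂ) =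
            C (ζ * (((2 * L : ℕ) : ℂ) * D.om * a 1)) + C (-(((2 * L : ℕ) : ℂ) * D.lam)) := by
          rw [← C_add]
          congr 1
          ring
        rw [h5]
        have h6 : ∀ l : Fin 2, (C (rh / D.om * cz D.z l) : MvPolynomial (Fin 2) ℂ) * X l = C (rh / D.om) * (C (cz D.z l) * X l) := by
          intro l
          rw [C_mul, mul_assoc]
        rw [Finset.sum_congr rfl fun l _ => h6 l]
        ring_nf
      rw [h3, map_sum]
      refine Finset.sum_congr rfl fun k _ => ?_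
      rw [map_mul, Polynomial.aeval_C]
      rfl
    rw [h2, TF_sum]
    refine Finset.sum_congr rfl fun k _ => ?_
    rw [TF_C_mul]
    rfl
  rw [h1]
  have h7 : iteratedDeriv k (∑ b : Fin 2 → Fin L, v1_F (fc D.z D.om b) D.h D.z D.om (2 * L) a 1 (qc D c b)) 0 =
      ∑ b : Fin 2 → Fin L, iteratedDeriv k (v1_F (fc D.z D.om b) D.h D.z D.om (2 * L) a 1 (qc D c b)) 0 := by
    rw [iteratedDeriv_sum]
    intro b _
    exact (v1_diff (fc D.z D.om b) D.h D.z D.om (2 * L) a (fc_diff D.z D.om D.im b) 1 (qc D c b)).contDiff.contDiffAt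
  rw [h7]
  refine Finset.sum_congr rfl fun b _ => ?_
  rw [v1_iter (fc D.z D.om b) D.h D.z D.om (2 * L) a (fc_diff D.z D.om D.im b) k 1 (qc D c b), one_mul]

end Pool.Agent.MSW

end
end
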