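import Pool.Agent.Lib.MP_f58a57_nt.T.B2_Rep
import Pool.Agent.Lib.MP_f58a57_nt.T.D2_Base
import Pool.Agent.Lib.MP_f58a57_nt.T.E3_Block
import Pool.Agent.Lib.MP_f58a57_nt.T.F1_Ker
import Pool.Agent.Lib.MP_f58a57_nt.U.V2_Pow

/-! # MP_f58a57_nt, all nonspecial points: F2_Zero -/

/-! ### the abstract zero estimate -/

section

open MvPolynomial

noncomputable section

namespace Pool.Agent.MSW

open MSU

variable {M : Type} [Field M] [Algebra ℂ M] {Λ ι : Type}

/-- Z10. -/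
theorem thmZ [Fintype ι] (K : Ker M Λ ι) (n ν : ℕ) (hν : Fintype.card ι * (n + 1) < (ν + 1) * (ν + 2) / 2) (q : ι → Polynomial M)
    (hq : ∀ j, q j ∈ Polynomial.degreeLT M (n + 1)) (h : ∀ P : Po M, P.totalDegree < 2 * ν + 2 * Fintype.card ι → K.B P q = 0) : q = 0 := by
  have ha : ∀ k, 2 * ν + 2 * Fintype.card ι ≤ k → aa K (n + 1) k = 0 := by
    intro k hk
    exact count (Fintype.card ι * (n + 1)) (Fintype.card ι) ν (aa K (n + 1)) (aa K n) hν
      (fun k => by have := aa_add K (n + 1) k; omega) (aa_anti K n) (aa_step K (n + 1))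
      (sum_aa_le K (n + 1)) (fun K' => sum_aa_succ K n K') (fun k h1 h2 h3 h4 => no_block K n k h1 h2 h3 h4) k hk
  exact step1 K q (all_of_low K (n + 1) (2 * ν + 2 * Fintype.card ι) ha q hq h)

end Pool.Agent.MSW

end
end

/-! ### the zero estimate at generic points -/

section

open Complex MvPolynomial

noncomputable section

namespace Pool.Agent.MSW

open MSD MSP MSU

theorem x6_rows {K : Type} [Field K] {ι ι' : Type} [Fintype ι] [DecidableEq ι] (A : ι' → ι → K)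
    (h : ∀ c : ι → K, (∀ a, ∑ i, c i * A a i = 0) → c = 0) :
    ∃ r : ι → ι', (Matrix.of fun i j => A (r i) j).det ≠ 0 := by
  classical
  have hspan : Submodule.span K (Set.range A) = ⊤ := by
    by_contra hne
    obtain ⟨f, hf0, hf⟩ := Submodule.exists_le_ker_of_lt_top _ (lt_top_iff_ne_top.2 hne)
    apply hf0
    have hc : (fun i => f (Pi.single i 1)) = 0 := by
      apply h
      intro a
      have h1 : f (A a) = 0 := hf (Submodule.subset_span ⟨a, rfl⟩)
      rw [← h1]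
      conv_rhs => rw [show A a = ∑ i, A a i • (Pi.single i (1 : K) : ι → K) from by
        funext j
        simp [Finset.sum_apply, Pi.single_apply]]
      rw [map_sum]
      refine Finset.sum_congr rfl fun i _ => ?_
      rw [map_smul, smul_eq_mul, mul_comm]
    refine LinearMap.pi_ext' fun i => LinearMap.ext_ring ?_
    exact congrFun hc i
  obtain ⟨κ, a, -, hs, hl⟩ := exists_linearIndependent' K A
  rw [hspan] at hs
  have b : Module.Basis κ K (ι → K) := Module.Basis.mk hl (by rw [hs])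
  have e : ι ≃ κ := (Pi.basisFun K ι).indexEquiv b
  refine ⟨fun i => a (e i), ?_⟩
  have h2 : LinearIndependent K (Matrix.of fun i j => A (a (e i)) j).row :=
    hl.comp e e.injective
  rw [Matrix.linearIndependent_rows_iff_isUnit, Matrix.isUnit_iff_isUnit_det] at h2
  exact h2.ne_zero

/-- evaluation at a point -/
def x6_ev (t : Fin 2 → ℂ) : E2 →+* ℂ := (Pi.evalRingHom (fun _ : Fin 2 → ℂ => ℂ) t).comp
  (AnS.val : E2 →ₐ[ℂ] ((Fin 2 → ℂ) → ℂ)).toRingHom

theorem x6_ev_apply (t : Fin 2 → ℂ) (f : E2) : x6_ev t f = (f : (Fin 2 → ℂ) → ℂ) t := rfl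

/-- X6a. pure linear algebra -/
theorem minor_exists {ι ι' : Type} [Fintype ι] [DecidableEq ι] (m : ι' → ι → E2)
    (h : ∀ c : ι → M2, (∀ a, ∑ i, c i * em (m a i) = 0) → c = 0) :
    ∃ W : E2, W ≠ 0 ∧ ∀ t, (W : (Fin 2 → ℂ) → ℂ) t ≠ 0 → ∀ c : ι → ℂ, (∀ a, ∑ i, c i * (m a i : (Fin 2 → ℂ) → ℂ) t = 0) → c = 0 := by
  obtain ⟨r, hr⟩ := x6_rows (K := M2) (fun a i => em (m a i)) h
  refine ⟨(Matrix.of fun i j => m (r i) j).det, ?_, ?_⟩
  · intro h0
    apply hr
    have h1 : (Matrix.of fun i j => em (m (r i) j)) =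
        (algebraMap E2 M2).mapMatrix (Matrix.of fun i j => m (r i) j) := by
      ext i j
      rfl
    rw [h1, ← RingHom.map_det, h0, map_zero]
  · intro t ht c hc
    have h2 : (x6_ev t).mapMatrix (Matrix.of fun i j => m (r i) j) =
        Matrix.of fun i j => (m (r i) j : (Fin 2 → ℂ) → ℂ) t := by
      ext i j
      rfl
    have h3 : (Matrix.of fun i j => (m (r i) j : (Fin 2 → ℂ) → ℂ) t).det ≠ 0 := by
      rw [← h2, ← RingHom.map_det]
      exact ht
    refine Matrix.eq_zero_of_mulVec_eq_zero h3 ?_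
    funext i
    rw [Matrix.mulVec, dotProduct, Pi.zero_apply, ← hc (r i)]
    refine Finset.sum_congr rfl fun j _ => ?_
    rw [Matrix.of_apply, mul_comm]

/-- expansion of a polynomial of bounded degree -/
theorem x6_exp {R : Type} [Field R] (n : ℕ) [Fintype {β : Fin 2 →₀ ℕ // β.degree ≤ n}] (q : Po R)
    (hq : q.totalDegree ≤ n) : q = ∑ β : {β : Fin 2 →₀ ℕ // β.degree ≤ n}, q.coeff β.1 • monomial β.1 (1 : R) := by
  classical
  ext s
  rw [coeff_sum]
  simp only [coeff_smul, coeff_monomial, smul_eq_mul]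
  by_cases hs : s.degree ≤ n
  · rw [Finset.sum_eq_single ⟨s, hs⟩]
    · simp
    · intro β _ hβ
      rw [if_neg, mul_zero]
      intro h
      exact hβ (Subtype.ext h)
    · intro h
      exact absurd (Finset.mem_univ _) h
  · rw [Finset.sum_eq_zero]
    · by_contra h
      have h2 := le_totalDegree (mem_support_iff.2 h)
      have h3 : s.degree ≤ q.totalDegree := h2
      omega
    · intro β _
      rw [if_neg, mul_zero]
      intro h
      exact hs (h ▸ β.2)

/-- expansion of a vector of polynomials of bounded degree -/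
theorem x6_vec {R : Type} [Field R] {J : Type} [Fintype J] [DecidableEq J] (n : ℕ) (q : J → Polynomial R)
    (hq : ∀ a, q a ∈ Polynomial.degreeLT R n) :
    q = ∑ i : J × Fin n, (q i.1).coeff i.2.val • (Pi.single i.1 (Polynomial.monomial i.2.val (1 : R)) : J → Polynomial R) := by
  funext a
  rw [Finset.sum_apply, Fintype.sum_prod_type]
  rw [Finset.sum_eq_single a]
  · simp only [Pi.smul_apply, Pi.single_eq_same]
    ext k
    rw [Polynomial.finsetSum_coeff]
    simp only [Polynomial.coeff_smul, Polynomial.coeff_monomial, smul_eq_mul]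
    by_cases hk : k < n
    · rw [Finset.sum_eq_single ⟨k, hk⟩]
      · simp
      · intro b _ hb
        rw [if_neg, mul_zero]
        intro h
        exact hb (Fin.ext h)
      · intro h
        exact absurd (Finset.mem_univ _) h
    · rw [Finset.sum_eq_zero]
      · have h1 := hq a
        rw [Polynomial.mem_degreeLT, Polynomial.degree_lt_iff_coeff_zero] at h1
        exact h1 k (not_lt.1 hk)
      · intro b _
        rw [if_neg, mul_zero]
        intro h
        exact hk (h ▸ b.2)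
  · intro b _ hb
    refine Finset.sum_eq_zero fun k _ => ?_
    rw [Pi.smul_apply, Pi.single_eq_of_ne (Ne.symm hb), smul_zero]
  · intro h
    exact absurd (Finset.mem_univ a) h

theorem x6_vec_lt {R : Type} [Field R] {J : Type} [Fintype J] [DecidableEq J] (n : ℕ) (c : J × Fin n → R) (a : J) :
    (∑ i : J × Fin n, c i • (Pi.single i.1 (Polynomial.monomial i.2.val (1 : R)) : J → Polynomial R)) a ∈ Polynomial.degreeLT R n := by
  rw [Finset.sum_apply]
  refine Submodule.sum_mem _ fun i _ => ?_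
  rw [Pi.smul_apply]
  refine Submodule.smul_mem _ _ ?_
  by_cases h : a = i.1
  · subst h
    rw [Pi.single_eq_same, Polynomial.mem_degreeLT]
    refine (Polynomial.degree_monomial_le _ _).trans_lt ?_
    exact_mod_cast i.2.isLt
  · rw [Pi.single_eq_of_ne h]
    exact Submodule.zero_mem _

theorem x6_vec_coeff {R : Type} [Field R] {J : Type} [Fintype J] [DecidableEq J] (n : ℕ) (c : J × Fin n → R) (i : J × Fin n) :
    ((∑ i : J × Fin n, c i • (Pi.single i.1 (Polynomial.monomial i.2.val (1 : R)) : J → Polynomial R)) i.1).coeff i.2.val = c i := by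
  rw [Finset.sum_apply, Polynomial.finsetSum_coeff, Finset.sum_eq_single i]
  · simp
  · intro b _ hb
    rw [Pi.smul_apply, Polynomial.coeff_smul]
    by_cases h : i.1 = b.1
    · rw [h, Pi.single_eq_same, Polynomial.coeff_monomial, if_neg, smul_zero]
      intro h2
      exact hb (Prod.ext h.symm (Fin.ext h2))
    · rw [Pi.single_eq_of_ne h, Polynomial.coeff_zero, smul_zero]
  · intro h
    exact absurd (Finset.mem_univ i) h

/-- X6b. -/
theorem point (z om : ℂ) (hz : 0 < z.im) (hns : ¬ IsSpecial z) (hom : om ≠ 0) (L : ℕ) (hL : 1 ≤ L) (n ν : ℕ)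
    (hν : L ^ 2 * (n + 1) < (ν + 1) * (ν + 2) / 2) : ∃ W : E2, W ≠ 0 ∧ ∀ t, (W : (Fin 2 → ℂ) → ℂ) t ≠ 0 →
      ∀ q : (Fin 2 → Fin L) → Polynomial ℂ, (∀ a, q a ∈ Polynomial.degreeLT ℂ (n + 1)) → q ≠ 0 →
        ∃ p : Po ℂ, p.totalDegree < 2 * ν + 2 * L ^ 2 ∧ ∑ a, TF (fc z om a) t (Phi (lf (Zv z om)) (eK om (2 * L)) p (q a)) ≠ 0 := by
  classical
  obtain ⟨K, hK⟩ := ker_exists z om hz hns hom L hL
  have hfin : ∀ n : ℕ, Finite {β : Fin 2 →₀ ℕ // β.degree ≤ n} := fun n =>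
    Set.finite_coe_iff.2 (Finsupp.finite_of_degree_le n)
  obtain ⟨N, hN⟩ : ∃ N, 2 * ν + 2 * L ^ 2 = N + 1 := ⟨2 * ν + 2 * L ^ 2 - 1, by
    have : 1 ≤ L ^ 2 := Nat.one_le_pow _ _ hL
    omega⟩
  have hcard : Fintype.card (Fin 2 → Fin L) = L ^ 2 := by simp
  have := Fintype.ofFinite {β : Fin 2 →₀ ℕ // β.degree ≤ N}
  let m : {β : Fin 2 →₀ ℕ // β.degree ≤ N} → ((Fin 2 → Fin L) × Fin (n + 1)) → E2 :=
    fun α i => TE (fc z om i.1) (fc_diff z om hz i.1) (Phi (lf (Zv z om)) (eK om (2 * L)) (monomial α.1 1) (Polynomial.monomial i.2.val 1))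
  have hsingle : ∀ (p : Po ℂ) (a : Fin 2 → Fin L) (r : Polynomial ℂ),
      K.B (ofC p) (Pi.single a (oP r)) = em (TE (fc z om a) (fc_diff z om hz a) (Phi (lf (Zv z om)) (eK om (2 * L)) p r)) := by
    intro p a r
    have h1 := hK p (Pi.single a r)
    have h2 : (fun a' => (oP ((Pi.single a r : (Fin 2 → Fin L) → Polynomial ℂ) a') : Polynomial M2)) = Pi.single a (oP r) := by
      funext a'
      by_cases h : a' = a
      · subst h
        rw [Pi.single_eq_same, Pi.single_eq_same]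
      · rw [Pi.single_eq_of_ne h, Pi.single_eq_of_ne h]
        unfold oP
        rw [Polynomial.map_zero]
    rw [h2] at h1
    rw [h1]
    congr 1
    rw [Finset.sum_eq_single a]
    · rw [Pi.single_eq_same]
    · intro b _ hb
      rw [Pi.single_eq_of_ne hb, map_zero, map_zero]
    · intro h
      exact absurd (Finset.mem_univ a) h
  have hm : ∀ α i, K.B (monomial α.1 1) (Pi.single i.1 (Polynomial.monomial i.2.val 1)) = em (m α i) := by
    intro α i
    have h1 := hsingle (monomial α.1 1) i.1 (Polynomial.monomial i.2.val 1)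
    rwa [ofC, oP, map_monomial, Polynomial.map_monomial, map_one] at h1
  obtain ⟨W, hW, hW2⟩ := minor_exists m (by
    intro c hc
    have hq : (∑ i : (Fin 2 → Fin L) × Fin (n + 1), c i • (Pi.single i.1 (Polynomial.monomial i.2.val (1 : M2)) : (Fin 2 → Fin L) → Polynomial M2)) = 0 := by
      refine thmZ K n ν (by rw [hcard]; exact hν) _ (fun a => x6_vec_lt _ _ a) fun Q hQ => ?_
      rw [hcard, hN] at hQ
      have e1 : K.B Q = ∑ α : {β : Fin 2 →₀ ℕ // β.degree ≤ N}, Q.coeff α.1 • K.B (monomial α.1 1) := by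
        conv_lhs => rw [x6_exp N Q (Nat.lt_succ_iff.1 hQ)]
        rw [map_sum K.B]
        exact Finset.sum_congr rfl fun α _ => map_smul K.B _ _
      rw [e1, LinearMap.sum_apply]
      refine Finset.sum_eq_zero fun α _ => ?_
      rw [LinearMap.smul_apply, map_sum]
      have h1 : ∑ i : (Fin 2 → Fin L) × Fin (n + 1), K.B (monomial α.1 1) (c i • (Pi.single i.1 (Polynomial.monomial i.2.val (1 : M2)) : (Fin 2 → Fin L) → Polynomial M2)) = 0 := by
        rw [← hc α]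
        refine Finset.sum_congr rfl fun i _ => ?_
        rw [map_smul, hm, smul_eq_mul]
      rw [h1, smul_zero]
    funext i
    have h2 := x6_vec_coeff (n + 1) c i
    rw [hq] at h2
    rw [← h2]
    rfl)
  refine ⟨W, hW, fun t ht q hqd hq0 => ?_⟩
  by_contra hcon
  push Not at hcon
  refine hq0 ?_
  have hc0 : (fun i : (Fin 2 → Fin L) × Fin (n + 1) => (q i.1).coeff i.2.val) = 0 := by
    refine hW2 t ht _ fun α => ?_
    have h1 := hcon (monomial α.1 1) (by
      rw [hN]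
      exact Nat.lt_succ_of_le ((totalDegree_monomial_le _ _).trans α.2))
    rw [← h1]
    have h3 : ∀ a, Phi (lf (Zv z om)) (eK om (2 * L)) (monomial α.1 1) (q a) =
        ∑ k : Fin (n + 1), (q a).coeff k.val • Phi (lf (Zv z om)) (eK om (2 * L)) (monomial α.1 1) (Polynomial.monomial k.val 1) := by
      intro a
      have h4 : q a = ∑ k : Fin (n + 1), (q a).coeff k.val • Polynomial.monomial k.val (1 : ℂ) := by
        ext k
        rw [Polynomial.finsetSum_coeff]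
        simp only [Polynomial.coeff_smul, Polynomial.coeff_monomial, smul_eq_mul]
        by_cases hk : k < n + 1
        · rw [Finset.sum_eq_single ⟨k, hk⟩]
          · simp
          · intro b _ hb
            rw [if_neg, mul_zero]
            intro h
            exact hb (Fin.ext h)
          · intro h
            exact absurd (Finset.mem_univ _) h
        · rw [Finset.sum_eq_zero]
          · have h1 := hqd a
            rw [Polynomial.mem_degreeLT, Polynomial.degree_lt_iff_coeff_zero] at h1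
            exact h1 k (not_lt.1 hk)
          · intro b _
            rw [if_neg, mul_zero]
            intro h
            exact hk (h ▸ b.2)
      conv_lhs => rw [h4]
      rw [map_sum]
      exact Finset.sum_congr rfl fun k _ => map_smul _ _ _
    rw [Fintype.sum_prod_type]
    refine Finset.sum_congr rfl fun a _ => ?_
    rw [h3 a, TF_sum]
    refine Finset.sum_congr rfl fun k _ => ?_
    rw [smul_eq_C_mul, TF_C_mul]
    rfl
  rw [x6_vec (n + 1) q hqd]
  refine Finset.sum_eq_zero fun i _ => ?_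
  have h7 := congrFun hc0 i
  rw [show (q i.1).coeff i.2.val = 0 from h7, zero_smul]

end Pool.Agent.MSW

end
end

/-! ### the zero estimate for the functions `FR` at generic base points -/

section

open Complex MvPolynomial

noncomputable section

namespace Pool.Agent.MSW

open MSD MSP MSU

/-- V3. -/
theorem inj_generic (z om : ℂ) (hz : 0 < z.im) (hns : ¬ IsSpecial z) (hom : om ≠ 0) (L n ν S : ℕ) (hL : 1 ≤ L)
    (hν : L ^ 2 * (n + 1) < (ν + 1) * (ν + 2) / 2) (hS : 2 * ν + 2 * L ^ 2 ≤ S + 1) (hS1 : 1 ≤ S) :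
    ∃ W : E2, W ≠ 0 ∧ ∀ D : Dw, D.z = z → D.om = om → (W : (Fin 2 → ℂ) → ℂ) D.h ≠ 0 →
      ∀ c : Iw L (n + 1) → ℂ, c ≠ 0 → ∃ (a : Fin 2 → ℕ) (k : ℕ), (∀ j, a j ≤ S) ∧ k ≤ S ∧
        ∑ κ, c κ * aeval (vals D) ((der (fun j => (a j : ℤ)))^[k] (Rp κ)) ≠ 0 := by
  obtain ⟨W, hW0, hW⟩ := point z om hz hns hom L hL n ν hν
  refine ⟨W, hW0, ?_⟩
  rintro D rfl rfl hWt c hc
  by_contra hcon
  push Not at hcon
  have hF : ∀ a : Fin 2 → ℕ, (∀ j, a j ≤ S) → ∀ k < S + 1,
      iteratedDeriv k (fun ζ : ℂ => FR D c (fun j => ζ * a j)) 0 = 0 := by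
    intro a ha k hk
    rw [iteratedDeriv_FR, hcon a k ha (by omega), mul_zero]
  have hL' : ∀ a : Fin 2 → ℕ, (∀ j, a j ≤ S) → ∀ k < S + 1,
      ∑ b : Fin 2 → Fin L, TF (fc D.z D.om b) D.h (Phi (lf (Zv D.z D.om)) (eK D.om (2 * L)) ((∑ i, C (a i : ℂ) * X i) ^ k) (qc D c b)) = 0 := by
    intro a ha k hk
    rw [← link D c (fun i => (a i : ℂ)) k]
    exact GR_vanish D c a (S + 1) (hF a ha) k hk
  let Lm : MvPolynomial (Fin 2) ℂ →ₗ[ℂ] ℂ :=
    { toFun := fun p => ∑ b : Fin 2 → Fin L, TF (fc D.z D.om b) D.h (Phi (lf (Zv D.z D.om)) (eK D.om (2 * L)) p (qc D c b))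
      map_add' := fun p p' => by
        rw [← Finset.sum_add_distrib]
        refine Finset.sum_congr rfl fun b _ => ?_
        rw [map_add, LinearMap.add_apply, TF_add]
      map_smul' := fun r p => by
        rw [RingHom.id_apply, smul_eq_mul, Finset.mul_sum]
        refine Finset.sum_congr rfl fun b _ => ?_
        rw [map_smul, LinearMap.smul_apply, smul_eq_C_mul, TF_C_mul] }
  have hspan := pow_span (2 * ν + 2 * L ^ 2 - 1) Lm (fun k hk a ha => by
    refine hL' a (fun j => (ha j).trans ?_) k (by omega)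
    rw [max_le_iff]
    omega)
  obtain ⟨p, hp, hne⟩ := hW D.h hWt (qc D c) (qc_deg D c) (qc_ne D c hc)
  exact hne (hspan p (by omega))

end Pool.Agent.MSW

end
end

/-! ### the zero estimate -/

section

open Complex MvPolynomial

noncomputable section

namespace Pool.Agent.MSW

open MSD MSP MSU

/-- V7a. a generic base point with the rows -/
theorem generic_rows (z om : ℂ) (hz : 0 < z.im) (hns : ¬ IsSpecial z) (hom : om ^ 2 = Real.pi) (L n ν S : ℕ) (hL : 1 ≤ L)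
    (hν : L ^ 2 * (n + 1) < (ν + 1) * (ν + 2) / 2) (hS : 2 * ν + 2 * L ^ 2 ≤ S + 1) (hS1 : 1 ≤ S) :
    ∃ D : Dw, D.z = z ∧ D.om = om ∧ ∃ (a : Iw L (n + 1) → Fin 2 → ℕ) (k : Iw L (n + 1) → ℕ),
      (∀ i j, a i j ≤ S) ∧ (∀ i, k i ≤ S) ∧ (Dm (vals D) a k).det ≠ 0 := by
  have hom0 : om ≠ 0 := by
    rintro rfl
    have h1 : (Real.pi : ℂ) ≠ 0 := by exact_mod_cast Real.pi_ne_zero
    apply h1
    rw [← hom]
    norm_num
  have h12 : th z (1 / 2) ≠ 0 := by
    have h1 := th_real_ne z hz (1 / 2) (fun m hm => by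
      have h2 : (1 : ℝ) = ((2 * m : ℤ) : ℝ) := by
        push_cast
        linarith
      have h3 : (1 : ℤ) = 2 * m := by exact_mod_cast h2
      omega)
    have h4 : (((1 / 2 : ℝ)) : ℂ) = 1 / 2 := by norm_num
    rwa [h4] at h1
  obtain ⟨W, hW, hin⟩ := inj_generic z om hz hns hom0 L n ν S hL hν hS hS1
  have hthd : ∀ _ : Fin 2, Differentiable ℂ (th z) := fun _ => th_differentiable z hz
  have hne : TE (fun _ => th z) hthd 1 ≠ 0 := by
    intro h
    have h1 := congrArg (fun f : E2 => (f : (Fin 2 → ℂ) → ℂ) (fun _ => 1 / 2)) h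
    have h2 : TF (fun _ => th z) (fun _ => 1 / 2) 1 = 0 := h1
    rw [TF_one] at h2
    exact (Finset.prod_ne_zero_iff.2 fun _ _ => h12) h2
  have hWT : W * TE (fun _ => th z) hthd 1 ≠ 0 := mul_ne_zero hW hne
  obtain ⟨t, ht⟩ := (E2.dense_ne (W * TE (fun _ => th z) hthd 1) hWT).nonempty
  have ht' : (W : (Fin 2 → ℂ) → ℂ) t * (TE (fun _ => th z) hthd 1 : (Fin 2 → ℂ) → ℂ) t ≠ 0 := ht
  have htW := left_ne_zero_of_mul ht'
  have htT := right_ne_zero_of_mul ht'
  have hth : ∀ l, th z (t l) ≠ 0 := by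
    intro l hl
    apply htT
    rw [TE_apply, TF_one]
    exact Finset.prod_eq_zero (Finset.mem_univ l) hl
  let D : Dw := ⟨z, hz, om, hom, t, hth⟩
  obtain ⟨f, hf, hdet⟩ := rows_exist (ι := Iw L (n + 1)) (R := (Fin 2 → ℕ) × ℕ) {r | (∀ j, r.1 j ≤ S) ∧ r.2 ≤ S}
    (fun r κ => aeval (vals D) ((der (fun j => (r.1 j : ℤ)))^[r.2] (Rp κ)))
    (fun c hc => by
      obtain ⟨a, k, h1, h2, h3⟩ := hin D rfl rfl htW c hc
      exact ⟨(a, k), ⟨h1, h2⟩, h3⟩)
  exact ⟨D, rfl, rfl, fun i => (f i).1, fun i => (f i).2, fun i j => (hf i).1 j, fun i => (hf i).2, hdet⟩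

/-- V7b. ZERO ESTIMATE, general parameters -/
theorem zprime_gen (z om : ℂ) (hz : 0 < z.im) (hns : ¬ IsSpecial z) (hom : om ^ 2 = Real.pi) (L n ν S : ℕ) (hL : 1 ≤ L)
    (hν : L ^ 2 * (n + 1) < (ν + 1) * (ν + 2) / 2) (hS : 2 * ν + 2 * L ^ 2 ≤ S + 1) (hS1 : 1 ≤ S) (X0 : ℕ) :
    ∃ x : Fin 2 → ℕ, (∀ i, X0 ≤ x i ∧ x i ≤ X0 + 6 * (L ^ 2 * (n + 1) * (2 * L + 4 * (n + 1) + 2 * S))) ∧
      ∀ D : Dw, D.z = z → D.om = om → (∀ i, D.X i 0 = x i) → ∀ c : Iw L (n + 1) → ℂ, c ≠ 0 →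
        ∃ (a : Fin 2 → ℕ) (k : ℕ), (∀ j, a j ≤ S) ∧ k ≤ S ∧
          ∑ ν, c ν * aeval (vals D) ((der (fun j => (a j : ℤ)))^[k] (Rp ν)) ≠ 0 := by
  obtain ⟨D, rfl, rfl, a, k, ha, hk, hdet⟩ := generic_rows z om hz hns hom L n ν S hL hν hS hS1
  rw [← aeval_Dp] at hdet
  obtain ⟨D', e1, e2, hs⟩ := all_signs D (Dp a k) hdet
  obtain ⟨δ, hδ, hδe⟩ := delta_exists D.z D.om (Dp a k) _ (Dp_deg hS1 a k ha hk)
  obtain ⟨W, hWd, hWe⟩ := sign_norm δ _ hδ (2 / 3 * Real.pi ^ 4 * e4 D.z / D.om ^ 4)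
    (8 / 27 * Real.pi ^ 6 * e6 D.z / D.om ^ 6)
  have hW : W ≠ 0 := by
    intro h0
    have h1 := hWe (fun l => D'.X l 0) (fun l => D'.Y l 0) (fun l => by
      have h2 := v5_curve_eq D' l
      rw [e1, e2] at h2
      exact h2)
    rw [h0, map_zero] at h1
    refine Finset.prod_ne_zero_iff.2 (fun ε _ => ?_) h1.symm
    rw [hδe]
    exact hs ε
  obtain ⟨x, hx, hxW⟩ := int_point W hW _ hWd X0
  refine ⟨x, fun l => ⟨(hx l).1, (hx l).2⟩, ?_⟩
  intro D'' f1 f2 f4 c hc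
  have h1 := hWe (fun l => (x l : ℂ)) (fun l => D''.Y l 0) (fun l => by
      have h2 := v5_curve_eq D'' l
      rw [f1, f2, f4] at h2
      exact h2)
  rw [h1] at hxW
  have h3 := Finset.prod_ne_zero_iff.1 hxW (fun _ => true) (Finset.mem_univ _)
  have h4 : sg2 (fun _ => true) (fun l => D''.Y l 0) = fun l => D''.Y l 0 := by
    funext l
    simp only [sg2, if_true]
  rw [h4, hδe] at h3
  have h5 : vxy D.z D.om (fun l => (x l : ℂ)) (fun l => D''.Y l 0) = vals D'' := by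
    rw [vals_eq, f1, f2]
    congr 1
    funext l
    exact (f4 l).symm
  rw [h5, aeval_Dp] at h3
  have h6 : (Dm (vals D'') a k).mulVec c ≠ 0 := fun h7 => hc (Matrix.eq_zero_of_mulVec_eq_zero h3 h7)
  obtain ⟨i, hi⟩ := Function.ne_iff.1 h6
  refine ⟨a i, k i, ha i, hk i, ?_⟩
  intro h8
  apply hi
  rw [Pi.zero_apply, Matrix.mulVec, dotProduct, ← h8]
  refine Finset.sum_congr rfl fun κ _ => ?_
  rw [mul_comm]
  rfl

/-- V7c. ZERO ESTIMATE. -/
theorem zprimeW (z om : ℂ) (hz : 0 < z.im) (hns : ¬ IsSpecial z) (hom : om ^ 2 = Real.pi) : ∃ (l0 C : ℕ), ∀ l ≥ l0, ∀ X0 : ℕ,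
    ∃ x : Fin 2 → ℕ, (∀ i, X0 ≤ x i ∧ x i ≤ X0 + C * l ^ 10) ∧ ∀ D : Dw, D.z = z → D.om = om → (∀ i, D.X i 0 = x i) →
      ∀ c : Iw l (l ^ 4) → ℂ, c ≠ 0 → ∃ (a : Fin 2 → ℕ) (k : ℕ), (∀ j, a j ≤ l ^ 4) ∧ k ≤ l ^ 4 ∧
        ∑ ν, c ν * aeval (vals D) ((der (fun j => (a j : ℤ)))^[k] (Rp ν)) ≠ 0 := by
  refine ⟨5, 48, ?_⟩
  intro l hl X0
  obtain ⟨n, hn⟩ : ∃ n, l ^ 4 = n + 1 := ⟨l ^ 4 - 1, by
    have : 1 ≤ l ^ 4 := Nat.one_le_pow _ _ (by omega)
    omega⟩
  have hν : l ^ 2 * (n + 1) < (2 * l ^ 3 + 1) * (2 * l ^ 3 + 2) / 2 := by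
    have h1 : (2 * l ^ 3 + 1) * (2 * l ^ 3 + 2) = 2 * ((2 * l ^ 3 + 1) * (l ^ 3 + 1)) := by ring
    rw [h1, Nat.mul_div_cancel_left _ (by norm_num), ← hn]
    nlinarith [Nat.zero_le (l ^ 3), Nat.zero_le (l ^ 6)]
  have hS : 2 * (2 * l ^ 3) + 2 * l ^ 2 ≤ l ^ 4 + 1 := by
    have h2 : 4 * l + 2 ≤ l ^ 2 := by nlinarith
    have h3 : l ^ 2 * (4 * l + 2) ≤ l ^ 2 * l ^ 2 := Nat.mul_le_mul_left _ h2
    nlinarith
  have hS1 : 1 ≤ l ^ 4 := Nat.one_le_pow _ _ (by omega)
  have h := zprime_gen z om hz hns hom l n (2 * l ^ 3) (l ^ 4) (by omega) hν hS hS1 X0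
  rw [← hn] at h
  obtain ⟨x, hx, hD⟩ := h
  refine ⟨x, fun i => ⟨(hx i).1, (hx i).2.trans ?_⟩, hD⟩
  have h4 : 2 * l ≤ 2 * l ^ 4 := by
    have : l ^ 1 ≤ l ^ 4 := Nat.pow_le_pow_right (by omega) (by norm_num)
    rw [pow_one] at this
    omega
  have h5 : 2 * l + 4 * l ^ 4 + 2 * l ^ 4 ≤ 8 * l ^ 4 := by omega
  have h6 : l ^ 2 * l ^ 4 * (2 * l + 4 * l ^ 4 + 2 * l ^ 4) ≤ l ^ 2 * l ^ 4 * (8 * l ^ 4) := Nat.mul_le_mul_left _ h5
  have h7 : l ^ 2 * l ^ 4 * (8 * l ^ 4) = 8 * l ^ 10 := by ring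
  omega

end Pool.Agent.MSW

end
end
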